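import Pool.Agent.V11332.LS5
import Pool.Agent.H212R2.KLS.T1

set_option autoImplicit false
set_option linter.unusedSectionVars false

/-!
# The measure is logconcave
-/

open MeasureTheory Set
open scoped ENNReal Pointwise

namespace Pool.Agent.V11332.LS

variable {l : ℝ} {N : ℕ}

lemma lam_apply {s : Set ℝ} (hs : MeasurableSet s) :
    lam s = ENNReal.ofReal (1 / 2) * volume (s ∩ Icc (-1) 1) := by
  rw [lam, dens, withDensity_const, Measure.smul_apply, Measure.restrict_apply hs, smul_eq_mul]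
  norm_num

lemma lam_map_apply {r : ℝ} (hr : 0 < r) {s : Set ℝ} (hs : MeasurableSet s) :
    (lam.map fun t => r * t) s = ENNReal.ofReal (1 / (2 * r)) * volume (s ∩ Icc (-r) r) := by
  rw [Measure.map_apply (by fun_prop) hs, lam_apply (hs.preimage (by fun_prop))]
  have h1 : (fun t => r * t) ⁻¹' s ∩ Icc (-1) 1 = (fun t => r * t) ⁻¹' (s ∩ Icc (-r) r) := by
    ext t
    simp only [mem_inter_iff, mem_preimage, mem_Icc]
    constructor
    · rintro ⟨h, h2, h3⟩
      exact ⟨h, by nlinarith, by nlinarith⟩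
    · rintro ⟨h, h2, h3⟩
      refine ⟨h, ?_, ?_⟩
      · by_contra hc; push Not at hc; nlinarith
      · by_contra hc; push Not at hc; nlinarith
  rw [h1, Real.volume_preimage_mul_left hr.ne', ← mul_assoc, ← ENNReal.ofReal_mul (by norm_num)]
  congr 2
  rw [abs_of_pos (inv_pos.2 hr)]
  field_simp

lemma pi_lam_map (N : ℕ) {r : ℝ} (hr : 0 < r) :
    (Measure.pi fun _ : Fin N => lam).map (fun u i => r * u i) =
      ENNReal.ofReal ((1 / (2 * r)) ^ N) •
        (volume.restrict (Set.univ.pi fun _ : Fin N => Icc (-r) r)) := by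
  have hpr : IsProbabilityMeasure (lam.map fun t => r * t) :=
    Measure.isProbabilityMeasure_map (by fun_prop)
  rw [Measure.pi_map_pi (f := fun (_ : Fin N) (t : ℝ) => r * t) (fun i => by fun_prop)]
  apply Measure.pi_eq
  intro s hs
  rw [Measure.smul_apply, Measure.restrict_apply (MeasurableSet.univ_pi hs), smul_eq_mul,
    ← Set.pi_inter_distrib, volume_pi_pi]
  have : ∀ i : Fin N, (lam.map fun t => r * t) (s i) =
      ENNReal.ofReal (1 / (2 * r)) * volume (s i ∩ Icc (-r) r) := fun i =>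
    lam_map_apply hr (hs i)
  simp_rw [this]
  rw [Finset.prod_mul_distrib, Finset.prod_const, Finset.card_univ, Fintype.card_fin,
    ENNReal.ofReal_pow (by positivity)]

/-- the convex set carrying the measure, in the coordinates `Fin (N + 1) → ℝ` -/
def Kset (l : ℝ) (N : ℕ) : Set (Fin (N + 1) → ℝ) :=
  {y | 0 ≤ y 0 + zb l N ∧ y 0 + zb l N ≤ l ∧
    ∀ i : Fin N, |y i.succ| ≤ 1 - aa l * (y 0 + zb l N)}

/-- the density, in the coordinates `Fin (N + 1) → ℝ` -/
noncomputable def RR (l : ℝ) (N : ℕ) (y : Fin (N + 1) → ℝ) : ℝ≥0∞ :=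
  (Kset l N).indicator (fun y => ENNReal.ofReal
    (Real.exp ((3 * l ^ 2 - 1) * (y 0 + zb l N)) / (2 ^ N * ZZ l N))) y

lemma Kset_meas : MeasurableSet (Kset l N) := by
  apply IsClosed.measurableSet
  unfold Kset
  have h1 : IsClosed {y : Fin (N + 1) → ℝ | 0 ≤ y 0 + zb l N} :=
    isClosed_le (by fun_prop) (by fun_prop)
  have h2 : IsClosed {y : Fin (N + 1) → ℝ | y 0 + zb l N ≤ l} :=
    isClosed_le (by fun_prop) (by fun_prop)
  have h3 : IsClosed {y : Fin (N + 1) → ℝ |
      ∀ i : Fin N, |y i.succ| ≤ 1 - aa l * (y 0 + zb l N)} := by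
    simp only [ofPred_forall]
    exact isClosed_iInter fun i => isClosed_le (by fun_prop) (by fun_prop)
  exact h1.inter (h2.inter h3)

lemma RR_meas : Measurable (RR l N) := by
  unfold RR
  exact Measurable.indicator (by fun_prop) Kset_meas

/-- the density on `Fin (N + 1) → ℝ` -/
theorem pp_lint (hl : 1 ≤ l) (hN : (N : ℝ) = 9 * l ^ 6)
    {G : EuclideanSpace ℝ (Fin (N + 1)) → ℝ≥0∞} (hG : Measurable G) :
    ∫⁻ y, G y ∂(pp l N) = ∫⁻ y : Fin (N + 1) → ℝ, G (WithLp.toLp 2 y) * RR l N y := by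
  have hp := cons_prob hl hN
  have hp0 := mu_prob hl hN
  have hZ := ZZ_pos hl hN
  have hl0 : 0 < l := by linarith
  have hmp := (measurePreserving_piFinSuccAbove
    (Fin.cons (mu l N) fun _ => lam : Fin (N + 1) → Measure ℝ) 0).symm
  have hmv := (volume_preserving_piFinSuccAbove (fun _ : Fin (N + 1) => ℝ) 0).symm
  have hcons : ∀ p : ℝ × (Fin N → ℝ),
      (MeasurableEquiv.piFinSuccAbove (fun _ : Fin (N + 1) => ℝ) 0).symm p =
        (Fin.cons p.1 p.2 : Fin (N + 1) → ℝ) := by
    intro p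
    simp [MeasurableEquiv.piFinSuccAbove_symm_apply, Fin.insertNthEquiv]
  have hcm : Measurable fun p : ℝ × (Fin N → ℝ) => (Fin.cons p.1 p.2 : Fin (N + 1) → ℝ) :=
    cons_cont.measurable
  have hTm : Measurable (TT N (aa l) (zb l N)) := TT_cont.measurable
  have htoLp : Measurable fun y : Fin (N + 1) → ℝ => (WithLp.toLp 2 y :
    EuclideanSpace ℝ (Fin (N + 1))) := (PiLp.continuous_toLp 2 _).measurable
  -- left side
  have e1 : ∫⁻ y, G y ∂(pp l N) = ∫⁻ z, ∫⁻ u, G (TT N (aa l) (zb l N) (Fin.cons z u))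
      ∂(Measure.pi fun _ : Fin N => lam) ∂(mu l N) := by
    rw [pp, lintegral_map hG hTm]
    unfold PP
    have hGT : Measurable fun a => G (TT N (aa l) (zb l N) a) := hG.comp hTm
    rw [← hmp.lintegral_comp hGT]
    simp_rw [hcons]
    simp only [Fin.cons_zero, Fin.succAbove_zero, Fin.cons_succ]
    rw [lintegral_prod]
    exact (hG.comp (hTm.comp hcm)).aemeasurable
  set H : ℝ → ℝ≥0∞ := fun z => ∫⁻ u, G (TT N (aa l) (zb l N) (Fin.cons z u))
      ∂(Measure.pi fun _ : Fin N => lam) with hH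
  have hHm : Measurable H := (hG.comp (hTm.comp hcm)).lintegral_prod_right'
  have e2 : ∫⁻ z, H z ∂(mu l N) =
      ∫⁻ z, (Icc 0 l).indicator (fun z => ENNReal.ofReal (mm l N z / ZZ l N) * H z) z := by
    rw [mu, dens, lintegral_withDensity_eq_lintegral_mul _
      (((mm_cont l N).measurable.div_const _).ennreal_ofReal) hHm,
      lintegral_indicator measurableSet_Icc, zero_add]
    rfl
  -- right side
  have e3 : ∫⁻ y : Fin (N + 1) → ℝ, G (WithLp.toLp 2 y) * RR l N y =
      ∫⁻ s : ℝ, ∫⁻ w : Fin N → ℝ, G (WithLp.toLp 2 (Fin.cons s w : Fin (N + 1) → ℝ)) *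
        RR l N (Fin.cons s w) := by
    have hm : Measurable fun y : Fin (N + 1) → ℝ => G (WithLp.toLp 2 y) * RR l N y :=
      (hG.comp htoLp).mul RR_meas
    rw [← hmv.lintegral_comp hm, Measure.volume_eq_prod, lintegral_prod]
    · simp_rw [hcons]
    · simp_rw [hcons]
      exact (hm.comp hcm).aemeasurable
  have e3' : ∫⁻ s : ℝ, ∫⁻ w : Fin N → ℝ, G (WithLp.toLp 2 (Fin.cons s w : Fin (N + 1) → ℝ)) *
        RR l N (Fin.cons s w) =
      ∫⁻ z : ℝ, ∫⁻ w : Fin N → ℝ, G (WithLp.toLp 2 (Fin.cons (z - zb l N) w :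
        Fin (N + 1) → ℝ)) * RR l N (Fin.cons (z - zb l N) w) :=
    (lintegral_sub_right_eq_self (μ := volume) (fun s : ℝ => ∫⁻ w : Fin N → ℝ,
      G (WithLp.toLp 2 (Fin.cons s w : Fin (N + 1) → ℝ)) * RR l N (Fin.cons s w))
      (zb l N)).symm
  rw [e1, e3, e3']
  change ∫⁻ z, H z ∂(mu l N) = _
  rw [e2]
  classical
  refine lintegral_congr fun z => ?_
  have hR : ∀ w : Fin N → ℝ, RR l N (Fin.cons (z - zb l N) w) =
      if z ∈ Icc 0 l ∧ w ∈ (Set.univ.pi fun _ : Fin N => Icc (-(1 - aa l * z)) (1 - aa l * z))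
      then ENNReal.ofReal (Real.exp ((3 * l ^ 2 - 1) * z) / (2 ^ N * ZZ l N)) else 0 := by
    intro w
    unfold RR
    rw [indicator_apply]
    have hiff : (Fin.cons (z - zb l N) w : Fin (N + 1) → ℝ) ∈ Kset l N ↔
        z ∈ Icc 0 l ∧ w ∈ (Set.univ.pi fun _ : Fin N =>
          Icc (-(1 - aa l * z)) (1 - aa l * z)) := by
      simp only [Kset, mem_ofPred_eq, Fin.cons_zero, Fin.cons_succ, sub_add_cancel, mem_Icc,
        mem_univ_pi, abs_le, and_assoc]
    simp only [hiff, Fin.cons_zero, sub_add_cancel]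
  by_cases hz : z ∈ Icc 0 l
  · rw [indicator_of_mem hz]
    simp only [hR, hz, true_and]
    set r := 1 - aa l * z with hr
    have hr0 : 0 < r := by
      have := (az_le hl hz.1 hz.2).1
      rw [hr]; unfold aa; linarith
    set Bx : Set (Fin N → ℝ) := Set.univ.pi fun _ : Fin N => Icc (-r) r with hBx
    have hBxm : MeasurableSet Bx := MeasurableSet.univ_pi fun _ => measurableSet_Icc
    have hGm : Measurable fun w : Fin N → ℝ =>
        G (WithLp.toLp 2 (Fin.cons (z - zb l N) w : Fin (N + 1) → ℝ)) :=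
      hG.comp (htoLp.comp (hcm.comp (by fun_prop :
        Measurable fun w : Fin N → ℝ => ((z - zb l N : ℝ), w))))
    have e4 : H z = ENNReal.ofReal ((1 / (2 * r)) ^ N) * ∫⁻ w in Bx,
        G (WithLp.toLp 2 (Fin.cons (z - zb l N) w : Fin (N + 1) → ℝ)) := by
      rw [hH]
      simp only
      have h1 : ∀ u : Fin N → ℝ, G (TT N (aa l) (zb l N) (Fin.cons z u)) =
          (fun w => G (WithLp.toLp 2 (Fin.cons (z - zb l N) w : Fin (N + 1) → ℝ)))
            ((fun (u : Fin N → ℝ) i => r * u i) u) := by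
        intro u
        simp only [TT, Fin.cons_zero, Fin.cons_succ, hr]
      simp_rw [h1]
      rw [← lintegral_map hGm (by fun_prop), pi_lam_map N hr0, lintegral_smul_measure, smul_eq_mul]
    rw [e4]
    have e5 : ∀ w : Fin N → ℝ, G (WithLp.toLp 2 (Fin.cons (z - zb l N) w : Fin (N + 1) → ℝ)) *
        (if w ∈ Bx then ENNReal.ofReal (Real.exp ((3 * l ^ 2 - 1) * z) / (2 ^ N * ZZ l N)) else 0) =
        Bx.indicator (fun w => G (WithLp.toLp 2 (Fin.cons (z - zb l N) w : Fin (N + 1) → ℝ)) *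
          ENNReal.ofReal (Real.exp ((3 * l ^ 2 - 1) * z) / (2 ^ N * ZZ l N))) w := by
      intro w
      rw [indicator_apply]
      split_ifs <;> simp
    simp_rw [e5]
    rw [lintegral_indicator hBxm, lintegral_mul_const _ hGm, ← mul_assoc,
      ← ENNReal.ofReal_mul (rho_nonneg hl hN hz), mul_comm]
    congr 2
    unfold mm
    rw [← hr]
    field_simp
    rw [← mul_pow, ← mul_pow]
    have : r * (1 / (2 * r)) * 2 = 1 := by field_simp
    rw [this, one_pow]
  · rw [indicator_of_notMem hz]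
    simp only [hR, hz, false_and, if_false, mul_zero, lintegral_zero]

lemma Kset_conv : Convex ℝ (Kset l N) := by
  intro x hx y hy s t hs ht hst
  obtain ⟨x1, x2, x3⟩ := hx
  obtain ⟨y1, y2, y3⟩ := hy
  refine ⟨?_, ?_, ?_⟩
  · simp only [Pi.add_apply, Pi.smul_apply, smul_eq_mul]
    have e : s * x 0 + t * y 0 + zb l N = s * (x 0 + zb l N) + t * (y 0 + zb l N) := by
      calc s * x 0 + t * y 0 + zb l N = s * x 0 + t * y 0 + (s + t) * zb l N := by rw [hst, one_mul]
        _ = _ := by ring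
    rw [e]; positivity
  · simp only [Pi.add_apply, Pi.smul_apply, smul_eq_mul]
    have e : s * x 0 + t * y 0 + zb l N = s * (x 0 + zb l N) + t * (y 0 + zb l N) := by
      calc s * x 0 + t * y 0 + zb l N = s * x 0 + t * y 0 + (s + t) * zb l N := by rw [hst, one_mul]
        _ = _ := by ring
    rw [e]
    calc s * (x 0 + zb l N) + t * (y 0 + zb l N) ≤ s * l + t * l :=
          add_le_add (mul_le_mul_of_nonneg_left x2 hs) (mul_le_mul_of_nonneg_left y2 ht)
      _ = l := by rw [← add_mul, hst, one_mul]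
  · intro i
    simp only [Pi.add_apply, Pi.smul_apply, smul_eq_mul]
    have e : 1 - aa l * (s * x 0 + t * y 0 + zb l N) = s * (1 - aa l * (x 0 + zb l N)) +
        t * (1 - aa l * (y 0 + zb l N)) := by
      have : t = 1 - s := by linarith
      subst this; ring
    rw [e]
    calc |s * x i.succ + t * y i.succ| ≤ |s * x i.succ| + |t * y i.succ| := abs_add_le _ _
      _ = s * |x i.succ| + t * |y i.succ| := by
          rw [abs_mul, abs_mul, abs_of_nonneg hs, abs_of_nonneg ht]
      _ ≤ _ := add_le_add (mul_le_mul_of_nonneg_left (x3 i) hs)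
          (mul_le_mul_of_nonneg_left (y3 i) ht)

lemma RR_logconc (hl : 1 ≤ l) (hN : (N : ℝ) = 9 * l ^ 6) {t : ℝ} (ht0 : 0 < t) (ht1 : t < 1)
    (x y : Fin (N + 1) → ℝ) :
    RR l N x ^ (1 - t) * RR l N y ^ t ≤ RR l N ((1 - t) • x + t • y) := by
  have hZ := ZZ_pos hl hN
  by_cases hx : x ∈ Kset l N
  · by_cases hy : y ∈ Kset l N
    · have hxy : (1 - t) • x + t • y ∈ Kset l N :=
        Kset_conv hx hy (by linarith) ht0.le (by ring)
      unfold RR
      rw [indicator_of_mem hx, indicator_of_mem hy, indicator_of_mem hxy]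
      have hc : (0 : ℝ) < 2 ^ N * ZZ l N := by positivity
      rw [ENNReal.ofReal_rpow_of_pos (by positivity), ENNReal.ofReal_rpow_of_pos (by positivity),
        ← ENNReal.ofReal_mul (by positivity)]
      apply le_of_eq
      congr 1
      rw [Real.div_rpow (Real.exp_pos _).le hc.le, Real.div_rpow (Real.exp_pos _).le hc.le,
        ← Real.exp_mul, ← Real.exp_mul, div_mul_div_comm, ← Real.exp_add, ← Real.rpow_add hc]
      have e1 : (1 - t + t : ℝ) = 1 := by ring
      rw [e1, Real.rpow_one]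
      congr 2
      simp only [Pi.add_apply, Pi.smul_apply, smul_eq_mul]
      ring
    · have : RR l N y = 0 := indicator_of_notMem hy _
      rw [this, ENNReal.zero_rpow_of_pos ht0, mul_zero]
      exact zero_le
  · have : RR l N x = 0 := indicator_of_notMem hx _
    rw [this, ENNReal.zero_rpow_of_pos (by linarith), zero_mul]
    exact zero_le

theorem pp_logconcave (hl : 1 ≤ l) (hN : (N : ℝ) = 9 * l ^ 6)
    (A B : Set (EuclideanSpace ℝ (Fin (N + 1)))) (hA : IsCompact A) (hB : IsCompact B)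
    (hA' : A.Nonempty) (hB' : B.Nonempty) (s : ℝ) (hs : s ∈ Icc (0 : ℝ) 1) :
    pp l N A ^ s * pp l N B ^ (1 - s) ≤ pp l N (s • A + (1 - s) • B) := by
  rcases hs.1.eq_or_lt with h0 | h0
  · subst h0
    rw [ENNReal.rpow_zero, one_mul, sub_zero, ENNReal.rpow_one]
    rw [zero_smul_set hA', one_smul, zero_add]
  rcases hs.2.eq_or_lt with h1 | h1
  · subst h1
    rw [sub_self, ENNReal.rpow_zero, mul_one, ENNReal.rpow_one]
    rw [zero_smul_set hB', one_smul, add_zero]
  have hApp : ∀ S : Set (EuclideanSpace ℝ (Fin (N + 1))), MeasurableSet S →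
      pp l N S = ∫⁻ y : Fin (N + 1) → ℝ,
        S.indicator 1 (WithLp.toLp 2 y : EuclideanSpace ℝ (Fin (N + 1))) * RR l N y := by
    intro S hS
    rw [← pp_lint hl hN (measurable_one.indicator hS), lintegral_indicator_one hS]
  have hCc : IsCompact (s • A + (1 - s) • B) := (hA.smul s).add (hB.smul (1 - s))
  rw [hApp A hA.isClosed.measurableSet, hApp B hB.isClosed.measurableSet,
    hApp _ hCc.isClosed.measurableSet]
  have htoLp : Measurable fun y : Fin (N + 1) → ℝ => (WithLp.toLp 2 y :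
    EuclideanSpace ℝ (Fin (N + 1))) := (PiLp.continuous_toLp 2 _).measurable
  have hms : ∀ S : Set (EuclideanSpace ℝ (Fin (N + 1))), MeasurableSet S →
      Measurable fun y : Fin (N + 1) → ℝ =>
        S.indicator (1 : EuclideanSpace ℝ (Fin (N + 1)) → ℝ≥0∞)
          (WithLp.toLp 2 y : EuclideanSpace ℝ (Fin (N + 1))) * RR l N y := by
    intro S hS
    exact ((measurable_one.indicator hS).comp htoLp).mul RR_meas
  have := Pool.Agent.H212R2.KLS.PLt.pln (1 - s) (by linarith) (by linarith) (N + 1)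
    _ _ _ (hms A hA.isClosed.measurableSet) (hms B hB.isClosed.measurableSet)
    (hms _ hCc.isClosed.measurableSet) (fun x y => by
      have hR := RR_logconc hl hN (t := 1 - s) (by linarith) (by linarith) x y
      by_cases hx : (WithLp.toLp 2 x : EuclideanSpace ℝ (Fin (N + 1))) ∈ A
      · by_cases hy : (WithLp.toLp 2 y : EuclideanSpace ℝ (Fin (N + 1))) ∈ B
        · have hxy : (WithLp.toLp 2 ((1 - (1 - s)) • x + (1 - s) • y) :
              EuclideanSpace ℝ (Fin (N + 1))) ∈ s • A + (1 - s) • B := by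
            refine ⟨s • WithLp.toLp 2 x, smul_mem_smul_set hx, (1 - s) • WithLp.toLp 2 y,
              smul_mem_smul_set hy, ?_⟩
            simp [sub_sub_cancel]
          rw [indicator_of_mem hx, indicator_of_mem hy, indicator_of_mem hxy]
          simpa using hR
        · rw [indicator_of_notMem hy]
          rw [zero_mul, ENNReal.zero_rpow_of_pos (by linarith), mul_zero]
          exact zero_le
      · rw [indicator_of_notMem hx]
        rw [zero_mul, ENNReal.zero_rpow_of_pos (by linarith), zero_mul]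
        exact zero_le)
  rw [sub_sub_cancel] at this
  exact this

end Pool.Agent.V11332.LS
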