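import Mathlib

/-!
The binary BKR product, its bracketings, and the tagging construction.
-/

namespace Pool.Agent.V11332.BKR

/-- Full binary trees, that is, bracketings. -/
inductive Paren : Type
  | leaf : Paren
  | node : Paren → Paren → Paren
  deriving DecidableEq

/-- The number of leaves (factors). -/
def Paren.leaves : Paren → ℕ
  | .leaf => 1
  | .node l r => l.leaves + r.leaves

lemma Paren.leaves_pos : ∀ T : Paren, 0 < T.leaves
  | .leaf => Nat.one_pos
  | .node l _ => Nat.add_pos_left l.leaves_pos _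

variable {ι κ S : Type*}

/-- `[x]_K`: the points agreeing with `x` on the coordinates in `K`. -/
def cyl (x : ι → S) (K : Set ι) : Set (ι → S) := {y | ∀ i ∈ K, y i = x i}

/-- The binary BKR product. -/
def box (A B : Set (ι → S)) : Set (ι → S) :=
  {x | ∃ K L : Set ι, Disjoint K L ∧ cyl x K ⊆ A ∧ cyl x L ⊆ B}

/-- The value of the bracketing `T` of the word `A a, A (a+1), …`, factors kept in this order. -/
def prod (A : ℕ → Set (ι → S)) : Paren → ℕ → Set (ι → S)
  | .leaf, a => A a
  | .node l r, a => box (prod A l a) (prod A r (a + l.leaves))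

lemma self_mem_cyl (x : ι → S) (K : Set ι) : x ∈ cyl x K := fun _ _ => rfl

lemma cyl_anti {x : ι → S} {K L : Set ι} (h : K ⊆ L) : cyl x L ⊆ cyl x K :=
  fun _ hy i hi => hy i (h hi)

lemma cyl_univ (x : ι → S) : cyl x Set.univ = {x} := by
  ext y
  constructor
  · intro h
    exact funext fun i => h i (Set.mem_univ i)
  · intro h
    rw [Set.mem_singleton_iff.1 h]
    exact self_mem_cyl _ _

lemma box_comm (A B : Set (ι → S)) : box A B = box B A := by
  ext x
  constructor
  · rintro ⟨K, L, h, h1, h2⟩
    exact ⟨L, K, h.symm, h2, h1⟩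
  · rintro ⟨K, L, h, h1, h2⟩
    exact ⟨L, K, h.symm, h2, h1⟩

lemma box_mono {A A' B B' : Set (ι → S)} (h : A ⊆ A') (h' : B ⊆ B') : box A B ⊆ box A' B' := by
  rintro x ⟨K, L, h0, h1, h2⟩
  exact ⟨K, L, h0, h1.trans h, h2.trans h'⟩

lemma box_subset_left (A B : Set (ι → S)) : box A B ⊆ A := by
  rintro x ⟨K, L, _, h1, _⟩
  exact h1 (self_mem_cyl _ _)

lemma box_subset_right (A B : Set (ι → S)) : box A B ⊆ B := by
  rintro x ⟨K, L, _, _, h1⟩
  exact h1 (self_mem_cyl _ _)

lemma box_univ (A : Set (ι → S)) : box A Set.univ = A := by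
  apply subset_antisymm (box_subset_left _ _)
  intro x hx
  refine ⟨Set.univ, ∅, by simp, ?_, Set.subset_univ _⟩
  rw [cyl_univ]
  simpa using hx

lemma univ_box (A : Set (ι → S)) : box Set.univ A = A := by
  rw [box_comm, box_univ]

lemma prod_congr {A B : ℕ → Set (ι → S)} :
    ∀ (T : Paren) (a : ℕ), (∀ i, a ≤ i → i < a + T.leaves → A i = B i) →
      prod A T a = prod B T a
  | .leaf, a, h => h a le_rfl (Nat.lt_succ_self a)
  | .node l r, a, h => by
    have hl := l.leaves_pos
    have hr := r.leaves_pos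
    simp only [prod]
    rw [prod_congr l a (fun i h1 h2 => h i h1 (by simp only [Paren.leaves]; omega)),
      prod_congr r (a + l.leaves) (fun i h1 h2 => h i (by omega) (by
        simp only [Paren.leaves]; omega))]

lemma prod_univ {A : ℕ → Set (ι → S)} :
    ∀ (T : Paren) (a : ℕ), (∀ i, a ≤ i → i < a + T.leaves → A i = Set.univ) →
      prod A T a = Set.univ
  | .leaf, a, h => h a le_rfl (Nat.lt_succ_self a)
  | .node l r, a, h => by
    simp only [prod]
    rw [prod_univ l a (fun i h1 h2 => h i h1 (by simp only [Paren.leaves]; omega)),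
      prod_univ r (a + l.leaves) (fun i h1 h2 => h i (by omega) (by
        simp only [Paren.leaves]; omega)), box_univ]

/-- Only one factor differs from the whole space. -/
lemma prod_single {A : ℕ → Set (ι → S)} (i₀ : ℕ) :
    ∀ (T : Paren) (a : ℕ), a ≤ i₀ → i₀ < a + T.leaves →
      (∀ i, a ≤ i → i < a + T.leaves → i ≠ i₀ → A i = Set.univ) → prod A T a = A i₀
  | .leaf, a, h1, h2, _ => by
    have : i₀ = a := by simp only [Paren.leaves] at h2; omega
    rw [this]; rfl
  | .node l r, a, h1, h2, h => by
    simp only [prod, Paren.leaves] at h2 h ⊢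
    rcases lt_or_ge i₀ (a + l.leaves) with h3 | h3
    · rw [prod_single i₀ l a h1 h3 (fun i h4 h5 h6 => h i h4 (by omega) h6),
        prod_univ r (a + l.leaves) (fun i h4 h5 => h i (by omega) (by omega) (by omega)),
        box_univ]
    · rw [prod_single i₀ r (a + l.leaves) h3 (by omega)
          (fun i h4 h5 h6 => h i (by omega) (by omega) h6),
        prod_univ l a (fun i h4 h5 => h i (by omega) (by omega) (by omega)), univ_box]

/-- Only two factors differ from the whole space. -/
lemma prod_pair {A : ℕ → Set (ι → S)} (i₀ j₀ : ℕ) (hij : i₀ < j₀) :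
    ∀ (T : Paren) (a : ℕ), a ≤ i₀ → j₀ < a + T.leaves →
      (∀ i, a ≤ i → i < a + T.leaves → i ≠ i₀ → i ≠ j₀ → A i = Set.univ) →
      prod A T a = box (A i₀) (A j₀)
  | .leaf, a, h1, h2, _ => by
    simp only [Paren.leaves] at h2; omega
  | .node l r, a, h1, h2, h => by
    simp only [prod, Paren.leaves] at h2 h ⊢
    rcases lt_or_ge j₀ (a + l.leaves) with h3 | h3
    · rw [prod_pair i₀ j₀ hij l a h1 h3 (fun i h4 h5 h6 h7 => h i h4 (by omega) h6 h7),
        prod_univ r (a + l.leaves) (fun i h4 h5 => h i (by omega) (by omega) (by omega)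
          (by omega)), box_univ]
    · rcases lt_or_ge i₀ (a + l.leaves) with h4 | h4
      · rw [prod_single i₀ l a h1 h4 (fun i h5 h6 h7 => h i h5 (by omega) h7 (by omega)),
          prod_single j₀ r (a + l.leaves) h3 (by omega)
            (fun i h5 h6 h7 => h i (by omega) (by omega) (by omega) h7)]
      · rw [prod_pair i₀ j₀ hij r (a + l.leaves) h4 (by omega)
            (fun i h5 h6 h7 h8 => h i (by omega) (by omega) h7 h8),
          prod_univ l a (fun i h5 h6 => h i (by omega) (by omega) (by omega) (by omega)),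
          univ_box]

/-- The family with three prescribed factors. -/
def tri (A B C : Set (ι → S)) (i j k : ℕ) (m : ℕ) : Set (ι → S) :=
  if m = i then A else if m = j then B else if m = k then C else Set.univ

/-- Distinct bracketings are separated by a triple of factors. -/
lemma exists_triple {A B C : Set (ι → S)} (hne : box (box A B) C ≠ box A (box B C)) :
    ∀ (T T' : Paren) (a : ℕ), T.leaves = T'.leaves → T ≠ T' →
      ∃ i j k, a ≤ i ∧ i < j ∧ j < k ∧ k < a + T.leaves ∧
        prod (tri A B C i j k) T a ≠ prod (tri A B C i j k) T' a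
  | .leaf, .leaf, _, _, h => absurd rfl h
  | .leaf, .node l r, a, h, _ => by
    have := l.leaves_pos
    have := r.leaves_pos
    simp only [Paren.leaves] at h
    omega
  | .node l r, .leaf, a, h, _ => by
    have := l.leaves_pos
    have := r.leaves_pos
    simp only [Paren.leaves] at h
    omega
  | .node l r, .node l' r', a, h, hT => by
    have hl := l.leaves_pos
    have hr := r.leaves_pos
    have hl' := l'.leaves_pos
    have hr' := r'.leaves_pos
    simp only [Paren.leaves] at h ⊢
    have main : ∀ (l r l' r' : Paren), 0 < l.leaves → 0 < r.leaves → 0 < r'.leaves →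
        l.leaves < l'.leaves → l.leaves + r.leaves = l'.leaves + r'.leaves →
        prod (tri A B C a (a + l.leaves) (a + l'.leaves)) (.node l r) a = box A (box B C) ∧
        prod (tri A B C a (a + l.leaves) (a + l'.leaves)) (.node l' r') a =
          box (box A B) C := by
      intro l r l' r' hl hr hr' hlt hs
      have hA : tri A B C a (a + l.leaves) (a + l'.leaves) a = A := by simp [tri]
      have hB : tri A B C a (a + l.leaves) (a + l'.leaves) (a + l.leaves) = B := by
        unfold tri; rw [if_neg (by omega), if_pos rfl]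
      have hC : tri A B C a (a + l.leaves) (a + l'.leaves) (a + l'.leaves) = C := by
        unfold tri; rw [if_neg (by omega), if_neg (by omega), if_pos rfl]
      have hU : ∀ i, i ≠ a → i ≠ a + l.leaves → i ≠ a + l'.leaves →
          tri A B C a (a + l.leaves) (a + l'.leaves) i = Set.univ := by
        intro i h1 h2 h3
        unfold tri; rw [if_neg h1, if_neg h2, if_neg h3]
      constructor
      · simp only [prod]
        rw [prod_single a l a le_rfl (by omega) (fun i h1 h2 h3 => hU i h3 (by omega) (by omega)),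
          prod_pair (a + l.leaves) (a + l'.leaves) (by omega) r (a + l.leaves) le_rfl (by omega)
            (fun i h1 h2 h3 h4 => hU i (by omega) h3 h4), hA, hB, hC]
      · simp only [prod]
        rw [prod_pair a (a + l.leaves) (by omega) l' a le_rfl (by omega)
            (fun i h1 h2 h3 h4 => hU i h3 h4 (by omega)),
          prod_single (a + l'.leaves) r' (a + l'.leaves) le_rfl (by omega)
            (fun i h1 h2 h3 => hU i (by omega) (by omega) h3), hA, hB, hC]
    rcases lt_trichotomy l.leaves l'.leaves with hlt | heq | hgt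
    · obtain ⟨h1, h2⟩ := main l r l' r' hl hr hr' hlt h
      refine ⟨a, a + l.leaves, a + l'.leaves, le_rfl, by omega, by omega, by omega, ?_⟩
      rw [h1, h2]
      exact hne.symm
    · have heq2 : r.leaves = r'.leaves := by omega
      by_cases hll : l = l'
      · have hrr : r ≠ r' := fun h => hT (by rw [hll, h])
        obtain ⟨i, j, k, h1, h2, h3, h4, h5⟩ :=
          exists_triple hne r r' (a + l.leaves) heq2 hrr
        refine ⟨i, j, k, by omega, h2, h3, by omega, ?_⟩
        simp only [prod]
        have hU : ∀ i', a ≤ i' → i' < a + l.leaves → tri A B C i j k i' = Set.univ := by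
          intro i' h6 h7
          unfold tri; rw [if_neg (by omega), if_neg (by omega), if_neg (by omega)]
        rw [prod_univ l a hU, ← hll, prod_univ l a hU, univ_box, univ_box]
        exact h5
      · obtain ⟨i, j, k, h1, h2, h3, h4, h5⟩ := exists_triple hne l l' a heq hll
        refine ⟨i, j, k, h1, h2, h3, by omega, ?_⟩
        simp only [prod]
        have hU : ∀ i', a + l.leaves ≤ i' → tri A B C i j k i' = Set.univ := by
          intro i' h6
          unfold tri; rw [if_neg (by omega), if_neg (by omega), if_neg (by omega)]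
        rw [prod_univ r (a + l.leaves) (fun i' h6 _ => hU i' h6),
          prod_univ r' (a + l'.leaves) (fun i' h6 _ => hU i' (by omega)), box_univ, box_univ]
        exact h5
    · obtain ⟨h1, h2⟩ := main l' r' l r hl' hr' hr hgt h.symm
      refine ⟨a, a + l'.leaves, a + l.leaves, le_rfl, by omega, by omega, by omega, ?_⟩
      rw [h1, h2]
      exact hne

/-! ### Reindexing the coordinates -/

/-- Transport of sets of points along a bijection of the coordinates. -/
def pull (e : ι ≃ κ) (A : Set (ι → S)) : Set (κ → S) := {x | (fun i => x (e i)) ∈ A}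

lemma pull_inj (e : ι ≃ κ) {A B : Set (ι → S)} (h : pull e A = pull e B) : A = B := by
  ext x
  have h1 : (fun k => x (e.symm k)) ∈ pull e A ↔ (fun k => x (e.symm k)) ∈ pull e B := by rw [h]
  simpa [pull] using h1

lemma cyl_subset_pull (e : ι ≃ κ) (A : Set (ι → S)) (x : κ → S) (K : Set κ) :
    cyl x K ⊆ pull e A ↔ cyl (fun i => x (e i)) (e ⁻¹' K) ⊆ A := by
  constructor
  · intro h y hy
    have h1 : (fun k => y (e.symm k)) ∈ cyl x K := by
      intro k hk
      have := hy (e.symm k) (by simpa using hk)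
      simpa using this
    have := h h1
    simpa [pull] using this
  · intro h y hy
    exact h fun i hi => hy (e i) hi

lemma box_pull (e : ι ≃ κ) (A B : Set (ι → S)) :
    box (pull e A) (pull e B) = pull e (box A B) := by
  ext x
  constructor
  · rintro ⟨K, L, h0, h1, h2⟩
    refine ⟨e ⁻¹' K, e ⁻¹' L, Disjoint.preimage _ h0, (cyl_subset_pull e A x K).1 h1,
      (cyl_subset_pull e B x L).1 h2⟩
  · rintro ⟨K, L, h0, h1, h2⟩
    refine ⟨e.symm ⁻¹' K, e.symm ⁻¹' L, Disjoint.preimage _ h0, ?_, ?_⟩
    · rw [cyl_subset_pull]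
      convert h1 using 2
      ext i; simp
    · rw [cyl_subset_pull]
      convert h2 using 2
      ext i; simp

lemma prod_pull (e : ι ≃ κ) (A : ℕ → Set (ι → S)) :
    ∀ (T : Paren) (a : ℕ), prod (fun i => pull e (A i)) T a = pull e (prod A T a)
  | .leaf, _ => rfl
  | .node l r, a => by
    simp only [prod]
    rw [prod_pull e A l a, prod_pull e A r (a + l.leaves), box_pull]

/-! ### Tagging -/

section tag

variable {Γ Κ V : Type*} {r : ℕ}

/-- The tagged family: `A i` requires the tag coordinate `i` to be active, and its value selects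
the set in which the remaining coordinates must lie. -/
def tagged (r : ℕ) (G : Κ → ℕ → Set (Γ → V)) (i : ℕ) : Set (Fin r ⊕ Γ → Option Κ × V) :=
  {x | ∃ (h : i < r) (k : Κ), (x (Sum.inl ⟨i, h⟩)).1 = some k ∧
    (fun g => (x (Sum.inr g)).2) ∈ G k i}

lemma tagged_active (G : Κ → ℕ → Set (Γ → V)) :
    ∀ (T : Paren) (a : ℕ) (x : Fin r ⊕ Γ → Option Κ × V), x ∈ prod (tagged r G) T a →
      ∀ i : Fin r, a ≤ i → (i : ℕ) < a + T.leaves → (x (Sum.inl i)).1 ≠ none
  | .leaf, a, x, hx, i, h1, h2 => by
    simp only [Paren.leaves] at h2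
    obtain ⟨h, k, h3, _⟩ := hx
    have : i = ⟨a, h⟩ := Fin.ext (by simp only []; omega)
    rw [this, h3]
    simp
  | .node l r', a, x, hx, i, h1, h2 => by
    simp only [Paren.leaves] at h2
    simp only [prod] at hx
    rcases lt_or_ge (i : ℕ) (a + l.leaves) with h3 | h3
    · exact tagged_active G l a x (box_subset_left _ _ hx) i h1 h3
    · exact tagged_active G r' (a + l.leaves) x (box_subset_right _ _ hx) i h3 (by omega)

/-- From membership to cylinders. -/
lemma tagged_cyl (G : Κ → ℕ → Set (Γ → V)) (T : Paren) (a : ℕ) (k : Κ)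
    (hmem : ∀ x : Fin r ⊕ Γ → Option Κ × V,
      (∀ i : Fin r, a ≤ i → (i : ℕ) < a + T.leaves → (x (Sum.inl i)).1 = some k) →
      (x ∈ prod (tagged r G) T a ↔ (fun g => (x (Sum.inr g)).2) ∈ prod (G k) T a))
    (x : Fin r ⊕ Γ → Option Κ × V)
    (hx : ∀ i : Fin r, a ≤ i → (i : ℕ) < a + T.leaves → (x (Sum.inl i)).1 = some k)
    (K : Set (Fin r ⊕ Γ)) :
    cyl x K ⊆ prod (tagged r G) T a ↔
      (∀ i : Fin r, a ≤ i → (i : ℕ) < a + T.leaves → Sum.inl i ∈ K) ∧
        cyl (fun g => (x (Sum.inr g)).2) (Sum.inr ⁻¹' K) ⊆ prod (G k) T a := by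
  classical
  constructor
  · intro h
    refine ⟨?_, ?_⟩
    · intro i h1 h2
      by_contra hK
      have hy : Function.update x (Sum.inl i) (none, (x (Sum.inl i)).2) ∈ cyl x K := by
        intro c hc
        rw [Function.update_of_ne]
        rintro rfl
        exact hK hc
      have := tagged_active G T a _ (h hy) i h1 h2
      rw [Function.update_self] at this
      exact this rfl
    · intro z hz
      set y : Fin r ⊕ Γ → Option Κ × V :=
        Sum.elim (fun i => x (Sum.inl i)) (fun g => ((x (Sum.inr g)).1, z g)) with hy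
      have hyc : y ∈ cyl x K := by
        rintro (i | g) hc
        · rfl
        · have := hz g hc
          rw [hy]
          simp only [Sum.elim_inr]
          rw [this]
      have h1 := (hmem y (fun i h1 h2 => by rw [hy]; exact hx i h1 h2)).1 (h hyc)
      exact h1
  · rintro ⟨h1, h2⟩ y hy
    rw [hmem y (fun i h3 h4 => by rw [hy _ (h1 i h3 h4)]; exact hx i h3 h4)]
    refine h2 fun g hg => ?_
    rw [hy _ hg]

lemma tagged_mem (G : Κ → ℕ → Set (Γ → V)) (k : Κ) :
    ∀ (T : Paren) (a : ℕ), a + T.leaves ≤ r → ∀ x : Fin r ⊕ Γ → Option Κ × V,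
      (∀ i : Fin r, a ≤ i → (i : ℕ) < a + T.leaves → (x (Sum.inl i)).1 = some k) →
      (x ∈ prod (tagged r G) T a ↔ (fun g => (x (Sum.inr g)).2) ∈ prod (G k) T a)
  | .leaf, a, ha, x, hx => by
    simp only [Paren.leaves] at ha hx
    have h1 := hx ⟨a, by omega⟩ le_rfl (Nat.lt_succ_self a)
    constructor
    · rintro ⟨h, k', h2, h3⟩
      rw [h1] at h2
      rw [Option.some_injective _ h2]
      exact h3
    · intro h3
      exact ⟨by omega, k, h1, h3⟩
  | .node l r', a, ha, x, hx => by
    simp only [Paren.leaves] at ha hx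
    have hl := l.leaves_pos
    have hr := r'.leaves_pos
    have il := tagged_cyl (r := r) G l a k (tagged_mem G k l a (by omega)) x
      (fun i h1 h2 => hx i h1 (by omega))
    have ir := tagged_cyl (r := r) G r' (a + l.leaves) k
      (tagged_mem G k r' (a + l.leaves) (by omega)) x
      (fun i h1 h2 => hx i (by omega) (by omega))
    simp only [prod]
    constructor
    · rintro ⟨K, L, h0, h1, h2⟩
      exact ⟨_, _, Disjoint.preimage _ h0, ((il K).1 h1).2, ((ir L).1 h2).2⟩
    · rintro ⟨K, L, h0, h1, h2⟩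
      refine ⟨{c | match c with
          | Sum.inl i => a ≤ (i : ℕ) ∧ (i : ℕ) < a + l.leaves
          | Sum.inr g => g ∈ K},
        {c | match c with
          | Sum.inl i => a + l.leaves ≤ (i : ℕ) ∧ (i : ℕ) < a + l.leaves + r'.leaves
          | Sum.inr g => g ∈ L}, ?_, ?_, ?_⟩
      · rw [Set.disjoint_left]
        rintro (i | g) h3 h4
        · simp only [Set.mem_ofPred_eq] at h3 h4
          omega
        · exact Set.disjoint_left.1 h0 h3 h4
      · rw [il]
        exact ⟨fun i h3 h4 => ⟨h3, h4⟩, h1⟩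
      · rw [ir]
        exact ⟨fun i h3 h4 => ⟨h3, h4⟩, h2⟩

end tag

/-! ### The gadget on two binary coordinates -/

/-- `x₁ = 0` or `x₂ = 0`. -/
def gA : Set (Fin 2 → Bool) := {x | x 0 = false ∨ x 1 = false}

/-- `x₁ = 0` or `x₂ = 1`. -/
def gB : Set (Fin 2 → Bool) := {x | x 0 = false ∨ x 1 = true}

/-- `x₂ = 0`. -/
def gC : Set (Fin 2 → Bool) := {x | x 1 = false}

/-- The base point `(0, 0)`. -/
def g0 : Fin 2 → Bool := fun _ => false

lemma mem_gA_gB_of {x : Fin 2 → Bool} (h : x 0 = false) : x ∈ box gA gB := by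
  rcases hx : x 1 with _ | _
  · refine ⟨{1}, {0}, by simp, ?_, ?_⟩
    · intro y hy
      exact Or.inr ((hy 1 rfl).trans hx)
    · intro y hy
      exact Or.inl ((hy 0 rfl).trans h)
  · refine ⟨{0}, {1}, by simp, ?_, ?_⟩
    · intro y hy
      exact Or.inl ((hy 0 rfl).trans h)
    · intro y hy
      exact Or.inr ((hy 1 rfl).trans hx)

lemma g0_mem : g0 ∈ box (box gA gB) gC := by
  refine ⟨{0}, {1}, by simp, ?_, ?_⟩
  · intro y hy
    exact mem_gA_gB_of (hy 0 rfl)
  · intro y hy
    exact hy 1 rfl

lemma g0_mem' : g0 ∈ box (box gA gB) gA := by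
  refine ⟨{0}, {1}, by simp, ?_, ?_⟩
  · intro y hy
    exact mem_gA_gB_of (hy 0 rfl)
  · intro y hy
    exact Or.inr (hy 1 rfl)

/-- A cylinder contained in a set that misses some point is proper: it fixes a coordinate. -/
lemma one_mem_of_cyl_gC {x : Fin 2 → Bool} {K : Set (Fin 2)} (h : cyl x K ⊆ gC) : (1 : Fin 2) ∈ K := by
  by_contra hK
  have : Function.update x 1 true ∈ cyl x K := by
    intro i hi
    rw [Function.update_of_ne]
    rintro rfl
    exact hK hi
  have := h this
  simp [gC] at this

/-- If `cyl x K` lies in a set missing `(true, b)`, and `K` does not fix the second coordinate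
(or `x 1 = b`), then `K` fixes the first coordinate. -/
lemma zero_mem_of_cyl {x : Fin 2 → Bool} {K : Set (Fin 2)} {A : Set (Fin 2 → Bool)} (b : Bool)
    (hA : (![true, b] : Fin 2 → Bool) ∉ A) (h : cyl x K ⊆ A) (h1 : (1 : Fin 2) ∈ K → x 1 = b) :
    (0 : Fin 2) ∈ K := by
  by_contra hK
  refine hA (h fun i hi => ?_)
  fin_cases i
  · exact absurd hi hK
  · simpa using (h1 hi).symm

lemma gA_not : (![true, true] : Fin 2 → Bool) ∉ gA := by simp [gA]

lemma gB_not : (![true, false] : Fin 2 → Bool) ∉ gB := by simp [gB]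

lemma g0_not_mem_BCA : g0 ∉ box (box gB gC) gA := by
  rintro ⟨K, L, h0, h1, h2⟩
  have h3 : (1 : Fin 2) ∈ K := one_mem_of_cyl_gC (h1.trans (box_subset_right _ _))
  have h4 : (1 : Fin 2) ∉ L := fun h => Set.disjoint_left.1 h0 h3 h
  have h5 : (0 : Fin 2) ∈ L := zero_mem_of_cyl true gA_not h2 (fun h => absurd h h4)
  have h6 : (0 : Fin 2) ∈ K :=
    zero_mem_of_cyl false gB_not (h1.trans (box_subset_left _ _)) (fun _ => rfl)
  exact Set.disjoint_left.1 h0 h6 h5

lemma g0_not_mem_ACB : g0 ∉ box (box gA gC) gB := by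
  rintro ⟨K, L, h0, h1, h2⟩
  have h3 : (1 : Fin 2) ∈ K := one_mem_of_cyl_gC (h1.trans (box_subset_right _ _))
  have h4 : (1 : Fin 2) ∉ L := fun h => Set.disjoint_left.1 h0 h3 h
  have h5 : (0 : Fin 2) ∈ L := zero_mem_of_cyl false gB_not h2 (fun h => absurd h h4)
  have h6 : (0 : Fin 2) ∉ K := fun h => Set.disjoint_left.1 h0 h h5
  have hy : (![true, false] : Fin 2 → Bool) ∈ cyl g0 K := by
    intro i hi
    fin_cases i
    · exact absurd hi h6
    · rfl
  obtain ⟨K', L', h0', h1', h2'⟩ := h1 hy
  have h7 : (1 : Fin 2) ∈ L' := one_mem_of_cyl_gC h2'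
  have h8 : (1 : Fin 2) ∉ K' := fun h => Set.disjoint_left.1 h0' h h7
  refine gA_not (h1' fun i hi => ?_)
  fin_cases i
  · rfl
  · exact absurd hi h8

lemma gadget_ne : box (box gA gB) gC ≠ box gA (box gB gC) := by
  intro h
  apply g0_not_mem_BCA
  rw [box_comm, ← h]
  exact g0_mem

end Pool.Agent.V11332.BKR
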