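import Mathlib
import Pool.Agent.V11332.BKR

/-!
Bracketings of powers of a single set under the BKR product.
-/

namespace Pool.Agent.V11332.BKR

open Finset

variable {ι κ S : Type*}

/-- The value of the bracketing `T` of `A^r`. -/
def val (A : Set (ι → S)) : Paren → Set (ι → S)
  | .leaf => A
  | .node l r => box (val A l) (val A r)

/-- Equivalence of bracketings: swapping the two subtrees at some internal nodes. -/
inductive Eqv : Paren → Paren → Prop
  | leaf : Eqv .leaf .leaf
  | node {a b a' b' : Paren} : Eqv a a' → Eqv b b' → Eqv (.node a b) (.node a' b')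
  | swap {a b a' b' : Paren} : Eqv a b' → Eqv b a' → Eqv (.node a b) (.node a' b')

lemma Eqv.rfl' : ∀ T : Paren, Eqv T T
  | .leaf => .leaf
  | .node l r => .node (Eqv.rfl' l) (Eqv.rfl' r)

lemma Eqv.symm' {T T' : Paren} (h : Eqv T T') : Eqv T' T := by
  induction h with
  | leaf => exact .leaf
  | node _ _ h1 h2 => exact .node h1 h2
  | swap _ _ h1 h2 => exact .swap h2 h1

lemma val_eqv {A : Set (ι → S)} {T T' : Paren} (h : Eqv T T') : val A T = val A T' := by
  induction h with
  | leaf => rfl
  | node _ _ h1 h2 => simp only [val, h1, h2]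
  | swap _ _ h1 h2 => simp only [val, h1, h2]; exact box_comm _ _

lemma prod_subset_val {A : Set (ι → S)} {B : ℕ → Set (ι → S)} (h : ∀ i, B i ⊆ A) :
    ∀ (T : Paren) (a : ℕ), prod B T a ⊆ val A T
  | .leaf, a => h a
  | .node l r, a => box_mono (prod_subset_val h l a) (prod_subset_val h r _)

lemma val_pull (e : ι ≃ κ) (A : Set (ι → S)) : ∀ T : Paren, val (pull e A) T = pull e (val A T)
  | .leaf => rfl
  | .node l r => by simp only [val]; rw [val_pull e A l, val_pull e A r, box_pull]

/-! ### Triples in a tree -/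

/-- In the tree `T` with leaves numbered from `a`, the leaves `p` and `q` are closer to each other
than to `s`. -/
def tog : Paren → ℕ → ℕ → ℕ → ℕ → Prop
  | .leaf, _, _, _, _ => False
  | .node l r, a, p, q, s =>
    (p < a + l.leaves ∧ q < a + l.leaves ∧ s < a + l.leaves ∧ tog l a p q s) ∨
    (a + l.leaves ≤ p ∧ a + l.leaves ≤ q ∧ a + l.leaves ≤ s ∧ tog r (a + l.leaves) p q s) ∨
    (p < a + l.leaves ∧ q < a + l.leaves ∧ a + l.leaves ≤ s) ∨
    (a + l.leaves ≤ p ∧ a + l.leaves ≤ q ∧ s < a + l.leaves)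

lemma prod_pair' {A : ℕ → Set (ι → S)} (p q : ℕ) (hpq : p ≠ q) (T : Paren) (a : ℕ)
    (h1 : a ≤ p) (h2 : a ≤ q) (h3 : p < a + T.leaves) (h4 : q < a + T.leaves)
    (h : ∀ i, a ≤ i → i < a + T.leaves → i ≠ p → i ≠ q → A i = Set.univ) :
    prod A T a = box (A p) (A q) := by
  rcases lt_or_gt_of_ne hpq with hlt | hlt
  · exact prod_pair p q hlt T a h1 h4 h
  · rw [prod_pair q p hlt T a h2 h3 (fun i h5 h6 h7 h8 => h i h5 h6 h8 h7), box_comm]

lemma prod_tog {A B C : Set (ι → S)} (p q s : ℕ) (hpq : p ≠ q) (hps : p ≠ s) (hqs : q ≠ s) :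
    ∀ (T : Paren) (a : ℕ), a ≤ p → a ≤ q → a ≤ s → p < a + T.leaves → q < a + T.leaves →
      s < a + T.leaves → tog T a p q s → prod (tri A B C p q s) T a = box (box A B) C
  | .leaf, _, _, _, _, _, _, _, h => absurd h (by simp [tog])
  | .node l r, a, h1, h2, h3, h4, h5, h6, h => by
    have hA : tri A B C p q s p = A := by simp [tri]
    have hB : tri A B C p q s q = B := by
      unfold tri; rw [if_neg hpq.symm, if_pos rfl]
    have hC : tri A B C p q s s = C := by
      unfold tri; rw [if_neg hps.symm, if_neg hqs.symm, if_pos rfl]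
    have hU : ∀ m, m ≠ p → m ≠ q → m ≠ s → tri A B C p q s m = Set.univ := by
      intro m h1 h2 h3
      unfold tri; rw [if_neg h1, if_neg h2, if_neg h3]
    simp only [prod, Paren.leaves, tog] at h4 h5 h6 h ⊢
    rcases h with ⟨h7, h8, h9, h10⟩ | ⟨h7, h8, h9, h10⟩ | ⟨h7, h8, h9⟩ | ⟨h7, h8, h9⟩
    · rw [prod_tog p q s hpq hps hqs l a h1 h2 h3 h7 h8 h9 h10,
        prod_univ r (a + l.leaves) (fun m _ _ => hU m (by omega) (by omega) (by omega)),
        box_univ]
    · rw [prod_tog p q s hpq hps hqs r (a + l.leaves) h7 h8 h9 (by omega) (by omega) (by omega)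
          h10, prod_univ l a (fun m _ _ => hU m (by omega) (by omega) (by omega)), univ_box]
    · rw [prod_pair' p q hpq l a h1 h2 h7 h8 (fun m _ _ h13 h14 => hU m h13 h14 (by omega)),
        prod_single s r (a + l.leaves) h9 (by omega)
          (fun m _ _ h13 => hU m (by omega) (by omega) h13), hA, hB, hC]
    · rw [prod_pair' p q hpq r (a + l.leaves) h7 h8 (by omega) (by omega)
          (fun m _ _ h13 h14 => hU m h13 h14 (by omega)),
        prod_single s l a h3 h9 (fun m _ _ h13 => hU m (by omega) (by omega) h13), hA, hB, hC,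
        box_comm]

/-! ### Restriction of a tree to a set of leaves -/

/-- Join two optional trees at a new root. -/
def join : Option Paren → Option Paren → Option Paren
  | none, y => y
  | some x, none => some x
  | some x, some y => some (.node x y)

/-- The tree induced on the leaves with numbers in `R`. -/
def restr : Paren → ℕ → Finset ℕ → Option Paren
  | .leaf, a, R => if a ∈ R then some .leaf else none
  | .node l r, a, R => join (restr l a R) (restr r (a + l.leaves) R)

lemma restr_congr : ∀ (T : Paren) (a : ℕ) (R R' : Finset ℕ),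
    (∀ i, a ≤ i → i < a + T.leaves → (i ∈ R ↔ i ∈ R')) → restr T a R = restr T a R'
  | .leaf, a, R, R', h => by
    have := h a le_rfl (Nat.lt_succ_self a)
    simp only [restr, this]
  | .node l r, a, R, R', h => by
    simp only [Paren.leaves] at h
    simp only [restr]
    rw [restr_congr l a R R' (fun i h1 h2 => h i h1 (by omega)),
      restr_congr r (a + l.leaves) R R' (fun i h1 h2 => h i (by omega) (by omega))]

lemma restr_none : ∀ (T : Paren) (a : ℕ) (R : Finset ℕ),
    (∀ i, a ≤ i → i < a + T.leaves → i ∉ R) → restr T a R = none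
  | .leaf, a, R, h => by
    have := h a le_rfl (Nat.lt_succ_self a)
    simp only [restr, this, if_false]
  | .node l r, a, R, h => by
    simp only [Paren.leaves] at h
    simp only [restr]
    rw [restr_none l a R (fun i h1 h2 => h i h1 (by omega)),
      restr_none r (a + l.leaves) R (fun i h1 h2 => h i (by omega) (by omega))]
    rfl

lemma restr_some : ∀ (T : Paren) (a : ℕ) (R : Finset ℕ),
    (∃ i, a ≤ i ∧ i < a + T.leaves ∧ i ∈ R) → ∃ U, restr T a R = some U
  | .leaf, a, R, ⟨i, h1, h2, h3⟩ => by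
    have : i = a := by simp only [Paren.leaves] at h2; omega
    subst this
    exact ⟨.leaf, by simp [restr, h3]⟩
  | .node l r, a, R, ⟨i, h1, h2, h3⟩ => by
    simp only [Paren.leaves] at h2
    simp only [restr]
    rcases lt_or_ge i (a + l.leaves) with h | h
    · obtain ⟨U, hU⟩ := restr_some l a R ⟨i, h1, h, h3⟩
      rw [hU]
      rcases restr r (a + l.leaves) R with _ | V
      · exact ⟨_, rfl⟩
      · exact ⟨_, rfl⟩
    · obtain ⟨U, hU⟩ := restr_some r (a + l.leaves) R ⟨i, h, by omega, h3⟩
      rw [hU]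
      rcases restr l a R with _ | V
      · exact ⟨_, rfl⟩
      · exact ⟨_, rfl⟩

lemma restr_full : ∀ (T : Paren) (a : ℕ) (R : Finset ℕ),
    (∀ i, a ≤ i → i < a + T.leaves → i ∈ R) → restr T a R = some T
  | .leaf, a, R, h => by
    have := h a le_rfl (Nat.lt_succ_self a)
    simp [restr, this]
  | .node l r, a, R, h => by
    simp only [Paren.leaves] at h
    simp only [restr]
    rw [restr_full l a R (fun i h1 h2 => h i h1 (by omega)),
      restr_full r (a + l.leaves) R (fun i h1 h2 => h i (by omega) (by omega))]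
    rfl

/-- If no triple of `T₀` is in conflict with the splitting `R = R₁ ⊔ R₂`, then the splitting is the
one at the root of the tree induced on `R`. -/
lemma split_lemma : ∀ (T₀ : Paren) (a : ℕ) (R R₁ R₂ : Finset ℕ), R = R₁ ∪ R₂ →
    Disjoint R₁ R₂ → (∀ i ∈ R, a ≤ i ∧ i < a + T₀.leaves) → R₁.Nonempty → R₂.Nonempty →
    (∀ p ∈ R₁, ∀ s ∈ R₁, ∀ q ∈ R₂, p ≠ s → ¬ tog T₀ a p q s) →
    (∀ p ∈ R₂, ∀ s ∈ R₂, ∀ q ∈ R₁, p ≠ s → ¬ tog T₀ a p q s) →
    ∃ U, restr T₀ a R = some U ∧ ∀ T₁ T₂ U₁ U₂, restr T₀ a R₁ = some U₁ →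
      restr T₀ a R₂ = some U₂ → Eqv T₁ U₁ → Eqv T₂ U₂ → Eqv (.node T₁ T₂) U
  | .leaf, a, R, R₁, R₂, hR, hd, hran, ⟨i, hi⟩, ⟨j, hj⟩, _, _ => by
    exfalso
    have h1 := hran i (by rw [hR]; exact mem_union_left _ hi)
    have h2 := hran j (by rw [hR]; exact mem_union_right _ hj)
    simp only [Paren.leaves] at h1 h2
    have : i = j := by omega
    subst this
    exact Finset.disjoint_left.1 hd hi hj
  | .node l r, a, R, R₁, R₂, hR, hd, hran, hn₁, hn₂, hc₁, hc₂ => by
    simp only [Paren.leaves] at hran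
    have hsub₁ : ∀ i ∈ R₁, i ∈ R := fun i hi => by rw [hR]; exact mem_union_left _ hi
    have hsub₂ : ∀ i ∈ R₂, i ∈ R := fun i hi => by rw [hR]; exact mem_union_right _ hi
    by_cases hleft : ∀ i ∈ R, i < a + l.leaves
    · -- everything in the left subtree
      obtain ⟨U, hU, hall⟩ := split_lemma l a R R₁ R₂ hR hd
        (fun i hi => ⟨(hran i hi).1, hleft i hi⟩) hn₁ hn₂
        (fun p hp s hs q hq hps ht => hc₁ p hp s hs q hq hps (Or.inl
          ⟨hleft p (hsub₁ p hp), hleft q (hsub₂ q hq), hleft s (hsub₁ s hs), ht⟩))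
        (fun p hp s hs q hq hps ht => hc₂ p hp s hs q hq hps (Or.inl
          ⟨hleft p (hsub₂ p hp), hleft q (hsub₁ q hq), hleft s (hsub₂ s hs), ht⟩))
      have hnr : ∀ R' : Finset ℕ, (∀ i ∈ R', i ∈ R) → restr r (a + l.leaves) R' = none :=
        fun R' h => restr_none r _ R' (fun i h1 _ h3 => by
          have := hleft i (h i h3); omega)
      have hj : ∀ R' : Finset ℕ, (∀ i ∈ R', i ∈ R) →
          restr (.node l r) a R' = restr l a R' := by
        intro R' h
        simp only [restr]
        rw [hnr R' h]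
        rcases restr l a R' with _ | V <;> rfl
      refine ⟨U, by rw [hj R (fun _ h => h)]; exact hU, ?_⟩
      intro T₁ T₂ U₁ U₂ h1 h2
      rw [hj R₁ hsub₁] at h1
      rw [hj R₂ hsub₂] at h2
      exact hall T₁ T₂ U₁ U₂ h1 h2
    · by_cases hright : ∀ i ∈ R, a + l.leaves ≤ i
      · obtain ⟨U, hU, hall⟩ := split_lemma r (a + l.leaves) R R₁ R₂ hR hd
          (fun i hi => ⟨hright i hi, by have := (hran i hi).2; omega⟩) hn₁ hn₂
          (fun p hp s hs q hq hps ht => hc₁ p hp s hs q hq hps (Or.inr (Or.inl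
            ⟨hright p (hsub₁ p hp), hright q (hsub₂ q hq), hright s (hsub₁ s hs), ht⟩)))
          (fun p hp s hs q hq hps ht => hc₂ p hp s hs q hq hps (Or.inr (Or.inl
            ⟨hright p (hsub₂ p hp), hright q (hsub₁ q hq), hright s (hsub₂ s hs), ht⟩)))
        have hj : ∀ R' : Finset ℕ, (∀ i ∈ R', i ∈ R) →
            restr (.node l r) a R' = restr r (a + l.leaves) R' := by
          intro R' h
          simp only [restr]
          rw [restr_none l a R' (fun i _ h2 h3 => by have := hright i (h i h3); omega)]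
          rfl
        refine ⟨U, by rw [hj R (fun _ h => h)]; exact hU, ?_⟩
        intro T₁ T₂ U₁ U₂ h1 h2
        rw [hj R₁ hsub₁] at h1
        rw [hj R₂ hsub₂] at h2
        exact hall T₁ T₂ U₁ U₂ h1 h2
      · push Not at hleft hright
        obtain ⟨y, hy, hy2⟩ := hleft
        obtain ⟨x, hx, hx2⟩ := hright
        -- neither part meets both subtrees
        have hone : ∀ (Q₁ Q₂ : Finset ℕ), Q₂.Nonempty → Disjoint Q₁ Q₂ →
            (∀ p ∈ Q₁, ∀ s ∈ Q₁, ∀ q ∈ Q₂, p ≠ s → ¬ tog (.node l r) a p q s) →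
            (∀ i ∈ Q₁, i < a + l.leaves) ∨ (∀ i ∈ Q₁, a + l.leaves ≤ i) := by
          intro Q₁ Q₂ ⟨q, hq⟩ hdq hcq
          by_contra hcon
          push Not at hcon
          obtain ⟨⟨b, hb, hb2⟩, ⟨c, hc, hc2⟩⟩ := hcon
          rcases lt_or_ge q (a + l.leaves) with h | h
          · exact hcq c hc b hb q hq (by omega) (Or.inr (Or.inr (Or.inl ⟨hc2, h, hb2⟩)))
          · exact hcq b hb c hc q hq (by omega) (Or.inr (Or.inr (Or.inr ⟨hb2, h, hc2⟩)))
        have o₁ := hone R₁ R₂ hn₂ hd hc₁
        have o₂ := hone R₂ R₁ hn₁ hd.symm hc₂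
        have hmain : ∀ (Q₁ Q₂ : Finset ℕ), R = Q₁ ∪ Q₂ → (∀ i ∈ Q₁, i < a + l.leaves) →
            (∀ i ∈ Q₂, a + l.leaves ≤ i) → ∀ V₁ V₂, restr (.node l r) a Q₁ = some V₁ →
            restr (.node l r) a Q₂ = some V₂ →
            restr (.node l r) a R = some (.node V₁ V₂) := by
          intro Q₁ Q₂ hRQ hq₁ hq₂ V₁ V₂ hV₁ hV₂
          simp only [restr] at hV₁ hV₂ ⊢
          rw [restr_none r _ Q₁ (fun i h1 _ h3 => by have := hq₁ i h3; omega)] at hV₁
          rw [restr_none l a Q₂ (fun i _ h2 h3 => by have := hq₂ i h3; omega)] at hV₂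
          have e₁ : restr l a R = restr l a Q₁ := restr_congr l a R Q₁ (fun i _ h2 => by
            rw [hRQ, mem_union]
            constructor
            · rintro (h | h)
              · exact h
              · have := hq₂ i h; omega
            · exact Or.inl)
          have e₂ : restr r (a + l.leaves) R = restr r (a + l.leaves) Q₂ :=
            restr_congr r _ R Q₂ (fun i h2 _ => by
              rw [hRQ, mem_union]
              constructor
              · rintro (h | h)
                · have := hq₁ i h; omega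
                · exact h
              · exact Or.inr)
          rw [e₁, e₂]
          rcases h1 : restr l a Q₁ with _ | W₁
          · rw [h1] at hV₁; exact absurd hV₁ (by simp [join])
          · rcases h2 : restr r (a + l.leaves) Q₂ with _ | W₂
            · rw [h2] at hV₂; exact absurd hV₂ (by simp [join])
            · rw [h1] at hV₁
              rw [h2] at hV₂
              simp only [join, Option.some.injEq] at hV₁ hV₂ ⊢
              rw [hV₁, hV₂]
        obtain ⟨U, hU⟩ := restr_some (.node l r) a R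
          ⟨x, (hran x hx).1, by simp only [Paren.leaves]; exact (hran x hx).2, hx⟩
        refine ⟨U, hU, ?_⟩
        intro T₁ T₂ U₁ U₂ h1 h2 h3 h4
        have hxR := hx
        have hyR := hy
        rw [hR, mem_union] at hxR hyR
        rcases o₁ with o₁ | o₁ <;> rcases o₂ with o₂ | o₂
        · exfalso
          rcases hyR with h | h
          · have := o₁ y h; omega
          · have := o₂ y h; omega
        · have := hmain R₁ R₂ hR o₁ o₂ U₁ U₂ h1 h2
          rw [hU] at this
          rw [Option.some_injective _ this]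
          exact .node h3 h4
        · have := hmain R₂ R₁ (by rw [hR, union_comm]) o₂ o₁ U₂ U₁ h2 h1
          rw [hU] at this
          rw [Option.some_injective _ this]
          exact .swap h3 h4
        · exfalso
          rcases hxR with h | h
          · have := o₁ x h; omega
          · have := o₂ x h; omega

end Pool.Agent.V11332.BKR
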