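import Mathlib

/-!
Iterated bivariate Lorenz curves: the basic step.
-/

namespace Pool.Agent.V11332.Lorenz

open MeasureTheory ProbabilityTheory Set Filter Topology

/-! ### One-dimensional facts -/

section oned

variable (ν : Measure ℝ) [IsProbabilityMeasure ν]

lemma continuous_cdf [NullSingletonClass ν] : Continuous (cdf ν) := by
  rw [continuous_iff_continuousAt]
  intro x
  rw [(cdf ν).mono.continuousAt_iff_leftLim_eq_rightLim, (cdf ν).rightLim_eq]
  have h : (cdf ν).measure {x} = 0 := by rw [measure_cdf]; simp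
  rw [StieltjesFunction.measure_singleton, ENNReal.ofReal_eq_zero] at h
  have h2 := (cdf ν).mono.leftLim_le (le_refl x)
  linarith

lemma unif [NullSingletonClass ν] {c : ℝ} (h0 : 0 ≤ c) (h1 : c ≤ 1) : ν.real {u | cdf ν u ≤ c} = c := by
  have hc := continuous_cdf ν
  rcases h1.eq_or_lt with rfl | h1
  · have : {u | cdf ν u ≤ 1} = univ := by
      ext u; simp [cdf_le_one]
    rw [this]; simp
  -- `{cdf ≤ c}` is bounded above
  obtain ⟨b, hb⟩ := ((tendsto_cdf_atTop ν).eventually (lt_mem_nhds h1)).exists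
  have hbdd : BddAbove {u | cdf ν u ≤ c} := ⟨b, fun u hu => by
    by_contra hcon
    push Not at hcon
    have := monotone_cdf ν hcon.le
    simp only [Set.mem_ofPred_eq] at hu
    linarith⟩
  rcases Set.eq_empty_or_nonempty {u | cdf ν u ≤ c} with he | hne
  · have hc0 : c = 0 := by
      by_contra hcon
      have hpos : 0 < c := lt_of_le_of_ne h0 (Ne.symm hcon)
      obtain ⟨a, ha⟩ := ((tendsto_cdf_atBot ν).eventually (gt_mem_nhds hpos)).exists
      have : a ∈ {u | cdf ν u ≤ c} := by
        simp only [Set.mem_ofPred_eq]; exact ha.le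
      rw [he] at this
      exact this
    rw [he, hc0]; simp
  · set m := sSup {u | cdf ν u ≤ c} with hm
    have hclosed : IsClosed {u | cdf ν u ≤ c} := isClosed_le hc continuous_const
    have hmm : cdf ν m ≤ c := hclosed.csSup_mem hne hbdd
    have hset : {u | cdf ν u ≤ c} = Iic m := by
      ext u
      simp only [Set.mem_ofPred_eq, mem_Iic]
      exact ⟨fun h => le_csSup hbdd h, fun h => (monotone_cdf ν h).trans hmm⟩
    rw [hset, ← cdf_eq_real]
    refine le_antisymm hmm ?_
    -- for `u > m`, `cdf u > c`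
    have : ∀ᶠ u in 𝓝[>] m, c ≤ cdf ν u := by
      filter_upwards [self_mem_nhdsWithin] with u hu
      by_contra hcon
      push Not at hcon
      exact absurd (le_csSup hbdd (show u ∈ {u | cdf ν u ≤ c} from hcon.le)) (not_le.2 hu)
    exact ge_of_tendsto (hc.continuousAt.tendsto.mono_left nhdsWithin_le_nhds) this

lemma unif_fiber [NullSingletonClass ν] (c : ℝ) : ν {u | cdf ν u = c} = 0 := by
  by_cases h0 : c < 0
  · have : {u | cdf ν u = c} = ∅ := by
      ext u
      simp only [Set.mem_ofPred_eq, mem_empty_iff_false, iff_false]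
      have := cdf_nonneg ν u
      intro h; linarith
    rw [this]; simp
  by_cases h1 : 1 < c
  · have : {u | cdf ν u = c} = ∅ := by
      ext u
      simp only [Set.mem_ofPred_eq, mem_empty_iff_false, iff_false]
      have := cdf_le_one ν u
      intro h; linarith
    rw [this]; simp
  push Not at h0 h1
  have hr : ν.real {u | cdf ν u = c} ≤ 0 := by
    rcases h0.eq_or_lt with rfl | h0
    · have e0 := unif ν le_rfl h1
      calc _ ≤ ν.real {u | cdf ν u ≤ 0} := measureReal_mono (fun u hu => by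
            simp only [Set.mem_ofPred_eq] at hu ⊢; exact hu.le)
        _ = 0 := e0
    · refine le_of_forall_pos_le_add fun ε hε => ?_
      set y := max 0 (c - ε) with hy
      have hy0 : 0 ≤ y := le_max_left _ _
      have hyc : y < c := max_lt h0 (by linarith)
      have e1 := unif ν h0.le h1
      have e2 := unif ν hy0 (by linarith)
      have hdis : Disjoint {u | cdf ν u = c} {u | cdf ν u ≤ y} := by
        rw [Set.disjoint_left]
        intro u hu hu'
        simp only [Set.mem_ofPred_eq] at hu hu'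
        linarith
      have hmeas : MeasurableSet {u | cdf ν u ≤ y} :=
        (isClosed_le (continuous_cdf ν) continuous_const).measurableSet
      have e3 := measureReal_union (μ := ν) hdis hmeas
      have e4 : ν.real ({u | cdf ν u = c} ∪ {u | cdf ν u ≤ y}) ≤ ν.real {u | cdf ν u ≤ c} :=
        measureReal_mono (by
          rintro u (hu | hu)
          · simp only [Set.mem_ofPred_eq] at hu ⊢; exact hu.le
          · simp only [Set.mem_ofPred_eq] at hu ⊢; linarith)
      have : c - ε ≤ y := le_max_right _ _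
      linarith
  rw [measureReal_def] at hr
  have hz : (ν {u | cdf ν u = c}).toReal = 0 := le_antisymm hr ENNReal.toReal_nonneg
  rw [ENNReal.toReal_eq_zero_iff] at hz
  exact hz.resolve_right (measure_ne_top _ _)

/-- Generalized inverse `inf {r : F(r) ≥ x}` of the distribution function of `ν`,
with values in `[-∞,∞]`. -/
noncomputable def qtl (ν : Measure ℝ) (x : ℝ) : EReal :=
  sInf {y : EReal | ∃ r : ℝ, y = r ∧ x ≤ ν.real (Iic r)}

lemma le_qtl_of_lt {u x : ℝ} (h : cdf ν u < x) : (u : EReal) ≤ qtl ν x := by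
  refine le_sInf ?_
  rintro _ ⟨r, rfl, hr⟩
  rw [← cdf_eq_real] at hr
  rw [EReal.coe_le_coe_iff]
  by_contra hcon
  push Not at hcon
  have := monotone_cdf ν hcon.le
  linarith

lemma cdf_le_of_le_qtl [NullSingletonClass ν] {u x : ℝ} (h : (u : EReal) ≤ qtl ν x) : cdf ν u ≤ x := by
  have : ∀ᶠ r in 𝓝[<] u, cdf ν r ≤ x := by
    filter_upwards [self_mem_nhdsWithin] with r hr
    by_contra hcon
    push Not at hcon
    have h1 : qtl ν x ≤ (r : EReal) := sInf_le ⟨r, rfl, by rw [← cdf_eq_real]; exact hcon.le⟩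
    have h2 := h.trans h1
    rw [EReal.coe_le_coe_iff] at h2
    exact absurd h2 (not_le.2 hr)
  exact le_of_tendsto ((continuous_cdf ν).continuousAt.tendsto.mono_left nhdsWithin_le_nhds) this

lemma qtl_ae [NullSingletonClass ν] (x : ℝ) :
    ∀ᵐ u : ℝ ∂ν, ((u : EReal) ≤ qtl ν x ↔ cdf ν u ≤ x) := by
  have h := unif_fiber ν x
  rw [measure_eq_zero_iff_ae_notMem] at h
  filter_upwards [h] with u hu
  refine ⟨cdf_le_of_le_qtl ν, fun h1 => le_qtl_of_lt ν (lt_of_le_of_ne h1 hu)⟩

lemma le_iff_cdf_ae [NullSingletonClass ν] (s : ℝ) : ∀ᵐ u ∂ν, (u ≤ s ↔ cdf ν u ≤ cdf ν s) := by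
  have h := unif_fiber ν (cdf ν s)
  rw [measure_eq_zero_iff_ae_notMem] at h
  filter_upwards [h] with u hu
  refine ⟨fun h => monotone_cdf ν h, fun h1 => ?_⟩
  by_contra hcon
  push Not at hcon
  exact hu (le_antisymm h1 (monotone_cdf ν hcon.le))

end oned

/-! ### The Lorenz step -/

/-- The bivariate (Arnold-type) Lorenz curve of the law `P`. -/
noncomputable def lorenz (P : Measure (ℝ × ℝ)) (x₁ x₂ : ℝ) : ℝ :=
  (∫ u in {u : ℝ × ℝ | (u.1 : EReal) ≤ qtl (P.map Prod.fst) x₁ ∧
    (u.2 : EReal) ≤ qtl (P.map Prod.snd) x₂}, u.1 * u.2 ∂P) / ∫ u, u.1 * u.2 ∂P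

structure Good (P : Measure (ℝ × ℝ)) : Prop where
  prob : IsProbabilityMeasure P
  pos : ∀ᵐ u ∂P, 0 < u.1 ∧ 0 < u.2
  int : Integrable (fun u : ℝ × ℝ => u.1 * u.2) P
  na1 : NullSingletonClass (P.map Prod.fst)
  na2 : NullSingletonClass (P.map Prod.snd)

noncomputable def mu (P : Measure (ℝ × ℝ)) : ℝ := ∫ u, u.1 * u.2 ∂P

noncomputable def tilt (P : Measure (ℝ × ℝ)) : Measure (ℝ × ℝ) :=
  P.withDensity fun u => ENNReal.ofReal (u.1 * u.2 / mu P)

noncomputable def T (P : Measure (ℝ × ℝ)) (u : ℝ × ℝ) : ℝ × ℝ :=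
  (cdf (P.map Prod.fst) u.1, cdf (P.map Prod.snd) u.2)

noncomputable def step (P : Measure (ℝ × ℝ)) : Measure (ℝ × ℝ) := (tilt P).map (T P)

variable {P : Measure (ℝ × ℝ)}

lemma nonneg_prod (h : Good P) : 0 ≤ᵐ[P] fun u : ℝ × ℝ => u.1 * u.2 := by
  filter_upwards [h.pos] with u hu
  exact (mul_pos hu.1 hu.2).le

lemma setIntegral_pos (h : Good P) {A : Set (ℝ × ℝ)} (hA : 0 < P A) :
    0 < ∫ u in A, u.1 * u.2 ∂P := by
  rw [integral_pos_iff_support_of_nonneg_ae (ae_restrict_of_ae (nonneg_prod h))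
    h.int.integrableOn]
  have hs : (Function.support fun u : ℝ × ℝ => u.1 * u.2) =ᵐ[P] univ := by
    filter_upwards [h.pos] with u hu
    simp only [eq_iff_iff]
    exact ⟨fun _ => trivial, fun _ => (mul_pos hu.1 hu.2).ne'⟩
  have hs' : (Function.support fun u : ℝ × ℝ => u.1 * u.2) =ᵐ[P.restrict A] univ :=
    ae_restrict_of_ae hs
  rw [measure_congr hs', Measure.restrict_apply_univ]
  exact hA

lemma mu_pos (h : Good P) : 0 < mu P := by
  have := h.prob
  have := setIntegral_pos h (A := univ) (by simp)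
  simpa [mu] using this

lemma tilt_real (h : Good P) {A : Set (ℝ × ℝ)} (hA : MeasurableSet A) :
    (tilt P).real A = (∫ u in A, u.1 * u.2 ∂P) / mu P := by
  have hm := mu_pos h
  rw [measureReal_def, tilt, withDensity_apply _ hA, ← integral_div,
    ← ofReal_integral_eq_lintegral_ofReal (h.int.div_const _).integrableOn,
    ENNReal.toReal_ofReal]
  · refine integral_nonneg_of_ae (ae_restrict_of_ae ?_)
    filter_upwards [nonneg_prod h] with u hu
    exact div_nonneg hu hm.le
  · refine ae_restrict_of_ae ?_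
    filter_upwards [nonneg_prod h] with u hu
    exact div_nonneg hu hm.le

lemma tilt_prob (h : Good P) : IsProbabilityMeasure (tilt P) := by
  have hm := mu_pos h
  refine ⟨?_⟩
  rw [tilt, withDensity_apply _ MeasurableSet.univ, Measure.restrict_univ,
    ← ofReal_integral_eq_lintegral_ofReal (h.int.div_const _), integral_div]
  · change ENNReal.ofReal (mu P / mu P) = 1
    rw [div_self hm.ne', ENNReal.ofReal_one]
  · filter_upwards [nonneg_prod h] with u hu
    exact div_nonneg hu hm.le

lemma tilt_ac : tilt P ≪ P := withDensity_absolutelyContinuous _ _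

lemma measurable_T : Measurable (T P) :=
  ((monotone_cdf _).measurable.comp measurable_fst).prodMk
    ((monotone_cdf _).measurable.comp measurable_snd)

lemma prob1 (h : Good P) : IsProbabilityMeasure (P.map Prod.fst) := by
  have := h.prob
  exact Measure.isProbabilityMeasure_map measurable_fst.aemeasurable

lemma prob2 (h : Good P) : IsProbabilityMeasure (P.map Prod.snd) := by
  have := h.prob
  exact Measure.isProbabilityMeasure_map measurable_snd.aemeasurable

lemma step_df (h : Good P) (x y : ℝ) : (step P).real (Iic x ×ˢ Iic y) = lorenz P x y := by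
  have := prob1 h
  have := prob2 h
  have := h.na1
  have := h.na2
  have hmr : MeasurableSet {u : ℝ × ℝ | (u.1 : EReal) ≤ qtl (P.map Prod.fst) x ∧
      (u.2 : EReal) ≤ qtl (P.map Prod.snd) y} :=
    (measurableSet_le (measurable_coe_real_ereal.comp measurable_fst) measurable_const).inter
      (measurableSet_le (measurable_coe_real_ereal.comp measurable_snd) measurable_const)
  rw [step, map_measureReal_apply measurable_T (measurableSet_Iic.prod measurableSet_Iic), lorenz]
  change _ = _ / mu P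
  rw [← tilt_real h hmr]
  refine measureReal_congr (tilt_ac.ae_le ?_)
  have h1 := ae_of_ae_map measurable_fst.aemeasurable (qtl_ae (P.map Prod.fst) x)
  have h2 := ae_of_ae_map measurable_snd.aemeasurable (qtl_ae (P.map Prod.snd) y)
  filter_upwards [h1, h2] with u hu1 hu2
  simp only [eq_iff_iff]
  change (T P u ∈ Iic x ×ˢ Iic y) ↔ (_ ∧ _)
  rw [hu1, hu2]
  simp [T]

lemma step_supp : (step P) (Icc 0 1 ×ˢ Icc 0 1)ᶜ = 0 := by
  rw [step, Measure.map_apply measurable_T
    (measurableSet_Icc.prod measurableSet_Icc).compl]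
  have : T P ⁻¹' (Icc 0 1 ×ˢ Icc 0 1)ᶜ = ∅ := by
    ext u
    simp [T, cdf_nonneg, cdf_le_one]
  rw [this]; simp

lemma step_prob (h : Good P) : IsProbabilityMeasure (step P) := by
  have := tilt_prob h
  exact Measure.isProbabilityMeasure_map measurable_T.aemeasurable

lemma step_good (h : Good P) : Good (step P) := by
  have := prob1 h
  have := prob2 h
  have := h.na1
  have := h.na2
  have hprob := step_prob h
  have h1 : ∀ c, ∀ᵐ u ∂P, cdf (P.map Prod.fst) u.1 ≠ c := fun c => by
    have := measure_eq_zero_iff_ae_notMem.1 (unif_fiber (P.map Prod.fst) c)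
    exact ae_of_ae_map measurable_fst.aemeasurable this
  have h2 : ∀ c, ∀ᵐ u ∂P, cdf (P.map Prod.snd) u.2 ≠ c := fun c => by
    have := measure_eq_zero_iff_ae_notMem.1 (unif_fiber (P.map Prod.snd) c)
    exact ae_of_ae_map measurable_snd.aemeasurable this
  refine ⟨hprob, ?_, ?_, ⟨fun c => ?_⟩, ⟨fun c => ?_⟩⟩
  · have hms : MeasurableSet {u : ℝ × ℝ | 0 < u.1 ∧ 0 < u.2} :=
      (measurableSet_lt measurable_const measurable_fst).inter
        (measurableSet_lt measurable_const measurable_snd)
    rw [step, ae_map_iff measurable_T.aemeasurable hms]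
    refine tilt_ac.ae_le ?_
    filter_upwards [h1 0, h2 0] with u hu1 hu2
    exact ⟨lt_of_le_of_ne (cdf_nonneg _ _) hu1.symm, lt_of_le_of_ne (cdf_nonneg _ _) hu2.symm⟩
  · refine Integrable.of_bound (measurable_fst.mul measurable_snd).aestronglyMeasurable 1 ?_
    have := step_supp (P := P)
    rw [measure_eq_zero_iff_ae_notMem] at this
    filter_upwards [this] with u hu
    simp only [mem_compl_iff, not_not, mem_prod, mem_Icc] at hu
    rw [Real.norm_eq_abs, abs_of_nonneg (mul_nonneg hu.1.1 hu.2.1)]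
    exact mul_le_one₀ hu.1.2 hu.2.1 hu.2.2
  · rw [Measure.map_apply measurable_fst (measurableSet_singleton c), step,
      Measure.map_apply measurable_T (measurable_fst (measurableSet_singleton c)),
      measure_eq_zero_iff_ae_notMem]
    refine tilt_ac.ae_le ?_
    filter_upwards [h1 c] with u hu
    simpa [T] using hu
  · rw [Measure.map_apply measurable_snd (measurableSet_singleton c), step,
      Measure.map_apply measurable_T (measurable_snd (measurableSet_singleton c)),
      measure_eq_zero_iff_ae_notMem]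
    refine tilt_ac.ae_le ?_
    filter_upwards [h2 c] with u hu
    simpa [T] using hu

/-! ### Thresholds -/

/-- Both coordinates lie below the thresholds `s`, `t` simultaneously, with probability `p`. -/
def Thr (P : Measure (ℝ × ℝ)) (s t p : ℝ) : Prop :=
  (∀ᵐ u ∂P, (u.1 ≤ s ↔ u.2 ≤ t)) ∧ P.real {u | u.1 ≤ s} = p

noncomputable def nxt (P : Measure (ℝ × ℝ)) (s : ℝ) : ℝ :=
  (∫ u in {u : ℝ × ℝ | u.1 ≤ s}, u.1 * u.2 ∂P) / mu P

lemma meas_le (s : ℝ) : MeasurableSet {u : ℝ × ℝ | u.1 ≤ s} :=
  measurableSet_le measurable_fst measurable_const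

lemma thr_snd {s t p : ℝ} (hT : Thr P s t p) : P.real {u | u.2 ≤ t} = p := by
  rw [← hT.2]
  refine measureReal_congr ?_
  filter_upwards [hT.1] with u hu
  simp only [eq_iff_iff]
  exact hu.symm

lemma cdf1 (h : Good P) (s : ℝ) : cdf (P.map Prod.fst) s = P.real {u | u.1 ≤ s} := by
  have := prob1 h
  rw [cdf_eq_real, map_measureReal_apply measurable_fst measurableSet_Iic]
  rfl

lemma cdf2 (h : Good P) (s : ℝ) : cdf (P.map Prod.snd) s = P.real {u | u.2 ≤ s} := by
  have := prob2 h
  rw [cdf_eq_real, map_measureReal_apply measurable_snd measurableSet_Iic]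
  rfl

lemma thr_step (h : Good P) {s t p : ℝ} (hT : Thr P s t p) : Thr (step P) p p (nxt P s) := by
  have := prob1 h
  have := prob2 h
  have := h.na1
  have := h.na2
  have e1 := ae_of_ae_map measurable_fst.aemeasurable (le_iff_cdf_ae (P.map Prod.fst) s)
  have e2 := ae_of_ae_map measurable_snd.aemeasurable (le_iff_cdf_ae (P.map Prod.snd) t)
  rw [cdf1 h, hT.2] at e1
  rw [cdf2 h, thr_snd hT] at e2
  constructor
  · rw [step, ae_map_iff measurable_T.aemeasurable]
    · refine tilt_ac.ae_le ?_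
      filter_upwards [e1, e2, hT.1] with u h1 h2 h3
      change cdf (P.map Prod.fst) u.1 ≤ p ↔ cdf (P.map Prod.snd) u.2 ≤ p
      rw [← h1, ← h2, h3]
    · have m1 : MeasurableSet {u : ℝ × ℝ | u.1 ≤ p} := meas_le p
      have m2 : MeasurableSet {u : ℝ × ℝ | u.2 ≤ p} :=
        measurableSet_le measurable_snd measurable_const
      exact m1.iff m2
  · rw [step, map_measureReal_apply measurable_T (meas_le p), nxt,
      ← tilt_real h (meas_le s)]
    refine measureReal_congr (tilt_ac.ae_le ?_)
    filter_upwards [e1] with u h1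
    simp only [eq_iff_iff]
    change cdf (P.map Prod.fst) u.1 ≤ p ↔ u.1 ≤ s
    rw [← h1]

lemma split_mu (h : Good P) (s : ℝ) :
    mu P = (∫ u in {u : ℝ × ℝ | u.1 ≤ s}, u.1 * u.2 ∂P) +
      ∫ u in {u : ℝ × ℝ | u.1 ≤ s}ᶜ, u.1 * u.2 ∂P :=
  (integral_add_compl (meas_le s) h.int).symm

lemma nxt_le (h : Good P) {s t p : ℝ} (hs : 0 ≤ s) (ht : 0 ≤ t) (hT : Thr P s t p) :
    nxt P s ≤ p := by
  have := h.prob
  have hA := meas_le s
  set A : Set (ℝ × ℝ) := {u : ℝ × ℝ | u.1 ≤ s} with hAdef
  have hp : P.real A = p := hT.2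
  have hpc : P.real Aᶜ = 1 - p := by rw [probReal_compl_eq_one_sub hA, hp]
  have h1 : ∫ u in A, u.1 * u.2 ∂P ≤ s * t * p := by
    have : ∫ u in A, u.1 * u.2 ∂P ≤ ∫ u in A, s * t ∂P := by
      refine setIntegral_mono_on_ae h.int.integrableOn (integrable_const _).integrableOn hA ?_
      filter_upwards [hT.1, h.pos] with u h2 h3 h4
      have h5 : u.1 ≤ s := h4
      exact mul_le_mul h5 (h2.1 h5) h3.2.le hs
    rw [setIntegral_const, hp, smul_eq_mul] at this
    linarith
  have h2 : s * t * (1 - p) ≤ ∫ u in Aᶜ, u.1 * u.2 ∂P := by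
    have : ∫ u in Aᶜ, s * t ∂P ≤ ∫ u in Aᶜ, u.1 * u.2 ∂P := by
      refine setIntegral_mono_on_ae (integrable_const _).integrableOn h.int.integrableOn
        hA.compl ?_
      filter_upwards [hT.1, h.pos] with u h2 h3 h4
      have h5 : ¬ u.1 ≤ s := h4
      have h6 : ¬ u.2 ≤ t := fun h => h5 (h2.2 h)
      push Not at h5 h6
      exact mul_le_mul h5.le h6.le ht (hs.trans h5.le)
    rw [setIntegral_const, hpc, smul_eq_mul] at this
    linarith
  have hp0 : 0 ≤ p := by rw [← hp]; exact measureReal_nonneg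
  have hp1 : p ≤ 1 := by rw [← hp]; exact measureReal_le_one
  have hm := mu_pos h
  rw [nxt, div_le_iff₀ hm, split_mu h s]
  nlinarith [mul_le_mul_of_nonneg_left h2 hp0, mul_le_mul_of_nonneg_left h1 (sub_nonneg.2 hp1)]

lemma nxt_pos (h : Good P) {s t p : ℝ} (hT : Thr P s t p) (hp : 0 < p) : 0 < nxt P s := by
  have := h.prob
  refine div_pos (setIntegral_pos h ?_) (mu_pos h)
  rw [← hT.2, measureReal_def, ENNReal.toReal_pos_iff] at hp
  exact hp.1

lemma nxt_ge (h : Good P) (hsupp : P (Icc 0 1 ×ˢ Icc 0 1)ᶜ = 0) {s t p : ℝ} (hT : Thr P s t p) :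
    (p - P.real {u | u.1 ≤ 1 / 2} - P.real {u | u.2 ≤ 1 / 2}) / 4 ≤ nxt P s := by
  have := h.prob
  have hm := mu_pos h
  rw [measure_eq_zero_iff_ae_notMem] at hsupp
  have hmu1 : mu P ≤ 1 := by
    have : mu P ≤ ∫ _, (1 : ℝ) ∂P := by
      refine integral_mono_ae h.int (integrable_const _) ?_
      filter_upwards [hsupp] with u hu
      simp only [mem_compl_iff, not_not, mem_prod, mem_Icc] at hu
      exact mul_le_one₀ hu.1.2 hu.2.1 hu.2.2
    simpa using this
  have hA := meas_le s
  set A : Set (ℝ × ℝ) := {u : ℝ × ℝ | u.1 ≤ s} with hAdef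
  set B : Set (ℝ × ℝ) := {u | u.1 ≤ 1 / 2} with hB
  set C : Set (ℝ × ℝ) := {u | u.2 ≤ 1 / 2} with hC
  have mB : MeasurableSet B := meas_le _
  have mC : MeasurableSet C := measurableSet_le measurable_snd measurable_const
  have h1 : p - P.real B - P.real C ≤ P.real (A \ (B ∪ C)) := by
    have e1 : P.real A ≤ P.real (A \ (B ∪ C)) + P.real (B ∪ C) := by
      calc P.real A ≤ P.real ((A \ (B ∪ C)) ∪ (B ∪ C)) :=
            measureReal_mono (by intro u hu; by_cases h : u ∈ B ∪ C
                                 · exact Or.inr h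
                                 · exact Or.inl ⟨hu, h⟩)
        _ ≤ _ := measureReal_union_le _ _
    have e2 : P.real (B ∪ C) ≤ P.real B + P.real C := measureReal_union_le _ _
    have e3 : P.real A = p := hT.2
    linarith
  have mD : MeasurableSet (A \ (B ∪ C)) := hA.diff (mB.union mC)
  have h2 : P.real (A \ (B ∪ C)) / 4 ≤ ∫ u in A, u.1 * u.2 ∂P := by
    calc P.real (A \ (B ∪ C)) / 4 = ∫ u in A \ (B ∪ C), (1 / 4 : ℝ) ∂P := by
          rw [setIntegral_const, smul_eq_mul]; ring
      _ ≤ ∫ u in A \ (B ∪ C), u.1 * u.2 ∂P := by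
          refine setIntegral_mono_on (integrable_const _).integrableOn h.int.integrableOn mD ?_
          rintro u ⟨_, hu⟩
          simp only [hB, hC, mem_union, Set.mem_ofPred_eq, not_or, not_le] at hu
          nlinarith [hu.1, hu.2]
      _ ≤ ∫ u in A, u.1 * u.2 ∂P :=
          setIntegral_mono_set h.int.integrableOn (ae_restrict_of_ae (nonneg_prod h))
            (Filter.Eventually.of_forall (fun u hu => hu.1))
  have h3 : 0 ≤ ∫ u in A, u.1 * u.2 ∂P :=
    integral_nonneg_of_ae (ae_restrict_of_ae (nonneg_prod h))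
  rw [nxt, le_div_iff₀ hm]
  have h4 : (p - P.real B - P.real C) / 4 ≤ ∫ u in A, u.1 * u.2 ∂P := by linarith
  rcases le_or_gt 0 ((p - P.real B - P.real C) / 4) with h5 | h5
  · nlinarith
  · nlinarith

end Pool.Agent.V11332.Lorenz
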