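import Mathlib

/-!
The record harmonic series `∑ I_n / n`, `I_n` independent Bernoulli(1/n).  The index is shifted:
`I n` here is `I_{n+1}` of the text.
-/

namespace Pool.Agent.V11332.RecHarm

open MeasureTheory ProbabilityTheory Set Filter Topology

variable {Ω : Type*} [MeasurableSpace Ω] {P : Measure Ω} {I : ℕ → Ω → ℝ}

structure Rec (P : Measure Ω) (I : ℕ → Ω → ℝ) : Prop where
  prob : IsProbabilityMeasure P
  meas : ∀ n, Measurable (I n)
  val : ∀ n ω, I n ω = 0 ∨ I n ω = 1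
  indep : iIndepFun I P
  one : ∀ n : ℕ, P.real {ω | I n ω = 1} = 1 / ((n : ℝ) + 1)

/-- The partial series over the indices in `A`. -/
noncomputable def X (I : ℕ → Ω → ℝ) (A : Set ℕ) (ω : Ω) : ℝ :=
  ∑' m : ℕ, A.indicator (fun m : ℕ => I m ω / ((m : ℝ) + 1)) m

omit [MeasurableSpace Ω] in
lemma term_nonneg (h : ∀ n ω, I n ω = 0 ∨ I n ω = 1) (m : ℕ) (ω : Ω) :
    0 ≤ I m ω / ((m : ℝ) + 1) := by
  have : 0 ≤ I m ω := by rcases h m ω with h | h <;> rw [h]; exact zero_le_one
  positivity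

omit [MeasurableSpace Ω] in
lemma ind_nonneg (h : ∀ n ω, I n ω = 0 ∨ I n ω = 1) (A : Set ℕ) (m : ℕ) (ω : Ω) :
    0 ≤ A.indicator (fun m : ℕ => I m ω / ((m : ℝ) + 1)) m :=
  Set.indicator_nonneg (fun _ _ => term_nonneg h _ _) _

lemma X_nonneg (h : Rec P I) (A : Set ℕ) (ω : Ω) : 0 ≤ X I A ω :=
  tsum_nonneg fun m => ind_nonneg h.val A m ω

omit [MeasurableSpace Ω] in
lemma X_eq_toReal (h : ∀ n ω, I n ω = 0 ∨ I n ω = 1) (A : Set ℕ) (ω : Ω) : X I A ω =
    (∑' m : ℕ, ENNReal.ofReal (A.indicator (fun m : ℕ => I m ω / ((m : ℝ) + 1)) m)).toReal := by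
  rw [ENNReal.tsum_toReal_eq (fun _ => ENNReal.ofReal_ne_top)]
  refine tsum_congr fun m => ?_
  rw [ENNReal.toReal_ofReal (ind_nonneg h A m ω)]

omit [MeasurableSpace Ω] in
lemma meas_X_of (h : ∀ n ω, I n ω = 0 ∨ I n ω = 1) (A : Set ℕ) (m' : MeasurableSpace Ω)
    (hA : ∀ n ∈ A, Measurable[m'] (I n)) : Measurable[m'] (X I A) := by
  have : X I A = fun ω =>
    (∑' m : ℕ, ENNReal.ofReal (A.indicator (fun m : ℕ => I m ω / ((m : ℝ) + 1)) m)).toReal :=
    funext (X_eq_toReal h A)
  rw [this]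
  refine Measurable.ennreal_toReal (Measurable.tsum fun n => ?_)
  refine Measurable.ennreal_ofReal ?_
  by_cases hn : n ∈ A
  · simp only [Set.indicator_of_mem hn]
    exact (hA n hn).div_const _
  · simp only [Set.indicator_of_notMem hn]
    exact measurable_const

lemma meas_X (h : Rec P I) (A : Set ℕ) : Measurable (X I A) :=
  meas_X_of h.val A _ fun n _ => h.meas n

lemma indep_X (h : Rec P I) {A : Set ℕ} {n : ℕ} (hn : n ∉ A) : IndepFun (I n) (X I A) P := by
  have h1 := indep_iSup_of_disjoint (m := fun i => MeasurableSpace.comap (I i) inferInstance)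
    (fun i => (h.meas i).comap_le) h.indep (Set.disjoint_singleton_left.2 hn)
  have h2 : MeasurableSpace.comap (I n) inferInstance ≤
      ⨆ i ∈ ({n} : Set ℕ), MeasurableSpace.comap (I i) inferInstance :=
    le_iSup₂_of_le n (mem_singleton n) le_rfl
  have h3 : MeasurableSpace.comap (X I A) inferInstance ≤
      ⨆ i ∈ A, MeasurableSpace.comap (I i) inferInstance := by
    refine Measurable.comap_le (meas_X_of h.val A _ fun i hi => ?_)
    rw [measurable_iff_comap_le]
    exact le_iSup₂_of_le i hi le_rfl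
  exact indep_of_indep_of_le_left (indep_of_indep_of_le_right h1 h3) h2

lemma lint_term (h : Rec P I) (m : ℕ) :
    ∫⁻ ω, ENNReal.ofReal (I m ω / ((m : ℝ) + 1)) ∂P =
      ENNReal.ofReal (1 / ((m : ℝ) + 1) ^ 2) := by
  have := h.prob
  have h1 : (fun ω => ENNReal.ofReal (I m ω / ((m : ℝ) + 1))) =
      {ω | I m ω = 1}.indicator (fun _ => ENNReal.ofReal (1 / ((m : ℝ) + 1))) := by
    funext ω
    rcases h.val m ω with h2 | h2
    · rw [Set.indicator_of_notMem (by simp only [Set.mem_ofPred_eq, h2]; norm_num), h2]; simp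
    · rw [Set.indicator_of_mem (by simp only [Set.mem_ofPred_eq, h2]), h2]
  have hms : MeasurableSet {ω | I m ω = 1} := h.meas m (measurableSet_singleton 1)
  rw [h1, lintegral_indicator_const hms,
    show P {ω | I m ω = 1} = ENNReal.ofReal (1 / ((m : ℝ) + 1)) by
      rw [← h.one m, ofReal_measureReal],
    ← ENNReal.ofReal_mul (by positivity)]
  congr 1
  field_simp

lemma aesum (h : Rec P I) : ∀ᵐ ω ∂P, Summable fun m : ℕ => I m ω / ((m : ℝ) + 1) := by
  have h1 : ∫⁻ ω, ∑' m : ℕ, ENNReal.ofReal (I m ω / ((m : ℝ) + 1)) ∂P ≠ ⊤ := by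
    rw [lintegral_tsum (fun m => ((h.meas m).div_const _).ennreal_ofReal.aemeasurable)]
    simp_rw [lint_term h]
    rw [← ENNReal.ofReal_tsum_of_nonneg (fun _ => by positivity)]
    · exact ENNReal.ofReal_ne_top
    · have := (summable_nat_add_iff 1).2 (Real.summable_one_div_nat_pow.2 one_lt_two)
      simpa using this
  have h2 := ae_lt_top (Measurable.tsum fun m =>
    ((h.meas m).div_const _).ennreal_ofReal) h1
  filter_upwards [h2] with ω hω
  have h3 := ENNReal.summable_toReal hω.ne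
  refine h3.congr fun m => ?_
  rw [ENNReal.toReal_ofReal (term_nonneg h.val m ω)]

omit [MeasurableSpace Ω] in
lemma summ_ind {ω : Ω} (hs : Summable fun m : ℕ => I m ω / ((m : ℝ) + 1)) (A : Set ℕ) :
    Summable fun m : ℕ => A.indicator (fun m : ℕ => I m ω / ((m : ℝ) + 1)) m :=
  hs.indicator A

omit [MeasurableSpace Ω] in
lemma X_union {ω : Ω} (hs : Summable fun m : ℕ => I m ω / ((m : ℝ) + 1)) {A B : Set ℕ}
    (hd : Disjoint A B) : X I (A ∪ B) ω = X I A ω + X I B ω := by
  unfold X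
  rw [← (summ_ind hs A).tsum_add (summ_ind hs B)]
  refine tsum_congr fun m => ?_
  rw [Set.indicator_union_of_disjoint hd]

omit [MeasurableSpace Ω] in
lemma X_singleton (n : ℕ) (ω : Ω) : X I {n} ω = I n ω / ((n : ℝ) + 1) := by
  unfold X
  rw [tsum_eq_single n]
  · simp
  · intro m hm
    simp [hm]

omit [MeasurableSpace Ω] in
lemma X_insert {ω : Ω} (hs : Summable fun m : ℕ => I m ω / ((m : ℝ) + 1)) {A : Set ℕ} {n : ℕ}
    (hn : n ∉ A) : X I (insert n A) ω = I n ω / ((n : ℝ) + 1) + X I A ω := by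
  rw [Set.insert_eq, X_union hs (Set.disjoint_singleton_left.2 hn), X_singleton]

lemma X_mono {ω : Ω} (h : Rec P I) (hs : Summable fun m : ℕ => I m ω / ((m : ℝ) + 1))
    {A B : Set ℕ} (hAB : A ⊆ B) : X I A ω ≤ X I B ω := by
  unfold X
  refine (summ_ind hs A).tsum_le_tsum ?_ (summ_ind hs B)
  intro m
  exact Set.indicator_le_indicator_of_subset hAB (fun _ => term_nonneg h.val _ _) m

lemma zero_prob (h : Rec P I) (n : ℕ) : P.real {ω | I n ω = 0} = 1 - 1 / ((n : ℝ) + 1) := by
  have := h.prob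
  have hms : MeasurableSet {ω | I n ω = 1} := h.meas n (measurableSet_singleton 1)
  rw [← h.one n, ← probReal_compl_eq_one_sub hms]
  congr 1
  ext ω
  simp only [Set.mem_ofPred_eq, mem_compl_iff, mem_preimage, mem_singleton_iff]
  rcases h.val n ω with h1 | h1 <;> rw [h1] <;> norm_num

lemma split_one (h : Rec P I) {A : Set ℕ} {n : ℕ} (hn : n ∉ A) {B : Set ℝ}
    (hB : MeasurableSet B) :
    P.real {ω | I n ω = 1 ∧ X I (insert n A) ω ∈ B} =
      1 / ((n : ℝ) + 1) * P.real {ω | X I A ω + 1 / ((n : ℝ) + 1) ∈ B} := by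
  have := h.prob
  have hB' : MeasurableSet {x : ℝ | x + 1 / ((n : ℝ) + 1) ∈ B} :=
    (measurable_id.add_const _) hB
  have h1 := (indep_X h hn).measure_inter_preimage_eq_mul {1} _ (measurableSet_singleton 1) hB'
  have h2 : P.real (I n ⁻¹' {1} ∩ X I A ⁻¹' {x : ℝ | x + 1 / ((n : ℝ) + 1) ∈ B}) =
      P.real (I n ⁻¹' {1}) * P.real (X I A ⁻¹' {x : ℝ | x + 1 / ((n : ℝ) + 1) ∈ B}) := by
    rw [measureReal_def, h1, ENNReal.toReal_mul]; rfl
  have h3 : P.real (I n ⁻¹' {1}) = 1 / ((n : ℝ) + 1) := h.one n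
  rw [h3] at h2
  change _ = 1 / ((n : ℝ) + 1) * P.real (X I A ⁻¹' {x : ℝ | x + 1 / ((n : ℝ) + 1) ∈ B})
  rw [← h2]
  refine measureReal_congr ?_
  filter_upwards [aesum h] with ω hs
  simp only [eq_iff_iff]
  change (I n ω = 1 ∧ X I (insert n A) ω ∈ B) ↔ (I n ω = 1 ∧ X I A ω + 1 / ((n : ℝ) + 1) ∈ B)
  refine and_congr_right fun h4 => ?_
  rw [X_insert hs hn, h4, add_comm]

lemma split_zero (h : Rec P I) {A : Set ℕ} {n : ℕ} (hn : n ∉ A) {B : Set ℝ}
    (hB : MeasurableSet B) :
    P.real {ω | I n ω = 0 ∧ X I (insert n A) ω ∈ B} =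
      (1 - 1 / ((n : ℝ) + 1)) * P.real {ω | X I A ω ∈ B} := by
  have := h.prob
  have h1 := (indep_X h hn).measure_inter_preimage_eq_mul {0} _ (measurableSet_singleton 0) hB
  have h2 : P.real (I n ⁻¹' {0} ∩ X I A ⁻¹' B) =
      P.real (I n ⁻¹' {0}) * P.real (X I A ⁻¹' B) := by
    rw [measureReal_def, h1, ENNReal.toReal_mul]; rfl
  have h3 : P.real (I n ⁻¹' {0}) = 1 - 1 / ((n : ℝ) + 1) := zero_prob h n
  rw [h3] at h2
  change _ = (1 - 1 / ((n : ℝ) + 1)) * P.real (X I A ⁻¹' B)
  rw [← h2]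
  refine measureReal_congr ?_
  filter_upwards [aesum h] with ω hs
  simp only [eq_iff_iff]
  change (I n ω = 0 ∧ X I (insert n A) ω ∈ B) ↔ (I n ω = 0 ∧ X I A ω ∈ B)
  refine and_congr_right fun h4 => ?_
  rw [X_insert hs hn, h4, zero_div, zero_add]

lemma split (h : Rec P I) {A : Set ℕ} {n : ℕ} (hn : n ∉ A) {B : Set ℝ}
    (hB : MeasurableSet B) :
    P.real {ω | X I (insert n A) ω ∈ B} =
      1 / ((n : ℝ) + 1) * P.real {ω | X I A ω + 1 / ((n : ℝ) + 1) ∈ B} +
      (1 - 1 / ((n : ℝ) + 1)) * P.real {ω | X I A ω ∈ B} := by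
  have := h.prob
  rw [← split_one h hn hB, ← split_zero h hn hB, ← measureReal_union]
  · congr 1
    ext ω
    simp only [Set.mem_ofPred_eq, mem_union]
    rcases h.val n ω with h1 | h1 <;> rw [h1] <;> norm_num
  · rw [Set.disjoint_left]
    rintro ω ⟨h1, _⟩ ⟨h2, _⟩
    rw [h1] at h2
    norm_num at h2
  · exact (h.meas n (measurableSet_singleton 0)).inter (meas_X h _ hB)

/-- Leave one out. -/
lemma loo (h : Rec P I) {A : Set ℕ} {n : ℕ} (hn : n ∈ A) (hn1 : 1 ≤ n) {B : Set ℝ}
    (hB : MeasurableSet B) :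
    P.real {ω | I n ω = 1 ∧ X I A ω ∈ B} ≤
      1 / (n : ℝ) * P.real {ω | X I A ω + 1 / ((n : ℝ) + 1) ∈ B} := by
  have := h.prob
  have hA : insert n (A \ {n}) = A := by
    rw [Set.insert_sdiff_singleton, Set.insert_eq_of_mem hn]
  have hn' : n ∉ A \ {n} := fun h => h.2 rfl
  have hB' : MeasurableSet {x : ℝ | x + 1 / ((n : ℝ) + 1) ∈ B} :=
    (measurable_id.add_const _) hB
  have h1 := split_one h hn' hB
  have h2 := split_zero h hn' hB'
  rw [hA] at h1 h2
  have h3 : P.real {ω | I n ω = 0 ∧ X I A ω ∈ {x : ℝ | x + 1 / ((n : ℝ) + 1) ∈ B}} ≤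
      P.real {ω | X I A ω + 1 / ((n : ℝ) + 1) ∈ B} :=
    measureReal_mono (fun ω hω => hω.2)
  have hn0 : (0 : ℝ) < n := by exact_mod_cast hn1
  rw [h2] at h3
  have h4 : {ω | X I (A \ {n}) ω ∈ {x : ℝ | x + 1 / ((n : ℝ) + 1) ∈ B}} =
      {ω | X I (A \ {n}) ω + 1 / ((n : ℝ) + 1) ∈ B} := rfl
  rw [h4] at h3
  rw [h1]
  calc 1 / ((n : ℝ) + 1) * P.real {ω | X I (A \ {n}) ω + 1 / ((n : ℝ) + 1) ∈ B}
      = 1 / (n : ℝ) * ((1 - 1 / ((n : ℝ) + 1)) *
        P.real {ω | X I (A \ {n}) ω + 1 / ((n : ℝ) + 1) ∈ B}) := by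
        field_simp
        ring
    _ ≤ _ := mul_le_mul_of_nonneg_left h3 (by positivity)

/-- The tail is small. -/
lemma tail (h : Rec P I) {N : ℕ} (hN : 1 ≤ N) {ε : ℝ} (hε : 0 < ε) :
    P.real {ω | ε ≤ X I (Ici N) ω} ≤ 1 / (N * ε) := by
  have := h.prob
  have hN0 : (0 : ℝ) < N := by exact_mod_cast hN
  have hlint : ∫⁻ ω, ENNReal.ofReal (X I (Ici N) ω) ∂P ≤ ENNReal.ofReal (1 / N) := by
    calc ∫⁻ ω, ENNReal.ofReal (X I (Ici N) ω) ∂P
        ≤ ∫⁻ ω, ∑' m : ℕ, ENNReal.ofReal
          ((Ici N).indicator (fun m : ℕ => I m ω / ((m : ℝ) + 1)) m) ∂P := by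
          refine lintegral_mono fun ω => ?_
          rw [X_eq_toReal h.val]
          exact ENNReal.ofReal_toReal_le
      _ = ∑' m : ℕ, ∫⁻ ω, ENNReal.ofReal
          ((Ici N).indicator (fun m : ℕ => I m ω / ((m : ℝ) + 1)) m) ∂P := by
          refine lintegral_tsum fun m => ?_
          refine (Measurable.ennreal_ofReal ?_).aemeasurable
          by_cases hm : m ∈ Ici N
          · simp only [Set.indicator_of_mem hm]
            exact (h.meas m).div_const _
          · simp only [Set.indicator_of_notMem hm]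
            exact measurable_const
      _ = ∑' m : ℕ, ENNReal.ofReal ((Ici N).indicator (fun m : ℕ => 1 / ((m : ℝ) + 1) ^ 2) m) := by
          refine tsum_congr fun m => ?_
          by_cases hm : m ∈ Ici N
          · simp only [Set.indicator_of_mem hm]
            exact lint_term h m
          · simp only [Set.indicator_of_notMem hm]
            simp
      _ ≤ ENNReal.ofReal (1 / N) := by
          rw [ENNReal.tsum_eq_iSup_nat]
          refine iSup_le fun K => ?_
          rw [← ENNReal.ofReal_sum_of_nonneg (fun m _ => Set.indicator_nonneg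
            (fun _ _ => by positivity) _)]
          refine ENNReal.ofReal_le_ofReal ?_
          -- telescoping bound
          have key : ∀ K : ℕ, ∑ m ∈ Finset.range K,
              (Ici N).indicator (fun m : ℕ => 1 / ((m : ℝ) + 1) ^ 2) m ≤
              1 / (N : ℝ) - 1 / ((max N K : ℕ) : ℝ) := by
            intro K
            induction K with
            | zero => simp
            | succ K ih =>
              rw [Finset.sum_range_succ]
              by_cases hK : N ≤ K
              · rw [Set.indicator_of_mem (show K ∈ Ici N from hK)]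
                rw [max_eq_right hK] at ih
                rw [max_eq_right (by omega : N ≤ K + 1)]
                have hK0 : (0 : ℝ) < K := by exact_mod_cast (by omega : 0 < K)
                have e1 : 1 / ((K : ℝ) + 1) ^ 2 ≤ 1 / (K : ℝ) - 1 / ((K : ℝ) + 1) := by
                  rw [div_sub_div _ _ hK0.ne' (by positivity),
                    div_le_div_iff₀ (by positivity) (by positivity)]
                  nlinarith
                push_cast
                linarith
              · rw [Set.indicator_of_notMem (show K ∉ Ici N from hK), add_zero]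
                rw [max_eq_left (by omega : K ≤ N)] at ih
                rw [max_eq_left (by omega : K + 1 ≤ N)]
                exact ih
          refine (key K).trans ?_
          have : (0 : ℝ) ≤ 1 / ((max N K : ℕ) : ℝ) := by positivity
          linarith
  have hmk := mul_meas_ge_le_lintegral₀ (μ := P)
    ((meas_X h (Ici N)).ennreal_ofReal.aemeasurable) (ENNReal.ofReal ε)
  have h1 : P {ω | ENNReal.ofReal ε ≤ ENNReal.ofReal (X I (Ici N) ω)} =
      P {ω | ε ≤ X I (Ici N) ω} := by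
    congr 1
    ext ω
    simp only [Set.mem_ofPred_eq]
    rw [ENNReal.ofReal_le_ofReal_iff (X_nonneg h _ _)]
  rw [h1] at hmk
  have h2 := hmk.trans hlint
  have h3 := ENNReal.toReal_mono ENNReal.ofReal_ne_top h2
  rw [ENNReal.toReal_mul, ENNReal.toReal_ofReal hε.le, ENNReal.toReal_ofReal (by positivity)] at h3
  rw [le_div_iff₀ (by positivity)]
  change ε * P.real {ω | ε ≤ X I (Ici N) ω} ≤ 1 / N at h3
  rw [le_div_iff₀ hN0] at h3
  linarith

end Pool.Agent.V11332.RecHarm
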