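import Mathlib

set_option autoImplicit false

namespace Pool.Agent.V11332.CE

open Set Filter Topology

/-- positive derivative: the function is larger just to the right -/
theorem ev_right {f : ℝ → ℝ} {d z : ℝ} (h : HasDerivAt f d z) (hd : 0 < d) :
    ∀ᶠ t in 𝓝[>] z, f z < f t := by
  have h1 := h.tendsto_slope
  have h2 : ∀ᶠ t in 𝓝[≠] z, 0 < slope f z t := h1.eventually (lt_mem_nhds hd)
  have h3 : ∀ᶠ t in 𝓝[>] z, 0 < slope f z t :=
    h2.filter_mono (nhdsWithin_mono z (fun t ht => ne_of_gt ht))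
  filter_upwards [h3, self_mem_nhdsWithin] with t ht hzt
  rw [slope_def_field] at ht
  have h4 : 0 < t - z := sub_pos.2 hzt
  have := (div_pos_iff_of_pos_right h4).1 ht
  linarith

theorem ev_left {f : ℝ → ℝ} {d z : ℝ} (h : HasDerivAt f d z) (hd : 0 < d) :
    ∀ᶠ t in 𝓝[<] z, f t < f z := by
  have h1 := h.tendsto_slope
  have h2 : ∀ᶠ t in 𝓝[≠] z, 0 < slope f z t := h1.eventually (lt_mem_nhds hd)
  have h3 : ∀ᶠ t in 𝓝[<] z, 0 < slope f z t :=
    h2.filter_mono (nhdsWithin_mono z (fun t ht => ne_of_lt ht))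
  filter_upwards [h3, self_mem_nhdsWithin] with t ht hzt
  rw [slope_def_field] at ht
  have h4 : t - z < 0 := sub_neg.2 hzt
  have h5 : f t - f z = (f t - f z) / (t - z) * (t - z) := by
    field_simp [h4.ne]
  nlinarith [mul_neg_of_pos_of_neg ht h4]

section
variable {f f' : ℝ → ℝ} {a b : ℝ}

theorem key_neg (hd : ∀ x ∈ Ioo a b, HasDerivAt f (f' x) x) (hz : ∀ x ∈ Ioo a b, f x = 0 → 0 < f' x)
    {x y : ℝ} (hx : x ∈ Ioo a b) (hy : y ∈ Ioo a b) (hxy : x < y) (hfx : 0 ≤ f x) (hfy : f y < 0) :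
    False := by
  have hcont : ContinuousOn f (Icc x y) := fun t ht =>
    (hd t ⟨lt_of_lt_of_le hx.1 ht.1, lt_of_le_of_lt ht.2 hy.2⟩).continuousAt.continuousWithinAt
  set S : Set ℝ := {t | t ∈ Icc x y ∧ 0 ≤ f t} with hS
  have hScl : IsClosed S := by
    have : S = Icc x y ∩ f ⁻¹' (Ici 0) := by ext t; simp [hS]
    rw [this]
    exact hcont.preimage_isClosed_of_isClosed isClosed_Icc isClosed_Ici
  have hSc : IsCompact S := isCompact_Icc.of_isClosed_subset hScl (fun t ht => ht.1)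
  obtain ⟨z, hzS, hzmax⟩ := hSc.exists_isGreatest ⟨x, ⟨le_rfl, hxy.le⟩, hfx⟩
  have hzy : z < y := by
    rcases hzS.1.2.lt_or_eq with h | h
    · exact h
    · exfalso; rw [h] at hzS; exact absurd hzS.2 (not_le.2 hfy)
  have hneg : ∀ t ∈ Ioc z y, f t < 0 := by
    intro t ht
    by_contra hc
    push Not at hc
    exact absurd (hzmax ⟨⟨hzS.1.1.trans ht.1.le, ht.2⟩, hc⟩) (not_le.2 ht.1)
  have hzab : z ∈ Ioo a b := ⟨lt_of_lt_of_le hx.1 hzS.1.1, hzy.trans hy.2⟩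
  have hfz : f z = 0 := by
    apply le_antisymm _ hzS.2
    have hc : ContinuousWithinAt f (Ioi z) z := (hd z hzab).continuousAt.continuousWithinAt
    apply le_of_tendsto hc
    have : Ioc z y ∈ 𝓝[>] z := Ioc_mem_nhdsGT hzy
    filter_upwards [this] with t ht using (hneg t ht).le
  have h1 := ev_right (hd z hzab) (hz z hzab hfz)
  have h2 : Ioc z y ∈ 𝓝[>] z := Ioc_mem_nhdsGT hzy
  obtain ⟨t, ht1, ht2⟩ := (h1.and h2).exists
  rw [hfz] at ht1
  exact absurd (hneg t ht2) (not_lt.2 ht1.le)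

theorem key_nonpos (hd : ∀ x ∈ Ioo a b, HasDerivAt f (f' x) x) (hz : ∀ x ∈ Ioo a b, f x = 0 → 0 < f' x)
    {x y : ℝ} (hx : x ∈ Ioo a b) (hy : y ∈ Ioo a b) (hxy : x < y) (hfy : f y ≤ 0) : f x < 0 := by
  by_contra hc
  push Not at hc
  rcases hfy.lt_or_eq with h | h
  · exact key_neg hd hz hx hy hxy hc h
  · have h1 := ev_left (hd y hy) (hz y hy h)
    have h2 : Ioo x y ∈ 𝓝[<] y := Ioo_mem_nhdsLT hxy
    obtain ⟨t, ht1, ht2⟩ := (h1.and h2).exists
    rw [h] at ht1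
    exact key_neg hd hz hx ⟨hx.1.trans ht2.1, ht2.2.trans hy.2⟩ ht2.1 hc ht1

/-- all zeros are up-crossings: one sign change from minus to plus -/
theorem up_only (hab : a ≤ b) (hd : ∀ x ∈ Ioo a b, HasDerivAt f (f' x) x)
    (hz : ∀ x ∈ Ioo a b, f x = 0 → 0 < f' x) :
    ∃ c ∈ Icc a b, (∀ x ∈ Ioo a c, f x < 0) ∧ (∀ x ∈ Ioo c b, 0 < f x) := by
  set S : Set ℝ := insert a {x | x ∈ Ioo a b ∧ f x < 0} with hS
  have hne : S.Nonempty := ⟨a, mem_insert _ _⟩
  have hbd : BddAbove S := by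
    refine ⟨b, ?_⟩
    rintro x (rfl | hx)
    · exact hab
    · exact hx.1.2.le
  have hac : a ≤ sSup S := le_csSup hbd (mem_insert _ _)
  have hcb : sSup S ≤ b := csSup_le hne (by
    rintro x (rfl | hx)
    · exact hab
    · exact hx.1.2.le)
  refine ⟨sSup S, ⟨hac, hcb⟩, ?_, ?_⟩
  · intro x hx
    obtain ⟨y, hyS, hxy⟩ := exists_lt_of_lt_csSup hne hx.2
    rcases hyS with rfl | hy
    · exact absurd hx.1 (not_lt.2 hxy.le)
    · exact key_nonpos hd hz ⟨hx.1, hx.2.trans_le hcb⟩ hy.1 hxy hy.2.le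
  · intro x hx
    have hxab : x ∈ Ioo a b := ⟨lt_of_le_of_lt hac hx.1, hx.2⟩
    by_contra hc
    push Not at hc
    obtain ⟨w, hw1, hw2⟩ := exists_between hx.1
    have hw : w ∈ Ioo a b := ⟨lt_of_le_of_lt hac hw1, hw2.trans hx.2⟩
    have := key_nonpos hd hz hw hxab hw2 hc
    have h2 : w ≤ sSup S := le_csSup hbd (Or.inr ⟨hw, this⟩)
    exact absurd hw1 (not_lt.2 h2)

theorem down_only (hab : a ≤ b) (hd : ∀ x ∈ Ioo a b, HasDerivAt f (f' x) x)
    (hz : ∀ x ∈ Ioo a b, f x = 0 → f' x < 0) :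
    ∃ c ∈ Icc a b, (∀ x ∈ Ioo a c, 0 < f x) ∧ (∀ x ∈ Ioo c b, f x < 0) := by
  obtain ⟨c, hc, h1, h2⟩ := up_only (f := fun x => - f x) (f' := fun x => - f' x) hab
    (fun x hx => (hd x hx).neg) (fun x hx h => by
      have := hz x hx (by simpa using h)
      simpa using this)
  exact ⟨c, hc, fun x hx => by simpa using h1 x hx, fun x hx => by simpa using h2 x hx⟩

end

/-- on an interval where `M` is continuous and injective, the equation `|M| = l` has at most one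
solution more than the equation `M = 0`. -/
theorem piece {M : ℝ → ℝ} {J : Set ℝ} {l : ℝ} (hl : 0 < l) (hJ : J.OrdConnected)
    (hc : ContinuousOn M J) (hi : InjOn M J) :
    {x | x ∈ J ∧ |M x| = l}.encard ≤ 1 + {x | x ∈ J ∧ M x = 0}.encard := by
  have hsub : {x | x ∈ J ∧ |M x| = l} ⊆ {x | x ∈ J ∧ M x = l} ∪ {x | x ∈ J ∧ M x = - l} := by
    rintro x ⟨hx, h⟩
    rcases (abs_eq hl.le).1 h with h | h
    · exact Or.inl ⟨hx, h⟩
    · exact Or.inr ⟨hx, h⟩
  have h1 : {x | x ∈ J ∧ M x = l}.encard ≤ 1 := by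
    rw [encard_le_one_iff]
    rintro x y ⟨hx, h⟩ ⟨hy, h'⟩
    exact hi hx hy (h.trans h'.symm)
  have h2 : {x | x ∈ J ∧ M x = - l}.encard ≤ 1 := by
    rw [encard_le_one_iff]
    rintro x y ⟨hx, h⟩ ⟨hy, h'⟩
    exact hi hx hy (h.trans h'.symm)
  by_cases hz : ∃ z ∈ J, M z = 0
  · obtain ⟨z, hzJ, hz⟩ := hz
    have h3 : 1 ≤ {x | x ∈ J ∧ M x = 0}.encard := by
      rw [one_le_encard_iff_nonempty]
      exact ⟨z, hzJ, hz⟩
    calc _ ≤ ({x | x ∈ J ∧ M x = l} ∪ {x | x ∈ J ∧ M x = - l}).encard := encard_le_encard hsub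
      _ ≤ {x | x ∈ J ∧ M x = l}.encard + {x | x ∈ J ∧ M x = - l}.encard := encard_union_le _ _
      _ ≤ 1 + 1 := add_le_add h1 h2
      _ ≤ 1 + {x | x ∈ J ∧ M x = 0}.encard := add_le_add le_rfl h3
  · push Not at hz
    have h4 : {x | x ∈ J ∧ |M x| = l}.encard ≤ 1 := by
      rw [encard_le_one_iff]
      rintro x y ⟨hx, h⟩ ⟨hy, h'⟩
      have key : ∀ p q, p ∈ J → q ∈ J → M p = l → M q = - l → False := by
        intro p q hp hq hMp hMq
        have hsub : uIcc p q ⊆ J := hJ.uIcc_subset hp hq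
        have : (0 : ℝ) ∈ M '' uIcc p q := by
          apply intermediate_value_uIcc (hc.mono hsub)
          rw [hMp, hMq, mem_uIcc]
          right
          constructor <;> linarith
        obtain ⟨z, hz1, hz2⟩ := this
        exact hz z (hsub hz1) hz2
      rcases (abs_eq hl.le).1 h with h | h <;> rcases (abs_eq hl.le).1 h' with h' | h'
      · exact hi hx hy (h.trans h'.symm)
      · exact (key x y hx hy h h').elim
      · exact (key y x hy hx h' h).elim
      · exact hi hx hy (h.trans h'.symm)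
    exact h4.trans (by simp)

end Pool.Agent.V11332.CE
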