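import Mathlib

set_option autoImplicit false

namespace Pool.Agent.V11332.CE

/-- the polynomial `𝓑` -/
noncomputable def BB (K S C σ γ : ℝ) : ℝ :=
  K^5*C^4*σ^10+5*K^4*S*C^3*σ^7*γ^3+K^3*S*C^3*σ^5*γ^5
    +K*S^2*C^2*(γ^10+5*K*σ^2*γ^8+10*K^2*σ^4*γ^6)-5*K^3*S^3*C*σ^3*γ^7
    -K^4*S^3*C*σ^5*γ^5-K^2*S^4*γ^10

noncomputable def l3 (K S C σ γ : ℝ) : ℝ :=
  2*S^2*γ^6+S*C*σ*γ*(K^2*σ^4+6*K*σ^2*γ^2+γ^4)+2*K^2*C^2*σ^6

theorem delta_hom (K S C σ γ N Q s x G b : ℝ) (hN : N = σ^2+γ^2) (hQ : Q = γ^2+K*σ^2)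
    (hs : s = σ*C-γ*S) (hx : x = γ*C+σ*S) (hG : G = (1-K)*(S*γ^3+K*C*σ^3)) (hb : b = (1-K)*σ*γ) :
    K^2*((G*Q*x-K*b*N*s^2)*(G*Q*x-K*b*N*s^2+G*b*s)-G^3*s*N)
      = N*(1-K)^2*(K*C^2*S^2*Q^5-(1-K)*BB K S C σ γ) := by
  subst hN hQ hs hx hG hb
  unfold BB
  ring

/-- the derivative of `𝓑` along the rotation, written out -/
noncomputable def BBD (K S C σ γ : ℝ) : ℝ :=
  K^5*C^4*(10*σ^9*γ)+5*K^4*S*C^3*(7*σ^6*γ*γ^3+σ^7*(3*γ^2*(-σ)))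
      +K^3*S*C^3*(5*σ^4*γ*γ^5+σ^5*(5*γ^4*(-σ)))
    +K*S^2*C^2*(10*γ^9*(-σ)+5*K*(2*σ*γ*γ^8+σ^2*(8*γ^7*(-σ)))+10*K^2*(4*σ^3*γ*γ^6+σ^4*(6*γ^5*(-σ))))
    -5*K^3*S^3*C*(3*σ^2*γ*γ^7+σ^3*(7*γ^6*(-σ)))
    -K^4*S^3*C*(5*σ^4*γ*γ^5+σ^5*(5*γ^4*(-σ)))-K^2*S^4*(10*γ^9*(-σ))

theorem BB_deriv (K S C σ γ : ℝ) :
    BBD K S C σ γ*(γ^2+K*σ^2)
    -5*BB K S C σ γ*(2*γ*(-σ)+K*(2*σ*γ)) = (σ^2+γ^2)*(5*K^3*σ*γ*(σ*C-γ*S)^2*l3 K S C σ γ) := by
  unfold BB l3 BBD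
  ring

theorem psiD_alg (K ε s x Q b G3 b' G3' u : ℝ) (hr : s^2+x^2 = 1) (hb2 : b^2 = (1-Q)*(Q-K))
    (hb' : Q*b' = Q^2-K-b^2) (hG3 : G3 = b*Q*x-s*(Q^2-K)) (hG3' : G3' = 3*b*(Q*s-b*x))
    (hu : u = 1+ε*x) :
    Q*s*(ε^2*(3*s^2*x*Q^2+2*s^3*Q*(-2*b)) - ε*(b'*Q*s^2*u+b*(-2*b)*s^2*u+b*Q*(2*s*x)*u+b*Q*s^2*(-ε*s))
      - (G3'*u^2+G3*(2*u*(-ε*s)))) =
    3*u*(Q*G3*(x+ε)-K*b*s^2*u)+3*(Q*x-b*s)*(ε^2*s^3*Q^2-ε*b*Q*s^2*u-G3*u^2) := by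
  subst hu hG3 hG3'
  grind

theorem q2_pos (x ν : ℝ) (hx : 0 < x) (hν : 0 < ν)
    (hb : 0 ≤ x-ν*(1+5*x)-ν^2*(10*x^2+5*x^3+x^4)+ν^3*(5*x^2+x^3)-ν^4*x^2) :
    0 < 2*x*ν^2-(x^2+6*x+1)*ν+2*x := by
  have h1 : ν*(1+5*x) < x := by
    have : 0 < ν^2*x^2*(ν^2-(5+x)*ν+(x^2+5*x+10)) := by
      have : 0 < ν^2-(5+x)*ν+(x^2+5*x+10) := by nlinarith [sq_nonneg (2*ν-(5+x))]
      positivity
    nlinarith
  by_contra hc
  push Not at hc
  have hD : 0 < x^2+6*x+1 := by positivity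
  have h2 : 2*x ≤ (x^2+6*x+1)*ν := by nlinarith [mul_pos hx (pow_pos hν 2)]
  have h3 : ν < 1/5 := by
    by_contra h
    push Not at h
    nlinarith
  -- main bound
  have h4 : 0 ≤ x - ν*(1+5*x) - ν^2*x^2*(x^2+4.8*x+9) := by
    have : ν^2*x^2*(x^2+4.8*x+9) ≤ ν^2*x^2*(ν^2-(5+x)*ν+(x^2+5*x+10)) := by
      apply mul_le_mul_of_nonneg_left _ (by positivity)
      nlinarith [mul_pos hx hν, sq_nonneg ν]
    nlinarith
  have h5 : 0 ≤ (x^2+6*x+1)^2*(x - ν*(1+5*x) - ν^2*x^2*(x^2+4.8*x+9)) := by positivity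
  set w := (x^2+6*x+1)*ν with hw
  have h6 : (x^2+6*x+1)^2*(x - ν*(1+5*x) - ν^2*x^2*(x^2+4.8*x+9)) =
     (x^2+6*x+1)^2*x - (x^2+6*x+1)*w*(1+5*x) - w^2*x^2*(x^2+4.8*x+9) := by rw [hw]; ring
  rw [h6] at h5
  have h7 : (x^2+6*x+1)*(2*x)*(1+5*x) ≤ (x^2+6*x+1)*w*(1+5*x) := by
    gcongr
  have h8 : (2*x)^2*x^2*(x^2+4.8*x+9) ≤ w^2*x^2*(x^2+4.8*x+9) := by
    gcongr
  have h9 : 0 ≤ (x^2+6*x+1)^2*x - (x^2+6*x+1)*(2*x)*(1+5*x) - (2*x)^2*x^2*(x^2+4.8*x+9) := by linarith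
  have h10 : (x^2+6*x+1)^2*x - (x^2+6*x+1)*(2*x)*(1+5*x) - (2*x)^2*x^2*(x^2+4.8*x+9)
     = -(x+10*x^2+24*x^3+34*x^4+18.2*x^5+4*x^6) := by ring
  rw [h10] at h9
  have : 0 < x+10*x^2+24*x^3+34*x^4+18.2*x^5+4*x^6 := by positivity
  linarith

theorem l3_pos (K S C σ γ : ℝ) (hK : 0 < K) (hS : 0 < S) (hC : 0 < C) (hσ : 0 < σ) (hγ : γ < 0)
    (h : K*C^2*S^2*(γ^2+K*σ^2)^5 ≤ BB K S C σ γ) : 0 < l3 K S C σ γ := by
  have hg0 : γ ≠ 0 := hγ.ne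
  have hg2 : 0 < γ^2 := by positivity
  set x : ℝ := K*σ^2/γ^2 with hx
  have hg3 : 0 < -γ^3 := by nlinarith [mul_pos_of_neg_of_neg hγ hγ]
  set ν : ℝ := S*(-γ^3)/(K*C*σ^3) with hν
  have hx0 : 0 < x := by positivity
  have hν0 : 0 < ν := by positivity
  have e1 : BB K S C σ γ - K*C^2*S^2*(γ^2+K*σ^2)^5 =
      C^4*K^4*σ^8*γ^2*(x-ν*(1+5*x)-ν^2*(10*x^2+5*x^3+x^4)+ν^3*(5*x^2+x^3)-ν^4*x^2) := by
    unfold BB
    rw [hx, hν]
    field_simp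
    ring
  have e2 : l3 K S C σ γ = K*C^2*σ^4*γ^2*(2*x*ν^2-(x^2+6*x+1)*ν+2*x) := by
    unfold l3
    rw [hx, hν]
    field_simp
    ring
  rw [e2]
  have hb : 0 ≤ C^4*K^4*σ^8*γ^2*(x-ν*(1+5*x)-ν^2*(10*x^2+5*x^3+x^4)+ν^3*(5*x^2+x^3)-ν^4*x^2) := by
    rw [← e1]; linarith
  have hb' : 0 ≤ x-ν*(1+5*x)-ν^2*(10*x^2+5*x^3+x^4)+ν^3*(5*x^2+x^3)-ν^4*x^2 := by
    have h0 : 0 < C^4*K^4*σ^8*γ^2 := by positivity
    exact nonneg_of_mul_nonneg_right hb h0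
  have := q2_pos x ν hx0 hν0 hb'
  positivity

structure Rel (K S C s x σ γ Q b G : ℝ) : Prop where
  K0 : 0 < K
  K1 : K < 1
  S0 : 0 < S
  C0 : 0 < C
  SC : S^2+C^2 = 1
  s0 : 0 < s
  sx : s^2+x^2 = 1
  hσ : σ = s*C+x*S
  hγ : γ = x*C-s*S
  hQ : Q = γ^2+K*σ^2
  hb : b = (1-K)*σ*γ
  hG : G = (1-K)*(S*γ^3+K*C*σ^3)

namespace Rel

variable {K S C s x σ γ Q b G : ℝ} (R : Rel K S C s x σ γ Q b G)
include R

theorem sg : σ^2+γ^2 = 1 := by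
  rw [R.hσ, R.hγ]
  linear_combination (S^2+C^2)*R.sx + R.SC

theorem s_eq : s = σ*C-γ*S := by
  rw [R.hσ, R.hγ]; linear_combination (-s)*R.SC

theorem x_eq : x = γ*C+σ*S := by
  rw [R.hσ, R.hγ]; linear_combination (-x)*R.SC

theorem oneQ : 1-Q = (1-K)*σ^2 := by
  rw [R.hQ]; linear_combination (-1)*R.sg

theorem QK : Q-K = (1-K)*γ^2 := by
  rw [R.hQ]; linear_combination K*R.sg

theorem b2 : b^2 = (1-Q)*(Q-K) := by
  rw [R.oneQ, R.QK, R.hb]; ring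

theorem e1 : b*x+(1-Q)*s = (1-K)*σ*C := by
  rw [R.oneQ, R.hb]
  have h1 := R.s_eq
  have h2 := R.x_eq
  have h3 := R.sg
  rw [h1, h2]
  linear_combination (1-K)*σ*C*h3

theorem e2 : (1-Q)*x-b*s = (1-K)*σ*S := by
  rw [R.oneQ, R.hb]
  have h1 := R.s_eq
  have h2 := R.x_eq
  have h3 := R.sg
  rw [h1, h2]
  linear_combination (1-K)*σ*S*h3

theorem e3 : b*x-(Q-K)*s = (1-K)*γ*S := by
  rw [R.QK, R.hb]
  have h1 := R.s_eq
  have h2 := R.x_eq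
  have h3 := R.sg
  rw [h1, h2]
  linear_combination (1-K)*γ*S*h3

theorem G_eq : G = b*Q*x-s*(Q^2-K) := by
  have h1 := R.e3
  have h2 : b*Q*x-s*(Q^2-K) = Q*(b*x-(Q-K)*s)+K*(1-Q)*s := by ring
  rw [h2, h1, R.oneQ, R.s_eq, R.hQ, R.hG]
  ring

theorem Qpos : 0 < Q := by
  have h := R.hQ
  have h3 := R.sg
  have := R.K0
  have := R.K1
  have : Q = K + (1-K)*γ^2 := by rw [h]; linear_combination K*h3
  rw [this]
  have : 0 ≤ (1-K)*γ^2 := mul_nonneg (by linarith [R.K1]) (sq_nonneg _)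
  linarith

theorem Qle : Q ≤ 1 := by
  have := R.oneQ
  have : 0 ≤ (1-K)*σ^2 := mul_nonneg (by linarith [R.K1]) (sq_nonneg _)
  linarith [R.oneQ]

/-- Lemma A -/
theorem posA {Y : ℝ} (hσ : 0 < σ) (hY : 0 < Y) (hz : Y^2-b*Y = G/s) :
    0 < (G/s)*((Q*x/s)+Y)-K*b := by
  have hs := R.s0
  have hs0 : s ≠ 0 := hs.ne'
  have hK := R.K0
  have hK1 : 0 < 1-K := by linarith [R.K1]
  have hQ := R.Qpos
  have hQle := R.Qle
  have h1Q : 0 < 1-Q := by rw [R.oneQ]; positivity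
  set g : ℝ := G/s with hg
  set j : ℝ := Q*x/s with hj
  have hgs : g*s = G := by rw [hg]; field_simp
  have hjs : j*s = Q*x := by rw [hj]; field_simp
  -- (1-Q) j > Q b
  have h1 : Q*b < (1-Q)*j := by
    have : ((1-Q)*j-Q*b)*s = Q*((1-K)*σ*S) := by
      linear_combination (1-Q)*hjs + Q*R.e2
    have h2 : 0 < ((1-Q)*j-Q*b)*s := by
      rw [this]; have := R.S0; positivity
    have h3 := (pos_iff_pos_of_mul_pos h2).2 hs
    linarith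
  -- g - K(1-Q) = Q(1-K)γS/s
  have h2 : (g-K*(1-Q))*s = Q*((1-K)*γ*S) := by
    linear_combination hgs + R.G_eq + Q*R.e3
  rcases le_or_gt 0 γ with hγ | hγ
  · have hb : 0 ≤ b := by rw [R.hb]; positivity
    have h3 : K*(1-Q) ≤ g := by
      have h4 : 0 ≤ (g-K*(1-Q))*s := by
        rw [h2]; have := R.S0; positivity
      have := nonneg_of_mul_nonneg_left h4 hs
      linarith
    have hg0 : 0 < g := lt_of_lt_of_le (by positivity) h3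
    have hj0 : 0 < j := by
      have : 0 < (1-Q)*j := lt_of_le_of_lt (by positivity) h1
      exact (pos_iff_pos_of_mul_pos this).1 h1Q
    have hYb : b < Y := by
      have : 0 < Y*(Y-b) := by nlinarith
      have := (pos_iff_pos_of_mul_pos this).1 hY
      linarith
    have h5 : K*(1-Q)*(j+Y) ≤ g*(j+Y) := mul_le_mul_of_nonneg_right h3 (by positivity)
    nlinarith [mul_pos hK h1Q, mul_le_mul_of_nonneg_left hYb.le h1Q.le]
  · have hb : b < 0 := by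
      rw [R.hb]; exact mul_neg_of_pos_of_neg (by positivity) hγ
    have hg0 : 0 < g := by
      rw [← hz]
      have : 0 < -b*Y := mul_pos (by linarith) hY
      nlinarith [mul_pos hY hY]
    have h3 : g < K*(1-Q) := by
      have h4 : (g-K*(1-Q))*s < 0 := by
        rw [h2]
        have := R.S0
        have h5 : (1-K)*γ*S < 0 := by
          have : 0 < (1-K)*S := by positivity
          nlinarith
        exact mul_neg_of_pos_of_neg hQ h5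
      have := neg_of_mul_neg_left h4 hs.le
      linarith
    rcases le_or_gt 0 j with hj0 | hj0
    · have : 0 ≤ g*(j+Y) := by positivity
      nlinarith [mul_pos hK (neg_pos.2 hb)]
    · have h5 : K*(1-Q)*j < g*j := mul_lt_mul_of_neg_right h3 hj0
      have h6 : K*(Q*b) < K*((1-Q)*j) := mul_lt_mul_of_pos_left h1 hK
      have h7 : K*b ≤ K*(Q*b) := by
        apply mul_le_mul_of_nonneg_left _ hK.le
        nlinarith
      nlinarith [mul_pos hg0 hY]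

/-- Lemma B -/
theorem noB (hσ : σ ≤ 0) : b^2+4*(G/s) < 0 := by
  have hs := R.s0
  have hs0 : s ≠ 0 := hs.ne'
  have hK := R.K0
  have hK1 : 0 < 1-K := by linarith [R.K1]
  have hQ := R.Qpos
  have hQle := R.Qle
  set g : ℝ := G/s with hg
  have hgs : g*s = G := by rw [hg]; field_simp
  have hγ : γ < 0 := by
    have hx : x < 0 := by
      have h1 := R.hσ
      have : 0 < s*C := mul_pos hs R.C0
      have : x*S < 0 := by linarith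
      exact neg_of_mul_neg_left this R.S0.le
    rw [R.hγ]
    have h1 : x*C < 0 := mul_neg_of_neg_of_pos hx R.C0
    have h2 : 0 < s*S := mul_pos hs R.S0
    linarith
  have hγ0 : γ ≠ 0 := hγ.ne
  have hQK : 0 < Q-K := by rw [R.QK]; positivity
  -- b x ≤ -(1-Q) s
  have h1 : b*x ≤ -(1-Q)*s := by
    have h2 := R.e1
    have h3 : (1-K)*σ*C ≤ 0 := by
      have : 0 < (1-K)*C := mul_pos hK1 R.C0
      nlinarith
    linarith
  have h2 : g*s ≤ -(Q-K)*s := by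
    rw [hgs, R.G_eq]
    nlinarith [mul_le_mul_of_nonneg_left h1 hQ.le]
  have h3 : g ≤ -(Q-K) := le_of_mul_le_mul_right h2 hs
  have h4 := R.b2
  nlinarith [mul_pos hQ hQK]

theorem psi_eq {ε u : ℝ} (hu : u ≠ 0) :
    ε^2*s^3*Q^2-ε*b*Q*s^2*u-G*u^2 = s*u^2*((Q*ε*s/u)^2-b*(Q*ε*s/u)-G/s) := by
  have hs0 : s ≠ 0 := R.s0.ne'
  field_simp

theorem PT_eq {ε u : ℝ} (hu : u ≠ 0) (hu' : u = 1+ε*x) :
    Q*G*(x+ε)-K*b*s^2*u = u*s^2*((G/s)*((Q*x/s)+(Q*ε*s/u))-K*b) := by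
  have hs0 : s ≠ 0 := R.s0.ne'
  have h := R.sx
  have h1 : u*s^2*((G/s)*((Q*x/s)+(Q*ε*s/u))-K*b) = Q*G*(u*x+ε*s^2)-K*b*s^2*u := by
    field_simp
  rw [h1, hu']
  linear_combination (-Q*G*ε)*h

/-- zeros of `Ψ` for positive `ε` -/
theorem P1 {ε u : ℝ} (hε : 0 < ε) (hu : 0 < u) (hu' : u = 1+ε*x)
    (hz : ε^2*s^3*Q^2-ε*b*Q*s^2*u-G*u^2 = 0) : 0 < Q*G*(x+ε)-K*b*s^2*u := by
  have hs := R.s0
  have hQ := R.Qpos
  rw [R.psi_eq hu.ne'] at hz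
  have h1 : (Q*ε*s/u)^2-b*(Q*ε*s/u)-G/s = 0 := by
    rcases mul_eq_zero.1 hz with h | h
    · exact absurd h (by positivity)
    · exact h
  have hY : 0 < Q*ε*s/u := by positivity
  rcases le_or_gt σ 0 with hσ | hσ
  · exfalso
    have := R.noB hσ
    nlinarith [sq_nonneg (2*(Q*ε*s/u)-b)]
  · rw [R.PT_eq hu.ne' hu']
    have := R.posA hσ hY (by linarith)
    positivity

/-- the quantity `Δ` -/
theorem P2 {ε u : ℝ} (hε : ε < 0) (hu : 0 < u) (hu' : u = 1+ε*x)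
    (hz : ε^2*s^3*Q^2-ε*b*Q*s^2*u-G*u^2 = 0) :
    0 < σ ∧ (0 < (G*Q*x-K*b*s^2)*(G*Q*x-K*b*s^2+G*b*s)-G^3*s → 0 < Q*G*(x+ε)-K*b*s^2*u) ∧
      ((G*Q*x-K*b*s^2)*(G*Q*x-K*b*s^2+G*b*s)-G^3*s < 0 → Q*G*(x+ε)-K*b*s^2*u < 0) := by
  have hs := R.s0
  have hs0 : s ≠ 0 := R.s0.ne'
  have hQ := R.Qpos
  have hK := R.K0
  rw [R.psi_eq hu.ne'] at hz
  have h1 : (Q*ε*s/u)^2-b*(Q*ε*s/u)-G/s = 0 := by
    rcases mul_eq_zero.1 hz with h | h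
    · exact absurd h (by positivity)
    · exact h
  rw [R.PT_eq hu.ne' hu']
  have hY : 0 < -(Q*ε*s/u) := by
    rw [neg_pos]
    apply div_neg_of_neg_of_pos _ hu
    have : 0 < Q*s := by positivity
    nlinarith
  set Z : ℝ := -(Q*ε*s/u) with hZ
  have hZ' : Q*ε*s/u = -Z := by rw [hZ]; ring
  rw [hZ'] at h1 ⊢
  set g : ℝ := G/s with hg
  set j : ℝ := Q*x/s with hj
  have hgs : g*s = G := by rw [hg]; field_simp
  have hjs : j*s = Q*x := by rw [hj]; field_simp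
  have hΔ : (G*Q*x-K*b*s^2)*(G*Q*x-K*b*s^2+G*b*s)-G^3*s =
      s^4*((g*(j+-Z)-K*b)*(g*(j+(Z+b))-K*b)) := by
    have h2 : G*Q*x = g*j*s^2 := by rw [← hgs]; linear_combination (-g*s)*hjs
    rw [h2, ← hgs]
    have h3 : g = Z^2+b*Z := by linarith
    have h4 : (g*(j+-Z)-K*b)*(g*(j+(Z+b))-K*b) = (g*j-K*b)*(g*j-K*b+g*b)-g^2*(Z^2+b*Z) := by ring
    rw [h4, ← h3]
    ring
  rw [hΔ]
  rcases le_or_gt σ 0 with hσ | hσ
  · exfalso
    have := R.noB hσ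
    nlinarith [sq_nonneg (2*Z+b)]
  refine ⟨hσ, ?_⟩
  have hus : 0 < u*s^2 := by positivity
  have hs4 : 0 < s^4 := by positivity
  rcases le_or_gt g 0 with hg0 | hg0
  · -- b < 0 and both factors positive
    have hb : b < 0 := by
      by_contra hb
      push Not at hb
      nlinarith [mul_nonneg hb hY.le, mul_pos hY hY]
    have hbj : b*j = g+Q^2-K := by
      have : (b*j)*s = (g+Q^2-K)*s := by
        linear_combination b*hjs - hgs - R.G_eq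
      exact mul_right_cancel₀ hs0 this
    have key : ∀ y : ℝ, y^2+b*y = g → 0 < g*(j+-y)-K*b := by
      intro y hy
      have h2 : b*(g*(j+-y)-K*b) = g*(Q^2-K+y^2)-K*b^2 := by
        linear_combination g*hbj - g*hy
      have h3 : b*(g*(j+-y)-K*b) < 0 := by
        rw [h2]
        have hb0 : b ≠ 0 := hb.ne
        have hb2 : 0 < b^2 := by positivity
        have h5 : -4*g ≤ b^2 := by nlinarith [sq_nonneg (2*y+b)]
        rcases le_or_gt 0 (Q^2-K+y^2) with h6 | h6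
        · nlinarith [mul_nonneg (neg_nonneg.2 hg0) h6, mul_pos hK hb2]
        · have h7 : -(Q^2-K+y^2) ≤ K := by nlinarith [sq_nonneg y, sq_nonneg Q]
          have h8 : g*(Q^2-K+y^2) = (-g)*(-(Q^2-K+y^2)) := by ring
          rw [h8]
          have h9 : (-g)*(-(Q^2-K+y^2)) ≤ (-g)*K := mul_le_mul_of_nonneg_left h7 (by linarith)
          nlinarith [mul_pos hK hb2]
      have h4 := neg_iff_pos_of_mul_neg h3
      exact h4.1 hb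
    have k1 := key Z (by linarith)
    have k2 := key (-(Z+b)) (by linear_combination h1)
    rw [neg_neg] at k2
    constructor
    · intro _; positivity
    · intro h
      exfalso
      have : 0 < s^4*((g*(j+-Z)-K*b)*(g*(j+(Z+b))-K*b)) := by positivity
      linarith
  · have hW : 0 < Z+b := by
      have : 0 < Z*(Z+b) := by nlinarith
      exact (pos_iff_pos_of_mul_pos this).1 hY
    have k2 := R.posA (Y := Z+b) hσ hW (by rw [← hg]; linear_combination h1)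
    rw [← hg, ← hj] at k2
    constructor
    · intro h
      have h2 := (pos_iff_pos_of_mul_pos h).1 hs4
      have h3 := (pos_iff_pos_of_mul_pos h2).2 k2
      positivity
    · intro h
      have h3 : g*(j+-Z)-K*b < 0 := by
        by_contra hc
        push Not at hc
        have : 0 ≤ s^4*((g*(j+-Z)-K*b)*(g*(j+(Z+b))-K*b)) := by positivity
        linarith
      exact mul_neg_of_pos_of_neg hus h3

end Rel

end Pool.Agent.V11332.CE
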