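import Mathlib
import Pool.Agent.V11332.CE1
import Pool.Agent.V11332.CE2

set_option autoImplicit false

namespace Pool.Agent.V11332.CE

open Set Filter Topology Real

theorem M_alg (K ε s x Q b G b' u Ps : ℝ)
    (hb' : Q*b' = Q^2-K-b^2) (hG3 : G = b*Q*x-s*(Q^2-K))
    (hu : u = 1+ε*x) (hPs : Ps = ε^2*s^3*Q^2-ε*b*Q*s^2*u-G*u^2) :
    (-ε*s*(Q*ε*s-b*u)+u*(-2*b*ε*s+Q*ε*x-(b'*u+b*(-ε*s))))*s*Q
      - u*(Q*ε*s-b*u)*(x*Q-s*b) = -Ps := by
  subst hPs hG3 hu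
  grind

noncomputable def sg (S C f : ℝ) : ℝ := sin f*C+cos f*S
noncomputable def gm (S C f : ℝ) : ℝ := cos f*C-sin f*S
noncomputable def Qf (K S C f : ℝ) : ℝ := (gm S C f)^2+K*(sg S C f)^2
noncomputable def bf (K S C f : ℝ) : ℝ := (1-K)*(sg S C f)*(gm S C f)
noncomputable def Gf (K S C f : ℝ) : ℝ := (1-K)*(S*(gm S C f)^3+K*C*(sg S C f)^3)
noncomputable def uf (ε f : ℝ) : ℝ := 1+ε*cos f
noncomputable def Psi (K S C ε f : ℝ) : ℝ :=
  ε^2*(sin f)^3*(Qf K S C f)^2-ε*(bf K S C f)*(Qf K S C f)*(sin f)^2*(uf ε f)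
    -(Gf K S C f)*(uf ε f)^2
noncomputable def Mf (K S C ε f : ℝ) : ℝ :=
  uf ε f*(Qf K S C f*ε*sin f-bf K S C f*uf ε f)/(ε*sin f*√(Qf K S C f))

section deriv
variable (K S C ε f : ℝ)

theorem hd_sg : HasDerivAt (sg S C) (gm S C f) f := by
  have h := ((hasDerivAt_sin f).mul_const C).add ((hasDerivAt_cos f).mul_const S)
  refine h.congr_deriv ?_
  unfold gm; ring

theorem hd_gm : HasDerivAt (gm S C) (-sg S C f) f := by
  have h := ((hasDerivAt_cos f).mul_const C).sub ((hasDerivAt_sin f).mul_const S)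
  refine h.congr_deriv ?_
  unfold sg; ring

theorem hd_Q : HasDerivAt (Qf K S C) (-2*bf K S C f) f := by
  have h := ((hd_gm S C f).fun_pow 2).add (((hd_sg S C f).fun_pow 2).const_mul K)
  refine h.congr_deriv ?_
  unfold bf; push_cast; ring

theorem hd_b : HasDerivAt (bf K S C) ((1-K)*((gm S C f)^2-(sg S C f)^2)) f := by
  have h := ((hd_sg S C f).const_mul (1-K)).mul (hd_gm S C f)
  refine h.congr_deriv ?_
  ring

theorem hd_G : HasDerivAt (Gf K S C)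
    ((1-K)*(S*(3*(gm S C f)^2*(-sg S C f))+K*C*(3*(sg S C f)^2*gm S C f))) f := by
  have h := ((((hd_gm S C f).fun_pow 3).const_mul S).add (((hd_sg S C f).fun_pow 3).const_mul (K*C))).const_mul (1-K)
  refine h.congr_deriv ?_
  push_cast; ring

theorem hd_u : HasDerivAt (uf ε) (-ε*sin f) f := by
  have h := ((hasDerivAt_cos f).const_mul ε).const_add 1
  refine h.congr_deriv ?_
  ring

noncomputable def PsiD : ℝ :=
  ε^2*(3*(sin f)^2*(cos f)*(Qf K S C f)^2+2*(sin f)^3*(Qf K S C f)*(-2*(bf K S C f)))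
   - ε*(((1-K)*((gm S C f)^2-(sg S C f)^2))*(Qf K S C f)*(sin f)^2*(uf ε f)
      +(bf K S C f)*(-2*(bf K S C f))*(sin f)^2*(uf ε f)
      +(bf K S C f)*(Qf K S C f)*(2*(sin f)*(cos f))*(uf ε f)
      +(bf K S C f)*(Qf K S C f)*(sin f)^2*(-ε*(sin f)))
      - (((1-K)*(S*(3*(gm S C f)^2*(-sg S C f))+K*C*(3*(sg S C f)^2*gm S C f)))*(uf ε f)^2
        +(Gf K S C f)*(2*(uf ε f)*(-ε*(sin f))))

theorem hd_Psi : HasDerivAt (Psi K S C ε) (PsiD K S C ε f) f := by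
  have hs := hasDerivAt_sin f
  have hQ := hd_Q K S C f
  have hb := hd_b K S C f
  have hG := hd_G K S C f
  have hu := hd_u ε f
  have h1 := ((hs.fun_pow 3).const_mul (ε^2)).mul (hQ.fun_pow 2)
  have h2 := (((hb.const_mul ε).mul hQ).mul (hs.fun_pow 2)).mul hu
  have h3 := hG.mul (hu.fun_pow 2)
  refine ((h1.sub h2).sub h3).congr_deriv ?_
  simp only [Pi.mul_apply]
  unfold PsiD; push_cast; ring

end deriv

theorem rel_of {K S C f : ℝ} (hK : 0 < K) (hK1 : K < 1) (hS : 0 < S) (hC : 0 < C) (h : S^2+C^2 = 1)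
    (hf : f ∈ Ioo 0 π) :
    Rel K S C (sin f) (cos f) (sg S C f) (gm S C f) (Qf K S C f) (bf K S C f) (Gf K S C f) where
  K0 := hK
  K1 := hK1
  S0 := hS
  C0 := hC
  SC := h
  s0 := sin_pos_of_mem_Ioo hf
  sx := sin_sq_add_cos_sq f
  hσ := rfl
  hγ := rfl
  hQ := rfl
  hb := rfl
  hG := rfl

/-- the relation between `Ψ'` and `𝒫` -/
theorem PsiD_eq {K S C ε f : ℝ} (hK : 0 < K) (hK1 : K < 1) (hS : 0 < S) (hC : 0 < C)
    (h : S^2+C^2 = 1) (hf : f ∈ Ioo 0 π) (hz : Psi K S C ε f = 0) :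
    Qf K S C f*sin f*PsiD K S C ε f =
      3*uf ε f*(Qf K S C f*Gf K S C f*(cos f+ε)-K*bf K S C f*(sin f)^2*uf ε f) := by
  have R := rel_of hK hK1 hS hC h hf
  have h1 := psiD_alg K ε (sin f) (cos f) (Qf K S C f) (bf K S C f) (Gf K S C f)
    ((1-K)*((gm S C f)^2-(sg S C f)^2))
    ((1-K)*(S*(3*(gm S C f)^2*(-sg S C f))+K*C*(3*(sg S C f)^2*gm S C f))) (uf ε f)
    R.sx R.b2 ?_ R.G_eq ?_ rfl
  · unfold PsiD
    unfold Psi at hz
    rw [hz] at h1
    linarith [h1]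
  · have h2 := R.sg
    have h3 := R.b2
    have h4 := R.oneQ
    have h5 := R.QK
    have : (1-K)*((gm S C f)^2-(sg S C f)^2) = (Qf K S C f-K)-(1-Qf K S C f) := by
      rw [h4, h5]; ring
    rw [this, h3]; ring
  · have h1 := R.s_eq
    have h2 := R.x_eq
    have h3 := R.sg
    have h4 := R.hQ
    rw [R.hb]
    generalize hsg : sg S C f = σ at *
    generalize hgm : gm S C f = γ at *
    rw [h4, h1, h2]
    have h5 : (γ^2+K*σ^2)*(σ*C-γ*S)-(1-K)*σ*γ*(γ*C+σ*S) = (K*C*σ-S*γ)*(σ^2+γ^2) := by ring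
    rw [h5, h3]
    ring

theorem PsiD_sign {K S C ε f : ℝ} (hK : 0 < K) (hK1 : K < 1) (hS : 0 < S) (hC : 0 < C)
    (h : S^2+C^2 = 1) (hf : f ∈ Ioo 0 π) (hu : 0 < uf ε f) (hz : Psi K S C ε f = 0) :
    (0 < Qf K S C f*Gf K S C f*(cos f+ε)-K*bf K S C f*(sin f)^2*uf ε f → 0 < PsiD K S C ε f) ∧
    (Qf K S C f*Gf K S C f*(cos f+ε)-K*bf K S C f*(sin f)^2*uf ε f < 0 → PsiD K S C ε f < 0) := by
  have R := rel_of hK hK1 hS hC h hf
  have h1 := PsiD_eq hK hK1 hS hC h hf hz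
  have hQ := R.Qpos
  have hs := R.s0
  have hQs : 0 < Qf K S C f*sin f := by positivity
  constructor
  · intro h2
    have h3 : 0 < Qf K S C f*sin f*PsiD K S C ε f := by rw [h1]; positivity
    exact (pos_iff_pos_of_mul_pos h3).1 hQs
  · intro h2
    have h3 : Qf K S C f*sin f*PsiD K S C ε f < 0 := by
      rw [h1]; exact mul_neg_of_pos_of_neg (by positivity) h2
    by_contra hc
    push Not at hc
    have : 0 ≤ Qf K S C f*sin f*PsiD K S C ε f := by positivity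
    linarith

theorem hd_M {K S C ε f : ℝ} (hK : 0 < K) (hK1 : K < 1) (hS : 0 < S) (hC : 0 < C)
    (h : S^2+C^2 = 1) (hf : f ∈ Ioo 0 π) (hε : ε ≠ 0) :
    HasDerivAt (Mf K S C ε) (-Psi K S C ε f/(ε*(sin f)^2*(Qf K S C f*√(Qf K S C f)))) f := by
  have R := rel_of hK hK1 hS hC h hf
  have hQ := R.Qpos
  have hs := R.s0
  have hw : 0 < √(Qf K S C f) := Real.sqrt_pos.2 hQ
  have hw2 : √(Qf K S C f)^2 = Qf K S C f := Real.sq_sqrt hQ.le
  have d1 := (hd_u ε f).mul ((((hd_Q K S C f).mul_const ε).mul (hasDerivAt_sin f)).sub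
    ((hd_b K S C f).mul (hd_u ε f)))
  have d2 := ((hasDerivAt_sin f).const_mul ε).mul ((hd_Q K S C f).sqrt hQ.ne')
  have hden : ε*sin f*√(Qf K S C f) ≠ 0 := by positivity
  have d3 := d1.div d2 hden
  refine d3.congr_deriv ?_
  -- algebra
  have hb' : Qf K S C f*((1-K)*((gm S C f)^2-(sg S C f)^2)) = (Qf K S C f)^2-K-(bf K S C f)^2 := by
    have h3 := R.b2
    have h4 := R.oneQ
    have h5 := R.QK
    have : (1-K)*((gm S C f)^2-(sg S C f)^2) = (Qf K S C f-K)-(1-Qf K S C f) := by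
      rw [h4, h5]; ring
    rw [this, h3]; ring
  have hG := R.G_eq
  have hsx := R.sx
  have hb2 := R.b2
  have hPsi : Psi K S C ε f = ε^2*(sin f)^3*(Qf K S C f)^2-ε*(bf K S C f)*(Qf K S C f)*(sin f)^2*(uf ε f)
    -(Gf K S C f)*(uf ε f)^2 := rfl
  have hu : uf ε f = 1+ε*cos f := rfl
  simp only [Pi.mul_apply, Pi.sub_apply]
  clear d1 d2 d3
  have key := M_alg K ε (sin f) (cos f) (Qf K S C f) (bf K S C f) (Gf K S C f)
    ((1-K)*((gm S C f)^2-(sg S C f)^2)) (uf ε f) (Psi K S C ε f) hb' hG hu hPsi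
  generalize √(Qf K S C f) = w at *
  generalize Psi K S C ε f = Ps at *
  generalize uf ε f = u at *
  generalize (1-K)*((gm S C f)^2-(sg S C f)^2) = b' at *
  generalize Qf K S C f = Q at *
  generalize bf K S C f = b at *
  generalize Gf K S C f = G at *
  generalize sin f = s at *
  generalize cos f = x at *
  have hs0 : s ≠ 0 := hs.ne'
  have hw0 : w ≠ 0 := hw.ne'
  have hQ0 : Q ≠ 0 := hQ.ne'
  rw [← key]
  rw [← hw2]
  field_simp
  ring

end Pool.Agent.V11332.CE
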