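import Mathlib
import Pool.Agent.V11332.CE3

set_option autoImplicit false

namespace Pool.Agent.V11332.CE

open Set Filter Topology Real

noncomputable def Tf (K S C f : ℝ) : ℝ :=
  BB K S C (sg S C f) (gm S C f)/(Qf K S C f)^5 - K*C^2*S^2/(1-K)

theorem hd_BB (K S C f : ℝ) : HasDerivAt (fun f => BB K S C (sg S C f) (gm S C f))
    (BBD K S C (sg S C f) (gm S C f)) f := by
  have hσ := hd_sg S C f
  have hγ := hd_gm S C f
  have t1 := (hσ.fun_pow 10).const_mul (K^5*C^4)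
  have t2 := ((hσ.fun_pow 7).fun_mul (hγ.fun_pow 3)).const_mul (5*K^4*S*C^3)
  have t3 := ((hσ.fun_pow 5).fun_mul (hγ.fun_pow 5)).const_mul (K^3*S*C^3)
  have t4 := (hγ.fun_pow 10).const_mul (K*S^2*C^2)
  have t5 := ((hσ.fun_pow 2).fun_mul (hγ.fun_pow 8)).const_mul (5*K^2*S^2*C^2)
  have t6 := ((hσ.fun_pow 4).fun_mul (hγ.fun_pow 6)).const_mul (10*K^3*S^2*C^2)
  have t7 := ((hσ.fun_pow 3).fun_mul (hγ.fun_pow 7)).const_mul (5*K^3*S^3*C)
  have t8 := ((hσ.fun_pow 5).fun_mul (hγ.fun_pow 5)).const_mul (K^4*S^3*C)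
  have t9 := (hγ.fun_pow 10).const_mul (K^2*S^4)
  have t := (((((((t1.fun_add t2).fun_add t3).fun_add t4).fun_add t5).fun_add t6).fun_sub t7).fun_sub t8).fun_sub t9
  have e : (fun f => BB K S C (sg S C f) (gm S C f)) = (fun x =>
    ((K^5*C^4*sg S C x^10 + 5*K^4*S*C^3*(sg S C x^7*gm S C x^3) + K^3*S*C^3*(sg S C x^5*gm S C x^5)
     + K*S^2*C^2*gm S C x^10 + 5*K^2*S^2*C^2*(sg S C x^2*gm S C x^8)
     + 10*K^3*S^2*C^2*(sg S C x^4*gm S C x^6)) - 5*K^3*S^3*C*(sg S C x^3*gm S C x^7)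
     - K^4*S^3*C*(sg S C x^5*gm S C x^5)) - K^2*S^4*gm S C x^10) := by
    funext x; unfold BB; ring
  rw [e]
  refine t.congr_deriv ?_
  unfold BBD; push_cast; ring

theorem hd_T {K S C f : ℝ} (hQ : 0 < Qf K S C f) (hsg : (sg S C f)^2+(gm S C f)^2 = 1)
    (hs : sin f = sg S C f*C-gm S C f*S) :
    HasDerivAt (Tf K S C) (5*K^3*sg S C f*gm S C f*(sin f)^2*l3 K S C (sg S C f) (gm S C f)/(Qf K S C f)^6) f := by
  have h1 := hd_BB K S C f
  have h2 := (hd_Q K S C f).fun_pow 5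
  have h3 := (h1.fun_div h2 (by positivity)).sub_const (K*C^2*S^2/(1-K))
  refine h3.congr_deriv ?_
  have h4 := BB_deriv K S C (sg S C f) (gm S C f)
  have hb : bf K S C f = (1-K)*sg S C f*gm S C f := rfl
  have hQ' : (gm S C f)^2+K*(sg S C f)^2 = Qf K S C f := rfl
  rw [hQ', hsg, ← hs] at h4
  have h5 : BBD K S C (sg S C f) (gm S C f) * Qf K S C f - BB K S C (sg S C f) (gm S C f)*(5*(-2*bf K S C f))
     = 5*K^3*sg S C f*gm S C f*(sin f)^2*l3 K S C (sg S C f) (gm S C f) := by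
    rw [hb]; linear_combination h4
  rw [← h5]
  have hQ0 : Qf K S C f ≠ 0 := hQ.ne'
  field_simp
  push_cast
  ring

/-- the sign of `Δ` is opposite to the sign of `T` -/
theorem delta_T {K S C f : ℝ} (R : Rel K S C (sin f) (cos f) (sg S C f) (gm S C f) (Qf K S C f) (bf K S C f)
    (Gf K S C f)) : 
    (Tf K S C f < 0 → 0 < (Gf K S C f*Qf K S C f*cos f-K*bf K S C f*(sin f)^2)*
        (Gf K S C f*Qf K S C f*cos f-K*bf K S C f*(sin f)^2+Gf K S C f*bf K S C f*sin f)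
          -(Gf K S C f)^3*sin f) ∧
    (0 < Tf K S C f → (Gf K S C f*Qf K S C f*cos f-K*bf K S C f*(sin f)^2)*
        (Gf K S C f*Qf K S C f*cos f-K*bf K S C f*(sin f)^2+Gf K S C f*bf K S C f*sin f)
          -(Gf K S C f)^3*sin f < 0) := by
  have h1 := delta_hom K S C (sg S C f) (gm S C f) 1 (Qf K S C f) (sin f) (cos f) (Gf K S C f) (bf K S C f)
    R.sg.symm R.hQ R.s_eq (by rw [R.x_eq]) R.hG R.hb
  have hQ := R.Qpos
  have hK := R.K0
  have hK1 : 0 < 1-K := by linarith [R.K1]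
  have h2 : K^2*((Gf K S C f*Qf K S C f*cos f-K*bf K S C f*(sin f)^2)*
        (Gf K S C f*Qf K S C f*cos f-K*bf K S C f*(sin f)^2+Gf K S C f*bf K S C f*sin f)
          -(Gf K S C f)^3*sin f) = -((1-K)^3*(Qf K S C f)^5*Tf K S C f) := by
    have h3 : (1-K)^3*(Qf K S C f)^5*Tf K S C f =
        (1-K)^2*((1-K)*BB K S C (sg S C f) (gm S C f) - K*C^2*S^2*(Qf K S C f)^5) := by
      unfold Tf
      field_simp
    rw [h3]
    linear_combination h1
  constructor
  · intro hT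
    have h3 : 0 < -((1-K)^3*(Qf K S C f)^5*Tf K S C f) := by
      have : 0 < (1-K)^3*(Qf K S C f)^5 := by positivity
      nlinarith
    rw [← h2] at h3
    exact (pos_iff_pos_of_mul_pos h3).1 (by positivity)
  · intro hT
    have h3 : 0 < (1-K)^3*(Qf K S C f)^5*Tf K S C f := by positivity
    by_contra hc
    push Not at hc
    have : 0 ≤ K^2*((Gf K S C f*Qf K S C f*cos f-K*bf K S C f*(sin f)^2)*
        (Gf K S C f*Qf K S C f*cos f-K*bf K S C f*(sin f)^2+Gf K S C f*bf K S C f*sin f)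
          -(Gf K S C f)^3*sin f) := by positivity
    linarith

/-- the structure of the sign of `T` -/
theorem T_struct {K S C : ℝ} (hK : 0 < K) (hK1 : K < 1) (hS : 0 < S) (hC : 0 < C)
    (h : S^2+C^2 = 1) :
    ∃ f1 f2, 0 ≤ f1 ∧ f1 ≤ f2 ∧ f2 ≤ π ∧ (∀ f ∈ Ioo 0 f1, Tf K S C f < 0) ∧
      (∀ f ∈ Ioo f1 f2, 0 < Tf K S C f) ∧ (∀ f ∈ Ioo f2 π, 0 < sg S C f → Tf K S C f < 0) := by
  -- the angle m
  set m : ℝ := arccos S with hm
  have hS1 : S ≤ 1 := by nlinarith [sq_nonneg C]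
  have hcm : cos m = S := Real.cos_arccos (by linarith) hS1
  have hsm : sin m = C := by
    rw [hm, Real.sin_arccos]
    have : 1-S^2 = C^2 := by linarith
    rw [this]; exact Real.sqrt_sq hC.le
  have hm0 : 0 < m := by
    have : S < 1 := by nlinarith
    exact Real.arccos_pos.2 this
  have hm1 : m < π/2 := Real.arccos_lt_pi_div_two.2 hS
  have esg : ∀ f, sg S C f = cos (f-m) := by
    intro f; rw [Real.cos_sub, hcm, hsm]; unfold sg; ring
  have egm : ∀ f, gm S C f = sin (m-f) := by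
    intro f; rw [Real.sin_sub, hcm, hsm]; unfold gm; ring
  have hpi := Real.pi_pos
  have hmπ : m+π/2 < π := by linarith
  have hR : ∀ f ∈ Ioo (0:ℝ) π, Rel K S C (sin f) (cos f) (sg S C f) (gm S C f) (Qf K S C f) (bf K S C f)
    (Gf K S C f) := fun f hf => rel_of hK hK1 hS hC h hf
  have hd : ∀ f ∈ Ioo (0:ℝ) π, HasDerivAt (Tf K S C)
     (5*K^3*sg S C f*gm S C f*(sin f)^2*l3 K S C (sg S C f) (gm S C f)/(Qf K S C f)^6) f :=
    fun f hf => hd_T (hR f hf).Qpos (hR f hf).sg (hR f hf).s_eq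
  -- first interval
  have hpos : ∀ f ∈ Ioo 0 m, 0 < 5*K^3*sg S C f*gm S C f*(sin f)^2*l3 K S C (sg S C f) (gm S C f)/(Qf K S C f)^6 := by
    intro f hf
    have hf' : f ∈ Ioo (0:ℝ) π := ⟨hf.1, by linarith [hf.2]⟩
    have hσ : 0 < sg S C f := by
      rw [esg]; exact Real.cos_pos_of_mem_Ioo ⟨by linarith [hf.1], by linarith [hf.2]⟩
    have hγ : 0 < gm S C f := by
      rw [egm]; exact Real.sin_pos_of_mem_Ioo ⟨by linarith [hf.2], by linarith [hf.1]⟩
    have hs := (hR f hf').s0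
    have hQ := (hR f hf').Qpos
    have hl : 0 < l3 K S C (sg S C f) (gm S C f) := by unfold l3; positivity
    positivity
  have hneg : ∀ f ∈ Ioo m (m+π/2), Tf K S C f = 0 →
      5*K^3*sg S C f*gm S C f*(sin f)^2*l3 K S C (sg S C f) (gm S C f)/(Qf K S C f)^6 < 0 := by
    intro f hf hT
    have hf' : f ∈ Ioo (0:ℝ) π := ⟨by linarith [hf.1], by linarith [hf.2]⟩
    have hσ : 0 < sg S C f := by
      rw [esg]; exact Real.cos_pos_of_mem_Ioo ⟨by linarith [hf.1], by linarith [hf.2]⟩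
    have hγ : gm S C f < 0 := by
      rw [egm]; exact Real.sin_neg_of_neg_of_neg_pi_lt (by linarith [hf.1]) (by linarith [hf.2])
    have hs := (hR f hf').s0
    have hQ := (hR f hf').Qpos
    have hl : 0 < l3 K S C (sg S C f) (gm S C f) := by
      apply l3_pos K S C _ _ hK hS hC hσ hγ
      have hQ' : (gm S C f)^2+K*(sg S C f)^2 = Qf K S C f := rfl
      rw [hQ']
      unfold Tf at hT
      have h1K : 0 < 1-K := by linarith
      have h1 : BB K S C (sg S C f) (gm S C f) = K*C^2*S^2/(1-K)*(Qf K S C f)^5 := by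
        have : BB K S C (sg S C f) (gm S C f)/(Qf K S C f)^5 = K*C^2*S^2/(1-K) := by linarith
        rw [← this]; field_simp
      rw [h1]
      have h2 : K*C^2*S^2 ≤ K*C^2*S^2/(1-K) := by
        rw [le_div_iff₀ h1K]
        have : 0 < K*C^2*S^2 := by positivity
        nlinarith
      exact mul_le_mul_of_nonneg_right h2 (by positivity)
    have h3 : 0 < 5*K^3*sg S C f*(sin f)^2*l3 K S C (sg S C f) (gm S C f)/(Qf K S C f)^6 := by positivity
    have h4 : 5*K^3*sg S C f*gm S C f*(sin f)^2*l3 K S C (sg S C f) (gm S C f)/(Qf K S C f)^6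
      = (5*K^3*sg S C f*(sin f)^2*l3 K S C (sg S C f) (gm S C f)/(Qf K S C f)^6)*gm S C f := by ring
    rw [h4]
    exact mul_neg_of_pos_of_neg h3 hγ
  obtain ⟨f1, hf1, hf1a, hf1b⟩ := up_only (f := Tf K S C) hm0.le
    (fun f hf => hd f ⟨hf.1, by linarith [hf.2]⟩) (fun f hf _ => hpos f hf)
  obtain ⟨f2, hf2, hf2a, hf2b⟩ := down_only (f := Tf K S C) (a := m) (b := m+π/2) (by linarith)
    (fun f hf => hd f ⟨by linarith [hf.1], by linarith [hf.2]⟩) hneg
  refine ⟨f1, f2, hf1.1, hf1.2.trans hf2.1, by linarith [hf2.2], hf1a, ?_, ?_⟩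
  · intro f hf
    rcases lt_trichotomy f m with h1 | h1 | h1
    · exact hf1b f ⟨hf.1, h1⟩
    · rw [h1] at hf ⊢
      -- T(m) > T(g) > 0 for some g in (f1,m)
      obtain ⟨g, hg1, hg2⟩ := exists_between hf.1
      have hTg := hf1b g ⟨hg1, hg2⟩
      have hg0 : 0 < g := lt_of_le_of_lt hf1.1 hg1
      have hmono : StrictMonoOn (Tf K S C) (Icc g m) := by
        apply strictMonoOn_of_deriv_pos (convex_Icc _ _)
        · intro y hy
          exact (hd y ⟨by linarith [hy.1], by linarith [hy.2]⟩).continuousAt.continuousWithinAt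
        · intro y hy
          rw [interior_Icc] at hy
          rw [(hd y ⟨by linarith [hy.1], by linarith [hy.2]⟩).deriv]
          exact hpos y ⟨by linarith [hy.1], hy.2⟩
      have := hmono (left_mem_Icc.2 hg2.le) (right_mem_Icc.2 hg2.le) hg2
      linarith
    · exact hf2a f ⟨h1, hf.2⟩
  · intro f hf hσ
    apply hf2b f ⟨hf.1, ?_⟩
    by_contra hc
    push Not at hc
    rw [esg] at hσ
    have : cos (f-m) ≤ 0 := Real.cos_nonpos_of_pi_div_two_le_of_le (by linarith) (by linarith [hf.2])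
    linarith

end Pool.Agent.V11332.CE
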