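import Mathlib
import Pool.Agent.V11332.CE4

set_option autoImplicit false

namespace Pool.Agent.V11332.CE

open Set Filter Topology Real

/-- injectivity from the sign of the derivative, one exceptional point allowed -/
theorem inj_of_pos {M M' : ℝ → ℝ} {a b c d m : ℝ} (hd : ∀ x ∈ Ioo a b, HasDerivAt M (M' x) x)
    (hpos : ∀ x ∈ Ioo a b, x ∈ Ioo c d → x ≠ m → 0 < M' x) : InjOn M (Ioo a b ∩ Icc c d) := by
  have key : ∀ x y, x ∈ Ioo a b ∩ Icc c d → y ∈ Ioo a b ∩ Icc c d → x < y → m ∉ Ioo x y → M x < M y := by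
    intro x y hx hy hxy hm
    have hc : ContinuousOn M (Icc x y) := fun t ht =>
      (hd t ⟨lt_of_lt_of_le hx.1.1 ht.1, lt_of_le_of_lt ht.2 hy.1.2⟩).continuousAt.continuousWithinAt
    obtain ⟨z, hz, hz'⟩ := exists_hasDerivAt_eq_slope M M' hxy hc
      (fun t ht => hd t ⟨hx.1.1.trans ht.1, ht.2.trans hy.1.2⟩)
    have h1 := hpos z ⟨hx.1.1.trans hz.1, hz.2.trans hy.1.2⟩
      ⟨lt_of_le_of_lt hx.2.1 hz.1, lt_of_lt_of_le hz.2 hy.2.2⟩ (fun h => hm (h ▸ hz))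
    rw [hz'] at h1
    have h2 := (div_pos_iff_of_pos_right (sub_pos.2 hxy)).1 h1
    linarith
  have key2 : ∀ x y, x ∈ Ioo a b ∩ Icc c d → y ∈ Ioo a b ∩ Icc c d → x < y → M x < M y := by
    intro x y hx hy hxy
    by_cases hm : m ∈ Ioo x y
    · have hm' : m ∈ Ioo a b ∩ Icc c d := ⟨⟨hx.1.1.trans hm.1, hm.2.trans hy.1.2⟩,
        ⟨(lt_of_le_of_lt hx.2.1 hm.1).le, (lt_of_lt_of_le hm.2 hy.2.2).le⟩⟩
      exact (key x m hx hm' hm.1 (fun h => lt_irrefl _ h.2)).trans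
        (key m y hm' hy hm.2 (fun h => lt_irrefl _ h.1))
    · exact key x y hx hy hxy hm
  intro x hx y hy hxy
  rcases lt_trichotomy x y with h | h | h
  · exact absurd hxy (key2 x y hx hy h).ne
  · exact h
  · exact absurd hxy (key2 y x hy hx h).ne'

theorem inj_of_neg {M M' : ℝ → ℝ} {a b c d m : ℝ} (hd : ∀ x ∈ Ioo a b, HasDerivAt M (M' x) x)
    (hpos : ∀ x ∈ Ioo a b, x ∈ Ioo c d → x ≠ m → M' x < 0) : InjOn M (Ioo a b ∩ Icc c d) := by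
  have h := inj_of_pos (M := fun x => -M x) (M' := fun x => -M' x) (a := a) (b := b) (c := c) (d := d)
    (m := m) (fun x hx => (hd x hx).neg) (fun x hx h1 h2 => neg_pos.2 (hpos x hx h1 h2))
  intro x hx y hy hxy
  exact h hx hy (by simpa using hxy)

theorem split_count {M : ℝ → ℝ} {l : ℝ} {J A B : Set ℝ} {kA kB : ℕ∞} (hJ : J = A ∪ B)
    (hAB : Disjoint A B)
    (hA : {x | x ∈ A ∧ |M x| = l}.encard ≤ kA + {x | x ∈ A ∧ M x = 0}.encard)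
    (hB : {x | x ∈ B ∧ |M x| = l}.encard ≤ kB + {x | x ∈ B ∧ M x = 0}.encard) :
    {x | x ∈ J ∧ |M x| = l}.encard ≤ (kA+kB) + {x | x ∈ J ∧ M x = 0}.encard := by
  have h1 : {x | x ∈ J ∧ |M x| = l} = {x | x ∈ A ∧ |M x| = l} ∪ {x | x ∈ B ∧ |M x| = l} := by
    ext x; simp only [hJ, mem_union, mem_ofPred_eq]; tauto
  have h2 : {x | x ∈ J ∧ M x = 0} = {x | x ∈ A ∧ M x = 0} ∪ {x | x ∈ B ∧ M x = 0} := by
    ext x; simp only [hJ, mem_union, mem_ofPred_eq]; tauto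
  have h3 : Disjoint {x | x ∈ A ∧ M x = 0} {x | x ∈ B ∧ M x = 0} :=
    hAB.mono (fun x hx => hx.1) (fun x hx => hx.1)
  rw [h1, h2, encard_union_eq h3]
  calc _ ≤ {x | x ∈ A ∧ |M x| = l}.encard + {x | x ∈ B ∧ |M x| = l}.encard := encard_union_le _ _
    _ ≤ (kA + {x | x ∈ A ∧ M x = 0}.encard) + (kB + {x | x ∈ B ∧ M x = 0}.encard) := add_le_add hA hB
    _ = _ := by ring

section
variable {K S C : ℝ}

theorem psi_up (hK : 0 < K) (hK1 : K < 1) (hS : 0 < S) (hC : 0 < C)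
    (h : S^2+C^2 = 1) {ε : ℝ} (hε : 0 < ε) (hε1 : ε < 1) :
    ∃ c ∈ Icc (0:ℝ) π, (∀ f ∈ Ioo 0 c, Psi K S C ε f < 0) ∧ (∀ f ∈ Ioo c π, 0 < Psi K S C ε f) := by
  apply up_only Real.pi_pos.le (fun f _ => hd_Psi K S C ε f)
  intro f hf hz
  have hu : 0 < uf ε f := by
    unfold uf
    have := Real.neg_one_le_cos f
    nlinarith
  exact (PsiD_sign hK hK1 hS hC h hf hu hz).1
    ((rel_of hK hK1 hS hC h hf).P1 hε hu rfl hz)

theorem psi_down (hK : 0 < K) (hK1 : K < 1) (hS : 0 < S) (hC : 0 < C)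
    (h : S^2+C^2 = 1) {ε : ℝ} (hε : ε < 0) (hε1 : -1 < ε) :
    ∃ f1 f2 c1 c2 c3, 0 ≤ c1 ∧ c1 ≤ f1 ∧ f1 ≤ c2 ∧ c2 ≤ f2 ∧ f2 ≤ c3 ∧ c3 ≤ π ∧
      (∀ f ∈ Ioo 0 c1, Psi K S C ε f < 0) ∧ (∀ f ∈ Ioo c1 f1, 0 < Psi K S C ε f) ∧
      (∀ f ∈ Ioo f1 c2, 0 < Psi K S C ε f) ∧ (∀ f ∈ Ioo c2 f2, Psi K S C ε f < 0) ∧
      (∀ f ∈ Ioo f2 c3, Psi K S C ε f < 0) ∧ (∀ f ∈ Ioo c3 π, 0 < Psi K S C ε f) := by
  obtain ⟨f1, f2, h01, h12, h2p, hT1, hT2, hT3⟩ := T_struct hK hK1 hS hC h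
  have hu : ∀ f, 0 < uf ε f := by
    intro f
    unfold uf
    have := Real.cos_le_one f
    have := Real.neg_one_le_cos f
    nlinarith
  obtain ⟨c1, hc1, hc1a, hc1b⟩ := up_only (f := Psi K S C ε) (a := 0) (b := f1) h01
    (fun f _ => hd_Psi K S C ε f) (by
      intro f hf hz
      have hf' : f ∈ Ioo (0:ℝ) π := ⟨hf.1, by linarith [hf.2]⟩
      have R := rel_of hK hK1 hS hC h hf'
      exact (PsiD_sign hK hK1 hS hC h hf' (hu f) hz).1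
        ((R.P2 hε (hu f) rfl hz).2.1 ((delta_T R).1 (hT1 f hf))))
  obtain ⟨c2, hc2, hc2a, hc2b⟩ := down_only (f := Psi K S C ε) (a := f1) (b := f2) h12
    (fun f _ => hd_Psi K S C ε f) (by
      intro f hf hz
      have hf' : f ∈ Ioo (0:ℝ) π := ⟨by linarith [hf.1], by linarith [hf.2]⟩
      have R := rel_of hK hK1 hS hC h hf'
      exact (PsiD_sign hK hK1 hS hC h hf' (hu f) hz).2
        ((R.P2 hε (hu f) rfl hz).2.2 ((delta_T R).2 (hT2 f hf))))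
  obtain ⟨c3, hc3, hc3a, hc3b⟩ := up_only (f := Psi K S C ε) (a := f2) (b := π) h2p
    (fun f _ => hd_Psi K S C ε f) (by
      intro f hf hz
      have hf' : f ∈ Ioo (0:ℝ) π := ⟨by linarith [hf.1], hf.2⟩
      have R := rel_of hK hK1 hS hC h hf'
      have hP := R.P2 hε (hu f) rfl hz
      exact (PsiD_sign hK hK1 hS hC h hf' (hu f) hz).1
        (hP.2.1 ((delta_T R).1 (hT3 f hf hP.1))))
  exact ⟨f1, f2, c1, c2, c3, hc1.1, hc1.2, hc2.1, hc2.2, hc3.1, hc3.2, hc1a, hc1b, hc2a, hc2b, hc3a, hc3b⟩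

theorem cont_M (hK : 0 < K) (hK1 : K < 1) (hS : 0 < S) (hC : 0 < C)
    (h : S^2+C^2 = 1) {ε : ℝ} (hε : ε ≠ 0) {J : Set ℝ} (hJ : J ⊆ Ioo 0 π) :
    ContinuousOn (Mf K S C ε) J :=
  fun _ hf => (hd_M hK hK1 hS hC h (hJ hf) hε).continuousAt.continuousWithinAt

theorem count_pos (hK : 0 < K) (hK1 : K < 1) (hS : 0 < S) (hC : 0 < C)
    (h : S^2+C^2 = 1) {ε l : ℝ} (hl : 0 < l) (hε : 0 < ε) (hε1 : ε < 1) :
    {f | f ∈ Ioo 0 π ∧ |Mf K S C ε f| = l}.encard ≤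
      2 + {f | f ∈ Ioo 0 π ∧ Mf K S C ε f = 0}.encard := by
  obtain ⟨c, hc, hca, hcb⟩ := psi_up hK hK1 hS hC h hε hε1
  have hd : ∀ x ∈ Ioo 0 π, HasDerivAt (Mf K S C ε) _ x := fun f hf => hd_M hK hK1 hS hC h hf hε.ne'
  have i1 : InjOn (Mf K S C ε) (Ioo 0 π ∩ Icc 0 c) := by
    apply inj_of_pos (m := 0) hd
    intro f hf hf' _
    have R := rel_of hK hK1 hS hC h hf
    have hQ := R.Qpos
    have hs := R.s0
    have := hca f hf'
    apply div_pos (by linarith)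
    positivity
  have i2 : InjOn (Mf K S C ε) (Ioo 0 π ∩ Icc c π) := by
    apply inj_of_neg (m := 0) hd
    intro f hf hf' _
    have R := rel_of hK hK1 hS hC h hf
    have hQ := R.Qpos
    have hs := R.s0
    have := hcb f hf'
    apply div_neg_of_neg_of_pos (by linarith)
    positivity
  have e : Ioo 0 π = (Ioo 0 π ∩ Iic c) ∪ (Ioo 0 π ∩ Ioi c) := by
    rw [← inter_union_distrib_left, Iic_union_Ioi, inter_univ]
  have hdisj : Disjoint (Ioo 0 π ∩ Iic c) (Ioo 0 π ∩ Ioi c) := by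
    rw [Set.disjoint_left]; intro x hx hy
    exact (not_le.2 (mem_Ioi.1 hy.2)) (mem_Iic.1 hx.2)
  have := split_count (M := Mf K S C ε) (l := l) (kA := 1) (kB := 1) e hdisj
    (piece (J := Ioo 0 π ∩ Iic c) hl (ordConnected_Ioo.inter ordConnected_Iic)
      (cont_M hK hK1 hS hC h hε.ne' inter_subset_left)
      (i1.mono (by intro x hx; exact ⟨hx.1, hx.1.1.le, hx.2⟩)))
    (piece (J := Ioo 0 π ∩ Ioi c) hl (ordConnected_Ioo.inter ordConnected_Ioi)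
      (cont_M hK hK1 hS hC h hε.ne' inter_subset_left)
      (i2.mono (by intro x hx; exact ⟨hx.1, le_of_lt hx.2, hx.1.2.le⟩)))
  simpa [one_add_one_eq_two] using this

theorem count_neg (hK : 0 < K) (hK1 : K < 1) (hS : 0 < S) (hC : 0 < C)
    (h : S^2+C^2 = 1) {ε l : ℝ} (hl : 0 < l) (hε : ε < 0) (hε1 : -1 < ε) :
    {f | f ∈ Ioo 0 π ∧ |Mf K S C ε f| = l}.encard ≤
      4 + {f | f ∈ Ioo 0 π ∧ Mf K S C ε f = 0}.encard := by
  obtain ⟨f1, f2, c1, c2, c3, h01, h12, h23, h34, h45, h56, s1, s2, s3, s4, s5, s6⟩ :=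
    psi_down hK hK1 hS hC h hε hε1
  have hd : ∀ x ∈ Ioo 0 π, HasDerivAt (Mf K S C ε) _ x := fun f hf => hd_M hK hK1 hS hC h hf hε.ne
  have hden : ∀ f ∈ Ioo 0 π, ε * sin f ^ 2 * (Qf K S C f * √(Qf K S C f)) < 0 := by
    intro f hf
    have R := rel_of hK hK1 hS hC h hf
    have hQ := R.Qpos
    have hs := R.s0
    have : 0 < sin f ^ 2 * (Qf K S C f * √(Qf K S C f)) := by positivity
    nlinarith
  have dn : ∀ f ∈ Ioo 0 π, Psi K S C ε f < 0 →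
      -Psi K S C ε f / (ε * sin f ^ 2 * (Qf K S C f * √(Qf K S C f))) < 0 :=
    fun f hf hn => div_neg_of_pos_of_neg (by linarith) (hden f hf)
  have dp : ∀ f ∈ Ioo 0 π, 0 < Psi K S C ε f →
      0 < -Psi K S C ε f / (ε * sin f ^ 2 * (Qf K S C f * √(Qf K S C f))) :=
    fun f hf hn => div_pos_of_neg_of_neg (by linarith) (hden f hf)
  have i1 : InjOn (Mf K S C ε) (Ioo 0 π ∩ Icc 0 c1) :=
    inj_of_neg (m := 0) hd (fun f hf hf' _ => dn f hf (s1 f hf'))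
  have i2 : InjOn (Mf K S C ε) (Ioo 0 π ∩ Icc c1 c2) := by
    refine inj_of_pos (m := f1) hd (fun f hf hf' hm => dp f hf ?_)
    rcases lt_or_gt_of_ne hm with h | h
    · exact s2 f ⟨hf'.1, h⟩
    · exact s3 f ⟨h, hf'.2⟩
  have i3 : InjOn (Mf K S C ε) (Ioo 0 π ∩ Icc c2 c3) := by
    refine inj_of_neg (m := f2) hd (fun f hf hf' hm => dn f hf ?_)
    rcases lt_or_gt_of_ne hm with h | h
    · exact s4 f ⟨hf'.1, h⟩
    · exact s5 f ⟨h, hf'.2⟩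
  have i4 : InjOn (Mf K S C ε) (Ioo 0 π ∩ Icc c3 π) :=
    inj_of_pos (m := 0) hd (fun f hf hf' _ => dp f hf (s6 f hf'))
  have e1 : Ioo 0 π = (Ioo 0 π ∩ Iic c1) ∪ (Ioo 0 π ∩ Ioi c1) := by
    rw [← inter_union_distrib_left, Iic_union_Ioi, inter_univ]
  have e2 : Ioo 0 π ∩ Ioi c1 = (Ioo 0 π ∩ Ioc c1 c2) ∪ (Ioo 0 π ∩ Ioi c2) := by
    rw [← inter_union_distrib_left, Ioc_union_Ioi_eq_Ioi (by linarith)]
  have e3 : Ioo 0 π ∩ Ioi c2 = (Ioo 0 π ∩ Ioc c2 c3) ∪ (Ioo 0 π ∩ Ioi c3) := by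
    rw [← inter_union_distrib_left, Ioc_union_Ioi_eq_Ioi (by linarith)]
  have d1 : Disjoint (Ioo 0 π ∩ Iic c1) (Ioo 0 π ∩ Ioi c1) := by
    rw [Set.disjoint_left]; intro x hx hy
    exact (not_le.2 (mem_Ioi.1 hy.2)) (mem_Iic.1 hx.2)
  have d2 : Disjoint (Ioo 0 π ∩ Ioc c1 c2) (Ioo 0 π ∩ Ioi c2) := by
    rw [Set.disjoint_left]; intro x hx hy
    exact (not_le.2 (mem_Ioi.1 hy.2)) hx.2.2
  have d3 : Disjoint (Ioo 0 π ∩ Ioc c2 c3) (Ioo 0 π ∩ Ioi c3) := by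
    rw [Set.disjoint_left]; intro x hx hy
    exact (not_le.2 (mem_Ioi.1 hy.2)) hx.2.2
  have p3 := split_count (M := Mf K S C ε) (l := l) (kA := 1) (kB := 1) e3 d3
    (piece (J := Ioo 0 π ∩ Ioc c2 c3) hl (ordConnected_Ioo.inter ordConnected_Ioc)
      (cont_M hK hK1 hS hC h hε.ne inter_subset_left)
      (i3.mono (by intro x hx; exact ⟨hx.1, hx.2.1.le, hx.2.2⟩)))
    (piece (J := Ioo 0 π ∩ Ioi c3) hl (ordConnected_Ioo.inter ordConnected_Ioi)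
      (cont_M hK hK1 hS hC h hε.ne inter_subset_left)
      (i4.mono (by intro x hx; exact ⟨hx.1, le_of_lt hx.2, hx.1.2.le⟩)))
  have p2 := split_count (M := Mf K S C ε) (l := l) (kA := 1) e2 d2
    (piece (J := Ioo 0 π ∩ Ioc c1 c2) hl (ordConnected_Ioo.inter ordConnected_Ioc)
      (cont_M hK hK1 hS hC h hε.ne inter_subset_left)
      (i2.mono (by intro x hx; exact ⟨hx.1, hx.2.1.le, hx.2.2⟩))) p3
  have p1 := split_count (M := Mf K S C ε) (l := l) (kA := 1) e1 d1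
    (piece (J := Ioo 0 π ∩ Iic c1) hl (ordConnected_Ioo.inter ordConnected_Iic)
      (cont_M hK hK1 hS hC h hε.ne inter_subset_left)
      (i1.mono (by intro x hx; exact ⟨hx.1, hx.1.1.le, hx.2⟩))) p2
  have e4 : (1 + (1 + (1 + 1)) : ℕ∞) = 4 := by norm_num
  rwa [e4] at p1

end

end Pool.Agent.V11332.CE
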