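import Mathlib
import Pool.Agent.V11332.CE5

set_option autoImplicit false

namespace Pool.Agent.V11332.CE

open Set Filter Topology Real

open Polynomial in
theorem quartic_le4 (a4 a3 a2 a1 a0 : ℝ) (h : a4 ≠ 0) :
    {t : ℝ | a4*t^4+a3*t^3+a2*t^2+a1*t+a0 = 0}.encard ≤ 4 := by
  set p : ℝ[X] := C a4*X^4+C a3*X^3+C a2*X^2+C a1*X+C a0 with hp
  have hdeg : p.natDegree ≤ 4 := by rw [hp]; compute_degree
  have hc : p.coeff 4 = a4 := by
    rw [hp]; simp
  have hp0 : p ≠ 0 := by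
    intro h0; rw [h0] at hc; simp at hc; exact h hc.symm
  have hsub : {t : ℝ | a4*t^4+a3*t^3+a2*t^2+a1*t+a0 = 0} ⊆ (p.roots.toFinset : Set ℝ) := by
    intro t ht
    have ht' : a4*t^4+a3*t^3+a2*t^2+a1*t+a0 = 0 := ht
    simp only [Multiset.mem_toFinset, Finset.mem_coe, mem_roots hp0, IsRoot.def]
    rw [hp]; simpa using ht'
  calc _ ≤ (p.roots.toFinset : Set ℝ).encard := encard_le_encard hsub
    _ = (p.roots.toFinset.card : ℕ∞) := encard_coe_eq_coe_finsetCard _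
    _ ≤ 4 := by
      have h1 : p.roots.toFinset.card ≤ 4 := (Multiset.toFinset_card_le _).trans ((card_roots' p).trans hdeg)
      exact_mod_cast h1

section
variable {K S C : ℝ}

theorem zero_eq (hK : 0 < K) (hK1 : K < 1) (hS : 0 < S) (hC : 0 < C)
    (h : S^2+C^2 = 1) {ε f : ℝ} (hε : ε ≠ 0) (hu : 0 < uf ε f) (hf : f ∈ Ioo 0 π)
    (hM : Mf K S C ε f = 0) : 
    ε*sin f-(1-K)*(sin f*C+cos f*S)*(cos f*C-sin f*S+ε*C) = 0 := by
  have R := rel_of hK hK1 hS hC h hf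
  have hQ := R.Qpos
  have hs := R.s0
  have hden : ε*sin f*√(Qf K S C f) ≠ 0 := by positivity
  unfold Mf at hM
  rcases div_eq_zero_iff.1 hM with h1 | h1
  · rcases mul_eq_zero.1 h1 with h2 | h2
    · exact absurd h2 hu.ne'
    · have e1 := R.e1
      have hu' : uf ε f = 1+ε*cos f := rfl
      rw [hu'] at h2
      have hb := R.hb
      have hσ : sg S C f = sin f*C+cos f*S := rfl
      have hγ : gm S C f = cos f*C-sin f*S := rfl
      rw [← hσ, ← hγ]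
      linear_combination h2 + ε*e1 + hb
  · exact absurd h1 hden

noncomputable def q4 (K S C e : ℝ) : ℝ := (1-K)*S*C*(e-1)

theorem quartic_id (K S C e s x t : ℝ) (h1 : s*(1+t^2) = 2*t) (h2 : x*(1+t^2) = 1-t^2)
    (h3 : e*s-(1-K)*(s*C+x*S)*(x*C-s*S+e*C) = 0) :
    ((1-K)*S*C*(e-1))*t^4 + (2*e-(1-K)*(2*C^2*(e-1)+2*S^2))*t^3
      + (-(1-K)*(S*C*(e-1)-4*C*S-S*C*(1+e)))*t^2 + (2*e-(1-K)*(2*C^2*(1+e)-2*S^2))*t
      + (-(1-K)*(S*C*(1+e))) = 0 := by
  have h4 : (1+t^2)^2*(e*s-(1-K)*(s*C+x*S)*(x*C-s*S+e*C)) =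
      e*(s*(1+t^2))*(1+t^2)-(1-K)*((s*(1+t^2))*C+(x*(1+t^2))*S)*((x*(1+t^2))*C-(s*(1+t^2))*S+e*C*(1+t^2)) := by
    ring
  rw [h3, h1, h2] at h4
  linear_combination -h4

theorem zeros_le (hK : 0 < K) (hK1 : K < 1) (hS : 0 < S) (hC : 0 < C)
    (h : S^2+C^2 = 1) {e : ℝ} (he : 0 < e) (he1 : e < 1) :
    {f | f ∈ Ioo 0 π ∧ Mf K S C e f = 0}.encard + {f | f ∈ Ioo 0 π ∧ Mf K S C (-e) f = 0}.encard ≤ 4 := by
  have hcos : ∀ f ∈ Ioo 0 π, 0 < 1+cos f := by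
    intro f hf
    have : cos π < cos f := Real.cos_lt_cos_of_nonneg_of_le_pi hf.1.le le_rfl hf.2
    rw [Real.cos_pi] at this; linarith
  have hsin : ∀ f ∈ Ioo 0 π, 0 < sin f := fun f hf => sin_pos_of_mem_Ioo hf
  have hu : ∀ (ε : ℝ), |ε| < 1 → ∀ f, 0 < uf ε f := by
    intro ε hε f
    unfold uf
    have h1 : |ε*cos f| < 1 := by
      rw [abs_mul]
      have := Real.abs_cos_le_one f
      have := abs_nonneg ε
      have := abs_nonneg (cos f)
      nlinarith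
    have := (abs_lt.1 h1).1
    linarith
  set φ : ℝ → ℝ := fun f => sin f/(1+cos f) with hφ
  set ψ : ℝ → ℝ := fun f => -(1+cos f)/sin f with hψ
  have hφ1 : ∀ f ∈ Ioo 0 π, sin f*(1+(φ f)^2) = 2*φ f ∧ cos f*(1+(φ f)^2) = 1-(φ f)^2 := by
    intro f hf
    have h1 := hcos f hf
    have h2 := sin_sq_add_cos_sq f
    simp only [hφ]
    constructor
    · field_simp
      linear_combination (sin f)*h2
    · field_simp
      linear_combination (1+cos f)*h2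
  have hφinj : InjOn φ (Ioo 0 π) := by
    intro f hf g hg hfg
    have h1 := (hφ1 f hf).2
    have h2 := (hφ1 g hg).2
    rw [← hfg] at h2
    have h3 : cos f = cos g := by
      have : (1+(φ f)^2) ≠ 0 := by positivity
      exact mul_right_cancel₀ this (h1.trans h2.symm)
    exact Real.injOn_cos ⟨hf.1.le, hf.2.le⟩ ⟨hg.1.le, hg.2.le⟩ h3
  have hφψ : ∀ f ∈ Ioo 0 π, ψ f = -(φ f)⁻¹ := by
    intro f hf
    have h1 := hcos f hf
    have h2 := hsin f hf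
    simp only [hφ, hψ]
    field_simp
  have hφpos : ∀ f ∈ Ioo 0 π, 0 < φ f := fun f hf => div_pos (hsin f hf) (hcos f hf)
  have hψinj : InjOn ψ (Ioo 0 π) := by
    intro f hf g hg hfg
    rw [hφψ f hf, hφψ g hg] at hfg
    exact hφinj hf hg (inv_injective (neg_injective hfg))
  set Z1 : Set ℝ := {f | f ∈ Ioo 0 π ∧ Mf K S C e f = 0} with hZ1
  set Z2 : Set ℝ := {f | f ∈ Ioo 0 π ∧ Mf K S C (-e) f = 0} with hZ2
  have hsub1 : Z1 ⊆ Ioo 0 π := fun f hf => hf.1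
  have hsub2 : Z2 ⊆ Ioo 0 π := fun f hf => hf.1
  rw [← (hφinj.mono hsub1).encard_image, ← (hψinj.mono hsub2).encard_image]
  have hdisj : Disjoint (φ '' Z1) (ψ '' Z2) := by
    rw [Set.disjoint_left]
    rintro _ ⟨f, hf, rfl⟩ ⟨g, hg, hgf⟩
    have h1 := hφpos f hf.1
    have h2 := hφpos g hg.1
    rw [hφψ g hg.1] at hgf
    have : 0 < (φ g)⁻¹ := by positivity
    linarith
  rw [← encard_union_eq hdisj]
  refine le_trans (encard_le_encard ?_) (quartic_le4 ((1-K)*S*C*(e-1)) (2*e-(1-K)*(2*C^2*(e-1)+2*S^2))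
      (-(1-K)*(S*C*(e-1)-4*C*S-S*C*(1+e))) (2*e-(1-K)*(2*C^2*(1+e)-2*S^2)) (-(1-K)*(S*C*(1+e))) ?_)
  · rintro t (⟨f, hf, rfl⟩ | ⟨f, hf, rfl⟩)
    · have h1 := hφ1 f hf.1
      exact quartic_id K S C e (sin f) (cos f) (φ f) h1.1 h1.2
        (zero_eq hK hK1 hS hC h he.ne' (hu e (by rw [abs_of_pos he]; exact he1) f) hf.1 hf.2)
    · have h1 := hφ1 f hf.1
      have h2 := hφψ f hf.1
      have h3 := hφpos f hf.1
      have h4 := zero_eq hK hK1 hS hC h (neg_ne_zero.2 he.ne')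
        (hu (-e) (by rw [abs_neg, abs_of_pos he]; exact he1) f) hf.1 hf.2
      refine quartic_id K S C e (-sin f) (-cos f) (ψ f) ?_ ?_ ?_
      · rw [h2]
        have h5 := h1.1
        have h6 : φ f ≠ 0 := h3.ne'
        field_simp
        linear_combination (-1)*h5
      · rw [h2]
        have h5 := h1.2
        have h6 : φ f ≠ 0 := h3.ne'
        field_simp
        linear_combination (-1)*h5
      · linear_combination h4
  · have h1 : 0 < 1-K := by linarith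
    have h2 : e-1 ≠ 0 := by linarith
    positivity

/-- the generic count -/
theorem count10 (hK : 0 < K) (hK1 : K < 1) (hS : 0 < S) (hC : 0 < C)
    (h : S^2+C^2 = 1) {e l : ℝ} (hl : 0 < l) (he : 0 < e) (he1 : e < 1) :
    {f | f ∈ Ioo 0 π ∧ |Mf K S C e f| = l}.encard + {f | f ∈ Ioo 0 π ∧ |Mf K S C (-e) f| = l}.encard ≤ 10 := by
  have h1 := count_pos hK hK1 hS hC h hl he he1
  have h2 := count_neg hK hK1 hS hC h hl (neg_neg_of_pos he) (neg_lt_neg he1)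
  have h3 := zeros_le hK hK1 hS hC h he he1
  calc _ ≤ (2 + {f | f ∈ Ioo 0 π ∧ Mf K S C e f = 0}.encard) +
        (4 + {f | f ∈ Ioo 0 π ∧ Mf K S C (-e) f = 0}.encard) := add_le_add h1 h2
    _ = 6 + ({f | f ∈ Ioo 0 π ∧ Mf K S C e f = 0}.encard +
        {f | f ∈ Ioo 0 π ∧ Mf K S C (-e) f = 0}.encard) := by
          rw [show (6:ℕ∞) = 2+4 by norm_num]; ring
    _ ≤ 6 + 4 := add_le_add le_rfl h3
    _ = 10 := by norm_num

end

end Pool.Agent.V11332.CE
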