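import Mathlib
import Pool.Agent.V11332.CE6

set_option autoImplicit false

namespace Pool.Agent.V11332.CE

open Set Filter Topology Real

structure Dat (A1 A2 B1 B2 z1 z2 e h R : ℝ) : Prop where
  he : 0 < e
  he1 : e < 1
  hh : 0 < h
  hh2 : h^2 = 1-e^2
  hR : 0 < R
  r1 : A1^2+B1^2+z1^2 = 1
  r2 : A2^2+B2^2+z2^2 = 1
  r3 : A1*A2+B1*B2+z1*z2 = 0

/-- the stationarity conditions, in terms of cosines and sines -/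
structure Sta (A1 A2 B1 B2 e h R c n c' n' : ℝ) : Prop where
  cn : c^2+n^2 = 1
  cn' : c'^2+n'^2 = 1
  E1 : -e*n*(1+e*c) = R*(c'*(-n*A1+h*c*A2)+n'*(-n*B1+h*c*B2))
  E2 : -((e+c)*A1+h*n*A2)*n' + ((e+c)*B1+h*n*B2)*c' = 0

def DD (A1 A2 B1 B2 e h R : ℝ) : Set (ℝ × ℝ × ℝ × ℝ) :=
  {q | Sta A1 A2 B1 B2 e h R q.1 q.2.1 q.2.2.1 q.2.2.2}

section
variable {A1 A2 B1 B2 z1 z2 e h R : ℝ} {c n c' n' : ℝ}

theorem Sta.cabs (T : Sta A1 A2 B1 B2 e h R c n c' n') : c ≤ 1 ∧ -1 ≤ c := by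
  have := T.cn
  constructor <;> nlinarith [sq_nonneg n]

theorem Sta.rpos (D : Dat A1 A2 B1 B2 z1 z2 e h R) (T : Sta A1 A2 B1 B2 e h R c n c' n') :
    0 < 1+e*c := by
  have := T.cabs
  have := D.he
  have := D.he1
  nlinarith

theorem Sta.A_eq (T : Sta A1 A2 B1 B2 e h R c n c' n') :
    (e+c)*A1+h*n*A2 = (((e+c)*A1+h*n*A2)*c'+((e+c)*B1+h*n*B2)*n')*c' := by
  have h1 := T.cn'
  have h2 := T.E2
  linear_combination (-((e+c)*A1+h*n*A2))*h1 - n'*h2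

theorem Sta.B_eq (T : Sta A1 A2 B1 B2 e h R c n c' n') :
    (e+c)*B1+h*n*B2 = (((e+c)*A1+h*n*A2)*c'+((e+c)*B1+h*n*B2)*n')*n' := by
  have h1 := T.cn'
  have h2 := T.E2
  linear_combination (-((e+c)*B1+h*n*B2))*h1 + c'*h2

theorem Sta.r_eq (D : Dat A1 A2 B1 B2 z1 z2 e h R) (T : Sta A1 A2 B1 B2 e h R c n c' n') :
    (e+c)^2+h^2*n^2 = (1+e*c)^2 := by
  have h1 := T.cn
  have h2 := D.hh2
  rw [h2]
  linear_combination (1-e^2)*h1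

/-- first key relation -/
theorem Sta.T1 (D : Dat A1 A2 B1 B2 z1 z2 e h R) (T : Sta A1 A2 B1 B2 e h R c n c' n') :
    -e*n*(1+e*c)*(((e+c)*A1+h*n*A2)*c'+((e+c)*B1+h*n*B2)*n') =
      R*(-e*n*(1+e*c)-((e+c)*z1+h*n*z2)*(-n*z1+h*c*z2)) := by
  have h1 : (-e*n*(1+e*c))*(((e+c)*A1+h*n*A2)*c'+((e+c)*B1+h*n*B2)*n') =
      R*(((((e+c)*A1+h*n*A2)*c'+((e+c)*B1+h*n*B2)*n')*c')*(-n*A1+h*c*A2)
       +((((e+c)*A1+h*n*A2)*c'+((e+c)*B1+h*n*B2)*n')*n')*(-n*B1+h*c*B2)) := by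
    rw [T.E1]; ring
  rw [← T.A_eq, ← T.B_eq] at h1
  rw [h1]
  have h2 := T.cn
  have h3 := D.hh2
  have r1 := D.r1
  have r2 := D.r2
  have r3 := D.r3
  linear_combination R*(-(e+c)*n)*r1 + R*(h^2*n*c)*r2 + R*((e+c)*h*c-h*n^2)*r3 + R*n*c*h3

/-- second key relation -/
theorem Sta.T2 (D : Dat A1 A2 B1 B2 z1 z2 e h R) (T : Sta A1 A2 B1 B2 e h R c n c' n') :
    (((e+c)*A1+h*n*A2)*c'+((e+c)*B1+h*n*B2)*n')^2 = (1+e*c)^2-((e+c)*z1+h*n*z2)^2 := by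
  have h1 : (((e+c)*A1+h*n*A2)*c'+((e+c)*B1+h*n*B2)*n')^2 = ((e+c)*A1+h*n*A2)^2+((e+c)*B1+h*n*B2)^2 := by
    have ha := T.A_eq
    have hb := T.B_eq
    have h2 := T.cn'
    have h3 := T.E2
    linear_combination (((e+c)*A1+h*n*A2)^2+((e+c)*B1+h*n*B2)^2)*h2 - (-((e+c)*A1+h*n*A2)*n' + ((e+c)*B1+h*n*B2)*c')*h3
  rw [h1, ← Sta.r_eq D T]
  linear_combination (e+c)^2*D.r1 + h^2*n^2*D.r2 + 2*(e+c)*h*n*D.r3

theorem Sta.z_lt (D : Dat A1 A2 B1 B2 z1 z2 e h R) (T : Sta A1 A2 B1 B2 e h R c n c' n')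
    (hK : z1^2+z2^2 < 1) : 0 < (1+e*c)^2-((e+c)*z1+h*n*z2)^2 := by
  have h1 := Sta.r_eq D T
  have h2 := Sta.rpos D T
  have h3 : ((e+c)*z1+h*n*z2)^2 ≤ (z1^2+z2^2)*(1+e*c)^2 := by
    rw [← h1]
    nlinarith [sq_nonneg ((e+c)*z2-h*n*z1)]
  have h4 : (z1^2+z2^2)*(1+e*c)^2 < 1*(1+e*c)^2 := mul_lt_mul_of_pos_right hK (by positivity)
  linarith

/-- a stationary point with `n ≠ 0` is determined by its first component -/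
theorem Sta.det (D : Dat A1 A2 B1 B2 z1 z2 e h R) {c1 n1 c2 n2 : ℝ}
    (T : Sta A1 A2 B1 B2 e h R c n c1 n1) (T' : Sta A1 A2 B1 B2 e h R c n c2 n2) (hn : n ≠ 0)
    (hK : z1^2+z2^2 < 1) : c1 = c2 ∧ n1 = n2 := by
  have h1 := Sta.T1 D T
  have h2 := Sta.T1 D T'
  have h3 := Sta.T2 D T
  have hr := Sta.rpos D T
  have hz := Sta.z_lt D T hK
  rw [← h3] at hz
  have he := D.he
  have h4 : (((e+c)*A1+h*n*A2)*c1+((e+c)*B1+h*n*B2)*n1) = (((e+c)*A1+h*n*A2)*c2+((e+c)*B1+h*n*B2)*n2) := by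
    have h5 : -e*n*(1+e*c) ≠ 0 := by
      have : -e ≠ 0 := by linarith
      positivity
    exact mul_left_cancel₀ h5 (h1.trans h2.symm)
  have ha := T.A_eq
  have hb := T.B_eq
  have ha' := T'.A_eq
  have hb' := T'.B_eq
  rw [← h4] at ha' hb'
  have hτ : (((e+c)*A1+h*n*A2)*c1+((e+c)*B1+h*n*B2)*n1) ≠ 0 := by
    intro h0; rw [h0] at hz; simp at hz
  exact ⟨mul_left_cancel₀ hτ (ha.symm.trans ha'), mul_left_cancel₀ hτ (hb.symm.trans hb')⟩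

end

end Pool.Agent.V11332.CE
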