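import Mathlib
import Pool.Agent.V11332.CE7

set_option autoImplicit false

namespace Pool.Agent.V11332.CE

open Set Filter Topology Real

theorem le3_of {α : Type*} {s : Set α}
    (h : ∀ a ∈ s, ∀ b ∈ s, ∀ c ∈ s, ∀ d ∈ s, a ≠ b → a ≠ c → a ≠ d → b ≠ c → b ≠ d → c ≠ d → False) :
    s.encard ≤ 3 := by
  by_contra hc
  push Not at hc
  have h4 : (4:ℕ∞) ≤ s.encard := by
    have := (ENat.add_one_le_iff (by norm_num)).2 hc
    have e : (3:ℕ∞)+1 = 4 := by norm_num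
    rwa [e] at this
  obtain ⟨t, hts, ht⟩ := Set.exists_subset_encard_eq h4
  have hne : t.Nonempty := by
    rw [← Set.encard_ne_zero, ht]; norm_num
  obtain ⟨a, ha⟩ := hne
  have h3 : (t \ {a}).encard = 3 := by
    have := Set.encard_sdiff_singleton_add_one ha
    rw [ht] at this
    have e : (4:ℕ∞) = 3+1 := by norm_num
    rw [e] at this
    exact ENat.add_left_injective_of_ne_top (n := 1) (by norm_num) this
  obtain ⟨b, c, d, hbc, hbd, hcd, hset⟩ := Set.encard_eq_three.1 h3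
  have hb : b ∈ t \ {a} := by rw [hset]; simp
  have hc' : c ∈ t \ {a} := by rw [hset]; simp
  have hd : d ∈ t \ {a} := by rw [hset]; simp
  exact h a (hts ha) b (hts hb.1) c (hts hc'.1) d (hts hd.1) (fun e => hb.2 e.symm)
    (fun e => hc'.2 e.symm) (fun e => hd.2 e.symm) hbc hbd hcd

theorem quartic4 {a4 a3 a2 a1 a0 t1 t2 t3 t4 : ℝ}
    (h1 : a4*t1^4+a3*t1^3+a2*t1^2+a1*t1+a0 = 0) (h2 : a4*t2^4+a3*t2^3+a2*t2^2+a1*t2+a0 = 0)
    (h3 : a4*t3^4+a3*t3^3+a2*t3^2+a1*t3+a0 = 0) (h4 : a4*t4^4+a3*t4^3+a2*t4^2+a1*t4+a0 = 0)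
    (h12 : t1 ≠ t2) (h13 : t1 ≠ t3) (h14 : t1 ≠ t4) (h23 : t2 ≠ t3) (h24 : t2 ≠ t4) (h34 : t3 ≠ t4) :
    a3 = -a4*(t1+t2+t3+t4) ∧
    ∀ t, a4*t^4+a3*t^3+a2*t^2+a1*t+a0 = a4*((t-t1)*(t-t2)*(t-t3)*(t-t4)) := by
  have d12 : a4*(t1^3+t1^2*t2+t1*t2^2+t2^3)+a3*(t1^2+t1*t2+t2^2)+a2*(t1+t2)+a1 = 0 := by
    apply mul_left_cancel₀ (sub_ne_zero.2 h12)
    linear_combination h1 - h2
  have d13 : a4*(t1^3+t1^2*t3+t1*t3^2+t3^3)+a3*(t1^2+t1*t3+t3^2)+a2*(t1+t3)+a1 = 0 := by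
    apply mul_left_cancel₀ (sub_ne_zero.2 h13)
    linear_combination h1 - h3
  have d14 : a4*(t1^3+t1^2*t4+t1*t4^2+t4^3)+a3*(t1^2+t1*t4+t4^2)+a2*(t1+t4)+a1 = 0 := by
    apply mul_left_cancel₀ (sub_ne_zero.2 h14)
    linear_combination h1 - h4
  have d123 : a4*(t1^2+t2^2+t3^2+t1*t2+t1*t3+t2*t3)+a3*(t1+t2+t3)+a2 = 0 := by
    apply mul_left_cancel₀ (sub_ne_zero.2 h23)
    linear_combination d12 - d13
  have d124 : a4*(t1^2+t2^2+t4^2+t1*t2+t1*t4+t2*t4)+a3*(t1+t2+t4)+a2 = 0 := by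
    apply mul_left_cancel₀ (sub_ne_zero.2 h24)
    linear_combination d12 - d14
  have d1234 : a4*(t1+t2+t3+t4)+a3 = 0 := by
    apply mul_left_cancel₀ (sub_ne_zero.2 h34)
    linear_combination d123 - d124
  refine ⟨by linarith, fun t => ?_⟩
  linear_combination h1 + (t-t1)*d12 + (t-t1)*(t-t2)*d123 + (t-t1)*(t-t2)*(t-t3)*d1234

section
variable {A1 A2 B1 B2 z1 z2 e h R : ℝ}

theorem half_le (D : Dat A1 A2 B1 B2 z1 z2 e h R) (hK : z1^2+z2^2 < 1) {Cs : Set ℝ} {m : ℕ∞}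
    (hCs : ∀ q ∈ DD A1 A2 B1 B2 e h R, q.2.1 ≠ 0 → q.1 ∈ Cs) (hm : Cs.encard ≤ m) :
    {q | q ∈ DD A1 A2 B1 B2 e h R ∧ q.2.1 ≠ 0}.encard ≤ m+m := by
  have e1 : {q | q ∈ DD A1 A2 B1 B2 e h R ∧ q.2.1 ≠ 0} = {q | q ∈ DD A1 A2 B1 B2 e h R ∧ 0 < q.2.1} ∪
      {q | q ∈ DD A1 A2 B1 B2 e h R ∧ q.2.1 < 0} := by
    ext q
    simp only [mem_union, mem_ofPred_eq]
    constructor
    · rintro ⟨h1, h2⟩
      rcases lt_or_gt_of_ne h2 with h3 | h3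
      · exact Or.inr ⟨h1, h3⟩
      · exact Or.inl ⟨h1, h3⟩
    · rintro (⟨h1, h2⟩ | ⟨h1, h2⟩)
      · exact ⟨h1, h2.ne'⟩
      · exact ⟨h1, h2.ne⟩
  have hdet : ∀ q ∈ DD A1 A2 B1 B2 e h R, ∀ q' ∈ DD A1 A2 B1 B2 e h R, q.1 = q'.1 → q.2.1 = q'.2.1 →
      q.2.1 ≠ 0 → q = q' := by
    rintro ⟨c, n, c1, n1⟩ hq ⟨c', n', c2, n2⟩ hq' hc hn hn0
    simp only at hc hn hn0
    subst hc hn
    have T : Sta A1 A2 B1 B2 e h R c n c1 n1 := hq
    have T' : Sta A1 A2 B1 B2 e h R c n c2 n2 := hq'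
    obtain ⟨h1, h2⟩ := Sta.det D T T' hn0 hK
    rw [h1, h2]
  have i1 : {q | q ∈ DD A1 A2 B1 B2 e h R ∧ 0 < q.2.1}.encard ≤ m := by
    refine le_trans (encard_le_encard_of_injOn (f := fun q => q.1) (t := Cs) ?_ ?_) hm
    · intro q hq; exact hCs q hq.1 hq.2.ne'
    · intro q hq q' hq' hqq
      apply hdet q hq.1 q' hq'.1 hqq _ hq.2.ne'
      have h1 : q.1^2+q.2.1^2 = 1 := (show Sta A1 A2 B1 B2 e h R q.1 q.2.1 q.2.2.1 q.2.2.2 from hq.1).cn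
      have h2 : q'.1^2+q'.2.1^2 = 1 := (show Sta A1 A2 B1 B2 e h R q'.1 q'.2.1 q'.2.2.1 q'.2.2.2 from hq'.1).cn
      have h3 : q.1 = q'.1 := hqq
      have h4 : q.2.1^2 = q'.2.1^2 := by rw [h3] at h1; linarith
      exact (pow_left_inj₀ (le_of_lt hq.2) (le_of_lt hq'.2) (by norm_num)).1 h4
  have i2 : {q | q ∈ DD A1 A2 B1 B2 e h R ∧ q.2.1 < 0}.encard ≤ m := by
    refine le_trans (encard_le_encard_of_injOn (f := fun q => q.1) (t := Cs) ?_ ?_) hm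
    · intro q hq; exact hCs q hq.1 hq.2.ne
    · intro q hq q' hq' hqq
      apply hdet q hq.1 q' hq'.1 hqq _ hq.2.ne
      have h1 : q.1^2+q.2.1^2 = 1 := (show Sta A1 A2 B1 B2 e h R q.1 q.2.1 q.2.2.1 q.2.2.2 from hq.1).cn
      have h2 : q'.1^2+q'.2.1^2 = 1 := (show Sta A1 A2 B1 B2 e h R q'.1 q'.2.1 q'.2.2.1 q'.2.2.2 from hq'.1).cn
      have h3 : q.1 = q'.1 := hqq
      have h4 : (-q.2.1)^2 = (-q'.2.1)^2 := by rw [h3] at h1; linarith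
      have h5 : 0 < -q.2.1 := neg_pos.2 hq.2
      have h6 : 0 < -q'.2.1 := neg_pos.2 hq'.2
      have := (pow_left_inj₀ h5.le h6.le (by norm_num)).1 h4
      linarith
  rw [e1]
  exact (encard_union_le _ _).trans (add_le_add i1 i2)

/-- the points with `n = 0` -/
theorem n0_le (D : Dat A1 A2 B1 B2 z1 z2 e h R) (hK : z1^2+z2^2 < 1) :
    {q | q ∈ DD A1 A2 B1 B2 e h R ∧ q.2.1 = 0}.encard ≤ 4 := by
  have hρ : 0 < A2^2+B2^2 := by
    have := D.r2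
    nlinarith [sq_nonneg z1]
  set ρ : ℝ := √(A2^2+B2^2) with hρd
  have hρ0 : 0 < ρ := Real.sqrt_pos.2 hρ
  have hρ2 : ρ^2 = A2^2+B2^2 := Real.sq_sqrt hρ.le
  have hsub : {q | q ∈ DD A1 A2 B1 B2 e h R ∧ q.2.1 = 0} ⊆
      ({(1, 0, B2/ρ, -A2/ρ), (1, 0, -B2/ρ, A2/ρ), (-1, 0, B2/ρ, -A2/ρ), (-1, 0, -B2/ρ, A2/ρ)} :
        Set (ℝ × ℝ × ℝ × ℝ)) := by
    rintro ⟨c, n, c', n'⟩ ⟨hq, hn⟩
    have T : Sta A1 A2 B1 B2 e h R c n c' n' := hq
    have hn' : n = 0 := hn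
    subst hn'
    have h1 := T.cn
    have h2 := T.E1
    have h3 := T.cn'
    have hc : c = 1 ∨ c = -1 := by
      have h0 : (c-1)*(c+1) = 0 := by linear_combination h1
      rcases mul_eq_zero.1 h0 with h | h
      · left; linarith
      · right; linarith
    have h4 : c'*A2+n'*B2 = 0 := by
      have h5 : R*h*c*(c'*A2+n'*B2) = 0 := by linarith
      have hc0 : c ≠ 0 := by rcases hc with h | h <;> rw [h] <;> norm_num
      have hR := D.hR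
      have hh := D.hh
      rcases mul_eq_zero.1 h5 with h6 | h6
      · exfalso
        have : R*h*c ≠ 0 := by positivity
        exact this h6
      · exact h6
    have h5 : (c'*B2-n'*A2)^2 = ρ^2 := by
      rw [hρ2]
      linear_combination (A2^2+B2^2)*h3 - (c'*A2+n'*B2)*h4
    have h6 : c'*ρ^2 = (c'*B2-n'*A2)*B2 := by rw [hρ2]; linear_combination A2*h4
    have h7 : n'*ρ^2 = -(c'*B2-n'*A2)*A2 := by rw [hρ2]; linear_combination B2*h4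
    have h8 : (c' = B2/ρ ∧ n' = -A2/ρ) ∨ (c' = -B2/ρ ∧ n' = A2/ρ) := by
      rcases sq_eq_sq_iff_eq_or_eq_neg.1 h5 with h9 | h9
      · left
        rw [h9] at h6 h7
        constructor
        · field_simp
          have : ρ*(c'*ρ) = ρ*B2 := by linarith
          exact mul_left_cancel₀ hρ0.ne' this
        · field_simp
          have : ρ*(n'*ρ) = ρ*(-A2) := by linarith
          exact mul_left_cancel₀ hρ0.ne' this
      · right
        rw [h9] at h6 h7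
        constructor
        · field_simp
          have : ρ*(c'*ρ) = ρ*(-B2) := by linarith
          exact mul_left_cancel₀ hρ0.ne' this
        · field_simp
          have : ρ*(n'*ρ) = ρ*(A2) := by linarith
          exact mul_left_cancel₀ hρ0.ne' this
    rcases hc with h | h <;> rcases h8 with ⟨h9, h10⟩ | ⟨h9, h10⟩ <;> rw [h, h9, h10] <;> simp
  refine (encard_le_encard hsub).trans ?_
  have e4 : (4:ℕ∞) = 1+1+1+1 := by norm_num
  rw [e4]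
  refine (encard_insert_le _ _).trans (add_le_add ?_ le_rfl)
  refine (encard_insert_le _ _).trans (add_le_add ?_ le_rfl)
  refine (encard_insert_le _ _).trans (add_le_add ?_ le_rfl)
  rw [encard_singleton]

theorem split_n (A1 A2 B1 B2 e h R : ℝ) :
    DD A1 A2 B1 B2 e h R = {q | q ∈ DD A1 A2 B1 B2 e h R ∧ q.2.1 ≠ 0} ∪
      {q | q ∈ DD A1 A2 B1 B2 e h R ∧ q.2.1 = 0} := by
  ext q
  simp only [mem_union, mem_ofPred_eq]
  tauto

end

end Pool.Agent.V11332.CE
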