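import Mathlib
import Pool.Agent.V11332.CE8

set_option autoImplicit false

namespace Pool.Agent.V11332.CE

open Set Filter Topology Real

section
variable {A1 A2 B1 B2 z1 z2 e h R : ℝ}

theorem caseA_of (D : Dat A1 A2 B1 B2 z1 z2 e h R) (hK : z1^2+z2^2 < 1) {Cs : Set ℝ}
    (hCs : ∀ q ∈ DD A1 A2 B1 B2 e h R, q.2.1 ≠ 0 → q.1 ∈ Cs) (hm : Cs.encard ≤ 3) :
    (DD A1 A2 B1 B2 e h R).encard ≤ 10 := by
  rw [split_n]
  refine (encard_union_le _ _).trans ?_
  have := add_le_add (half_le D hK hCs hm) (n0_le D hK)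
  refine this.trans (le_of_eq ?_)
  norm_num

/-- the case `z1 = 0` -/
theorem case_z1 (D : Dat A1 A2 B1 B2 z1 z2 e h R) (hK : z1^2+z2^2 < 1) (hz : z1 = 0) :
    (DD A1 A2 B1 B2 e h R).encard ≤ 10 := by
  have he := D.he
  have he1 := D.he1
  have hh := D.hh
  have hR := D.hR
  have hh2 := D.hh2
  by_cases hz2 : z2 = 0
  · -- coplanar
    apply caseA_of D hK (Cs := {(R-1)/e}) _ (by rw [encard_singleton]; norm_num)
    rintro ⟨c, n, c', n'⟩ hq hn
    have T : Sta A1 A2 B1 B2 e h R c n c' n' := hq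
    have h1 := Sta.T1 D T
    have h2 := Sta.T2 D T
    have hr := Sta.rpos D T
    have hn' : n ≠ 0 := hn
    rw [hz, hz2] at h1 h2
    have h3 : ((e+c)*A1+h*n*A2)*c'+((e+c)*B1+h*n*B2)*n' = R := by
      have h5 : -e*n*(1+e*c) ≠ 0 := by
        have : -e ≠ 0 := by linarith
        positivity
      apply mul_left_cancel₀ h5
      linear_combination h1
    rw [h3] at h2
    have h4 : R = 1+e*c := by
      have h5 : R^2 = (1+e*c)^2 := by linarith
      exact (pow_left_inj₀ hR.le hr.le (by norm_num)).1 h5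
    simp only [mem_singleton_iff]
    rw [h4]; field_simp; ring
  · apply caseA_of D hK (Cs := {c | c < 1 ∧ -1 < c ∧
      e^2*(1+e*c)^2*((1+e*c)^2-h^2*z2^2*(1-c^2)) = R^2*(e*(1+e*c)+h^2*z2^2*c)^2})
    · rintro ⟨c, n, c', n'⟩ hq hn
      have T : Sta A1 A2 B1 B2 e h R c n c' n' := hq
      have h1 := Sta.T1 D T
      have h2 := Sta.T2 D T
      have hcn := T.cn
      have hn' : n ≠ 0 := hn
      have hn2 : 0 < n^2 := by positivity
      simp only [mem_ofPred_eq]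
      refine ⟨by nlinarith, by nlinarith, ?_⟩
      set τ : ℝ := ((e+c)*A1+h*n*A2)*c'+((e+c)*B1+h*n*B2)*n' with hτ
      rw [hz] at h1 h2
      have h3 : e*(1+e*c)*τ = R*(e*(1+e*c)+h^2*z2^2*c) := by
        apply mul_left_cancel₀ hn'
        linear_combination (-1)*h1
      have h4 : τ^2 = (1+e*c)^2-h^2*z2^2*(1-c^2) := by
        rw [h2]; linear_combination (-h^2*z2^2)*hcn
      rw [← h4]
      have h5 : (e*(1+e*c)*τ)^2 = (R*(e*(1+e*c)+h^2*z2^2*c))^2 := by rw [h3]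
      linear_combination h5
    · apply le3_of
      rintro t1 ⟨ht1, ht1', e1⟩ t2 ⟨ht2, ht2', e2⟩ t3 ⟨ht3, ht3', e3⟩ t4 ⟨ht4, ht4', e4⟩ h12 h13 h14 h23 h24 h34
      set a4 : ℝ := e^4*(e^2+h^2*z2^2) with ha4
      set a3 : ℝ := e^2*(2*e*(e^2+h^2*z2^2)+2*e^3) with ha3
      set a2 : ℝ := e^2*((e^2+h^2*z2^2)+4*e^2+e^2*(1-h^2*z2^2))-R^2*(e^2+h^2*z2^2)^2 with ha2
      set a1 : ℝ := e^2*(2*e+2*e*(1-h^2*z2^2))-R^2*(2*e*(e^2+h^2*z2^2)) with ha1
      set a0 : ℝ := e^2*(1-h^2*z2^2)-R^2*e^2 with ha0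
      have hF : ∀ t : ℝ, e^2*(1+e*t)^2*((1+e*t)^2-h^2*z2^2*(1-t^2)) - R^2*(e*(1+e*t)+h^2*z2^2*t)^2 =
          a4*t^4+a3*t^3+a2*t^2+a1*t+a0 := by
        intro t; rw [ha4, ha3, ha2, ha1, ha0]; ring
      have g1 : a4*t1^4+a3*t1^3+a2*t1^2+a1*t1+a0 = 0 := by rw [← hF]; linarith
      have g2 : a4*t2^4+a3*t2^3+a2*t2^2+a1*t2+a0 = 0 := by rw [← hF]; linarith
      have g3 : a4*t3^4+a3*t3^3+a2*t3^2+a1*t3+a0 = 0 := by rw [← hF]; linarith
      have g4 : a4*t4^4+a3*t4^3+a2*t4^2+a1*t4+a0 = 0 := by rw [← hF]; linarith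
      obtain ⟨-, hfac⟩ := quartic4 g1 g2 g3 g4 h12 h13 h14 h23 h24 h34
      have h5 := hfac (-1/e)
      rw [← hF] at h5
      have h6 : 1+e*(-1/e) = 0 := by field_simp; ring
      rw [h6] at h5
      have hlt : ∀ t, -1 < t → -1/e-t < 0 := by
        intro t ht
        have : -1/e ≤ -1 := by
          rw [div_le_iff₀ he]; linarith
        linarith
      have p1 := hlt t1 ht1'
      have p2 := hlt t2 ht2'
      have p3 := hlt t3 ht3'
      have p4 := hlt t4 ht4'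
      have ha4' : 0 < a4 := by positivity
      have hr : 0 < a4*((-1/e-t1)*(-1/e-t2)*(-1/e-t3)*(-1/e-t4)) := by
        have q1 := mul_pos_of_neg_of_neg p1 p2
        have q2 := mul_pos_of_neg_of_neg p3 p4
        have q3 := mul_pos q1 q2
        have : (-1/e-t1)*(-1/e-t2)*(-1/e-t3)*(-1/e-t4) = ((-1/e-t1)*(-1/e-t2))*((-1/e-t3)*(-1/e-t4)) := by ring
        rw [this]; positivity
      rw [← h5] at hr
      have h7 : 0 ≤ R^2*(e*0+h^2*z2^2*(-1/e))^2 := by positivity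
      have h8 : e^2*0^2*(0^2-h^2*z2^2*(1-(-1/e)^2)) = 0 := by ring
      rw [h8] at hr
      linarith

/-- the case `z2 = 0` -/
theorem case_z2 (D : Dat A1 A2 B1 B2 z1 z2 e h R) (hK : z1^2+z2^2 < 1) (hz : z2 = 0) :
    (DD A1 A2 B1 B2 e h R).encard ≤ 10 := by
  have he := D.he
  have he1 := D.he1
  have hh := D.hh
  have hR := D.hR
  have hh2 := D.hh2
  by_cases hz1 : z1 = 0
  · exact case_z1 D hK hz1
  · apply caseA_of D hK (Cs := {c | c < 1 ∧ -1 < c ∧
      e^2*(1+e*c)^2*((1+e*c)^2-z1^2*(e+c)^2) = R^2*(e*(1+e*c)-z1^2*(e+c))^2})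
    · rintro ⟨c, n, c', n'⟩ hq hn
      have T : Sta A1 A2 B1 B2 e h R c n c' n' := hq
      have h1 := Sta.T1 D T
      have h2 := Sta.T2 D T
      have hcn := T.cn
      have hn' : n ≠ 0 := hn
      have hn2 : 0 < n^2 := by positivity
      simp only [mem_ofPred_eq]
      refine ⟨by nlinarith, by nlinarith, ?_⟩
      set τ : ℝ := ((e+c)*A1+h*n*A2)*c'+((e+c)*B1+h*n*B2)*n' with hτ
      rw [hz] at h1 h2
      have h3 : e*(1+e*c)*τ = R*(e*(1+e*c)-z1^2*(e+c)) := by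
        apply mul_left_cancel₀ hn'
        linear_combination (-1)*h1
      have h4 : τ^2 = (1+e*c)^2-z1^2*(e+c)^2 := by
        rw [h2]; ring
      rw [← h4]
      have h5 : (e*(1+e*c)*τ)^2 = (R*(e*(1+e*c)-z1^2*(e+c)))^2 := by rw [h3]
      linear_combination h5
    · apply le3_of
      rintro t1 ⟨ht1, ht1', e1⟩ t2 ⟨ht2, ht2', e2⟩ t3 ⟨ht3, ht3', e3⟩ t4 ⟨ht4, ht4', e4⟩ h12 h13 h14 h23 h24 h34
      set a4 : ℝ := R^2*e^2*z1^4 with ha4
      set a3 : ℝ := R^2*(-2*e*z1^2*(e^2+z1^2)) with ha3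
      set a2 : ℝ := R^2*((e^2+z1^2)^2+2*e^2*z1^2)+h^4*e^2*z1^2 with ha2
      set a1 : ℝ := R^2*(-2*e*(e^2+z1^2)) with ha1
      set a0 : ℝ := R^2*e^2-h^4*e^2 with ha0
      have hr : ∀ c : ℝ, c < 1 → -1 < c → 0 < 1+e*c := by
        intro c h1 h2
        have := mul_lt_mul_of_pos_left h2 he
        linarith
      have hx : ∀ c : ℝ, c < 1 → -1 < c → (e+c)/(1+e*c) < 1 := by
        intro c h1 h2
        rw [div_lt_one (hr c h1 h2)]
        have := mul_pos (sub_pos.2 h1) (sub_pos.2 he1)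
        linarith
      have hinj : ∀ c c' : ℝ, c < 1 → -1 < c → c' < 1 → -1 < c' → c ≠ c' →
          (e+c)/(1+e*c) ≠ (e+c')/(1+e*c') := by
        intro c c' h1 h2 h3 h4 hcc heq
        have r1 := hr c h1 h2
        have r2 := hr c' h3 h4
        rw [div_eq_div_iff r1.ne' r2.ne'] at heq
        apply hcc
        have h5 : (1-e^2)*(c-c') = 0 := by linear_combination heq
        rcases mul_eq_zero.1 h5 with h6 | h6
        · exfalso; rw [← hh2] at h6
          have : 0 < h^2 := by positivity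
          linarith
        · linarith
      have hF : ∀ c : ℝ, c < 1 → -1 < c →
          e^2*(1+e*c)^2*((1+e*c)^2-z1^2*(e+c)^2) = R^2*(e*(1+e*c)-z1^2*(e+c))^2 →
          a4*((e+c)/(1+e*c))^4+a3*((e+c)/(1+e*c))^3+a2*((e+c)/(1+e*c))^2+a1*((e+c)/(1+e*c))+a0 = 0 := by
        intro c h1 h2 h3
        have r1 := hr c h1 h2
        set x : ℝ := (e+c)/(1+e*c) with hx
        have hxr : x*(1+e*c) = e+c := by rw [hx]; field_simp
        rw [← hxr] at h3
        set r : ℝ := 1+e*c with hrd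
        have hu : (1-e*x)*r = h^2 := by
          rw [hh2]
          linear_combination (-e)*hxr + hrd
        have h4 : e^2*r^2*(1-z1^2*x^2) = R^2*(e-z1^2*x)^2 := by
          have : r^2 ≠ 0 := by positivity
          apply mul_left_cancel₀ this
          linear_combination h3
        have h5 : e^2*(h^2)^2*(1-z1^2*x^2) = R^2*(e-z1^2*x)^2*(1-e*x)^2 := by
          rw [← hu]
          linear_combination (1-e*x)^2*h4
        rw [ha4, ha3, ha2, ha1, ha0]
        linear_combination (-1)*h5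
      have g1 := hF t1 ht1 ht1' e1
      have g2 := hF t2 ht2 ht2' e2
      have g3 := hF t3 ht3 ht3' e3
      have g4 := hF t4 ht4 ht4' e4
      obtain ⟨hsum, -⟩ := quartic4 g1 g2 g3 g4 (hinj _ _ ht1 ht1' ht2 ht2' h12) (hinj _ _ ht1 ht1' ht3 ht3' h13)
        (hinj _ _ ht1 ht1' ht4 ht4' h14) (hinj _ _ ht2 ht2' ht3 ht3' h23) (hinj _ _ ht2 ht2' ht4 ht4' h24)
        (hinj _ _ ht3 ht3' ht4 ht4' h34)
      have x1 := hx t1 ht1 ht1'
      have x2 := hx t2 ht2 ht2'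
      have x3 := hx t3 ht3 ht3'
      have x4 := hx t4 ht4 ht4'
      set s : ℝ := (e+t1)/(1+e*t1)+(e+t2)/(1+e*t2)+(e+t3)/(1+e*t3)+(e+t4)/(1+e*t4) with hs
      have hs4 : s < 4 := by linarith
      -- e z1² s = 2 (e²+z1²)
      have h5 : e*z1^2*s = 2*(e^2+z1^2) := by
        have h6 : R^2*e*z1^2 ≠ 0 := by positivity
        apply mul_left_cancel₀ h6
        rw [ha4, ha3] at hsum
        linear_combination hsum
      have hzl : z1^2 < 1 := by
        have := sq_nonneg z2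
        linarith
      have hz1p : 0 < z1^2 := by positivity
      have h7 : e*z1^2*s < e*z1^2*4 := mul_lt_mul_of_pos_left hs4 (by positivity)
      -- e²+z1² ≥ 2 e z1²
      have h8 : 2*e*z1^2 ≤ e^2+z1^2 := by
        have h9 := mul_pos hz1p (sub_pos.2 hzl)
        have h10 := sq_nonneg (e-z1^2)
        linarith
      linarith

end

end Pool.Agent.V11332.CE
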