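import Mathlib
import Pool.Agent.V11332.CE9

set_option autoImplicit false

namespace Pool.Agent.V11332.CE

open Set Filter Topology Real

section
variable {A1 A2 B1 B2 z1 z2 e h R : ℝ}

theorem M_abs (D : Dat A1 A2 B1 B2 z1 z2 e h R) {c n c' n' : ℝ}
    (T : Sta A1 A2 B1 B2 e h R c n c' n') (h1 : 0 < z1) (h2 : 0 < z2) (hK : z1^2+z2^2 < 1)
    {η f k : ℝ} (hη : η^2 = 1) (hk : 0 < k) (hk2 : k^2 = z1^2+z2^2) (hf : f ∈ Ioo 0 π)
    (hx : cos f*(1+e*c) = η*(e+c)) (hs : sin f*(1+e*c) = η*h*n) :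
    |Mf (1-k^2) (z1/k) (z2/k) (-η*e) f| = h^2/R := by
  have hr := Sta.rpos D T
  have t1 := Sta.T1 D T
  have t2 := Sta.T2 D T
  have hk2' : 0 < k^2 := by positivity
  have RR : Rel (1-k^2) (z1/k) (z2/k) (sin f) (cos f) (sg (z1/k) (z2/k) f) (gm (z1/k) (z2/k) f)
      (Qf (1-k^2) (z1/k) (z2/k) f) (bf (1-k^2) (z1/k) (z2/k) f) (Gf (1-k^2) (z1/k) (z2/k) f) := by
    apply rel_of (by rw [hk2]; linarith) (by linarith) (by positivity) (by positivity) _ hf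
    field_simp; rw [hk2]
  have hQ := RR.Qpos
  have hsp := RR.s0
  have hR := D.hR
  have he := D.he
  have hh := D.hh
  have hh2 := D.hh2
  set r : ℝ := 1+e*c with hrd
  set τ : ℝ := ((e+c)*A1+h*n*A2)*c'+((e+c)*B1+h*n*B2)*n' with hτ
  have hkσ : k*sg (z1/k) (z2/k) f = sin f*z2+cos f*z1 := by unfold sg; field_simp
  have hkγ : k*gm (z1/k) (z2/k) f = cos f*z2-sin f*z1 := by unfold gm; field_simp
  -- z
  have hz : (e+c)*z1+h*n*z2 = η*r*(k*sg (z1/k) (z2/k) f) := by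
    rw [hkσ]
    linear_combination (-(e+c)*z1-h*n*z2)*hη - η*z1*hx - η*z2*hs
  -- h z'
  have hz' : h*(-n*z1+h*c*z2) = η*r*(k*gm (z1/k) (z2/k) f+(-η*e)*z2) := by
    rw [hkγ]
    have e1 : h^2*c = η*cos f*r-e*r := by
      rw [hh2]; linear_combination (-(e+c))*hη-η*hx - e*hrd
    linear_combination (z2)*e1 + η*z1*hs + (h*n*z1-e*r*z2*0)*hη + (e*r*z2)*hη
  -- star
  have hstar : (-η*e)*sin f*τ = R*((-η*e)*sin f-k^2*sg (z1/k) (z2/k) f*(gm (z1/k) (z2/k) f+(-η*e)*(z2/k))) := by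
    have hr2 : r^2 ≠ 0 := by positivity
    apply mul_left_cancel₀ hr2
    have e1 : h*(-e*n*r*τ) = R*(-e*(h*n)*r-((e+c)*z1+h*n*z2)*(h*(-n*z1+h*c*z2))) := by
      linear_combination h*t1
    rw [hz, hz'] at e1
    have e2 : h*n = η*(sin f*r) := by linear_combination (-h*n)*hη - η*hs
    have e3 : k*(gm (z1/k) (z2/k) f+(-η*e)*(z2/k)) = k*gm (z1/k) (z2/k) f+(-η*e)*z2 := by field_simp
    rw [← e3] at e1
    rw [e2] at e1
    have e4 : h*(-e*n*r*τ) = -e*(η*(sin f*r))*r*τ := by rw [← e2]; ring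
    rw [e4] at e1
    linear_combination e1 - R*r^2*k^2*sg (z1/k) (z2/k) f*(gm (z1/k) (z2/k) f+(-η*e)*(z2/k))*hη
  -- the numerator
  have hnum : Qf (1-k^2) (z1/k) (z2/k) f*(-η*e)*sin f-bf (1-k^2) (z1/k) (z2/k) f*uf (-η*e) f
      = (-η*e)*sin f*τ/R := by
    have e1 := RR.e1
    have hb := RR.hb
    have hu' : uf (-η*e) f = 1+(-η*e)*cos f := rfl
    rw [hu', hstar]
    field_simp
    have e5 : k^2*(z2/k) = k*z2 := by field_simp
    have e6 := e1
    have e7 : (1-(1-k^2))*sg (z1/k) (z2/k) f*(z2/k) = sg (z1/k) (z2/k) f*(k*z2) := by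
      rw [← e5]; ring
    rw [e7] at e6
    have e8 : (1-(1-k^2)) = k^2 := by ring
    rw [e8] at hb
    linear_combination (η*e)*e6 - hb
  have hu : uf (-η*e) f*r = h^2 := by
    have hu' : uf (-η*e) f = 1+(-η*e)*cos f := rfl
    rw [hu', hh2]
    linear_combination (-η*e)*hx + hrd - e*(e+c)*hη
  have hτ2 : τ^2 = r^2*Qf (1-k^2) (z1/k) (z2/k) f := by
    rw [t2, hz]
    have e1 := RR.oneQ
    linear_combination (-r^2*(k*sg (z1/k) (z2/k) f)^2)*hη + (r^2)*e1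
  have hτa : |τ| = r*√(Qf (1-k^2) (z1/k) (z2/k) f) := by
    rw [← Real.sqrt_sq_eq_abs, hτ2, Real.sqrt_mul (by positivity), Real.sqrt_sq hr.le]
  have hw : 0 < √(Qf (1-k^2) (z1/k) (z2/k) f) := Real.sqrt_pos.2 hQ
  have hη0 : η ≠ 0 := by intro h0; rw [h0] at hη; norm_num at hη
  have hM : Mf (1-k^2) (z1/k) (z2/k) (-η*e) f = uf (-η*e) f*τ/(R*√(Qf (1-k^2) (z1/k) (z2/k) f)) := by
    unfold Mf
    rw [hnum]
    field_simp
  have hu0 : 0 < uf (-η*e) f := by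
    have : 0 < uf (-η*e) f*r := by rw [hu]; positivity
    exact (pos_iff_pos_of_mul_pos this).2 hr
  rw [hM, abs_div, abs_mul, hτa, abs_of_pos hu0, abs_of_pos (show 0 < R*√(Qf (1-k^2) (z1/k) (z2/k) f) by positivity)]
  rw [← hu]
  field_simp

theorem half_gen (D : Dat A1 A2 B1 B2 z1 z2 e h R) (h1 : 0 < z1) (h2 : 0 < z2)
    (hK : z1^2+z2^2 < 1) {η k : ℝ} (hη : η^2 = 1) (hk : 0 < k) (hk2 : k^2 = z1^2+z2^2) :
    {q | q ∈ DD A1 A2 B1 B2 e h R ∧ 0 < η*q.2.1}.encard ≤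
      {f | f ∈ Ioo 0 π ∧ |Mf (1-k^2) (z1/k) (z2/k) (-η*e) f| = h^2/R}.encard := by
  have he := D.he
  have hh := D.hh
  have hh2 := D.hh2
  have hη0 : η ≠ 0 := by intro h0; rw [h0] at hη; norm_num at hη
  -- facts on the angle
  have key : ∀ q : ℝ × ℝ × ℝ × ℝ, q ∈ DD A1 A2 B1 B2 e h R → 0 < η*q.2.1 →
      0 < 1+e*q.1 ∧ (-1 ≤ η*(e+q.1)/(1+e*q.1) ∧ η*(e+q.1)/(1+e*q.1) ≤ 1) ∧
      cos (arccos (η*(e+q.1)/(1+e*q.1)))*(1+e*q.1) = η*(e+q.1) ∧
      sin (arccos (η*(e+q.1)/(1+e*q.1)))*(1+e*q.1) = η*h*q.2.1 ∧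
      arccos (η*(e+q.1)/(1+e*q.1)) ∈ Ioo 0 π := by
    rintro ⟨c, n, c', n'⟩ hq hn
    have T : Sta A1 A2 B1 B2 e h R c n c' n' := hq
    have hr := Sta.rpos D T
    have hre := Sta.r_eq D T
    simp only at hn ⊢
    have hx2 : (η*(e+c)/(1+e*c))^2 = 1-(η*h*n/(1+e*c))^2 := by
      field_simp
      rw [hη]; linear_combination hre
    have hx3 : (η*(e+c)/(1+e*c))^2 ≤ 1 := by
      rw [hx2]; have := sq_nonneg (η*h*n/(1+e*c)); linarith
    have hx4 := abs_le.1 ((sq_le_one_iff_abs_le_one _).1 hx3)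
    have hcos : cos (arccos (η*(e+c)/(1+e*c))) = η*(e+c)/(1+e*c) := Real.cos_arccos hx4.1 hx4.2
    have hsin : sin (arccos (η*(e+c)/(1+e*c))) = η*h*n/(1+e*c) := by
      rw [Real.sin_arccos, hx2]
      have : 1-(1-(η*h*n/(1+e*c))^2) = (η*h*n/(1+e*c))^2 := by ring
      rw [this]
      apply Real.sqrt_sq
      have : η*h*n = h*(η*n) := by ring
      rw [this]; positivity
    have hsp : 0 < sin (arccos (η*(e+c)/(1+e*c))) := by
      rw [hsin]
      have : η*h*n = h*(η*n) := by ring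
      rw [this]; positivity
    refine ⟨hr, hx4, ?_, ?_, ?_, ?_⟩
    · rw [hcos]; field_simp
    · rw [hsin]; field_simp
    · rcases (Real.arccos_nonneg (η*(e+c)/(1+e*c))).lt_or_eq with h3 | h3
      · exact h3
      · rw [← h3, Real.sin_zero] at hsp; exact absurd hsp (lt_irrefl _)
    · rcases (Real.arccos_le_pi (η*(e+c)/(1+e*c))).lt_or_eq with h3 | h3
      · exact h3
      · rw [h3, Real.sin_pi] at hsp; exact absurd hsp (lt_irrefl _)
  apply encard_le_encard_of_injOn (f := fun q => arccos (η*(e+q.1)/(1+e*q.1)))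
  · rintro ⟨c, n, c', n'⟩ ⟨hq, hn⟩
    obtain ⟨k1, k2, k3, k4, k5⟩ := key _ hq hn
    exact ⟨k5, M_abs D hq h1 h2 hK hη hk hk2 k5 k3 k4⟩
  · rintro ⟨c, n, c', n'⟩ ⟨hq, hn⟩ ⟨d, m, d', m'⟩ ⟨hq', hm⟩ heq
    obtain ⟨k1, k2, k3, k4, k5⟩ := key _ hq hn
    obtain ⟨l1, l2, l3, l4, l5⟩ := key _ hq' hm
    simp only at heq k1 k2 k3 k4 l1 l2 l3 l4 hn hm
    have h3 : η*(e+c)/(1+e*c) = η*(e+d)/(1+e*d) := Real.arccos_injOn ⟨k2.1, k2.2⟩ ⟨l2.1, l2.2⟩ heq
    have h4 : c = d := by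
      rw [div_eq_div_iff k1.ne' l1.ne'] at h3
      have h5 : (e+c)*(1+e*d) = (e+d)*(1+e*c) := by
        apply mul_left_cancel₀ hη0; linear_combination h3
      have h6 : h^2*(c-d) = 0 := by rw [hh2]; linear_combination h5
      rcases mul_eq_zero.1 h6 with h7 | h7
      · exact absurd h7 (by positivity)
      · linarith
    subst h4
    have T : Sta A1 A2 B1 B2 e h R c n c' n' := hq
    have T' : Sta A1 A2 B1 B2 e h R c m d' m' := hq'
    have h5 : n = m := by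
      have h6 := T.cn
      have h7 := T'.cn
      have h8 : (η*n)^2 = (η*m)^2 := by
        have : n^2 = m^2 := by linarith
        rw [mul_pow, mul_pow, this]
      have h9 := (pow_left_inj₀ hn.le hm.le (by norm_num)).1 h8
      exact mul_left_cancel₀ hη0 h9
    subst h5
    have hn0 : n ≠ 0 := by intro h0; rw [h0] at hn; simp at hn
    obtain ⟨h6, h7⟩ := Sta.det D T T' hn0 hK
    rw [h6, h7]

/-- the generic case -/
theorem case_gen (D : Dat A1 A2 B1 B2 z1 z2 e h R) (h1 : 0 < z1) (h2 : 0 < z2)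
    (hK : z1^2+z2^2 < 1) : (DD A1 A2 B1 B2 e h R).encard ≤ 10 := by
  set k : ℝ := √(z1^2+z2^2) with hkd
  have hk0 : 0 < z1^2+z2^2 := by positivity
  have hk : 0 < k := Real.sqrt_pos.2 hk0
  have hk2 : k^2 = z1^2+z2^2 := Real.sq_sqrt hk0.le
  have he := D.he
  have he1 := D.he1
  have hh := D.hh
  have hR := D.hR
  have e1 : DD A1 A2 B1 B2 e h R ⊆ {q | q ∈ DD A1 A2 B1 B2 e h R ∧ 0 < (-1)*q.2.1} ∪
      {q | q ∈ DD A1 A2 B1 B2 e h R ∧ 0 < 1*q.2.1} := by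
    rintro ⟨c, n, c', n'⟩ hq
    have T : Sta A1 A2 B1 B2 e h R c n c' n' := hq
    rcases lt_trichotomy n 0 with hn | hn | hn
    · left; exact ⟨hq, by simpa using hn⟩
    · exfalso
      subst hn
      have t1 := Sta.T1 D T
      have hcn := T.cn
      have h3 : (e+c)*c ≠ 0 := by
        have h4 : c^2 = 1 := by linarith
        intro h0
        have h5 : e*c = -1 := by linear_combination h0 - h4
        have h6 : (e*c)^2 = e^2 := by rw [mul_pow, h4, mul_one]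
        rw [h5] at h6
        nlinarith
      have h4 : R*(z1*z2*h)*((e+c)*c) = 0 := by linear_combination t1
      rcases mul_eq_zero.1 h4 with h5 | h5
      · exact absurd h5 (by positivity)
      · exact h3 h5
    · right; exact ⟨hq, by simpa using hn⟩
  have a1 := half_gen D h1 h2 hK (η := -1) (by norm_num) hk hk2
  have a2 := half_gen D h1 h2 hK (η := 1) (by norm_num) hk hk2
  have hSC : (z1/k)^2+(z2/k)^2 = 1 := by field_simp; rw [hk2]
  have a3 := count10 (K := 1-k^2) (S := z1/k) (C := z2/k) (by rw [hk2]; linarith) (by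
    have : 0 < k^2 := by positivity
    linarith) (by positivity) (by positivity) hSC (e := e) (l := h^2/R) (by positivity) he he1
  have e2 : -(-1:ℝ)*e = e := by ring
  have e3 : -(1:ℝ)*e = -e := by ring
  rw [e2] at a1
  rw [e3] at a2
  calc _ ≤ _ := encard_le_encard e1
    _ ≤ _ := encard_union_le _ _
    _ ≤ _ := add_le_add a1 a2
    _ ≤ 10 := a3

end

end Pool.Agent.V11332.CE
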