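import Mathlib
import Pool.Agent.V11332.CE10

set_option autoImplicit false

namespace Pool.Agent.V11332.CE

open Set Filter Topology Real

theorem pair_le {α : Type*} (a b : α) : ({a, b} : Set α).encard ≤ 2 := by
  have e2 : (2:ℕ∞) = 1+1 := by norm_num
  rw [e2]
  refine (encard_insert_le _ _).trans (add_le_add ?_ le_rfl)
  rw [encard_singleton]

/-- a line meets the unit circle in at most two points -/
theorem line_sub (a b v : ℝ) (hab : a^2+b^2 ≠ 0) :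
    ∃ p q : ℝ × ℝ, {x : ℝ × ℝ | x.1^2+x.2^2 = 1 ∧ a*x.1+b*x.2 = v} ⊆ {p, q} := by
  set D : ℝ := a^2+b^2 with hD
  set w : ℝ := √(D-v^2) with hw
  refine ⟨((a*v+b*w)/D, (b*v-a*w)/D), ((a*v-b*w)/D, (b*v+a*w)/D), ?_⟩
  rintro ⟨c, n⟩ ⟨h1, h2⟩
  simp only at h1 h2
  have h3 : (b*c-a*n)^2 = D-v^2 := by
    rw [← h2, hD]; linear_combination (a^2+b^2)*h1
  have h4 : w^2 = (b*c-a*n)^2 := by
    rw [hw, Real.sq_sqrt (by rw [← h3]; positivity), h3]
  simp only [mem_insert_iff, mem_singleton_iff, Prod.mk.injEq]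
  rcases sq_eq_sq_iff_eq_or_eq_neg.1 h4 with h5 | h5
  · left
    constructor
    · rw [h5]; field_simp; rw [← h2, hD]; ring
    · rw [h5]; field_simp; rw [← h2, hD]; ring
  · right
    constructor
    · rw [h5]; field_simp; rw [← h2, hD]; ring
    · rw [h5]; field_simp; rw [← h2, hD]; ring

theorem line_le (a b v : ℝ) (hab : a^2+b^2 ≠ 0) :
    {x : ℝ × ℝ | x.1^2+x.2^2 = 1 ∧ a*x.1+b*x.2 = v}.encard ≤ 2 := by
  obtain ⟨p, q, h⟩ := line_sub a b v hab
  exact (encard_le_encard h).trans (pair_le p q)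

def Tr (P Q w : ℝ) : Set (ℝ × ℝ) := {x | x.1^2+x.2^2 = 1 ∧ x.2*(P+w*x.1) = Q*x.1}

theorem tr_le4 (P Q w : ℝ) (hw : w ≠ 0) : (Tr P Q w).encard ≤ 4 := by
  by_cases hQ : Q = 0
  · have hsub : Tr P Q w ⊆ {x : ℝ × ℝ | x.1^2+x.2^2 = 1 ∧ 0*x.1+1*x.2 = 0} ∪
        {x : ℝ × ℝ | x.1^2+x.2^2 = 1 ∧ w*x.1+0*x.2 = -P} := by
      rintro ⟨c, n⟩ ⟨h1, h2⟩
      simp only at h1 h2
      rw [hQ, zero_mul] at h2
      rcases mul_eq_zero.1 h2 with h3 | h3
      · left; exact ⟨h1, by simp [h3]⟩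
      · right; exact ⟨h1, by simp only; linarith⟩
    refine (encard_le_encard hsub).trans ((encard_union_le _ _).trans ?_)
    have e4 : (4:ℕ∞) = 2+2 := by norm_num
    rw [e4]
    exact add_le_add (line_le 0 1 0 (by norm_num)) (line_le w 0 (-P) (by positivity))
  · have hc : ∀ x ∈ Tr P Q w, 0 < 1+x.1 := by
      rintro ⟨c, n⟩ ⟨h1, h2⟩
      simp only at h1 h2 ⊢
      have h3 : -1 ≤ c := by nlinarith [sq_nonneg n]
      rcases h3.lt_or_eq with h4 | h4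
      · linarith
      · exfalso
        rw [← h4] at h1 h2
        have h5 : n^2 = 0 := by linarith
        have h6 : n = 0 := by simpa using h5
        rw [h6] at h2
        apply hQ; linarith
    have key : ∀ x ∈ Tr P Q w, x.1*(1+(x.2/(1+x.1))^2) = 1-(x.2/(1+x.1))^2 ∧
        x.2*(1+(x.2/(1+x.1))^2) = 2*(x.2/(1+x.1)) := by
      rintro ⟨c, n⟩ hx
      have h3 := hc _ hx
      obtain ⟨h1, h2⟩ := hx
      simp only at h1 h2 h3 ⊢
      constructor
      · field_simp; linear_combination (1+c)*h1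
      · field_simp; linear_combination n*h1
    refine le_trans (encard_le_encard_of_injOn (f := fun x : ℝ × ℝ => x.2/(1+x.1)) ?_ ?_)
      (quartic_le4 (-Q) (-2*(P-w)) 0 (-2*(P+w)) Q (neg_ne_zero.2 hQ))
    · rintro x hx
      have h3 := hc _ hx
      obtain ⟨k1, k2⟩ := key x hx
      obtain ⟨h1, h2⟩ := hx
      set t : ℝ := x.2/(1+x.1) with ht
      show -Q*t^4+(-2*(P-w))*t^3+0*t^2+(-2*(P+w))*t+Q = 0
      have h4 : (x.2*(1+t^2))*(P*(1+t^2)+w*(x.1*(1+t^2))) = Q*(x.1*(1+t^2))*(1+t^2) := by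
        linear_combination (1+t^2)^2*h2
      rw [k1, k2] at h4
      linear_combination (-1)*h4
    · rintro ⟨c, n⟩ hx ⟨c', n'⟩ hy hxy
      have k1 := key _ hx
      have k2 := key _ hy
      simp only at hxy k1 k2
      rw [← hxy] at k2
      have hp : (1+(n/(1+c))^2) ≠ 0 := by positivity
      have h3 := mul_right_cancel₀ hp (k1.1.trans k2.1.symm)
      have h4 := mul_right_cancel₀ hp (k1.2.trans k2.2.symm)
      rw [h3, h4]

theorem tan_exp {c1 n1 c2 n2 : ℝ} (h1 : c1^2+n1^2 = 1) (h2 : c2^2+n2^2 = 1) (h : 0 < c1*c2) :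
    ((n1-n2)*(c1*c2))^2 ≤ (n1*c2-n2*c1)^2 := by
  set X : ℝ := c1*c2 with hX
  set p : ℝ := c1*c2+n1*n2 with hp
  have hX1 : X ≤ 1 := by nlinarith [sq_nonneg (c1-c2), sq_nonneg n1, sq_nonneg n2]
  have hnn : -(1-X) ≤ n1*n2 := by
    have h3 : (n1*n2)^2 ≤ (1-X)^2 := by
      have h1' : n1^2 = 1-c1^2 := by linarith
      have h2' : n2^2 = 1-c2^2 := by linarith
      have : (n1*n2)^2 = (1-c1^2)*(1-c2^2) := by rw [mul_pow, h1', h2']
      rw [this, hX]; nlinarith [sq_nonneg (c1-c2)]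
    exact (abs_le.1 (abs_le_of_sq_le_sq h3 (by linarith))).1
  have hp1 : p ≤ 1 := by
    nlinarith [sq_nonneg (c1-c2), sq_nonneg (n1-n2)]
  have h4 : 2*X^2 ≤ 1+p := by
    have : X^2 ≤ X := by nlinarith
    have : 2*X ≤ 1+p := by rw [hp]; linarith
    linarith
  have h5 : (n1-n2)^2 ≤ 2*(1-p) := by
    nlinarith [sq_nonneg (c1-c2)]
  have h6 : (n1*c2-n2*c1)^2 = (1-p)*(1+p) := by
    have e1 : (n1*c2-n2*c1)^2 + p^2 = (c1^2+n1^2)*(c2^2+n2^2) := by rw [hp]; ring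
    rw [h1, h2] at e1; linarith
  rw [h6, mul_pow]
  calc (n1-n2)^2*X^2 ≤ (2*(1-p))*X^2 := mul_le_mul_of_nonneg_right h5 (sq_nonneg _)
    _ = (1-p)*(2*X^2) := by ring
    _ ≤ (1-p)*(1+p) := mul_le_mul_of_nonneg_left h4 (by linarith)

theorem tr_le2 (P Q w : ℝ) (hw : 0 < w) (hP : w < P) : (Tr P Q w).encard ≤ 2 := by
  have huniq : ∀ x ∈ Tr P Q w, ∀ y ∈ Tr P Q w, 0 < x.1*y.1 → x = y := by
    rintro ⟨c1, n1⟩ ⟨h1, h2⟩ ⟨c2, n2⟩ ⟨h3, h4⟩ hc
    simp only at h1 h2 h3 h4 hc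
    have e1 : P*(n1*c2-n2*c1) = -w*((n1-n2)*(c1*c2)) := by
      linear_combination c2*h2 - c1*h4
    have e2 := tan_exp h1 h3 hc
    have e3 : (P*(n1*c2-n2*c1))^2 = (-w*((n1-n2)*(c1*c2)))^2 := by rw [e1]
    have e4 : (P^2-w^2)*(n1*c2-n2*c1)^2 ≤ 0 := by
      have : w^2*((n1-n2)*(c1*c2))^2 ≤ w^2*(n1*c2-n2*c1)^2 := mul_le_mul_of_nonneg_left e2 (by positivity)
      nlinarith
    have e5 : 0 < P^2-w^2 := by nlinarith
    have e6 : (n1*c2-n2*c1)^2 ≤ 0 := by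
      by_contra hcon
      push Not at hcon
      have := mul_pos e5 hcon
      linarith
    have e7 : n1*c2-n2*c1 = 0 := by
      have : (n1*c2-n2*c1)^2 = 0 := le_antisymm e6 (sq_nonneg _)
      simpa using this
    rw [e7] at e1
    have e8 : (n1-n2)*(c1*c2) = 0 := by
      have : -w ≠ 0 := by linarith
      have h0 : -w*((n1-n2)*(c1*c2)) = 0 := by linarith
      exact (mul_eq_zero.1 h0).resolve_left this
    have e9 : n1 = n2 := by
      have := (mul_eq_zero.1 e8).resolve_right hc.ne'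
      linarith
    have e10 : c1 = c2 := by
      have h5 : (c1-c2)*(c1+c2) = 0 := by rw [e9] at h1; linear_combination h1-h3
      rcases mul_eq_zero.1 h5 with h6 | h6
      · linarith
      · exfalso
        have : c1*c2 = -c2^2 := by
          have : c1 = -c2 := by linarith
          rw [this]; ring
        nlinarith [sq_nonneg c2]
    rw [e9, e10]
  have hsub : Tr P Q w ⊆ {x | x ∈ Tr P Q w ∧ 0 < x.1} ∪ {x | x ∈ Tr P Q w ∧ x.1 < 0} := by
    rintro ⟨c, n⟩ hx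
    rcases lt_trichotomy c 0 with h | h | h
    · right; exact ⟨hx, h⟩
    · exfalso
      obtain ⟨h1, h2⟩ := hx
      simp only [h] at h1 h2
      have h3 : n*P = 0 := by linarith
      rcases mul_eq_zero.1 h3 with h4 | h4
      · rw [h4] at h1; norm_num at h1
      · linarith
    · left; exact ⟨hx, h⟩
  refine (encard_le_encard hsub).trans ((encard_union_le _ _).trans ?_)
  have e2 : (2:ℕ∞) = 1+1 := by norm_num
  rw [e2]
  apply add_le_add
  · rw [encard_le_one_iff]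
    rintro x y ⟨hx, hx'⟩ ⟨hy, hy'⟩
    exact huniq x hx y hy (mul_pos hx' hy')
  · rw [encard_le_one_iff]
    rintro x y ⟨hx, hx'⟩ ⟨hy, hy'⟩
    exact huniq x hx y hy (mul_pos_of_neg_of_neg hx' hy')

section
variable {A1 A2 B1 B2 z1 z2 e h R : ℝ}

/-- the case `K = 0` : perpendicular planes -/
theorem case_K0 (D : Dat A1 A2 B1 B2 z1 z2 e h R) (hK : z1^2+z2^2 = 1) :
    (DD A1 A2 B1 B2 e h R).encard ≤ 10 := by
  have he := D.he
  have he1 := D.he1
  have hh := D.hh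
  have hR := D.hR
  have hh2 := D.hh2
  have r1 := D.r1
  have r2 := D.r2
  have r3 := D.r3
  have hsum : (z1*A1+z2*A2)^2+(z1*B1+z2*B2)^2 = 0 := by
    linear_combination z1^2*r1+z2^2*r2+2*z1*z2*r3 - (z1^2+z2^2)*hK
  have hA : z1*A1+z2*A2 = 0 := by nlinarith [sq_nonneg (z1*A1+z2*A2), sq_nonneg (z1*B1+z2*B2)]
  have hB : z1*B1+z2*B2 = 0 := by nlinarith [sq_nonneg (z1*A1+z2*A2), sq_nonneg (z1*B1+z2*B2)]
  set α : ℝ := z2*A1-z1*A2 with hα
  set β : ℝ := z2*B1-z1*B2 with hβ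
  have a1 : A1 = z2*α := by rw [hα]; linear_combination z1*hA - A1*hK
  have a2 : A2 = -z1*α := by rw [hα]; linear_combination z2*hA - A2*hK
  have b1 : B1 = z2*β := by rw [hβ]; linear_combination z1*hB - B1*hK
  have b2 : B2 = -z1*β := by rw [hβ]; linear_combination z2*hB - B2*hK
  have hαβ : α^2+β^2 = 1 := by
    rw [hα, hβ]; linear_combination z2^2*r1+z1^2*r2-2*z1*z2*r3+hK
  -- the two families
  have hcase : ∀ q ∈ DD A1 A2 B1 B2 e h R,
      (q.2.2 = (α, β) ∧ (q.1, q.2.1) ∈ Tr (e-R*z2) (R*h*z1) (e^2)) ∨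
      (q.2.2 = (-α, -β) ∧ (q.1, q.2.1) ∈ Tr (e+R*z2) (-R*h*z1) (e^2)) ∨
      ((q.1^2+q.2.1^2 = 1 ∧ z2*q.1+(-(h*z1))*q.2.1 = -e*z2) ∧
        (q.2.2.1^2+q.2.2.2^2 = 1 ∧
          (α*(-q.2.1*z2-h*q.1*z1))*q.2.2.1+(β*(-q.2.1*z2-h*q.1*z1))*q.2.2.2
            = -e*q.2.1*(1+e*q.1)/R)) := by
    rintro ⟨c, n, c', n'⟩ hq
    have T : Sta A1 A2 B1 B2 e h R c n c' n' := hq
    have t1 := T.E1
    have t2 := T.E2
    have hcn := T.cn
    have hcn' := T.cn'
    rw [a1, a2, b1, b2] at t1 t2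
    simp only
    have h3 : ((e+c)*z2-h*n*z1)*(β*c'-α*n') = 0 := by linear_combination t2
    rcases mul_eq_zero.1 h3 with h4 | h4
    · right; right
      refine ⟨⟨hcn, by linarith⟩, hcn', ?_⟩
      field_simp
      linear_combination (-1)*t1
    · -- parallel
      have h5 : (α*c'+β*n')^2 = 1 := by
        have : (α*c'+β*n')^2 + (β*c'-α*n')^2 = (α^2+β^2)*(c'^2+n'^2) := by ring
        rw [h4, hαβ, hcn'] at this; linarith
      have h6 : c' = (α*c'+β*n')*α := by linear_combination (-c')*hαβ + β*h4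
      have h7 : n' = (α*c'+β*n')*β := by linear_combination (-n')*hαβ - α*h4
      have h8 : (α*c'+β*n' - 1)*(α*c'+β*n'+1) = 0 := by linear_combination h5
      rcases mul_eq_zero.1 h8 with h9 | h9
      · left
        have h10 : α*c'+β*n' = 1 := by linarith
        refine ⟨?_, hcn, ?_⟩
        · rw [h10, one_mul] at h6 h7; rw [h6, h7]
        · simp only
          linear_combination (-1)*t1 + R*(n*z2+h*c*z1)*h10
      · right; left
        have h10 : α*c'+β*n' = -1 := by linarith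
        refine ⟨?_, hcn, ?_⟩
        · rw [h10, neg_one_mul] at h6 h7; rw [h6, h7]
        · simp only
          linear_combination (-1)*t1 + R*(n*z2+h*c*z1)*h10
  -- family (i)
  have fam : ∀ (v : ℝ × ℝ) (S : Set (ℝ × ℝ)) (m : ℕ∞), S.encard ≤ m →
      {q : ℝ × ℝ × ℝ × ℝ | q.2.2 = v ∧ (q.1, q.2.1) ∈ S}.encard ≤ m := by
    intro v S m hm
    refine le_trans (encard_le_encard_of_injOn (f := fun q : ℝ × ℝ × ℝ × ℝ => (q.1, q.2.1)) ?_ ?_) hm
    · intro q hq; exact hq.2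
    · rintro ⟨c, n, p⟩ ⟨hq, -⟩ ⟨c', n', p'⟩ ⟨hq', -⟩ heq
      simp only at hq hq' heq
      rw [Prod.mk.injEq] at heq
      rw [heq.1, heq.2, hq, hq']
  have he2 : e^2 < e := by nlinarith
  have he2' : 0 < e^2 := by positivity
  have F12 : ({q : ℝ × ℝ × ℝ × ℝ | q.2.2 = (α, β) ∧ (q.1, q.2.1) ∈ Tr (e-R*z2) (R*h*z1) (e^2)} ∪
      {q : ℝ × ℝ × ℝ × ℝ | q.2.2 = (-α, -β) ∧ (q.1, q.2.1) ∈ Tr (e+R*z2) (-R*h*z1) (e^2)}).encard ≤ 6 := by
    refine (encard_union_le _ _).trans ?_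
    rcases le_or_gt 0 z2 with hz | hz
    · have g1 := fam (α, β) _ 4 (tr_le4 (e-R*z2) (R*h*z1) (e^2) he2'.ne')
      have g2 := fam (-α, -β) _ 2 (tr_le2 (e+R*z2) (-R*h*z1) (e^2) he2' (by
        have : 0 ≤ R*z2 := by positivity
        linarith))
      exact (add_le_add g1 g2).trans (le_of_eq (by norm_num))
    · have g1 := fam (α, β) _ 2 (tr_le2 (e-R*z2) (R*h*z1) (e^2) he2' (by
        have : 0 < R*(-z2) := mul_pos hR (by linarith)
        linarith))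
      have g2 := fam (-α, -β) _ 4 (tr_le4 (e+R*z2) (-R*h*z1) (e^2) he2'.ne')
      exact (add_le_add g1 g2).trans (le_of_eq (by norm_num))
  -- family (ii)
  obtain ⟨p1, p2, hp⟩ := line_sub z2 (-(h*z1)) (-e*z2) (by
    have h3 : z2^2+(-(h*z1))^2 = z2^2+h^2*z1^2 := by ring
    rw [h3]
    rcases eq_or_ne z2 0 with h4 | h4
    · have h5 : z1 ≠ 0 := by
        intro h0; rw [h4, h0] at hK; norm_num at hK
      positivity
    · positivity)
  set G : Set (ℝ × ℝ × ℝ × ℝ) := {q | (q.1^2+q.2.1^2 = 1 ∧ z2*q.1+(-(h*z1))*q.2.1 = -e*z2) ∧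
        (q.2.2.1^2+q.2.2.2^2 = 1 ∧
          (α*(-q.2.1*z2-h*q.1*z1))*q.2.2.1+(β*(-q.2.1*z2-h*q.1*z1))*q.2.2.2
            = -e*q.2.1*(1+e*q.1)/R)} with hG
  have hfib : ∀ p : ℝ × ℝ, {q | q ∈ G ∧ (q.1, q.2.1) = p}.encard ≤ 2 := by
    rintro ⟨c, n⟩
    by_cases hcn : c^2+n^2 = 1 ∧ z2*c+(-(h*z1))*n = -e*z2
    · obtain ⟨h3, h4⟩ := hcn
      -- transversality
      have hy : -n*z2-h*c*z1 ≠ 0 := by
        intro h0
        have hr : 0 < 1+e*c := by
          have h5 : -1 ≤ c := by nlinarith [sq_nonneg n]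
          nlinarith
        have hr' : 1+e*c = (e+c)*c+n^2 := by linear_combination (-1)*h3
        have q1 : z1*(h*(1+e*c)) = 0 := by
          rw [hr']
          linear_combination (-(e+c))*h0 - n*h4
        have q2 : z2*(h*(1+e*c)) = 0 := by
          rw [hr']
          linear_combination (h*c)*h4 - h*n*h0
        have hne : h*(1+e*c) ≠ 0 := by positivity
        have z1z := (mul_eq_zero.1 q1).resolve_right hne
        have z2z := (mul_eq_zero.1 q2).resolve_right hne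
        rw [z1z, z2z] at hK; norm_num at hK
      refine le_trans (encard_le_encard_of_injOn (f := fun q : ℝ × ℝ × ℝ × ℝ => q.2.2) ?_ ?_)
        (line_le (α*(-n*z2-h*c*z1)) (β*(-n*z2-h*c*z1)) (-e*n*(1+e*c)/R) ?_)
      · rintro ⟨c', n', p⟩ ⟨hq, hq'⟩
        simp only [Prod.mk.injEq] at hq'
        obtain ⟨rfl, rfl⟩ := hq'
        exact hq.2
      · rintro ⟨c1, n1, p1⟩ ⟨hq, hq'⟩ ⟨c2, n2, p2⟩ ⟨hr, hr'⟩ heq
        simp only [Prod.mk.injEq] at hq' hr' heq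
        rw [hq'.1, hq'.2, hr'.1, hr'.2, heq]
      · have : (α*(-n*z2-h*c*z1))^2+(β*(-n*z2-h*c*z1))^2 = (-n*z2-h*c*z1)^2 := by
          linear_combination (-n*z2-h*c*z1)^2*hαβ
        rw [this]; positivity
    · have : {q | q ∈ G ∧ (q.1, q.2.1) = (c, n)} = ∅ := by
        ext ⟨c', n', p⟩
        simp only [mem_ofPred_eq, mem_empty_iff_false, iff_false, not_and]
        intro hq hq'
        rw [Prod.mk.injEq] at hq'
        obtain ⟨rfl, rfl⟩ := hq'
        exact hcn hq.1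
      rw [this]; simp
  have hGle : G.encard ≤ 4 := by
    have hsub : G ⊆ {q | q ∈ G ∧ (q.1, q.2.1) = p1} ∪ {q | q ∈ G ∧ (q.1, q.2.1) = p2} := by
      intro q hq
      have h3 : ((q.1, q.2.1) : ℝ × ℝ) ∈ ({p1, p2} : Set (ℝ × ℝ)) := hp hq.1
      rcases h3 with h3 | h3
      · left; exact ⟨hq, h3⟩
      · right; exact ⟨hq, h3⟩
    refine (encard_le_encard hsub).trans ((encard_union_le _ _).trans ?_)
    exact (add_le_add (hfib p1) (hfib p2)).trans (le_of_eq (by norm_num))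
  have hsub : DD A1 A2 B1 B2 e h R ⊆
      ({q : ℝ × ℝ × ℝ × ℝ | q.2.2 = (α, β) ∧ (q.1, q.2.1) ∈ Tr (e-R*z2) (R*h*z1) (e^2)} ∪
      {q : ℝ × ℝ × ℝ × ℝ | q.2.2 = (-α, -β) ∧ (q.1, q.2.1) ∈ Tr (e+R*z2) (-R*h*z1) (e^2)}) ∪ G := by
    intro q hq
    rcases hcase q hq with h3 | h3 | h3
    · left; left; exact h3
    · left; right; exact h3
    · right; exact h3
  refine (encard_le_encard hsub).trans ((encard_union_le _ _).trans ?_)
  exact (add_le_add F12 hGle).trans (le_of_eq (by norm_num))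

end

end Pool.Agent.V11332.CE
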