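import Mathlib
import Pool.Agent.V11332.CE11

set_option autoImplicit false

namespace Pool.Agent.V11332.CE

open Set Filter Topology Real

section
variable {A1 A2 B1 B2 z1 z2 e h R : ℝ}

theorem flip_le (A1 A2 B1 B2 e h R : ℝ) :
    (DD A1 A2 B1 B2 e h R).encard ≤ (DD A1 (-A2) B1 (-B2) e h R).encard := by
  apply encard_le_encard_of_injOn (f := fun q : ℝ × ℝ × ℝ × ℝ => (q.1, -q.2.1, q.2.2))
  · rintro ⟨c, n, c', n'⟩ hq
    have T : Sta A1 A2 B1 B2 e h R c n c' n' := hq
    have t1 := T.E1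
    have t2 := T.E2
    have t3 := T.cn
    show Sta A1 (-A2) B1 (-B2) e h R c (-n) c' n'
    exact ⟨by linarith [t3], T.cn', by linear_combination (-1)*t1, by linear_combination t2⟩
  · rintro ⟨c, n, p⟩ _ ⟨c', n', p'⟩ _ heq
    simp only [Prod.mk.injEq] at heq
    rw [heq.1, neg_injective heq.2.1, heq.2.2]

theorem Dat.zle (D : Dat A1 A2 B1 B2 z1 z2 e h R) : z1^2+z2^2 ≤ 1 := by
  have r1 := D.r1
  have r2 := D.r2
  have r3 := D.r3
  have h1 : (A1*A2+B1*B2)^2 ≤ (A1^2+B1^2)*(A2^2+B2^2) := by nlinarith [sq_nonneg (A1*B2-A2*B1)]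
  have h2 : A1*A2+B1*B2 = -(z1*z2) := by linarith
  have h3 : A1^2+B1^2 = 1-z1^2 := by linarith
  have h4 : A2^2+B2^2 = 1-z2^2 := by linarith
  rw [h2, h3, h4] at h1
  nlinarith

/-- the core count -/
theorem core (D : Dat A1 A2 B1 B2 z1 z2 e h R) : (DD A1 A2 B1 B2 e h R).encard ≤ 10 := by
  rcases D.zle.lt_or_eq with hK | hK
  · by_cases h1 : z1 = 0
    · exact case_z1 D hK h1
    by_cases h2 : z2 = 0
    · exact case_z2 D hK h2
    rcases lt_or_gt_of_ne h1 with h3 | h3 <;> rcases lt_or_gt_of_ne h2 with h4 | h4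
    · -- both negative
      have D' : Dat A1 A2 B1 B2 (-z1) (-z2) e h R := ⟨D.he, D.he1, D.hh, D.hh2, D.hR,
        by linarith [D.r1], by linarith [D.r2], by linarith [D.r3]⟩
      exact case_gen D' (by linarith) (by linarith) (by linarith)
    · have D' : Dat A1 (-A2) B1 (-B2) (-z1) z2 e h R := ⟨D.he, D.he1, D.hh, D.hh2, D.hR,
        by linarith [D.r1], by linarith [D.r2], by linarith [D.r3]⟩
      exact (flip_le _ _ _ _ _ _ _).trans (case_gen D' (by linarith) (by linarith) (by linarith))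
    · have D' : Dat A1 (-A2) B1 (-B2) z1 (-z2) e h R := ⟨D.he, D.he1, D.hh, D.hh2, D.hR,
        by linarith [D.r1], by linarith [D.r2], by linarith [D.r3]⟩
      exact (flip_le _ _ _ _ _ _ _).trans (case_gen D' (by linarith) (by linarith) (by linarith))
    · exact case_gen D h3 h4 hK
  · exact case_K0 D hK

end

section
abbrev E3 := EuclideanSpace ℝ (Fin 3)

theorem frame (u₂ w₂ : E3) (hu : ‖u₂‖ = 1) (hw : ‖w₂‖ = 1) (huw : inner ℝ u₂ w₂ = 0) :
    ∃ N : E3, ∀ x y : E3, inner ℝ x y = inner ℝ x u₂*inner ℝ y u₂ + inner ℝ x w₂*inner ℝ y w₂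
      + inner ℝ x N*inner ℝ y N := by
  have hcard : Module.finrank ℝ E3 = Fintype.card (Fin 3) := by simp
  have hv : Orthonormal ℝ (({0, 1} : Set (Fin 3)).domRestrict (![u₂, w₂, 0] : Fin 3 → E3)) := by
    rw [orthonormal_iff_ite]
    rintro ⟨i, hi⟩ ⟨j, hj⟩
    have hwu : inner ℝ w₂ u₂ = (0:ℝ) := by rw [real_inner_comm]; exact huw
    rcases hi with hi | hi <;> rcases hj with hj | hj <;> subst hi <;> subst hj <;>
      simp [Set.domRestrict, hu, hw, huw, hwu]
  obtain ⟨b, hb⟩ := hv.exists_orthonormalBasis_extension_of_card_eq hcard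
  have hb0 : b 0 = u₂ := by have := hb 0 (by simp); simpa using this
  have hb1 : b 1 = w₂ := by have := hb 1 (by simp); simpa using this
  refine ⟨b 2, fun x y => ?_⟩
  rw [← b.sum_inner_mul_inner x y, Fin.sum_univ_three, hb0, hb1]
  rw [real_inner_comm y u₂, real_inner_comm y w₂, real_inner_comm y (b 2)]

end

end Pool.Agent.V11332.CE
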