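import Mathlib

/-!
# Cramér's decomposition theorem

If `μ ∗ ν` is a Gaussian law on the real line, then `μ` is Gaussian.
-/

namespace Pool.Agent.V11332.Cramer

open MeasureTheory ProbabilityTheory Set Filter Topology Complex
open scoped ENNReal NNReal

/-- An entire function `H` with `H 0 = 0` and `‖H z‖ ≤ C (1 + ‖z‖²)` is `c₁ z + c₂ z²/2`. -/
lemma entire_quadratic {H : ℂ → ℂ} (hH : Differentiable ℂ H) (h0 : H 0 = 0) {C : ℝ} (hC : 0 ≤ C)
    (hb : ∀ z, ‖H z‖ ≤ C * (1 + ‖z‖ ^ 2)) : ∃ c₁ c₂ : ℂ, ∀ z, H z = c₁ * z + c₂ * z ^ 2 / 2 := by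
  have h3 : ∀ z, iteratedDeriv 3 H z = 0 := by
    intro z
    have hlim : Tendsto (fun r : ℝ => (Nat.factorial 3 : ℝ) * (C * (1 + (2 * r) ^ 2)) / r ^ 3) atTop
        (𝓝 0) := by
      have h1 : Tendsto (fun r : ℝ => 6 * C * (r⁻¹) ^ 3 + 24 * C * r⁻¹) atTop (𝓝 0) := by
        have a := tendsto_inv_atTop_zero (𝕜 := ℝ)
        have := ((a.pow 3).const_mul (6 * C)).add (a.const_mul (24 * C))
        simpa using this
      refine h1.congr' ?_
      filter_upwards [eventually_gt_atTop 0] with r hr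
      have : (Nat.factorial 3 : ℝ) = 6 := by norm_num [Nat.factorial]
      rw [this]
      field_simp
      ring
    have hle : ∀ᶠ r : ℝ in atTop, ‖iteratedDeriv 3 H z‖
        ≤ (Nat.factorial 3 : ℝ) * (C * (1 + (2 * r) ^ 2)) / r ^ 3 := by
      filter_upwards [eventually_gt_atTop (max 0 ‖z‖)] with r hr
      have hr0 : 0 < r := lt_of_le_of_lt (le_max_left _ _) hr
      have hrz : ‖z‖ < r := lt_of_le_of_lt (le_max_right _ _) hr
      refine norm_iteratedDeriv_le_of_forall_mem_sphere_norm_le 3 hr0 hH.diffContOnCl ?_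
      intro w hw
      refine (hb w).trans ?_
      have h1 : ‖w‖ ≤ 2 * r := by
        have : ‖w - z‖ = r := mem_sphere_iff_norm.1 hw
        calc ‖w‖ = ‖(w - z) + z‖ := by ring_nf
          _ ≤ ‖w - z‖ + ‖z‖ := norm_add_le _ _
          _ ≤ 2 * r := by linarith
      have h2 : ‖w‖ ^ 2 ≤ (2 * r) ^ 2 := by gcongr
      gcongr
    have h4 : ‖iteratedDeriv 3 H z‖ ≤ 0 := ge_of_tendsto hlim hle
    exact norm_le_zero_iff.1 h4
  have hd1 : Differentiable ℂ (deriv H) := hH.deriv
  have hd2 : Differentiable ℂ (deriv (deriv H)) := hd1.deriv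
  have h3' : ∀ z, deriv (deriv (deriv H)) z = 0 := by
    intro z
    have := h3 z
    rwa [iteratedDeriv_succ, iteratedDeriv_succ, iteratedDeriv_one] at this
  have hc2 : ∀ z, deriv (deriv H) z = deriv (deriv H) 0 := fun z =>
    is_const_of_deriv_eq_zero hd2 h3' z 0
  set c2 := deriv (deriv H) 0 with hc2def
  have hc1 : ∀ z, deriv H z - c2 * z = deriv H 0 := by
    intro z
    have hdiff : Differentiable ℂ fun z => deriv H z - c2 * z := by fun_prop
    have : ∀ z, deriv (fun z => deriv H z - c2 * z) z = 0 := by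
      intro z
      have h := (hd1 z).hasDerivAt.sub ((hasDerivAt_id z).const_mul c2)
      have h' : HasDerivAt (fun z => deriv H z - c2 * z) (deriv (deriv H) z - c2 * 1) z := h
      rw [h'.deriv, hc2 z]; ring
    have := is_const_of_deriv_eq_zero hdiff this z 0
    simpa using this
  set c1 := deriv H 0 with hc1def
  refine ⟨c1, c2, fun z => ?_⟩
  have hdiff : Differentiable ℂ fun z => H z - (c1 * z + c2 * z ^ 2 / 2) := by fun_prop
  have hz : ∀ z, deriv (fun z => H z - (c1 * z + c2 * z ^ 2 / 2)) z = 0 := by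
    intro z
    have h1 : HasDerivAt (fun z : ℂ => c1 * z + c2 * z ^ 2 / 2) (c1 + c2 * z) z := by
      have a := (hasDerivAt_id z).const_mul c1
      have b := ((hasDerivAt_pow 2 z).const_mul c2).div_const 2
      refine (a.add b).congr_deriv ?_
      simp; ring
    have h2 : HasDerivAt (fun z => H z - (c1 * z + c2 * z ^ 2 / 2))
        (deriv H z - (c1 + c2 * z)) z := (hH z).hasDerivAt.sub h1
    rw [h2.deriv]
    have := hc1 z
    linear_combination this
  have := is_const_of_deriv_eq_zero hdiff hz z 0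
  simp only [h0, mul_zero, ne_eq, OfNat.ofNat_ne_zero, not_false_eq_true, zero_pow, zero_div,
    add_zero, sub_zero] at this
  linear_combination this

/-- holomorphic logarithm on `ℂ`, normalised. -/
lemma exists_log {φ : ℂ → ℂ} (hφ : Differentiable ℂ φ) (hne : ∀ z, φ z ≠ 0) (h1 : φ 0 = 1) :
    ∃ H : ℂ → ℂ, Differentiable ℂ H ∧ H 0 = 0 ∧ ∀ z, Complex.exp (H z) = φ z := by
  have hq : Differentiable ℂ fun z => deriv φ z / φ z := hφ.deriv.div hφ hne
  obtain ⟨H, hH0, hH⟩ := hq.isExactOn_univ.with_val_at 0 0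
  have hHd : Differentiable ℂ H := fun z => (hH z (mem_univ z)).differentiableAt
  refine ⟨H, hHd, hH0, fun z => ?_⟩
  have hdiff : Differentiable ℂ fun z => φ z * Complex.exp (-H z) := by fun_prop
  have hz : ∀ z, deriv (fun z => φ z * Complex.exp (-H z)) z = 0 := by
    intro z
    have h := (hφ z).hasDerivAt.mul ((hH z (mem_univ z)).neg.cexp)
    have h' : HasDerivAt (fun z => φ z * Complex.exp (-H z))
        (deriv φ z * Complex.exp (-H z) + φ z * (Complex.exp (-H z) * -(deriv φ z / φ z))) z := h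
    rw [h'.deriv]
    have := hne z
    field_simp
    ring
  have := is_const_of_deriv_eq_zero hdiff hz z 0
  simp only [h1, hH0, neg_zero, Complex.exp_zero, mul_one] at this
  rw [Complex.exp_neg] at this
  have hne' := Complex.exp_ne_zero (H z)
  field_simp at this
  exact this.symm

/-- Exponential integrability of a factor. -/
lemma factor_lintegral {μ ν : Measure ℝ} [IsProbabilityMeasure μ] [IsProbabilityMeasure ν]
    {m : ℝ} {v : ℝ≥0} (h : μ.conv ν = gaussianReal m v) (t : ℝ) :
    (∫⁻ x, ENNReal.ofReal (Real.exp (t * x)) ∂μ) * (∫⁻ x, ENNReal.ofReal (Real.exp (t * x)) ∂ν)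
      = ENNReal.ofReal (Real.exp (m * t + v * t ^ 2 / 2)) := by
  have h1 : ∫⁻ z, ENNReal.ofReal (Real.exp (t * z)) ∂(gaussianReal m v)
      = ENNReal.ofReal (Real.exp (m * t + v * t ^ 2 / 2)) := by
    rw [← ofReal_integral_eq_lintegral_ofReal (integrable_exp_mul_gaussianReal t)
      (Eventually.of_forall fun x => (Real.exp_pos _).le)]
    congr 1
    have := mgf_fun_id_gaussianReal (μ := m) (v := v)
    have h2 := congrFun this t
    exact h2
  rw [← h1, ← h, Measure.lintegral_conv (by fun_prop)]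
  have h2 : ∀ x : ℝ, ∫⁻ y, ENNReal.ofReal (Real.exp (t * (x + y))) ∂ν
      = ENNReal.ofReal (Real.exp (t * x)) * ∫⁻ y, ENNReal.ofReal (Real.exp (t * y)) ∂ν := by
    intro x
    rw [← lintegral_const_mul _ (by fun_prop)]
    refine lintegral_congr fun y => ?_
    rw [← ENNReal.ofReal_mul (Real.exp_pos _).le, ← Real.exp_add]
    congr 2; ring
  simp only [h2]
  rw [lintegral_mul_const _ (by fun_prop)]

lemma lint_exp_pos (ν : Measure ℝ) [IsProbabilityMeasure ν] (t : ℝ) :
    ∫⁻ x, ENNReal.ofReal (Real.exp (t * x)) ∂ν ≠ 0 := by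
  intro h
  rw [lintegral_eq_zero_iff (by fun_prop)] at h
  have h1 : ∀ᵐ x ∂ν, False := by
    filter_upwards [h] with x hx
    simp only [Pi.zero_apply, ENNReal.ofReal_eq_zero, not_le.2 (Real.exp_pos _)] at hx
  have h2 : ν univ = 0 := by
    rw [ae_iff] at h1
    simpa using h1
  rw [measure_univ] at h2
  exact one_ne_zero h2

lemma factor_integrable {μ ν : Measure ℝ} [IsProbabilityMeasure μ] [IsProbabilityMeasure ν]
    {m : ℝ} {v : ℝ≥0} (h : μ.conv ν = gaussianReal m v) (t : ℝ) :
    Integrable (fun x : ℝ => Real.exp (t * x)) μ := by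
  refine ⟨by fun_prop, ?_⟩
  have h1 := factor_lintegral h t
  have h2 := lint_exp_pos ν t
  rw [HasFiniteIntegral, lt_top_iff_ne_top]
  have h3 : ∫⁻ x, ‖Real.exp (t * x)‖ₑ ∂μ = ∫⁻ x, ENNReal.ofReal (Real.exp (t * x)) ∂μ := by
    refine lintegral_congr fun x => ?_
    rw [← ofReal_norm, Real.norm_of_nonneg (Real.exp_pos _).le]
  rw [h3]
  intro htop
  rw [htop, ENNReal.top_mul h2] at h1
  exact ENNReal.ofReal_ne_top h1.symm

/-- lower bound for the moment generating function -/
lemma mgf_lower (ν : Measure ℝ) [IsProbabilityMeasure ν]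
    (hint : ∀ t : ℝ, Integrable (fun x : ℝ => Real.exp (t * x)) ν) :
    ∃ K : ℝ, 0 ≤ K ∧ ∀ t : ℝ, 1 / 2 * Real.exp (-(K * |t|)) ≤ mgf id ν t := by
  have h1 : Tendsto (fun n : ℕ => ν.real (Icc (-(n : ℝ)) n)) atTop (𝓝 1) := by
    have hmono : Monotone fun n : ℕ => Icc (-(n : ℝ)) n := by
      intro a b hab
      have : (a : ℝ) ≤ b := by exact_mod_cast hab
      exact Icc_subset_Icc (by linarith) this
    have h2 := tendsto_measure_iUnion_atTop (μ := ν) hmono
    have h3 : (⋃ n : ℕ, Icc (-(n : ℝ)) n) = univ := by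
      refine eq_univ_of_forall fun x => ?_
      obtain ⟨n, hn⟩ := exists_nat_ge |x|
      exact mem_iUnion.2 ⟨n, (abs_le.1 hn)⟩
    rw [h3, measure_univ] at h2
    have := (ENNReal.tendsto_toReal ENNReal.one_ne_top).comp h2
    rw [ENNReal.toReal_one] at this
    exact this
  obtain ⟨n, hn⟩ := (h1.eventually (lt_mem_nhds (show (1 / 2 : ℝ) < 1 by norm_num))).exists
  refine ⟨n, by positivity, fun t => ?_⟩
  unfold mgf
  calc 1 / 2 * Real.exp (-(n * |t|)) ≤ ν.real (Icc (-(n : ℝ)) n) * Real.exp (-(n * |t|)) := by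
        gcongr
    _ = ∫ _ in Icc (-(n : ℝ)) n, Real.exp (-(n * |t|)) ∂ν := by
        rw [setIntegral_const, smul_eq_mul]
    _ ≤ ∫ x in Icc (-(n : ℝ)) n, Real.exp (t * x) ∂ν := by
        refine setIntegral_mono_on (integrable_const _).integrableOn (hint t).integrableOn
          measurableSet_Icc fun x hx => ?_
        apply Real.exp_le_exp.2
        have h4 : |t * x| ≤ n * |t| := by
          rw [abs_mul, mul_comm]
          exact mul_le_mul_of_nonneg_right (abs_le.2 hx) (abs_nonneg t)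
        linarith [neg_abs_le (t * x)]
    _ ≤ ∫ x, Real.exp (t * id x) ∂ν :=
        setIntegral_le_integral (hint t) (Eventually.of_forall fun x => (Real.exp_pos _).le)

/-- **Cramér's theorem.** -/
theorem cramer {μ ν : Measure ℝ} [IsProbabilityMeasure μ] [IsProbabilityMeasure ν]
    {m : ℝ} {v : ℝ≥0} (h : μ.conv ν = gaussianReal m v) :
    ∃ (b : ℝ) (c : ℝ≥0), μ = gaussianReal b c := by
  have hμ := factor_integrable h
  have h' : ν.conv μ = gaussianReal m v := by rw [Measure.conv_comm]; exact h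
  have hν : ∀ t : ℝ, Integrable (fun x : ℝ => Real.exp (t * x)) ν := factor_integrable h'
  have hprod : ∀ t : ℝ, mgf id μ t * mgf id ν t = Real.exp (m * t + v * t ^ 2 / 2) := by
    intro t
    have h1 := factor_lintegral h t
    have e1 : ∫⁻ x, ENNReal.ofReal (Real.exp (t * x)) ∂μ = ENNReal.ofReal (mgf id μ t) :=
      (ofReal_integral_eq_lintegral_ofReal (hμ t)
        (Eventually.of_forall fun x => (Real.exp_pos _).le)).symm
    have e2 : ∫⁻ x, ENNReal.ofReal (Real.exp (t * x)) ∂ν = ENNReal.ofReal (mgf id ν t) :=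
      (ofReal_integral_eq_lintegral_ofReal (hν t)
        (Eventually.of_forall fun x => (Real.exp_pos _).le)).symm
    rw [e1, e2, ← ENNReal.ofReal_mul mgf_nonneg] at h1
    exact (ENNReal.ofReal_eq_ofReal_iff (mul_nonneg mgf_nonneg mgf_nonneg)
      (Real.exp_pos _).le).1 h1
  have hsμ : integrableExpSet id μ = univ := eq_univ_of_forall fun t => hμ t
  have hsν : integrableExpSet id ν = univ := eq_univ_of_forall fun t => hν t
  have hdμ : Differentiable ℂ (complexMGF id μ) := by
    intro z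
    exact (analyticAt_complexMGF (by rw [hsμ]; simp)).differentiableAt
  have hdν : Differentiable ℂ (complexMGF id ν) := by
    intro z
    exact (analyticAt_complexMGF (by rw [hsν]; simp)).differentiableAt
  -- product identity on `ℂ`
  have hprodC : ∀ z : ℂ, complexMGF id μ z * complexMGF id ν z
      = Complex.exp (m * z + v * z ^ 2 / 2) := by
    have ha : AnalyticOnNhd ℂ (fun z => complexMGF id μ z * complexMGF id ν z) univ :=
      (hdμ.mul hdν).differentiableOn.analyticOnNhd isOpen_univ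
    have hb : AnalyticOnNhd ℂ (fun z : ℂ => Complex.exp (m * z + v * z ^ 2 / 2)) univ :=
      (by fun_prop : Differentiable ℂ fun z : ℂ =>
        Complex.exp (m * z + v * z ^ 2 / 2)).differentiableOn.analyticOnNhd isOpen_univ
    have hfreq : ∃ᶠ z in 𝓝[≠] (0 : ℂ), complexMGF id μ z * complexMGF id ν z
        = Complex.exp (m * z + v * z ^ 2 / 2) := by
      have h_real : ∃ᶠ (x : ℝ) in 𝓝[≠] 0, complexMGF id μ x * complexMGF id ν x
          = Complex.exp (m * x + v * x ^ 2 / 2) := by
        refine .of_forall fun y ↦ ?_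
        rw [complexMGF_ofReal, complexMGF_ofReal, ← Complex.ofReal_mul, hprod y]
        push_cast
        rfl
      rw [frequently_iff_seq_forall] at h_real ⊢
      obtain ⟨xs, hx_tendsto, hx_eq⟩ := h_real
      refine ⟨fun n ↦ xs n, ?_, fun n ↦ ?_⟩
      · rw [tendsto_nhdsWithin_iff] at hx_tendsto ⊢
        constructor
        · rw [← Complex.ofReal_zero, tendsto_ofReal_iff]
          exact hx_tendsto.1
        · simpa using hx_tendsto.2
      · exact hx_eq n
    intro z
    exact congrFun (ha.eq_of_frequently_eq hb hfreq) z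
  have hne : ∀ z, complexMGF id μ z ≠ 0 := by
    intro z hz
    have := hprodC z
    rw [hz, zero_mul] at this
    exact Complex.exp_ne_zero _ this.symm
  have h1 : complexMGF id μ 0 = 1 := by
    have := complexMGF_ofReal (X := id) (μ := μ) 0
    rw [Complex.ofReal_zero] at this
    rw [this]; simp
  obtain ⟨H, hHd, hH0, hHexp⟩ := exists_log hdμ hne h1
  -- growth
  obtain ⟨K, hK0, hK⟩ := mgf_lower ν hν
  set C : ℝ := 1 + K + |m| + v with hCdef
  have hC1 : 1 ≤ C := by
    have := abs_nonneg m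
    have := v.coe_nonneg
    linarith
  have hRe : ∀ z, (H z).re ≤ C * (1 + ‖z‖ ^ 2) := by
    intro z
    have a1 : ‖complexMGF id μ z‖ ≤ mgf id μ z.re := norm_complexMGF_le_mgf
    have a2 := hprod z.re
    have a3 := hK z.re
    have a4 : 0 < mgf id ν z.re := lt_of_lt_of_le (by positivity) a3
    have a5 : mgf id μ z.re ≤ 2 * Real.exp (m * z.re + v * z.re ^ 2 / 2 + K * |z.re|) := by
      have : mgf id μ z.re * (1 / 2 * Real.exp (-(K * |z.re|)))
          ≤ Real.exp (m * z.re + v * z.re ^ 2 / 2) := by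
        rw [← a2]
        exact mul_le_mul_of_nonneg_left a3 mgf_nonneg
      have e : mgf id μ z.re = 2 * Real.exp (K * |z.re|) *
          (mgf id μ z.re * (1 / 2 * Real.exp (-(K * |z.re|)))) := by
        rw [Real.exp_neg]; field_simp
      rw [e]
      calc 2 * Real.exp (K * |z.re|) * (mgf id μ z.re * (1 / 2 * Real.exp (-(K * |z.re|))))
          ≤ 2 * Real.exp (K * |z.re|) * Real.exp (m * z.re + v * z.re ^ 2 / 2) := by gcongr
        _ = _ := by rw [mul_assoc, ← Real.exp_add]; ring_nf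
    have a6 : Real.exp (H z).re ≤ 2 * Real.exp (m * z.re + v * z.re ^ 2 / 2 + K * |z.re|) := by
      rw [← Complex.norm_exp, hHexp]; exact a1.trans a5
    have a7 : (H z).re ≤ Real.log 2 + (m * z.re + v * z.re ^ 2 / 2 + K * |z.re|) := by
      rw [← Real.exp_le_exp, Real.exp_add, Real.exp_log (by norm_num)]
      exact a6
    have b1 : |z.re| ≤ ‖z‖ := Complex.abs_re_le_norm z
    have b2 : z.re ^ 2 ≤ ‖z‖ ^ 2 := by
      rw [← sq_abs]; gcongr
    have b3 : m * z.re ≤ |m| * ‖z‖ := by
      calc m * z.re ≤ |m * z.re| := le_abs_self _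
        _ = |m| * |z.re| := abs_mul _ _
        _ ≤ _ := by gcongr
    have b4 : ‖z‖ ≤ 1 + ‖z‖ ^ 2 := by nlinarith [norm_nonneg z, sq_nonneg (‖z‖ - 1)]
    have b5 : Real.log 2 ≤ 1 := by
      have := Real.log_two_lt_d9; linarith
    have b6 := v.coe_nonneg
    have b7 := abs_nonneg m
    have b8 : K * |z.re| ≤ K * (1 + ‖z‖ ^ 2) := by gcongr; exact b1.trans b4
    have b9 : |m| * ‖z‖ ≤ |m| * (1 + ‖z‖ ^ 2) := by gcongr
    have b10 : (v : ℝ) * z.re ^ 2 / 2 ≤ v * (1 + ‖z‖ ^ 2) := by nlinarith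
    have b11 : 0 ≤ ‖z‖ ^ 2 := by positivity
    rw [hCdef]
    nlinarith
  have hgrow : ∀ z, ‖H z‖ ≤ (16 * C) * (1 + ‖z‖ ^ 2) := by
    intro z
    set R : ℝ := 2 * (‖z‖ + 1) with hR
    have hz0 := norm_nonneg z
    have hR0 : 0 < R := by positivity
    have hzR : ‖z‖ < R := by rw [hR]; linarith
    have hM : 0 < C * (1 + R ^ 2) := by positivity
    have hbc := borelCaratheodory_zero (f := H) (M := C * (1 + R ^ 2)) (R := R) (z := z) hM
      hHd.differentiableOn (fun w hw => by
        have hw' : ‖w‖ < R := mem_ball_zero_iff.mp hw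
        simp only [Set.mem_ofPred_eq]
        refine (hRe w).trans ?_
        gcongr) hR0 (mem_ball_zero_iff.2 hzR) hH0
    refine hbc.trans ?_
    rw [div_le_iff₀ (by linarith)]
    have e : R - ‖z‖ = ‖z‖ + 2 := by rw [hR]; ring
    rw [e, hR]
    have hz2 : 0 ≤ ‖z‖ ^ 2 := by positivity
    have : 2 * (C * (1 + (2 * (‖z‖ + 1)) ^ 2)) * ‖z‖ ≤ 16 * C * (1 + ‖z‖ ^ 2) * (‖z‖ + 2) := by
      have h5 : 2 * (1 + (2 * (‖z‖ + 1)) ^ 2) * ‖z‖ ≤ 16 * (1 + ‖z‖ ^ 2) * (‖z‖ + 2) := by
        nlinarith [mul_nonneg hz0 hz2]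
      nlinarith
    exact this
  obtain ⟨c1, c2, hquad⟩ := entire_quadratic hHd hH0 (by linarith : (0 : ℝ) ≤ 16 * C) hgrow
  have hmgf : ∀ t : ℝ, mgf id μ t = Real.exp (c1.re * t + c2.re * t ^ 2 / 2) := by
    intro t
    have a1 : ‖complexMGF id μ (t : ℂ)‖ = mgf id μ t := by
      rw [complexMGF_ofReal, Complex.norm_real, Real.norm_of_nonneg mgf_nonneg]
    rw [← a1, ← hHexp, Complex.norm_exp, hquad]
    congr 1
    have : (c1 * (t : ℂ) + c2 * (t : ℂ) ^ 2 / 2) = c1 * (t : ℂ) + c2 * ((t ^ 2 / 2 : ℝ) : ℂ) := by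
      push_cast; ring
    rw [this, Complex.add_re, Complex.re_mul_ofReal, Complex.re_mul_ofReal]
    ring
  -- nonnegativity of the variance
  have hc2 : 0 ≤ c2.re := by
    by_contra hneg
    push Not at hneg
    set t : ℝ := 2 * |c1.re| / (-c2.re) + 1 with ht
    have ht0 : 0 < t := by
      have : 0 ≤ 2 * |c1.re| / (-c2.re) := div_nonneg (by positivity) (by linarith)
      linarith
    have hsum : 2 ≤ mgf id μ t + mgf id μ (-t) := by
      have e : mgf id μ t + mgf id μ (-t) = ∫ x, (Real.exp (t * x) + Real.exp (-t * x)) ∂μ := by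
        rw [integral_add (hμ t) (hμ (-t))]
        rfl
      rw [e]
      calc (2 : ℝ) = ∫ _ : ℝ, (2 : ℝ) ∂μ := by simp
        _ ≤ _ := by
          refine integral_mono (integrable_const _) ((hμ t).add (hμ (-t))) fun x => ?_
          simp only
          have e2 : Real.exp (-t * x) = (Real.exp (t * x))⁻¹ := by
            rw [← Real.exp_neg]; congr 1; ring
          rw [e2]
          have hp := Real.exp_pos (t * x)
          have : (Real.exp (t * x) + (Real.exp (t * x))⁻¹) - 2
              = (Real.exp (t * x) - 1) ^ 2 / Real.exp (t * x) := by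
            field_simp; ring
          have h0 : 0 ≤ (Real.exp (t * x) - 1) ^ 2 / Real.exp (t * x) := by positivity
          linarith
    have key : ∀ s : ℝ, |s| = t → mgf id μ s < 1 := by
      intro s hs
      rw [hmgf s, Real.exp_lt_one_iff]
      have h2 : s ^ 2 = t ^ 2 := by rw [← sq_abs, hs]
      rw [h2]
      have h3 : c1.re * s ≤ |c1.re| * t := by
        calc c1.re * s ≤ |c1.re * s| := le_abs_self _
          _ = |c1.re| * t := by rw [abs_mul, hs]
      have h4 : |c1.re| < -c2.re * t / 2 := by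
        have hne2 : -c2.re ≠ 0 := by linarith
        have : -c2.re * t = 2 * |c1.re| + (-c2.re) := by
          rw [ht, mul_add, mul_div_cancel₀ _ hne2, mul_one]
        rw [this]; linarith
      nlinarith
    have k1 := key t (abs_of_pos ht0)
    have k2 := key (-t) (by rw [abs_neg, abs_of_pos ht0])
    linarith
  refine ⟨c1.re, ⟨c2.re, hc2⟩, ?_⟩
  refine Measure.ext_of_complexMGF_id_eq ?_
  have hmeq : mgf id μ = mgf id (gaussianReal c1.re ⟨c2.re, hc2⟩) := by
    rw [mgf_id_gaussianReal]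
    funext t
    rw [hmgf t]
    rfl
  have := eqOn_complexMGF_of_mgf hmeq
  rw [hsμ] at this
  funext z
  exact this (by simp)

end Pool.Agent.V11332.Cramer
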