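import Pool.Agent.V11332.Quantile

/-!
Inverse stochastic dominance: definitions and general facts.
-/

namespace Pool.Agent.V11332.InvDom

open MeasureTheory ProbabilityTheory Set Filter Topology
open Pool.Agent.V11332.Quantile

/-- `iq μ (n-1)` is the function `F_X^{[-n]}` of a random variable `X` with law `μ`:
`iq μ 0` is the quantile function and `iq μ (n+1) p = ∫₀ᵖ iq μ n`. -/
noncomputable def iq (μ : Measure ℝ) : ℕ → ℝ → ℝ
  | 0 => Q μ
  | n + 1 => fun p => ∫ u in (0 : ℝ)..p, iq μ n u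

/-- Absolute mean difference (as an extended nonnegative real). -/
noncomputable def GMD (μ : Measure ℝ) : ENNReal :=
  ∫⁻ x, ∫⁻ y, ENNReal.ofReal |x - y| ∂μ ∂μ

/-- Symmetric potential. -/
noncomputable def VL (μ : Measure ℝ) (t : ℝ) : ENNReal :=
  ∫⁻ x, ∫⁻ y, ENNReal.ofReal |x - y + t| ∂μ ∂μ

lemma GMD_conv (μ ν : Measure ℝ) [IsProbabilityMeasure μ] [IsProbabilityMeasure ν] :
    GMD (μ.conv ν) = ∫⁻ z, ∫⁻ z', VL μ (z - z') ∂ν ∂ν := by
  have hm : Measurable fun p : ℝ × ℝ => ENNReal.ofReal |p.1 - p.2| := by fun_prop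
  unfold GMD VL
  rw [Measure.conv_comm]
  rw [Measure.lintegral_conv (by
    exact (Measurable.lintegral_prod_right' (f := fun p : ℝ × ℝ => ENNReal.ofReal |p.1 - p.2|) hm))]
  refine lintegral_congr fun z => ?_
  calc ∫⁻ x, ∫⁻ y, ENNReal.ofReal |z + x - y| ∂(ν.conv μ) ∂μ
      = ∫⁻ x, ∫⁻ z', ∫⁻ y, ENNReal.ofReal |z + x - (z' + y)| ∂μ ∂ν ∂μ := by
        refine lintegral_congr fun x => ?_
        rw [Measure.lintegral_conv (by fun_prop)]
    _ = ∫⁻ z', ∫⁻ x, ∫⁻ y, ENNReal.ofReal |z + x - (z' + y)| ∂μ ∂μ ∂ν := by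
        rw [lintegral_lintegral_swap]
        refine Measurable.aemeasurable ?_
        exact Measurable.lintegral_prod_right'
          (f := fun p : (ℝ × ℝ) × ℝ => ENNReal.ofReal |z + p.1.1 - (p.1.2 + p.2)|) (by fun_prop)
    _ = ∫⁻ z', ∫⁻ x, ∫⁻ y, ENNReal.ofReal |x - y + (z - z')| ∂μ ∂μ ∂ν := by
        refine lintegral_congr fun z' => lintegral_congr fun x => lintegral_congr fun y => ?_
        congr 2; ring

/-- Fubini in the form used below. -/
lemma dbl (q : ℝ → ℝ) (hq : Integrable q lam) :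
    ∫ p : ℝ × ℝ, (if p.1 < p.2 then q p.1 else 0) ∂(lam.prod lam)
      = ∫ v in (0 : ℝ)..1, ∫ u in (0 : ℝ)..v, q u := by
  have hint : Integrable (fun p : ℝ × ℝ => if p.1 < p.2 then q p.1 else 0) (lam.prod lam) := by
    have h1 : Integrable (fun p : ℝ × ℝ => q p.1) (lam.prod lam) := hq.comp_fst lam
    have h2 : MeasurableSet {p : ℝ × ℝ | p.1 < p.2} := measurableSet_lt measurable_fst measurable_snd
    have := h1.indicator h2
    refine this.congr (Eventually.of_forall fun p => ?_)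
    simp only [Set.indicator_apply, Set.mem_ofPred_eq]
  rw [integral_prod_symm _ hint]
  rw [intervalIntegral.integral_of_le zero_le_one, ← integral_Ioc_eq_integral_Ioo.symm]
  unfold lam
  refine setIntegral_congr_fun measurableSet_Ioo fun v hv => ?_
  simp only
  rw [intervalIntegral.integral_of_le hv.1.le, ← integral_Ioc_eq_integral_Ioo.symm]
  have : (fun u : ℝ => if u < v then q u else 0) = (Iio v).indicator q := by
    funext u; simp [Set.indicator_apply]
  rw [this, integral_indicator measurableSet_Iio, Measure.restrict_restrict measurableSet_Iio]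
  congr 2
  ext u
  simp only [mem_inter_iff, mem_Iio, mem_Ioo]
  constructor
  · rintro ⟨h1, h2, h3⟩; exact ⟨h2, h1⟩
  · rintro ⟨h1, h2⟩; exact ⟨h2, h1, h2.trans hv.2⟩

/-- mean difference in terms of the quantile function. -/
lemma dblabs (q : ℝ → ℝ) (hq : Integrable q lam) (hmono : MonotoneOn q (Ioo 0 1)) :
    ∫ p : ℝ × ℝ, |q p.1 - q p.2| ∂(lam.prod lam)
      = 2 * (∫ u, q u ∂lam) - 4 * ∫ v in (0 : ℝ)..1, ∫ u in (0 : ℝ)..v, q u := by
  have h1 : Integrable (fun p : ℝ × ℝ => q p.1) (lam.prod lam) := hq.comp_fst lam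
  have h2 : Integrable (fun p : ℝ × ℝ => q p.2) (lam.prod lam) := hq.comp_snd lam
  have m1 : MeasurableSet {p : ℝ × ℝ | p.1 < p.2} := measurableSet_lt measurable_fst measurable_snd
  have m2 : MeasurableSet {p : ℝ × ℝ | p.2 < p.1} := measurableSet_lt measurable_snd measurable_fst
  have hint1 : Integrable (fun p : ℝ × ℝ => if p.1 < p.2 then q p.1 else 0) (lam.prod lam) := by
    refine (h1.indicator m1).congr (Eventually.of_forall fun p => ?_)
    simp only [Set.indicator_apply, Set.mem_ofPred_eq]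
  have hint2 : Integrable (fun p : ℝ × ℝ => if p.2 < p.1 then q p.2 else 0) (lam.prod lam) := by
    refine (h2.indicator m2).congr (Eventually.of_forall fun p => ?_)
    simp only [Set.indicator_apply, Set.mem_ofPred_eq]
  have hae : ∀ᵐ p : ℝ × ℝ ∂(lam.prod lam), |q p.1 - q p.2| = q p.1 + q p.2
      - 2 * (if p.1 < p.2 then q p.1 else 0) - 2 * (if p.2 < p.1 then q p.2 else 0) := by
    have hlam : lam.prod lam = (volume.prod volume).restrict (Ioo (0:ℝ) 1 ×ˢ Ioo (0:ℝ) 1) := by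
      unfold lam; rw [Measure.prod_restrict]
    have hne : ∀ᵐ p : ℝ × ℝ ∂(lam.prod lam), p.1 ≠ p.2 := by
      have : NullSingletonClass lam := by unfold lam; infer_instance
      have h3 : (lam.prod lam) {p : ℝ × ℝ | p.1 = p.2} = 0 := by
        rw [Measure.prod_apply (measurableSet_eq_fun measurable_fst measurable_snd)]
        refine lintegral_eq_zero_of_ae_eq_zero (Eventually.of_forall fun x => ?_)
        have : Prod.mk x ⁻¹' {p : ℝ × ℝ | p.1 = p.2} = {x} := by
          ext y; simp [eq_comm]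
        simp only [this, Pi.zero_apply]
        exact measure_singleton x
      exact measure_eq_zero_iff_ae_notMem.1 h3
    have hmem : ∀ᵐ p : ℝ × ℝ ∂(lam.prod lam), p ∈ Ioo (0:ℝ) 1 ×ˢ Ioo (0:ℝ) 1 := by
      rw [hlam]; exact ae_restrict_mem (measurableSet_Ioo.prod measurableSet_Ioo)
    filter_upwards [hne, hmem] with p hp hp2
    rcases lt_or_gt_of_ne hp with h | h
    · have := hmono hp2.1 hp2.2 h.le
      rw [if_pos h, if_neg (not_lt.2 h.le), abs_of_nonpos (by linarith)]; ring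
    · have := hmono hp2.2 hp2.1 h.le
      rw [if_pos h, if_neg (not_lt.2 h.le), abs_of_nonneg (by linarith)]; ring
  rw [integral_congr_ae hae]
  have hs1 : Integrable (fun p : ℝ × ℝ => q p.1 + q p.2) (lam.prod lam) := h1.add h2
  have hs2 : Integrable (fun p : ℝ × ℝ => 2 * (if p.1 < p.2 then q p.1 else 0)) (lam.prod lam) :=
    hint1.const_mul 2
  have hs3 : Integrable (fun p : ℝ × ℝ => 2 * (if p.2 < p.1 then q p.2 else 0)) (lam.prod lam) :=
    hint2.const_mul 2
  have hs4 : Integrable (fun p : ℝ × ℝ => q p.1 + q p.2 - 2 * (if p.1 < p.2 then q p.1 else 0))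
      (lam.prod lam) := hs1.sub hs2
  rw [integral_sub hs4 hs3, integral_sub hs1 hs2, integral_add h1 h2,
    integral_const_mul, integral_const_mul]
  have e1 : ∫ p : ℝ × ℝ, q p.1 ∂(lam.prod lam) = ∫ u, q u ∂lam := by
    rw [integral_fun_fst]; simp
  have e2 : ∫ p : ℝ × ℝ, q p.2 ∂(lam.prod lam) = ∫ u, q u ∂lam := by
    rw [integral_fun_snd]; simp
  have e3 : ∫ p : ℝ × ℝ, (if p.2 < p.1 then q p.2 else 0) ∂(lam.prod lam)
      = ∫ p : ℝ × ℝ, (if p.1 < p.2 then q p.1 else 0) ∂(lam.prod lam) := by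
    rw [← integral_prod_swap]
    rfl
  rw [e1, e2, e3, dbl q hq]
  ring

/-- `VL` in terms of a real double integral. -/
lemma VL_map (q : ℝ → ℝ) (hq : Integrable q lam) (t : ℝ) :
    VL (lam.map q) t = ENNReal.ofReal (∫ p : ℝ × ℝ, |q p.1 - q p.2 + t| ∂(lam.prod lam)) := by
  have h1 : Integrable (fun p : ℝ × ℝ => q p.1) (lam.prod lam) := hq.comp_fst lam
  have h2 : Integrable (fun p : ℝ × ℝ => q p.2) (lam.prod lam) := hq.comp_snd lam
  have h3 : Integrable (fun p : ℝ × ℝ => |q p.1 - q p.2 + t|) (lam.prod lam) :=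
    ((h1.sub h2).add (integrable_const t)).abs
  rw [ofReal_integral_eq_lintegral_ofReal h3 (Eventually.of_forall fun p => abs_nonneg _)]
  rw [lintegral_prod _ h3.aestronglyMeasurable.aemeasurable.ennreal_ofReal]
  unfold VL
  have hqm := hq.aestronglyMeasurable.aemeasurable
  rw [lintegral_map' (Measurable.aemeasurable (by
    exact Measurable.lintegral_prod_right'
          (f := fun p : ℝ × ℝ => ENNReal.ofReal |p.1 - p.2 + t|) (by fun_prop))) hqm]
  refine lintegral_congr fun u => ?_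
  rw [lintegral_map' (Measurable.aemeasurable (by fun_prop)) hqm]

lemma GMD_eq_VL (μ : Measure ℝ) : GMD μ = VL μ 0 := by
  unfold GMD VL; simp

lemma GMD_eq (μ : Measure ℝ) [IsProbabilityMeasure μ] (hint : Integrable (fun x : ℝ => x) μ) :
    GMD μ = ENNReal.ofReal (2 * (∫ x, x ∂μ) - 4 * iq μ 2 1) := by
  have hQ := Q_integrable μ hint
  have h1 : GMD μ = GMD (lam.map (Q μ)) := by rw [map_Q]
  rw [h1, GMD_eq_VL, VL_map _ hQ]
  simp only [add_zero]
  rw [dblabs _ hQ (Q_mono μ)]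
  have h2 : ∫ u, Q μ u ∂lam = ∫ x, x ∂μ := by
    have h3 := integral_map (Q_aemeas μ) (f := fun x : ℝ => x) aestronglyMeasurable_id
    rw [map_Q] at h3
    exact h3.symm
  rw [h2]
  rfl

lemma ii_of_lam {q : ℝ → ℝ} (hq : Integrable q lam) : IntervalIntegrable q volume 0 1 := by
  rw [intervalIntegrable_iff_integrableOn_Ioo_of_le zero_le_one]
  exact hq

/-- continuity of the second iterated integral at `1`. -/
lemma iq2_cont (μ : Measure ℝ) [IsProbabilityMeasure μ] (hint : Integrable (fun x : ℝ => x) μ) :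
    ContinuousOn (iq μ 2) (Icc 0 1) := by
  have hQ := ii_of_lam (Q_integrable μ hint)
  have h1 : ContinuousOn (iq μ 1) (Icc 0 1) := by
    have := intervalIntegral.continuousOn_primitive_interval
      (a := (0:ℝ)) (b := 1) (f := Q μ) (μ := volume) (by
        rw [uIcc_of_le zero_le_one]
        exact (intervalIntegrable_iff_integrableOn_Icc_of_le zero_le_one).1 hQ)
    rw [uIcc_of_le zero_le_one] at this
    exact this
  have := intervalIntegral.continuousOn_primitive_interval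
      (a := (0:ℝ)) (b := 1) (f := iq μ 1) (μ := volume) (by
        rw [uIcc_of_le zero_le_one]
        exact h1.integrableOn_Icc)
  rw [uIcc_of_le zero_le_one] at this
  exact this

lemma iq2_le_one (μ ν : Measure ℝ) [IsProbabilityMeasure μ] [IsProbabilityMeasure ν]
    (hμ : Integrable (fun x : ℝ => x) μ) (hν : Integrable (fun x : ℝ => x) ν)
    (h : ∀ p ∈ Ioo (0 : ℝ) 1, iq μ 2 p ≤ iq ν 2 p) : iq μ 2 1 ≤ iq ν 2 1 := by
  have c1 := (iq2_cont μ hμ 1 ⟨zero_le_one, le_rfl⟩).mono Ioo_subset_Icc_self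
  have c2 := (iq2_cont ν hν 1 ⟨zero_le_one, le_rfl⟩).mono Ioo_subset_Icc_self
  have hne : (𝓝[Ioo (0:ℝ) 1] 1).NeBot := by
    rw [← mem_closure_iff_nhdsWithin_neBot, closure_Ioo zero_ne_one]
    exact ⟨zero_le_one, le_rfl⟩
  exact le_of_tendsto_of_tendsto c1 c2 (eventually_of_mem self_mem_nhdsWithin h)

/-- Key comparison: weak third degree inverse dominance of the noisy laws forces an
inequality between mean differences. -/
lemma GMD_le_of_dom (μ ν : Measure ℝ) [IsProbabilityMeasure μ] [IsProbabilityMeasure ν]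
    (hμ : Integrable (fun x : ℝ => x) μ) (hν : Integrable (fun x : ℝ => x) ν)
    (hmean : ∫ x, x ∂μ = ∫ x, x ∂ν)
    (h : ∀ p ∈ Ioo (0 : ℝ) 1, iq μ 2 p ≤ iq ν 2 p) : GMD ν ≤ GMD μ := by
  rw [GMD_eq μ hμ, GMD_eq ν hν, hmean]
  exact ENNReal.ofReal_le_ofReal (by linarith [iq2_le_one μ ν hμ hν h])

/-- Strict comparison. -/
lemma GMD_conv_lt (μX μY μZ : Measure ℝ) [IsProbabilityMeasure μX] [IsProbabilityMeasure μY]
    [IsProbabilityMeasure μZ] (hX : Integrable (fun x : ℝ => x) μX)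
    (hZ : Integrable (fun x : ℝ => x) μZ)
    (hV0 : VL μX 0 ≤ VL μY 0) (hV : ∀ t, t ≠ 0 → VL μX t < VL μY t)
    (hnd : (μZ.prod μZ) {p : ℝ × ℝ | p.1 ≠ p.2} ≠ 0) :
    GMD (μX.conv μZ) < GMD (μY.conv μZ) := by
  have hfin : GMD (μX.conv μZ) ≠ ⊤ := by
    have : Integrable (fun x : ℝ => x) (μX.conv μZ) := by
      rw [Measure.conv]
      refine (integrable_map_measure aestronglyMeasurable_id (by fun_prop)).2 ?_
      exact (hX.comp_fst μZ).add (hZ.comp_snd μX)
    rw [GMD_eq _ this]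
    exact ENNReal.ofReal_ne_top
  have hVm : ∀ μ : Measure ℝ, [IsProbabilityMeasure μ] → Measurable (VL μ) := by
    intro μ _
    unfold VL
    refine Measurable.lintegral_prod_right'
      (f := fun p : ℝ × ℝ => ∫⁻ y, ENNReal.ofReal |p.2 - y + p.1| ∂μ) ?_
    exact Measurable.lintegral_prod_right'
      (f := fun p : (ℝ × ℝ) × ℝ => ENNReal.ofReal |p.1.2 - p.2 + p.1.1|) (by fun_prop)
  have e : ∀ μ : Measure ℝ, [IsProbabilityMeasure μ] → GMD (μ.conv μZ)
      = ∫⁻ p, VL μ (p.1 - p.2) ∂(μZ.prod μZ) := by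
    intro μ _
    have hm2 : Measurable fun p : ℝ × ℝ => VL μ (p.1 - p.2) := (hVm μ).comp (by fun_prop)
    rw [GMD_conv, lintegral_prod _ hm2.aemeasurable]
  rw [e μX, e μY]
  rw [e μX] at hfin
  refine lintegral_strict_mono_of_ae_le_of_ae_lt_on ((hVm μY).comp (by fun_prop)).aemeasurable
    hfin (Eventually.of_forall fun p => ?_) hnd (Eventually.of_forall fun p hp => ?_)
  · by_cases hp : p.1 - p.2 = 0
    · simp only [hp]; exact hV0
    · exact (hV _ hp).le
  · exact hV _ (sub_ne_zero.2 hp)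

/-- degenerate noise -/
lemma dirac_of_null (μ : Measure ℝ) [IsProbabilityMeasure μ]
    (h : (μ.prod μ) {p : ℝ × ℝ | p.1 ≠ p.2} = 0) : ∃ c, μ = Measure.dirac c := by
  have h1 : ∀ᵐ p : ℝ × ℝ ∂(μ.prod μ), p.1 = p.2 := by
    rw [ae_iff]; exact h
  have h2 := Measure.ae_ae_of_ae_prod h1
  obtain ⟨c, hc⟩ := h2.exists
  refine ⟨c, ?_⟩
  have h3 : ∀ᵐ y ∂μ, y = c := by filter_upwards [hc] with y hy; exact hy.symm
  have h4 : μ.map (fun y : ℝ => y) = μ.map (fun _ : ℝ => c) := Measure.map_congr h3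
  simpa using h4

lemma Q_shift (μ : Measure ℝ) [IsProbabilityMeasure μ] (c : ℝ) {p : ℝ} (hp : p ∈ Ioo (0 : ℝ) 1) :
    Q (μ.conv (Measure.dirac c)) p = Q μ p + c := by
  have h1 : ∀ x, (μ.conv (Measure.dirac c)).real (Iic x) = μ.real (Iic (x - c)) := by
    intro x
    rw [Measure.conv_dirac, map_measureReal_apply (by fun_prop) measurableSet_Iic]
    congr 1
    ext y; simp [le_sub_iff_add_le]
  have hprob : IsProbabilityMeasure (μ.conv (Measure.dirac c)) := by infer_instance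
  refine le_antisymm ?_ ?_
  · rw [Q_le_iff _ hp, h1]
    rw [← Q_le_iff _ hp]; simp
  · have : Q μ p ≤ Q (μ.conv (Measure.dirac c)) p - c := by
      rw [Q_le_iff _ hp, ← h1, ← Q_le_iff _ hp]
    linarith

lemma iq2_shift (μ : Measure ℝ) [IsProbabilityMeasure μ] (hint : Integrable (fun x : ℝ => x) μ)
    (c : ℝ) {p : ℝ} (hp : p ∈ Ioo (0 : ℝ) 1) :
    iq (μ.conv (Measure.dirac c)) 2 p = iq μ 2 p + c * (p ^ 2 / 2) := by
  have hQ := ii_of_lam (Q_integrable μ hint)
  have h1 : ∀ r ∈ Ioo (0 : ℝ) 1, iq (μ.conv (Measure.dirac c)) 1 r = iq μ 1 r + c * r := by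
    intro r hr
    change ∫ u in (0:ℝ)..r, Q (μ.conv (Measure.dirac c)) u = (∫ u in (0:ℝ)..r, Q μ u) + c * r
    have h2 : ∫ u in (0:ℝ)..r, Q (μ.conv (Measure.dirac c)) u = ∫ u in (0:ℝ)..r, (Q μ u + c) := by
      refine intervalIntegral.integral_congr_ae (Eventually.of_forall fun u hu => ?_)
      rw [uIoc_of_le hr.1.le] at hu
      exact Q_shift μ c ⟨hu.1, hu.2.trans_lt hr.2⟩
    rw [h2, intervalIntegral.integral_add]
    · simp [mul_comm]
    · exact hQ.mono_set (by
        rw [uIcc_of_le hr.1.le, uIcc_of_le zero_le_one]; exact Icc_subset_Icc_right hr.2.le)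
    · exact intervalIntegrable_const
  change ∫ u in (0:ℝ)..p, iq (μ.conv (Measure.dirac c)) 1 u = (∫ u in (0:ℝ)..p, iq μ 1 u) + _
  have h2 : ∫ u in (0:ℝ)..p, iq (μ.conv (Measure.dirac c)) 1 u
      = ∫ u in (0:ℝ)..p, (iq μ 1 u + c * u) := by
    refine intervalIntegral.integral_congr_ae (Eventually.of_forall fun u hu => ?_)
    rw [uIoc_of_le hp.1.le] at hu
    exact h1 u ⟨hu.1, hu.2.trans_lt hp.2⟩
  rw [h2, intervalIntegral.integral_add]
  · rw [intervalIntegral.integral_const_mul, integral_id]; ring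
  · have h3 := intervalIntegral.continuousOn_primitive_interval
      (a := (0:ℝ)) (b := 1) (f := Q μ) (μ := volume) (by
        rw [uIcc_of_le zero_le_one]
        exact (intervalIntegrable_iff_integrableOn_Icc_of_le zero_le_one).1 hQ)
    refine ContinuousOn.intervalIntegrable ?_
    refine h3.mono ?_
    rw [uIcc_of_le hp.1.le, uIcc_of_le zero_le_one]; exact Icc_subset_Icc_right hp.2.le
  · exact (continuous_const.mul continuous_id).intervalIntegrable _ _

end Pool.Agent.V11332.InvDom
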