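import Mathlib

set_option autoImplicit false

/-!
# Logarithmic Sobolev inequalities: one dimension, by hand

A measure on an interval of length `ℓ` whose density is comparable with `exp (-z)` satisfies a
logarithmic Sobolev inequality with a constant of order `1 + ℓ`.
-/

open MeasureTheory Set intervalIntegral
open scoped ENNReal

namespace Pool.Agent.V11332.LS

/-- The entropy functional `E[g log g] - E[g] log E[g]`. -/
noncomputable def Ent {Ω : Type*} [MeasurableSpace Ω] (μ : Measure Ω) (g : Ω → ℝ) : ℝ :=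
  ∫ x, g x * Real.log (g x) ∂μ - (∫ x, g x ∂μ) * Real.log (∫ x, g x ∂μ)

lemma elem1 {M t : ℝ} (hM : 0 ≤ M) (ht : 0 < t) :
    0 ≤ M * Real.log M - M * Real.log t - M + t := by
  rcases hM.eq_or_lt with h | h
  · subst h; simp; exact ht.le
  · have h1 := Real.log_le_sub_one_of_pos (div_pos ht h)
    rw [Real.log_div ht.ne' h.ne'] at h1
    have h2 : M * (Real.log t - Real.log M) ≤ M * (t / M - 1) :=
      mul_le_mul_of_nonneg_left h1 h.le
    have h3 : M * (t / M - 1) = t - M := by field_simp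
    nlinarith

lemma elem2 {X t : ℝ} (hX : 0 ≤ X) (ht : 0 < t) :
    X * Real.log X - X * Real.log t - X + t ≤ (X - t) ^ 2 / t := by
  rcases hX.eq_or_lt with h | h
  · subst h; simp
    rw [sq, mul_div_assoc, div_self ht.ne', mul_one]
  · have h1 := Real.log_le_sub_one_of_pos (div_pos h ht)
    rw [Real.log_div h.ne' ht.ne'] at h1
    have h2 : X * (Real.log X - Real.log t) ≤ X * (X / t - 1) :=
      mul_le_mul_of_nonneg_left h1 h.le
    have h3 : (X - t) ^ 2 / t = X * (X / t - 1) - X + t := by field_simp; ring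
    rw [h3]
    linarith

lemma log_four_le : Real.log 4 ≤ 2 := by
  have : (4 : ℝ) = 2 ^ 2 := by norm_num
  rw [this, Real.log_pow]
  have := Real.log_two_lt_d9
  push_cast
  linarith

lemma pt {y h b z ℓ : ℝ} (hb : 0 < b) (hz : z ≤ ℓ) (hz0 : 0 ≤ z)
    (hh : h ^ 2 ≤ b * Real.exp z) :
    (y + h) ^ 2 * Real.log ((y + h) ^ 2) - (y + h) ^ 2 * Real.log (y ^ 2 + b) - (y + h) ^ 2
      + (y ^ 2 + b) ≤ (18 + 4 * ℓ) * h ^ 2 + 2 * b := by
  have ht : 0 < y ^ 2 + b := by positivity
  have hℓ : 0 ≤ ℓ := hz0.trans hz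
  rcases le_or_gt (h ^ 2) (y ^ 2) with hc | hc
  · refine (elem2 (sq_nonneg _) ht).trans ?_
    rw [div_le_iff₀ ht]
    have h1 : |h| ≤ |y| := sq_le_sq.1 hc
    have h2 : (2 * y + h) ^ 2 ≤ 9 * y ^ 2 := by
      have : |2 * y + h| ≤ 3 * |y| := by
        calc |2 * y + h| ≤ |2 * y| + |h| := abs_add_le _ _
          _ ≤ 2 * |y| + |y| := by rw [abs_mul]; simp; linarith
          _ = 3 * |y| := by ring
      have h3 : |2 * y + h| ^ 2 ≤ (3 * |y|) ^ 2 := pow_le_pow_left₀ (abs_nonneg _) this 2
      rw [sq_abs, mul_pow, sq_abs] at h3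
      linarith
    have h4 : ((y + h) ^ 2 - (y ^ 2 + b)) ^ 2 ≤ 2 * (h ^ 2 * (2 * y + h) ^ 2) + 2 * b ^ 2 := by
      nlinarith [sq_nonneg (h * (2 * y + h) + b)]
    have h5 : h ^ 2 * (2 * y + h) ^ 2 ≤ h ^ 2 * (9 * y ^ 2) :=
      mul_le_mul_of_nonneg_left h2 (sq_nonneg _)
    have h6 : 0 ≤ h ^ 2 * b := by positivity
    have h7 : 0 ≤ ℓ * (h ^ 2 * (y ^ 2 + b)) := by positivity
    have h8 : 0 ≤ b * y ^ 2 := by positivity
    nlinarith
  · have hX : (y + h) ^ 2 ≤ 4 * h ^ 2 := by
      have : |y| ≤ |h| := sq_le_sq.1 hc.le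
      have h2 : |y + h| ≤ 2 * |h| := by
        calc |y + h| ≤ |y| + |h| := abs_add_le _ _
          _ ≤ 2 * |h| := by linarith
      have h3 : |y + h| ^ 2 ≤ (2 * |h|) ^ 2 := pow_le_pow_left₀ (abs_nonneg _) h2 2
      rw [sq_abs, mul_pow, sq_abs] at h3
      linarith
    have hlog : (y + h) ^ 2 * Real.log ((y + h) ^ 2) - (y + h) ^ 2 * Real.log (y ^ 2 + b)
        ≤ (y + h) ^ 2 * (2 + ℓ) := by
      rcases (sq_nonneg (y + h)).eq_or_lt with h0 | h0
      · rw [← h0]; simp
      · rw [← mul_sub]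
        apply mul_le_mul_of_nonneg_left _ h0.le
        have h1 : Real.log ((y + h) ^ 2) ≤ Real.log (4 * (b * Real.exp z)) :=
          Real.log_le_log h0 (hX.trans (by linarith))
        have h2 : Real.log (4 * (b * Real.exp z)) = Real.log 4 + (Real.log b + z) := by
          rw [Real.log_mul (by norm_num) (by positivity), Real.log_mul hb.ne'
            (Real.exp_pos _).ne', Real.log_exp]
        have h3 : Real.log b ≤ Real.log (y ^ 2 + b) :=
          Real.log_le_log hb (by nlinarith [sq_nonneg y])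
        have := log_four_le
        linarith
    have h9 : (y + h) ^ 2 * (2 + ℓ) ≤ 4 * h ^ 2 * (2 + ℓ) :=
      mul_le_mul_of_nonneg_right hX (by linarith)
    nlinarith [sq_nonneg (y + h), sq_nonneg h]

section OneDim

variable {p ℓ : ℝ} {φ D : ℝ → ℝ}

lemma hardy (hℓ : 0 ≤ ℓ) (hφ : ∀ z, HasDerivAt φ (D z) z) (hD : Continuous D) :
    ∫ z in p..(p + ℓ), (φ z - φ p) ^ 2 * Real.exp (-(z - p)) ≤
      4 * ∫ z in p..(p + ℓ), D z ^ 2 * Real.exp (-(z - p)) := by
  have hc : Continuous φ := continuous_iff_continuousAt.2 fun z => (hφ z).continuousAt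
  have h1 : ∫ z in p..(p + ℓ), (2 * (φ z - φ p) * D z * Real.exp (-(z - p)) -
      (φ z - φ p) ^ 2 * Real.exp (-(z - p))) =
      (φ (p + ℓ) - φ p) ^ 2 * Real.exp (-((p + ℓ) - p)) -
        (φ p - φ p) ^ 2 * Real.exp (-(p - p)) := by
    apply integral_eq_sub_of_hasDerivAt
      (f := fun z => (φ z - φ p) ^ 2 * Real.exp (-(z - p)))
    · intro z _
      have h2 : HasDerivAt (fun z => (φ z - φ p) ^ 2) (2 * (φ z - φ p) * D z) z := by
        have := ((hφ z).sub_const (φ p)).fun_pow 2
        simpa using this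
      have h3 : HasDerivAt (fun z => Real.exp (-(z - p))) (-Real.exp (-(z - p))) z := by
        have h4 : HasDerivAt (fun z : ℝ => -(z - p)) (-1) z :=
          ((hasDerivAt_id z).sub_const p).neg
        have := h4.exp
        simpa using this
      exact (h2.fun_mul h3).congr_deriv (by ring)
    · apply Continuous.intervalIntegrable
      fun_prop
  have h0 : 0 ≤ ∫ z in p..(p + ℓ), (2 * (φ z - φ p) * D z * Real.exp (-(z - p)) -
      (φ z - φ p) ^ 2 * Real.exp (-(z - p))) := by
    rw [h1]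
    simp
    positivity
  have h2 : ∫ z in p..(p + ℓ), (2 * (φ z - φ p) * D z * Real.exp (-(z - p)) -
      (φ z - φ p) ^ 2 * Real.exp (-(z - p))) ≤
      ∫ z in p..(p + ℓ), (2 * (D z ^ 2 * Real.exp (-(z - p))) -
        (1 / 2) * ((φ z - φ p) ^ 2 * Real.exp (-(z - p)))) := by
    apply integral_mono_on (by linarith)
    · exact Continuous.intervalIntegrable (by fun_prop) _ _
    · exact Continuous.intervalIntegrable (by fun_prop) _ _
    · intro z _
      have he := Real.exp_pos (-(z - p))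
      nlinarith [mul_nonneg (sq_nonneg ((φ z - φ p) - 2 * D z)) he.le]
  have h3 : ∫ z in p..(p + ℓ), (2 * (D z ^ 2 * Real.exp (-(z - p))) -
        (1 / 2) * ((φ z - φ p) ^ 2 * Real.exp (-(z - p)))) =
      2 * (∫ z in p..(p + ℓ), D z ^ 2 * Real.exp (-(z - p))) -
        (1 / 2) * ∫ z in p..(p + ℓ), (φ z - φ p) ^ 2 * Real.exp (-(z - p)) := by
    rw [intervalIntegral.integral_sub, intervalIntegral.integral_const_mul,
      intervalIntegral.integral_const_mul]
    · exact Continuous.intervalIntegrable (by fun_prop) _ _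
    · exact Continuous.intervalIntegrable (by fun_prop) _ _
  rw [h3] at h2
  linarith

lemma sup_bd (hφ : ∀ z, HasDerivAt φ (D z) z) (hD : Continuous D) {b : ℝ}
    (hb : 0 < b) (hbA : ∫ z in p..(p + ℓ), D z ^ 2 * Real.exp (-(z - p)) ≤ b) {z : ℝ}
    (hz0 : p ≤ z) (hz : z ≤ p + ℓ) :
    (φ z - φ p) ^ 2 ≤ b * Real.exp (z - p) := by
  by_cases h0 : φ z - φ p = 0
  · rw [h0]; simp; positivity
  set a := |φ z - φ p| with ha
  have hapos : 0 < a := abs_pos.2 h0
  have hlam : 0 < a / b := div_pos hapos hb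
  have h1 : φ z - φ p = ∫ s in p..z, D s := by
    rw [integral_eq_sub_of_hasDerivAt (fun s _ => hφ s) (hD.intervalIntegrable _ _)]
  have h2 : a ≤ ∫ s in p..z, |D s| := by
    rw [ha, h1]
    exact abs_integral_le_integral_abs hz0
  have h3 : ∫ s in p..z, |D s| ≤
      ∫ s in p..z, ((a / b / 2) * (D s ^ 2 * Real.exp (-(s - p))) +
        (b / a / 2) * Real.exp (s - p)) := by
    apply integral_mono_on hz0
    · exact Continuous.intervalIntegrable (by fun_prop) _ _
    · exact Continuous.intervalIntegrable (by fun_prop) _ _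
    · intro s _
      have e1 : Real.exp (-(s - p)) = (Real.exp ((s - p) / 2))⁻¹ ^ 2 := by
        rw [← Real.exp_neg, ← Real.exp_nat_mul]; congr 1; push_cast; ring
      have e2 : Real.exp (s - p) = (Real.exp ((s - p) / 2)) ^ 2 := by
        rw [← Real.exp_nat_mul]; congr 1; push_cast; ring
      rw [e1, e2]
      set E := Real.exp ((s - p) / 2) with hE
      have hEp : 0 < E := Real.exp_pos _
      have hab : b / a = (a / b)⁻¹ := by rw [inv_div]
      rw [hab]
      set l := a / b
      have key : |D s| * 2 ≤ l * (D s ^ 2 * E⁻¹ ^ 2) + l⁻¹ * E ^ 2 := by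
        have h5 : 0 ≤ (l * |D s| * E⁻¹ - E) ^ 2 := sq_nonneg _
        have h6 : (l * |D s| * E⁻¹ - E) ^ 2 =
            l * (l * (D s ^ 2 * E⁻¹ ^ 2) + l⁻¹ * E ^ 2 - 2 * |D s|) := by
          rw [← sq_abs (D s)]
          field_simp
          ring
        rw [h6] at h5
        have := nonneg_of_mul_nonneg_right h5 hlam
        linarith
      linarith
  rw [intervalIntegral.integral_add, intervalIntegral.integral_const_mul,
    intervalIntegral.integral_const_mul] at h3
  rotate_left
  · exact Continuous.intervalIntegrable (by fun_prop) _ _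
  · exact Continuous.intervalIntegrable (by fun_prop) _ _
  have h4 : ∫ s in p..z, D s ^ 2 * Real.exp (-(s - p)) ≤ b := by
    refine le_trans ?_ hbA
    apply integral_mono_interval le_rfl hz0 hz
    · exact Filter.Eventually.of_forall fun s => by positivity
    · exact Continuous.intervalIntegrable (by fun_prop) _ _
  have h5 : ∫ s in p..z, Real.exp (s - p) ≤ Real.exp (z - p) := by
    have : ∫ s in p..z, Real.exp (s - p) = Real.exp (z - p) - Real.exp (p - p) := by
      apply integral_eq_sub_of_hasDerivAt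
      · intro s _
        have := ((hasDerivAt_id s).sub_const p).exp
        simpa using this
      · exact Continuous.intervalIntegrable (by fun_prop) _ _
    rw [this]
    simp
  have h6 : a ≤ a / b / 2 * b + b / a / 2 * Real.exp (z - p) := by
    refine h2.trans (h3.trans (add_le_add ?_ ?_))
    · exact mul_le_mul_of_nonneg_left h4 (by positivity)
    · exact mul_le_mul_of_nonneg_left h5 (by positivity)
  have h7 : a / b / 2 * b = a / 2 := by field_simp
  rw [h7] at h6
  have h8 : a * a ≤ b * Real.exp (z - p) := by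
    have h9 : a / 2 ≤ b / a / 2 * Real.exp (z - p) := by linarith
    have h10 : b / a / 2 * Real.exp (z - p) = b * Real.exp (z - p) / (2 * a) := by
      field_simp
    rw [h10, le_div_iff₀ (by positivity)] at h9
    linarith
  rw [← sq_abs, ← ha, sq]
  exact h8

end OneDim

section Gen

variable {Ω : Type*} [MeasurableSpace Ω]

lemma Ent_le {μ : Measure Ω} [IsProbabilityMeasure μ] {F : Ω → ℝ} (h0 : ∀ x, 0 ≤ F x)
    (hF : Integrable F μ) (hFl : Integrable (fun x => F x * Real.log (F x)) μ) {t : ℝ}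
    (ht : 0 < t) :
    Ent μ F ≤ ∫ x, (F x * Real.log (F x) - F x * Real.log t - F x + t) ∂μ := by
  have h1 : ∫ x, (F x * Real.log (F x) - F x * Real.log t - F x + t) ∂μ =
      ∫ x, F x * Real.log (F x) ∂μ - (∫ x, F x ∂μ) * Real.log t - (∫ x, F x ∂μ) + t := by
    have i1 : Integrable (fun x => F x * Real.log t) μ := hF.mul_const _
    have i2 : Integrable (fun x => F x * Real.log (F x) - F x * Real.log t) μ := hFl.sub i1
    have i3 : Integrable (fun x => F x * Real.log (F x) - F x * Real.log t - F x) μ := i2.sub hF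
    rw [MeasureTheory.integral_add i3 (integrable_const _),
      MeasureTheory.integral_sub i2 hF,
      MeasureTheory.integral_sub hFl i1, MeasureTheory.integral_mul_const,
      MeasureTheory.integral_const]
    simp
  rw [h1, Ent]
  have := elem1 (integral_nonneg h0 : 0 ≤ ∫ x, F x ∂μ) ht
  linarith

end Gen

lemma int_cont {X : Type*} [TopologicalSpace X] [MeasurableSpace X] [OpensMeasurableSpace X]
    [T2Space X] {μ : Measure X} [IsFiniteMeasure μ] {K : Set X} (hK : IsCompact K)
    (hμ : μ Kᶜ = 0) {f : X → ℝ} (hf : Continuous f) : Integrable f μ := by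
  have h1 : μ.restrict K = μ := Measure.restrict_eq_self_of_ae_mem (by
    rw [ae_iff]; exact hμ)
  rw [← h1]
  exact hf.continuousOn.integrableOn_compact hK

/-- The measure with density `ρ` on `[p, p + ℓ]`. -/
noncomputable def dens (p ℓ : ℝ) (ρ : ℝ → ℝ) : Measure ℝ :=
  (volume.restrict (Icc p (p + ℓ))).withDensity fun z => ENNReal.ofReal (ρ z)

lemma dens_compl (p ℓ : ℝ) (ρ : ℝ → ℝ) : dens p ℓ ρ (Icc p (p + ℓ))ᶜ = 0 := by
  have h : volume.restrict (Icc p (p + ℓ)) (Icc p (p + ℓ))ᶜ = 0 := by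
    rw [Measure.restrict_apply measurableSet_Icc.compl]
    simp
  exact (withDensity_absolutelyContinuous _ _) h

lemma dens_int {p ℓ : ℝ} (hℓ : 0 ≤ ℓ) {ρ : ℝ → ℝ} (hρ : Measurable ρ)
    (h0 : ∀ z ∈ Icc p (p + ℓ), 0 ≤ ρ z) (g : ℝ → ℝ) :
    ∫ z, g z ∂(dens p ℓ ρ) = ∫ z in p..(p + ℓ), ρ z * g z := by
  rw [dens, integral_withDensity_eq_integral_toReal_smul (by fun_prop)
    (Filter.Eventually.of_forall fun z => ENNReal.ofReal_lt_top),
    intervalIntegral.integral_of_le (by linarith), ← integral_Icc_eq_integral_Ioc]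
  apply setIntegral_congr_fun measurableSet_Icc
  intro z hz
  simp only [smul_eq_mul]
  rw [ENNReal.toReal_ofReal (h0 z hz)]

/-- logarithmic Sobolev inequality for `F = φ²`, one dimension, density comparable with `e^{-z}` -/
theorem lsi1 {p ℓ α β : ℝ} (hℓ : 0 ≤ ℓ) (hα : 0 < α) {ρ : ℝ → ℝ} (hρ : Measurable ρ)
    (h1 : ∀ z ∈ Icc p (p + ℓ), α * Real.exp (-(z - p)) ≤ ρ z)
    (h2 : ∀ z ∈ Icc p (p + ℓ), ρ z ≤ β * Real.exp (-(z - p)))
    [hprob : IsProbabilityMeasure (dens p ℓ ρ)] {φ D : ℝ → ℝ}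
    (hφ : ∀ z, HasDerivAt φ (D z) z) (hD : Continuous D) :
    Ent (dens p ℓ ρ) (fun z => φ z ^ 2) ≤
      (((72 + 16 * ℓ) * β + 2) / α) * ∫ z, D z ^ 2 ∂(dens p ℓ ρ) := by
  have hc : Continuous φ := continuous_iff_continuousAt.2 fun z => (hφ z).continuousAt
  have h0 : ∀ z ∈ Icc p (p + ℓ), 0 ≤ ρ z := fun z hz =>
    le_trans (by positivity) (h1 z hz)
  have hβ : 0 ≤ β := by
    have hz : p ∈ Icc p (p + ℓ) := ⟨le_rfl, by linarith⟩
    have a1 := h0 p hz
    have a2 := h2 p hz
    simp at a2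
    linarith
  have hint : ∀ g : ℝ → ℝ, Continuous g → Integrable g (dens p ℓ ρ) := fun g hg =>
    int_cont isCompact_Icc (dens_compl p ℓ ρ) hg
  set A := ∫ z in p..(p + ℓ), D z ^ 2 * Real.exp (-(z - p)) with hA
  have hA0 : 0 ≤ A := integral_nonneg (by linarith) fun z _ => by positivity
  have hρi : IntervalIntegrable ρ volume p (p + ℓ) := by
    rw [intervalIntegrable_iff_integrableOn_Icc_of_le (by linarith)]
    refine Integrable.mono' (g := fun z => β * Real.exp (-(z - p)))
      (Continuous.integrableOn_Icc (by fun_prop)) hρ.aestronglyMeasurable ?_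
    refine (ae_restrict_iff' measurableSet_Icc).2 (Filter.Eventually.of_forall fun z hz => ?_)
    rw [Real.norm_of_nonneg (h0 z hz)]
    exact h2 z hz
  have hρg : ∀ g : ℝ → ℝ, Continuous g →
      IntervalIntegrable (fun z => ρ z * g z) volume p (p + ℓ) := fun g hg =>
    hρi.mul_continuousOn hg.continuousOn
  -- comparison of `A` with the energy
  have hAE : α * A ≤ ∫ z, D z ^ 2 ∂(dens p ℓ ρ) := by
    rw [dens_int hℓ hρ h0, hA, ← intervalIntegral.integral_const_mul]
    apply integral_mono_on (by linarith)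
    · exact Continuous.intervalIntegrable (by fun_prop) _ _
    · exact hρg _ (by fun_prop)
    · intro z hz
      have := mul_le_mul_of_nonneg_right (h1 z hz) (sq_nonneg (D z))
      linarith
  have hH : ∫ z, (φ z - φ p) ^ 2 ∂(dens p ℓ ρ) ≤ β * (4 * A) := by
    rw [dens_int hℓ hρ h0]
    calc ∫ z in p..(p + ℓ), ρ z * (φ z - φ p) ^ 2
        ≤ ∫ z in p..(p + ℓ), β * ((φ z - φ p) ^ 2 * Real.exp (-(z - p))) := by
          apply integral_mono_on (by linarith)
          · exact hρg _ (by fun_prop)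
          · exact Continuous.intervalIntegrable (by fun_prop) _ _
          · intro z hz
            have := mul_le_mul_of_nonneg_right (h2 z hz) (sq_nonneg (φ z - φ p))
            linarith
      _ ≤ β * (4 * A) := by
          rw [intervalIntegral.integral_const_mul]
          exact mul_le_mul_of_nonneg_left (hardy hℓ hφ hD) hβ
  have key : ∀ b : ℝ, 0 < b → A ≤ b →
      Ent (dens p ℓ ρ) (fun z => φ z ^ 2) ≤ (18 + 4 * ℓ) * (β * (4 * A)) + 2 * b := by
    intro b hb hAb
    have ht : 0 < φ p ^ 2 + b := by positivity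
    have hcl : Continuous fun z => φ z ^ 2 * Real.log (φ z ^ 2) :=
      Real.continuous_mul_log.comp (hc.pow 2)
    refine (Ent_le (fun z => sq_nonneg _) (hint _ (hc.pow 2)) (hint _ hcl) ht).trans ?_
    have hae : ∀ᵐ z ∂(dens p ℓ ρ), z ∈ Icc p (p + ℓ) := by
      rw [ae_iff]; exact dens_compl p ℓ ρ
    calc ∫ z, (φ z ^ 2 * Real.log (φ z ^ 2) - φ z ^ 2 * Real.log (φ p ^ 2 + b) - φ z ^ 2 +
          (φ p ^ 2 + b)) ∂(dens p ℓ ρ)
        ≤ ∫ z, ((18 + 4 * ℓ) * (φ z - φ p) ^ 2 + 2 * b) ∂(dens p ℓ ρ) := by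
          apply MeasureTheory.integral_mono_ae
          · exact hint _ (((hcl.sub ((hc.pow 2).mul continuous_const)).sub (hc.pow 2)).add
              continuous_const)
          · exact hint _ (by fun_prop)
          · filter_upwards [hae] with z hz
            have hs := sup_bd (ℓ := ℓ) hφ hD hb hAb hz.1 hz.2
            have := pt (y := φ p) (h := φ z - φ p) (z := z - p) (ℓ := ℓ) hb
              (by linarith [hz.2]) (by linarith [hz.1]) hs
            simpa using this
      _ = (18 + 4 * ℓ) * (∫ z, (φ z - φ p) ^ 2 ∂(dens p ℓ ρ)) + 2 * b := by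
          rw [MeasureTheory.integral_add (hint _ (by fun_prop)) (integrable_const _),
            MeasureTheory.integral_const_mul, MeasureTheory.integral_const]
          simp
      _ ≤ (18 + 4 * ℓ) * (β * (4 * A)) + 2 * b := by
          have := mul_le_mul_of_nonneg_left hH (by linarith : 0 ≤ 18 + 4 * ℓ)
          linarith
  have hfin : Ent (dens p ℓ ρ) (fun z => φ z ^ 2) ≤
      (18 + 4 * ℓ) * (β * (4 * A)) + 2 * A := by
    apply le_of_forall_pos_le_add
    intro ε hε
    have := key (A + ε / 2) (by linarith) (by linarith)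
    linarith
  refine hfin.trans ?_
  have e1 : (18 + 4 * ℓ) * (β * (4 * A)) + 2 * A = ((72 + 16 * ℓ) * β + 2) / α * (α * A) := by
    field_simp; ring
  rw [e1]
  exact mul_le_mul_of_nonneg_left hAE (by positivity)

/-- logarithmic Sobolev property in the form for positive functions -/
def LSIF (μ : Measure ℝ) (K : ℝ) : Prop :=
  ∀ F D : ℝ → ℝ, (∀ z, 0 < F z) → (∀ z, HasDerivAt F (D z) z) → Continuous D →
    Ent μ F ≤ K * ∫ z, D z ^ 2 / (4 * F z) ∂μ

theorem lsi1F {p ℓ α β : ℝ} (hℓ : 0 ≤ ℓ) (hα : 0 < α) {ρ : ℝ → ℝ} (hρ : Measurable ρ)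
    (h1 : ∀ z ∈ Icc p (p + ℓ), α * Real.exp (-(z - p)) ≤ ρ z)
    (h2 : ∀ z ∈ Icc p (p + ℓ), ρ z ≤ β * Real.exp (-(z - p)))
    [hprob : IsProbabilityMeasure (dens p ℓ ρ)] :
    LSIF (dens p ℓ ρ) (((72 + 16 * ℓ) * β + 2) / α) := by
  intro F D hF hd hD
  have hFc : Continuous F := continuous_iff_continuousAt.2 fun z => (hd z).continuousAt
  have hφ : ∀ z, HasDerivAt (fun z => Real.sqrt (F z)) (D z / (2 * Real.sqrt (F z))) z :=
    fun z => (hd z).sqrt (hF z).ne'
  have hDc : Continuous fun z => D z / (2 * Real.sqrt (F z)) := by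
    refine hD.div (by fun_prop) fun z => ?_
    have := Real.sqrt_pos.2 (hF z)
    positivity
  have := lsi1 hℓ hα hρ h1 h2 hφ hDc
  have e1 : (fun z => Real.sqrt (F z) ^ 2) = F := by
    ext z; exact Real.sq_sqrt (hF z).le
  have e2 : (fun z => (D z / (2 * Real.sqrt (F z))) ^ 2) = fun z => D z ^ 2 / (4 * F z) := by
    ext z
    rw [div_pow, mul_pow, Real.sq_sqrt (hF z).le]
    norm_num
  rw [e1, e2] at this
  exact this

end Pool.Agent.V11332.LS
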