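import Pool.Agent.V11332.LS1

set_option autoImplicit false
set_option linter.unusedSectionVars false

/-!
# Tensorisation of entropy and of the logarithmic Sobolev inequality
-/

open MeasureTheory Set
open scoped ENNReal

namespace Pool.Agent.V11332.LS

section Sub

variable {X Y : Type*} [TopologicalSpace X] [TopologicalSpace Y] [MeasurableSpace X]
  [MeasurableSpace Y] [BorelSpace X] [BorelSpace Y] [T2Space X] [T2Space Y]
  [SecondCountableTopology X] [SecondCountableTopology Y]
  [LocallyCompactSpace X] [LocallyCompactSpace Y]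

lemma prod_compl {μ : Measure X} {ν : Measure Y} [IsProbabilityMeasure μ]
    [IsProbabilityMeasure ν] {K : Set X} {L : Set Y} (hK : μ Kᶜ = 0) (hL : ν Lᶜ = 0) :
    (μ.prod ν) (K ×ˢ L)ᶜ = 0 := by
  have h : (K ×ˢ L)ᶜ ⊆ (Kᶜ ×ˢ (univ : Set Y)) ∪ ((univ : Set X) ×ˢ Lᶜ) := by
    rintro ⟨x, y⟩ h
    simp only [mem_compl_iff, mem_prod, not_and] at h
    by_cases hx : x ∈ K
    · right; exact ⟨mem_univ _, h hx⟩
    · left; exact ⟨hx, mem_univ _⟩
  refine measure_mono_null h (measure_union_null ?_ ?_)
  · rw [Measure.prod_prod, hK, zero_mul]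
  · rw [Measure.prod_prod, hL, mul_zero]

lemma cont_param {μ : Measure X} [IsProbabilityMeasure μ] {K : Set X} (hKc : IsCompact K)
    (hK : μ Kᶜ = 0) {f : Y → X → ℝ} (hf : Continuous (Function.uncurry f)) :
    Continuous fun y => ∫ x, f y x ∂μ := by
  have h1 : μ.restrict K = μ := Measure.restrict_eq_self_of_ae_mem (by
    rw [ae_iff]; exact hK)
  have := continuous_parametric_integral_of_continuous (μ := μ) hf hKc
  simpa only [h1] using this

/-- subadditivity of entropy on a product of two spaces -/
theorem subadd {μ : Measure X} {ν : Measure Y} [IsProbabilityMeasure μ] [IsProbabilityMeasure ν]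
    {K : Set X} {L : Set Y} (hKc : IsCompact K) (hLc : IsCompact L) (hK : μ Kᶜ = 0)
    (hL : ν Lᶜ = 0) {F : X × Y → ℝ} (hF : Continuous F) (hpos : ∀ p, 0 < F p) :
    Ent (μ.prod ν) F ≤ ∫ y, Ent μ (fun x => F (x, y)) ∂ν + ∫ x, Ent ν (fun y => F (x, y)) ∂μ := by
  have hKL : (μ.prod ν) (K ×ˢ L)ᶜ = 0 := prod_compl hK hL
  have hKLc : IsCompact (K ×ˢ L) := hKc.prod hLc
  have iP : ∀ {f : X × Y → ℝ}, Continuous f → Integrable f (μ.prod ν) := fun hf =>
    int_cont hKLc hKL hf
  have iX : ∀ {f : X → ℝ}, Continuous f → Integrable f μ := fun hf => int_cont hKc hK hf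
  have iY : ∀ {f : Y → ℝ}, Continuous f → Integrable f ν := fun hf => int_cont hLc hL hf
  set F1 : Y → ℝ := fun y => ∫ x, F (x, y) ∂μ with hF1
  set F2 : X → ℝ := fun x => ∫ y, F (x, y) ∂ν with hF2
  have cF1 : Continuous F1 := cont_param (f := fun y x => F (x, y)) hKc hK
    (hF.comp continuous_swap)
  have cF2 : Continuous F2 := cont_param (f := fun x y => F (x, y)) hLc hL hF
  have pos1 : ∀ y, 0 < F1 y := fun y => by
    have hi : Integrable (fun x => F (x, y)) μ := iX (by fun_prop)
    rw [hF1]
    refine (integral_pos_iff_support_of_nonneg (fun x => (hpos _).le) hi).2 ?_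
    have : Function.support (fun x => F (x, y)) = univ := by
      ext x; simp [(hpos (x, y)).ne']
    rw [this]; simp
  have pos2 : ∀ x, 0 < F2 x := fun x => by
    have hi : Integrable (fun y => F (x, y)) ν := iY (by fun_prop)
    rw [hF2]
    refine (integral_pos_iff_support_of_nonneg (fun x => (hpos _).le) hi).2 ?_
    have : Function.support (fun y => F (x, y)) = univ := by
      ext y; simp [(hpos (x, y)).ne']
    rw [this]; simp
  set M := ∫ p, F p ∂(μ.prod ν) with hM
  have hM1 : M = ∫ y, F1 y ∂ν := by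
    rw [hM, integral_prod_symm _ (iP hF)]
  have hM2 : M = ∫ x, F2 x ∂μ := by
    rw [hM, integral_prod _ (iP hF)]
  have hMpos : 0 < M := by
    rw [hM]
    refine (integral_pos_iff_support_of_nonneg (fun x => (hpos _).le) (iP hF)).2 ?_
    have : Function.support F = univ := by
      ext x; simp [(hpos x).ne']
    rw [this]; simp
  set A := ∫ p, F p * Real.log (F p) ∂(μ.prod ν) with hA
  have cFl : Continuous fun p => F p * Real.log (F p) := Real.continuous_mul_log.comp hF
  have hA1 : A = ∫ y, ∫ x, F (x, y) * Real.log (F (x, y)) ∂μ ∂ν := by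
    rw [hA, integral_prod_symm _ (iP cFl)]
  have hA2 : A = ∫ x, ∫ y, F (x, y) * Real.log (F (x, y)) ∂ν ∂μ := by
    rw [hA, integral_prod _ (iP cFl)]
  have cl1 : Continuous fun y => F1 y * Real.log (F1 y) := Real.continuous_mul_log.comp cF1
  have cl2 : Continuous fun x => F2 x * Real.log (F2 x) := Real.continuous_mul_log.comp cF2
  have E1 : ∫ y, Ent μ (fun x => F (x, y)) ∂ν = A - ∫ y, F1 y * Real.log (F1 y) ∂ν := by
    have : ∀ y, Ent μ (fun x => F (x, y)) =
        (∫ x, F (x, y) * Real.log (F (x, y)) ∂μ) - F1 y * Real.log (F1 y) := fun y => rfl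
    simp_rw [this]
    rw [integral_sub _ (iY cl1), hA1]
    exact iY (cont_param (f := fun y x => F (x, y) * Real.log (F (x, y))) hKc hK
      (cFl.comp continuous_swap))
  have E2 : ∫ x, Ent ν (fun y => F (x, y)) ∂μ = A - ∫ x, F2 x * Real.log (F2 x) ∂μ := by
    have : ∀ x, Ent ν (fun y => F (x, y)) =
        (∫ y, F (x, y) * Real.log (F (x, y)) ∂ν) - F2 x * Real.log (F2 x) := fun x => rfl
    simp_rw [this]
    rw [integral_sub _ (iX cl2), hA2]
    exact iX (cont_param (f := fun x y => F (x, y) * Real.log (F (x, y))) hLc hL cFl)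
  have cb : Continuous fun p : X × Y => F1 p.2 * F2 p.1 := by fun_prop
  have clog1 : Continuous fun y => Real.log (F1 y) := cF1.log fun y => (pos1 y).ne'
  have clog2 : Continuous fun x => Real.log (F2 x) := cF2.log fun y => (pos2 y).ne'
  -- the three cross terms
  have j1 : Continuous fun p : X × Y => F p * Real.log (F1 p.2) :=
    hF.mul (clog1.comp continuous_snd)
  have j2 : Continuous fun p : X × Y => F p * Real.log (F2 p.1) :=
    hF.mul (clog2.comp continuous_fst)
  have c1 : ∫ p, F p * Real.log (F1 p.2) ∂(μ.prod ν) = ∫ y, F1 y * Real.log (F1 y) ∂ν := by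
    rw [integral_prod_symm _ (iP j1)]
    refine integral_congr_ae (Filter.Eventually.of_forall fun y => ?_)
    simp only
    rw [integral_mul_const]
  have c2 : ∫ p, F p * Real.log (F2 p.1) ∂(μ.prod ν) = ∫ x, F2 x * Real.log (F2 x) ∂μ := by
    rw [integral_prod _ (iP j2)]
    refine integral_congr_ae (Filter.Eventually.of_forall fun x => ?_)
    simp only
    rw [integral_mul_const]
  have c3 : ∫ p, F1 p.2 * F2 p.1 ∂(μ.prod ν) = M * M := by
    have : ∀ p : X × Y, F1 p.2 * F2 p.1 = F2 p.1 * F1 p.2 := fun p => mul_comm _ _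
    simp_rw [this]
    rw [integral_prod_mul, ← hM1, ← hM2]
  have main : 0 ≤ ∫ p, (F p * Real.log (F p) - F p * Real.log (F1 p.2) -
      F p * Real.log (F2 p.1) + F p * Real.log M - F p + (F1 p.2 * F2 p.1) / M) ∂(μ.prod ν) := by
    apply integral_nonneg
    intro p
    have hb : 0 < (F1 p.2 * F2 p.1) / M := div_pos (mul_pos (pos1 _) (pos2 _)) hMpos
    have := elem1 (hpos p).le hb
    rw [Real.log_div (mul_pos (pos1 _) (pos2 _)).ne' hMpos.ne',
      Real.log_mul (pos1 _).ne' (pos2 _).ne'] at this
    simp only [Pi.zero_apply]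
    linarith
  have k0 : Continuous fun p : X × Y => F p * Real.log M := hF.mul continuous_const
  have k1 : Continuous fun p : X × Y => F p * Real.log (F p) - F p * Real.log (F1 p.2) :=
    cFl.sub j1
  have k2 : Continuous fun p : X × Y => F p * Real.log (F p) - F p * Real.log (F1 p.2) -
      F p * Real.log (F2 p.1) := k1.sub j2
  have k3 : Continuous fun p : X × Y => F p * Real.log (F p) - F p * Real.log (F1 p.2) -
      F p * Real.log (F2 p.1) + F p * Real.log M := k2.add k0
  have k4 : Continuous fun p : X × Y => F p * Real.log (F p) - F p * Real.log (F1 p.2) -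
      F p * Real.log (F2 p.1) + F p * Real.log M - F p := k3.sub hF
  have split : ∫ p, (F p * Real.log (F p) - F p * Real.log (F1 p.2) -
      F p * Real.log (F2 p.1) + F p * Real.log M - F p + (F1 p.2 * F2 p.1) / M) ∂(μ.prod ν) =
      A - (∫ y, F1 y * Real.log (F1 y) ∂ν) - (∫ x, F2 x * Real.log (F2 x) ∂μ) + M * Real.log M
        - M + M * M / M := by
    rw [integral_add (iP k4) (iP (cb.div_const _)),
      integral_sub (iP k3) (iP hF),
      integral_add (iP k2) (iP k0),
      integral_sub (iP k1) (iP j2), integral_sub (iP cFl) (iP j1),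
      c1, c2, integral_mul_const, integral_div, c3]
  rw [split, mul_div_assoc, div_self hMpos.ne', mul_one] at main
  rw [E1, E2, Ent]
  have : (∫ p, F p * Real.log (F p) ∂(μ.prod ν)) = A := rfl
  rw [this]
  change A - M * Real.log M ≤ _
  linarith

end Sub

/-- tensorisation of the logarithmic Sobolev inequality -/
theorem tensor : ∀ (n : ℕ) (μ : Fin n → Measure ℝ) (_ : ∀ i, IsProbabilityMeasure (μ i))
    (S : Fin n → Set ℝ) (_ : ∀ i, IsCompact (S i)) (_ : ∀ i, μ i (S i)ᶜ = 0) (K : Fin n → ℝ)
    (_ : ∀ i, 0 ≤ K i) (_ : ∀ i, LSIF (μ i) (K i)) (F : (Fin n → ℝ) → ℝ)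
    (D : Fin n → (Fin n → ℝ) → ℝ) (_ : Continuous F) (_ : ∀ x, 0 < F x)
    (_ : ∀ i, Continuous (D i))
    (_ : ∀ i x, HasDerivAt (fun s => F (Function.update x i s)) (D i x) (x i)),
    Ent (Measure.pi μ) F ≤ ∑ i, K i * ∫ x, D i x ^ 2 / (4 * F x) ∂(Measure.pi μ) := by
  intro n
  induction n with
  | zero =>
    intro μ hμ S hS hS0 K hK0 hK F D hF hpos hD hd
    simp only [Finset.univ_eq_empty, Finset.sum_empty]
    rw [Measure.pi_of_empty, Ent]
    simp
  | succ n ih =>
    intro μ hμ S hS hS0 K hK0 hK F D hF hpos hD hd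
    have hmp := (measurePreserving_piFinSuccAbove μ 0).symm
    set ν : Measure (Fin n → ℝ) := Measure.pi fun j => μ (Fin.succAbove 0 j) with hν
    have hcons : ∀ p : ℝ × (Fin n → ℝ),
        (MeasurableEquiv.piFinSuccAbove (fun _ : Fin (n + 1) => ℝ) 0).symm p =
          (Fin.cons p.1 p.2 : Fin (n + 1) → ℝ) := by
      intro p
      simp [MeasurableEquiv.piFinSuccAbove_symm_apply, Fin.insertNthEquiv]
    have hccont : Continuous fun p : ℝ × (Fin n → ℝ) => (Fin.cons p.1 p.2 : Fin (n + 1) → ℝ) := by
      refine continuous_pi fun i => ?_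
      refine Fin.cases ?_ (fun j => ?_) i
      · simpa using continuous_fst
      · simp only [Fin.cons_succ]; fun_prop
    have hchg : ∀ g : (Fin (n + 1) → ℝ) → ℝ, ∫ x, g x ∂(Measure.pi μ) =
        ∫ p, g (Fin.cons p.1 p.2) ∂((μ 0).prod ν) := by
      intro g
      rw [← hmp.integral_comp (MeasurableEquiv.measurableEmbedding _)]
      simp_rw [hcons]
    have hE : Ent (Measure.pi μ) F =
        Ent ((μ 0).prod ν) (fun p => F (Fin.cons p.1 p.2)) := by
      rw [Ent, Ent, hchg, hchg]
    have : IsProbabilityMeasure (μ 0) := hμ 0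
    have : ∀ j : Fin n, IsProbabilityMeasure (μ (Fin.succAbove 0 j)) := fun j => hμ _
    have : IsProbabilityMeasure ν := by rw [hν]; infer_instance
    set L : Set (Fin n → ℝ) := Set.univ.pi fun j => S j.succ with hL
    have hLc : IsCompact L := isCompact_univ_pi fun j => hS _
    have hL0 : ν Lᶜ = 0 := by
      have : ∀ᵐ y ∂ν, ∀ j, y j ∈ S j.succ := by
        rw [ae_all_iff]
        intro j
        have hj : ∀ᵐ t ∂(μ (Fin.succAbove 0 j)), t ∈ S j.succ := by
          rw [ae_iff]
          exact hS0 j.succ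
        exact (Measure.quasiMeasurePreserving_eval (μ := fun j : Fin n =>
          μ (Fin.succAbove 0 j)) j).ae hj
      rw [ae_iff] at this
      convert this using 2
      ext y
      simp [hL]
    have hFc : Continuous fun p : ℝ × (Fin n → ℝ) => F (Fin.cons p.1 p.2) := hF.comp hccont
    have hmain := subadd (hS 0) hLc (hS0 0) hL0 hFc fun p => hpos _
    rw [hE]
    refine hmain.trans ?_
    rw [Fin.sum_univ_succ]
    have iP : ∀ {f : ℝ × (Fin n → ℝ) → ℝ}, Continuous f → Integrable f ((μ 0).prod ν) :=
      fun hf => int_cont ((hS 0).prod hLc) (prod_compl (hS0 0) hL0) hf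
    have iX : ∀ {f : ℝ → ℝ}, Continuous f → Integrable f (μ 0) := fun hf =>
      int_cont (hS 0) (hS0 0) hf
    have iY : ∀ {f : (Fin n → ℝ) → ℝ}, Continuous f → Integrable f ν := fun hf =>
      int_cont hLc hL0 hf
    have hq : ∀ i : Fin (n + 1), Continuous fun p : ℝ × (Fin n → ℝ) =>
        D i (Fin.cons p.1 p.2) ^ 2 / (4 * F (Fin.cons p.1 p.2)) := fun i => by
      refine (((hD i).comp hccont).pow 2).div (hFc.const_mul 4) fun p => ?_
      have := hpos (Fin.cons p.1 p.2)
      positivity
    have cEnt : Continuous fun p : ℝ × (Fin n → ℝ) =>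
        F (Fin.cons p.1 p.2) * Real.log (F (Fin.cons p.1 p.2)) :=
      Real.continuous_mul_log.comp hFc
    apply add_le_add
    · -- first coordinate
      have h1 : ∀ y : Fin n → ℝ, Ent (μ 0) (fun x => F (Fin.cons x y)) ≤
          K 0 * ∫ x, D 0 (Fin.cons x y) ^ 2 / (4 * F (Fin.cons x y)) ∂(μ 0) := by
        intro y
        apply hK 0 (fun x => F (Fin.cons x y)) (fun x => D 0 (Fin.cons x y))
        · intro z; exact hpos _
        · intro z
          have := hd 0 (Fin.cons z y)
          simpa [Fin.update_cons_zero] using this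
        · exact (hD 0).comp (hccont.comp (by fun_prop : Continuous fun x : ℝ => (x, y)))
      calc ∫ y, Ent (μ 0) (fun x => F (Fin.cons x y)) ∂ν
          ≤ ∫ y, K 0 * ∫ x, D 0 (Fin.cons x y) ^ 2 / (4 * F (Fin.cons x y)) ∂(μ 0) ∂ν := by
            apply integral_mono _ _ h1
            · refine iY ?_
              simp only [Ent]
              refine Continuous.sub ?_ ?_
              · exact cont_param (f := fun y x => F (Fin.cons x y) *
                  Real.log (F (Fin.cons x y))) (hS 0) (hS0 0) (cEnt.comp continuous_swap)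
              · exact Real.continuous_mul_log.comp (cont_param (f := fun y x =>
                  F (Fin.cons x y)) (hS 0) (hS0 0) (hFc.comp continuous_swap))
            · refine iY (Continuous.const_smul ?_ (K 0))
              exact cont_param (f := fun y x => D 0 (Fin.cons x y) ^ 2 /
                (4 * F (Fin.cons x y))) (hS 0) (hS0 0) ((hq 0).comp continuous_swap)
        _ = K 0 * ∫ x, D 0 x ^ 2 / (4 * F x) ∂(Measure.pi μ) := by
            rw [integral_const_mul, hchg, integral_prod_symm _ (iP (hq 0))]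
    · -- the other coordinates
      have h1 : ∀ x : ℝ, Ent ν (fun y => F (Fin.cons x y)) ≤
          ∑ i : Fin n, K i.succ *
            ∫ y, D i.succ (Fin.cons x y) ^ 2 / (4 * F (Fin.cons x y)) ∂ν := by
        intro x
        have cx : Continuous fun y : Fin n → ℝ => (Fin.cons x y : Fin (n + 1) → ℝ) :=
          hccont.comp (by fun_prop : Continuous fun y : Fin n → ℝ => (x, y))
        have := ih (fun j => μ (Fin.succAbove 0 j)) (fun j => hμ _) (fun j => S j.succ)
          (fun j => hS _) (fun j => by simpa using hS0 j.succ) (fun j => K j.succ)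
          (fun j => hK0 _) (fun j => by simpa using hK j.succ) (fun y => F (Fin.cons x y))
          (fun j y => D j.succ (Fin.cons x y)) (hF.comp cx) (fun y => hpos _)
          (fun j => (hD _).comp cx) (fun j y => by
            have := hd j.succ (Fin.cons x y)
            simpa [← Fin.cons_update] using this)
        exact this
      calc ∫ x, Ent ν (fun y => F (Fin.cons x y)) ∂(μ 0)
          ≤ ∫ x, ∑ i : Fin n, K i.succ *
            ∫ y, D i.succ (Fin.cons x y) ^ 2 / (4 * F (Fin.cons x y)) ∂ν ∂(μ 0) := by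
            apply integral_mono _ _ h1
            · refine iX ?_
              simp only [Ent]
              refine Continuous.sub ?_ ?_
              · exact cont_param (f := fun x y => F (Fin.cons x y) *
                  Real.log (F (Fin.cons x y))) hLc hL0 cEnt
              · exact Real.continuous_mul_log.comp (cont_param (f := fun x y =>
                  F (Fin.cons x y)) hLc hL0 hFc)
            · refine iX (continuous_finsetSum _ fun i _ => Continuous.const_smul ?_ (K i.succ))
              exact cont_param (f := fun x y => D i.succ (Fin.cons x y) ^ 2 /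
                (4 * F (Fin.cons x y))) hLc hL0 (hq i.succ)
        _ = ∑ i : Fin n, K i.succ * ∫ x, D i.succ x ^ 2 / (4 * F x) ∂(Measure.pi μ) := by
            have hci : ∀ i : Fin n, Continuous fun x : ℝ => K i.succ *
                ∫ y, D i.succ (Fin.cons x y) ^ 2 / (4 * F (Fin.cons x y)) ∂ν := fun i =>
              Continuous.const_smul (cont_param
                (f := fun x y => D i.succ (Fin.cons x y) ^ 2 /
                (4 * F (Fin.cons x y))) hLc hL0 (hq i.succ)) (K i.succ)
            rw [integral_finsetSum _ fun i _ => iX (hci i)]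
            refine Finset.sum_congr rfl fun i _ => ?_
            rw [integral_const_mul, hchg, integral_prod _ (iP (hq i.succ))]

end Pool.Agent.V11332.LS
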