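import Pool.Agent.V11332.LS2

set_option autoImplicit false
set_option linter.unusedSectionVars false

/-!
# The logarithmic Sobolev inequality for the image of a product measure under the map
`(z, u) ↦ (z - c, (1 - a z) u)`
-/

open MeasureTheory Set
open scoped ENNReal

namespace Pool.Agent.V11332.LS

theorem tensorSq {n : ℕ} (μ : Fin n → Measure ℝ) (hμ : ∀ i, IsProbabilityMeasure (μ i))
    (S : Fin n → Set ℝ) (hS : ∀ i, IsCompact (S i)) (hS0 : ∀ i, μ i (S i)ᶜ = 0) (K : Fin n → ℝ)
    (hK0 : ∀ i, 0 ≤ K i) (hK : ∀ i, LSIF (μ i) (K i)) (g : (Fin n → ℝ) → ℝ)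
    (D : Fin n → (Fin n → ℝ) → ℝ) (hg : Continuous g)
    (hD : ∀ i, Continuous (D i))
    (hd : ∀ i x, HasDerivAt (fun s => g (Function.update x i s)) (D i x) (x i)) :
    Ent (Measure.pi μ) (fun x => g x ^ 2) ≤ ∑ i, K i * ∫ x, D i x ^ 2 ∂(Measure.pi μ) := by
  have hprob : IsProbabilityMeasure (Measure.pi μ) := by infer_instance
  set T : Set (Fin n → ℝ) := Set.univ.pi S with hT
  have hTc : IsCompact T := isCompact_univ_pi hS
  have hT0 : Measure.pi μ Tᶜ = 0 := by
    have : ∀ᵐ y ∂(Measure.pi μ), ∀ j, y j ∈ S j := by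
      rw [ae_all_iff]
      intro j
      have hj : ∀ᵐ t ∂(μ j), t ∈ S j := by
        rw [ae_iff]
        exact hS0 j
      exact (Measure.quasiMeasurePreserving_eval (μ := μ) j).ae hj
    rw [ae_iff] at this
    convert this using 2
    ext y
    simp [hT]
  have iP : ∀ {f : (Fin n → ℝ) → ℝ}, Continuous f → Integrable f (Measure.pi μ) :=
    fun hf => int_cont hTc hT0 hf
  have step : ∀ ε : ℝ, 0 < ε → Ent (Measure.pi μ) (fun x => g x ^ 2 + ε) ≤
      ∑ i, K i * ∫ x, D i x ^ 2 ∂(Measure.pi μ) := by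
    intro ε hε
    have hpos : ∀ x, 0 < g x ^ 2 + ε := fun x => by positivity
    have h1 := tensor n μ hμ S hS hS0 K hK0 hK (fun x => g x ^ 2 + ε)
      (fun i x => 2 * g x * D i x) (by fun_prop) hpos (fun i => by
        have := hD i
        fun_prop) (fun i x => by
        have := ((hd i x).fun_pow 2).add_const ε
        simp only [Function.update_eq_self] at this
        refine this.congr_deriv ?_
        norm_num)
    refine h1.trans (Finset.sum_le_sum fun i _ => ?_)
    apply mul_le_mul_of_nonneg_left _ (hK0 i)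
    have hDi := hD i
    apply integral_mono
    · apply iP
      refine Continuous.div (by fun_prop) (by fun_prop) fun x => ?_
      have := hpos x
      positivity
    · exact iP (by fun_prop)
    · intro x
      simp only
      rw [div_le_iff₀ (by have := hpos x; positivity)]
      have : 0 ≤ D i x ^ 2 * ε := by positivity
      nlinarith
  have hcont : Continuous fun ε : ℝ => Ent (Measure.pi μ) (fun x => g x ^ 2 + ε) := by
    simp only [Ent]
    refine Continuous.sub ?_ ?_
    · exact cont_param (f := fun (ε : ℝ) x => (g x ^ 2 + ε) * Real.log (g x ^ 2 + ε)) hTc hT0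
        (Real.continuous_mul_log.comp (by fun_prop : Continuous fun p : ℝ × (Fin n → ℝ) =>
          g p.2 ^ 2 + p.1))
    · exact Real.continuous_mul_log.comp (cont_param (f := fun (ε : ℝ) x => g x ^ 2 + ε)
        hTc hT0 (by fun_prop : Continuous fun p : ℝ × (Fin n → ℝ) => g p.2 ^ 2 + p.1))
  have hlim : Filter.Tendsto (fun ε : ℝ => Ent (Measure.pi μ) (fun x => g x ^ 2 + ε))
      (nhdsWithin 0 (Ioi 0)) (nhds (Ent (Measure.pi μ) (fun x => g x ^ 2))) := by
    have := (hcont.tendsto 0).mono_left (nhdsWithin_le_nhds (s := Ioi 0))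
    simpa using this
  exact le_of_tendsto hlim (Filter.eventually_of_mem self_mem_nhdsWithin fun ε hε => step ε hε)

/-- The map `(z, u) ↦ (z - c, (1 - a z) u)`. -/
noncomputable def TT (N : ℕ) (a c : ℝ) (x : Fin (N + 1) → ℝ) : EuclideanSpace ℝ (Fin (N + 1)) :=
  WithLp.toLp 2 (Fin.cons (x 0 - c) (fun i => (1 - a * x 0) * x i.succ) : Fin (N + 1) → ℝ)

variable {N : ℕ} {a c : ℝ}

lemma TT_zero (x : Fin (N + 1) → ℝ) : TT N a c x 0 = x 0 - c := by simp [TT]

lemma TT_succ (x : Fin (N + 1) → ℝ) (i : Fin N) :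
    TT N a c x i.succ = (1 - a * x 0) * x i.succ := by simp [TT]

lemma TT_cont : Continuous (TT N a c) := by
  refine (PiLp.continuous_toLp 2 _).comp (continuous_pi fun i => ?_)
  refine Fin.cases ?_ (fun j => ?_) i
  · simp only [Fin.cons_zero]; fun_prop
  · simp only [Fin.cons_succ]; fun_prop

/-- derivative of `TT` in the `z` direction -/
noncomputable def VV (N : ℕ) (a : ℝ) (x : Fin (N + 1) → ℝ) : EuclideanSpace ℝ (Fin (N + 1)) :=
  WithLp.toLp 2 (Fin.cons 1 (fun i => -a * x i.succ) : Fin (N + 1) → ℝ)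

lemma VV_cont : Continuous (VV N a) := by
  refine (PiLp.continuous_toLp 2 _).comp (continuous_pi fun i => ?_)
  refine Fin.cases ?_ (fun j => ?_) i
  · simp only [Fin.cons_zero]; fun_prop
  · simp only [Fin.cons_succ]; fun_prop

lemma TT_upd0 (x : Fin (N + 1) → ℝ) (s : ℝ) :
    TT N a c (Function.update x 0 s) = TT N a c x + (s - x 0) • VV N a x := by
  ext j
  refine Fin.cases ?_ (fun j => ?_) j
  · simp [TT, VV]
  · simp [TT, VV]; ring

lemma TT_updS (x : Fin (N + 1) → ℝ) (i : Fin N) (s : ℝ) :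
    TT N a c (Function.update x i.succ s) = TT N a c x +
      (s - x i.succ) • ((1 - a * x 0) • EuclideanSpace.single i.succ (1 : ℝ)) := by
  ext j
  refine Fin.cases ?_ (fun j => ?_) j
  · simp [TT, (Fin.succ_ne_zero i).symm]
  · by_cases h : j = i
    · subst h
      simp [TT, (Fin.succ_ne_zero j).symm]; ring
    · have h1 : (j.succ : Fin (N + 1)) ≠ i.succ := fun h2 => h (Fin.succ_injective _ h2)
      simp [TT, (Fin.succ_ne_zero i).symm, h1]

lemma deriv_line {E : Type*} [NormedAddCommGroup E] [NormedSpace ℝ E] {f : E → ℝ} {y v : E}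
    {t : ℝ} (hf : DifferentiableAt ℝ f y) :
    HasDerivAt (fun s : ℝ => f (y + (s - t) • v)) (fderiv ℝ f y v) t := by
  have h1 : HasDerivAt (fun s : ℝ => y + (s - t) • v) v t := by
    have := (((hasDerivAt_id t).sub_const t).smul_const v).const_add y
    simpa using this
  have h2 : HasFDerivAt f (fderiv ℝ f y) (y + (t - t) • v) := by
    simpa using hf.hasFDerivAt
  have := h2.comp_hasDerivAt t h1
  exact this

lemma fderiv_single {n : ℕ} (f : EuclideanSpace ℝ (Fin n) → ℝ) (y : EuclideanSpace ℝ (Fin n))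
    (i : Fin n) : fderiv ℝ f y (EuclideanSpace.single i (1 : ℝ)) = gradient f y i := by
  have h1 : inner ℝ (gradient f y) (EuclideanSpace.single i (1 : ℝ)) =
      fderiv ℝ f y (EuclideanSpace.single i (1 : ℝ)) := by
    rw [gradient, InnerProductSpace.toDual_symm_apply]
  rw [← h1, EuclideanSpace.inner_single_right]
  simp

lemma norm_grad {n : ℕ} (f : EuclideanSpace ℝ (Fin n) → ℝ) (y : EuclideanSpace ℝ (Fin n)) :
    ‖gradient f y‖ = ‖fderiv ℝ f y‖ := by
  rw [gradient, LinearIsometryEquiv.norm_map]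

theorem lsi_push (N : ℕ) {a c L K0 K1 : ℝ} (ha : 0 ≤ a) (haL : a * L ≤ 1)
    (haN : a ^ 2 * N ≤ 1) {μz lam : Measure ℝ}
    [IsProbabilityMeasure μz] [IsProbabilityMeasure lam]
    (hz : μz (Icc 0 L)ᶜ = 0) (hl : lam (Icc (-1) 1)ᶜ = 0) (hK0 : 0 ≤ K0) (hK1 : 0 ≤ K1)
    (h0 : LSIF μz K0) (h1 : LSIF lam K1) {f : EuclideanSpace ℝ (Fin (N + 1)) → ℝ}
    (hf : ContDiff ℝ 1 f) :
    Ent ((Measure.pi (Fin.cons μz fun _ => lam : Fin (N + 1) → Measure ℝ)).map (TT N a c))
        (fun x => f x ^ 2) ≤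
      (2 * K0 + K1) * ∫ x, ‖gradient f x‖ ^ 2 ∂((Measure.pi
        (Fin.cons μz fun _ => lam : Fin (N + 1) → Measure ℝ)).map (TT N a c)) := by
  set μ : Fin (N + 1) → Measure ℝ := Fin.cons μz fun _ => lam with hμ
  have hp : ∀ i, IsProbabilityMeasure (μ i) := fun i => by
    refine Fin.cases ?_ (fun j => ?_) i
    · simpa [hμ]
    · simpa [hμ]
  set S : Fin (N + 1) → Set ℝ := Fin.cons (Icc 0 L) fun _ => Icc (-1) 1 with hS
  have hSc : ∀ i, IsCompact (S i) := fun i => by
    refine Fin.cases ?_ (fun j => ?_) i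
    · simpa [hS] using isCompact_Icc
    · simpa [hS] using isCompact_Icc
  have hS0 : ∀ i, μ i (S i)ᶜ = 0 := fun i => by
    refine Fin.cases ?_ (fun j => ?_) i
    · simpa [hS, hμ] using hz
    · simpa [hS, hμ] using hl
  set K : Fin (N + 1) → ℝ := Fin.cons K0 fun _ => K1 with hK
  have hKn : ∀ i, 0 ≤ K i := fun i => by
    refine Fin.cases ?_ (fun j => ?_) i
    · simpa [hK]
    · simpa [hK]
  have hKL : ∀ i, LSIF (μ i) (K i) := fun i => by
    refine Fin.cases ?_ (fun j => ?_) i
    · simpa [hK, hμ] using h0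
    · simpa [hK, hμ] using h1
  have hfd : Differentiable ℝ f := hf.differentiable (by norm_num)
  have hfc : Continuous (fderiv ℝ f) := hf.continuous_fderiv (by norm_num)
  set P := Measure.pi μ with hP
  have : IsProbabilityMeasure P := by rw [hP]; infer_instance
  set Tset : Set (Fin (N + 1) → ℝ) := Set.univ.pi S with hT
  have hTc : IsCompact Tset := isCompact_univ_pi hSc
  have hae : ∀ᵐ y ∂P, ∀ j, y j ∈ S j := by
    rw [ae_all_iff]
    intro j
    have hj : ∀ᵐ t ∂(μ j), t ∈ S j := by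
      rw [ae_iff]
      exact hS0 j
    exact (Measure.quasiMeasurePreserving_eval (μ := μ) j).ae hj
  have hT0 : P Tsetᶜ = 0 := by
    have := hae
    rw [ae_iff] at this
    convert this using 2
    ext y
    simp [hT]
  have iP : ∀ {f : (Fin (N + 1) → ℝ) → ℝ}, Continuous f → Integrable f P :=
    fun hf => int_cont hTc hT0 hf
  have hTT : Continuous (TT N a c) := TT_cont
  have hVV : Continuous (VV N a) := VV_cont
  set D : Fin (N + 1) → (Fin (N + 1) → ℝ) → ℝ :=
    Fin.cons (fun x => fderiv ℝ f (TT N a c x) (VV N a x)) (fun i x =>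
      fderiv ℝ f (TT N a c x) ((1 - a * x 0) • EuclideanSpace.single i.succ (1 : ℝ))) with hD
  have hDc : ∀ i, Continuous (D i) := fun i => by
    refine Fin.cases ?_ (fun j => ?_) i
    · simp only [hD, Fin.cons_zero]
      exact (hfc.comp hTT).clm_apply hVV
    · simp only [hD, Fin.cons_succ]
      exact (hfc.comp hTT).clm_apply (by fun_prop)
  have hDd : ∀ i x, HasDerivAt (fun s => f (TT N a c (Function.update x i s))) (D i x) (x i) := by
    intro i x
    refine Fin.cases ?_ (fun j => ?_) i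
    · simp only [hD, Fin.cons_zero, TT_upd0]
      exact deriv_line (hfd _)
    · simp only [hD, Fin.cons_succ, TT_updS]
      exact deriv_line (hfd _)
  have hmain := tensorSq μ hp S hSc hS0 K hKn hKL (fun x => f (TT N a c x)) D
    (hf.continuous.comp hTT) hDc hDd
  have hgc : Continuous fun x => ‖gradient f x‖ ^ 2 := by
    simp_rw [norm_grad]
    fun_prop
  have e1 : Ent (P.map (TT N a c)) (fun x => f x ^ 2) =
      Ent P (fun x => f (TT N a c x) ^ 2) := by
    rw [Ent, Ent, integral_map hTT.aemeasurable, integral_map hTT.aemeasurable]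
    · exact (hf.continuous.pow 2).aestronglyMeasurable
    · exact (Real.continuous_mul_log.comp (hf.continuous.pow 2)).aestronglyMeasurable
  have e2 : ∫ x, ‖gradient f x‖ ^ 2 ∂(P.map (TT N a c)) =
      ∫ x, ‖gradient f (TT N a c x)‖ ^ 2 ∂P := by
    rw [integral_map hTT.aemeasurable]
    exact hgc.aestronglyMeasurable
  rw [e1, e2]
  refine hmain.trans ?_
  have e3 : ∑ i, K i * ∫ x, D i x ^ 2 ∂P = ∫ x, ∑ i, K i * D i x ^ 2 ∂P := by
    have hci : ∀ i, Continuous fun x => K i * D i x ^ 2 := fun i => by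
      have := hDc i
      fun_prop
    rw [integral_finsetSum _ fun i _ => iP (hci i)]
    refine Finset.sum_congr rfl fun i _ => ?_
    rw [integral_const_mul]
  rw [e3, ← integral_const_mul]
  apply integral_mono_ae
  · refine iP (continuous_finsetSum _ fun i _ => ?_)
    have := hDc i
    fun_prop
  · exact iP (continuous_const.mul (hgc.comp hTT))
  · filter_upwards [hae] with x hx
    have hx0 : x 0 ∈ Icc 0 L := by simpa [hS] using hx 0
    have hxs : ∀ i : Fin N, x i.succ ∈ Icc (-1) 1 := fun i => by simpa [hS] using hx i.succ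
    set y := TT N a c x with hy
    have hG : ∑ i, gradient f y i ^ 2 = ‖gradient f y‖ ^ 2 := by
      rw [EuclideanSpace.real_norm_sq_eq]
    rw [Fin.sum_univ_succ]
    have hD0 : D 0 x ^ 2 ≤ 2 * ‖gradient f y‖ ^ 2 := by
      simp only [hD, Fin.cons_zero]
      have h2 : |fderiv ℝ f y (VV N a x)| ≤ ‖fderiv ℝ f y‖ * ‖VV N a x‖ :=
        (fderiv ℝ f y).le_opNorm _
      have h3 : ‖VV N a x‖ ^ 2 ≤ 2 := by
        rw [EuclideanSpace.real_norm_sq_eq, Fin.sum_univ_succ]
        simp only [VV, Fin.cons_zero, Fin.cons_succ]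
        have h4 : ∑ i : Fin N, (-a * x i.succ) ^ 2 ≤ ∑ _i : Fin N, a ^ 2 := by
          refine Finset.sum_le_sum fun i _ => ?_
          have := hxs i
          have h5 : x i.succ ^ 2 ≤ 1 := by
            have := this.1; have := (hxs i).2; nlinarith
          have h6 : (-a * x i.succ) ^ 2 = a ^ 2 * x i.succ ^ 2 := by ring
          rw [h6]
          nlinarith [sq_nonneg a]
        simp only [Finset.sum_const, Finset.card_univ, Fintype.card_fin, nsmul_eq_mul] at h4
        linarith
      rw [norm_grad]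
      have h5 : |fderiv ℝ f y (VV N a x)| ^ 2 ≤ (‖fderiv ℝ f y‖ * ‖VV N a x‖) ^ 2 :=
        pow_le_pow_left₀ (abs_nonneg _) h2 2
      rw [sq_abs, mul_pow] at h5
      nlinarith [sq_nonneg ‖fderiv ℝ f y‖]
    have hDs : ∑ i : Fin N, D i.succ x ^ 2 ≤ ‖gradient f y‖ ^ 2 := by
      rw [← hG, Fin.sum_univ_succ]
      have h4 : ∀ i : Fin N, D i.succ x ^ 2 ≤ gradient f y i.succ ^ 2 := by
        intro i
        simp only [hD, Fin.cons_succ]
        rw [map_smul, fderiv_single, smul_eq_mul, mul_pow]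
        have h5 : (1 - a * x 0) ^ 2 ≤ 1 := by
          have h6 : 0 ≤ a * x 0 := mul_nonneg ha hx0.1
          have h7 : a * x 0 ≤ a * L := mul_le_mul_of_nonneg_left hx0.2 ha
          nlinarith
        nlinarith [sq_nonneg (gradient f y i.succ)]
      have h5 := Finset.sum_le_sum fun (i : Fin N) (_ : i ∈ Finset.univ) => h4 i
      nlinarith [sq_nonneg (gradient f y 0)]
    simp only [hK, Fin.cons_zero, Fin.cons_succ]
    rw [← Finset.mul_sum]
    nlinarith [mul_le_mul_of_nonneg_left hD0 hK0, mul_le_mul_of_nonneg_left hDs hK1]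

end Pool.Agent.V11332.LS
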