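import Pool.Agent.V11332.LS1

set_option autoImplicit false
set_option linter.unusedSectionVars false

/-!
# Estimates for the one-dimensional weights
-/

open MeasureTheory Set
open scoped ENNReal

namespace Pool.Agent.V11332.LS

/-- The uniform law on `[-1, 1]`. -/
noncomputable def lam : Measure ℝ := dens (-1) 2 fun _ => 1 / 2

lemma lam_int (g : ℝ → ℝ) : ∫ u, g u ∂lam = ∫ u in (-1 : ℝ)..1, (1 / 2) * g u := by
  rw [lam, dens_int (by norm_num) measurable_const (fun _ _ => by norm_num)]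
  norm_num

instance lam_prob : IsProbabilityMeasure lam := by
  refine ⟨?_⟩
  rw [lam, dens, withDensity_apply _ MeasurableSet.univ]
  simp only [Measure.restrict_univ, lintegral_const]
  rw [Measure.restrict_apply MeasurableSet.univ, univ_inter, Real.volume_Icc,
    ← ENNReal.ofReal_mul (by norm_num)]
  norm_num

lemma lam_compl : lam (Icc (-1) 1)ᶜ = 0 := by
  have := dens_compl (-1) 2 fun _ => 1 / 2
  rw [show (-1 : ℝ) + 2 = 1 by norm_num] at this
  exact this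

lemma lam_ae : ∀ᵐ u ∂lam, u ∈ Icc (-1 : ℝ) 1 := by
  rw [ae_iff]; exact lam_compl

lemma lam_cont {f : ℝ → ℝ} (hf : Continuous f) : Integrable f lam :=
  int_cont isCompact_Icc lam_compl hf

lemma lam_lsi : LSIF lam (((72 + 16 * 2) * (Real.exp 2 / 2) + 2) / (1 / 2)) := by
  have : IsProbabilityMeasure (dens (-1) 2 fun _ => 1 / 2) := lam_prob
  apply lsi1F (by norm_num) (by norm_num) measurable_const
  · intro z hz
    have : Real.exp (-(z - -1)) ≤ 1 := Real.exp_le_one_iff.2 (by linarith [hz.1])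
    linarith
  · intro z hz
    have h1 : Real.exp 2 / 2 * Real.exp (-(z - -1)) = Real.exp (2 - (z - -1)) / 2 := by
      rw [sub_eq_add_neg 2, Real.exp_add]; ring
    rw [h1]
    have : 1 ≤ Real.exp (2 - (z - -1)) := Real.one_le_exp (by linarith [hz.2])
    linarith

lemma lam_sq : ∫ u, u ^ 2 ∂lam = 1 / 3 := by
  rw [lam_int, intervalIntegral.integral_const_mul, integral_pow]
  norm_num

lemma lam_four : ∫ u, u ^ 4 ∂lam = 1 / 5 := by
  rw [lam_int, intervalIntegral.integral_const_mul, integral_pow]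
  norm_num

lemma lam_id : ∫ u, u ∂lam = 0 := by
  rw [lam_int, intervalIntegral.integral_const_mul, integral_id]
  norm_num

/-- Laplace transform of `u²`. -/
noncomputable def kk (θ : ℝ) : ℝ := ∫ u, Real.exp (-(θ * u ^ 2)) ∂lam

lemma exp_le_quad {x : ℝ} (h0 : 0 ≤ x) (h1 : x ≤ 1) : Real.exp x ≤ 1 + x + x ^ 2 := by
  have := Real.abs_exp_sub_one_sub_id_le (x := x) (by rw [abs_of_nonneg h0]; exact h1)
  have := abs_le.1 this
  linarith [this.2]

lemma kk_le_one {θ : ℝ} (hθ : 0 ≤ θ) : kk θ ≤ 1 := by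
  have : kk θ ≤ ∫ _u, (1 : ℝ) ∂lam := by
    apply integral_mono (lam_cont (by fun_prop)) (integrable_const _)
    intro u
    exact Real.exp_le_one_iff.2 (by have := sq_nonneg u; nlinarith)
  simpa using this

lemma kk_ge {θ : ℝ} : 1 - θ / 3 ≤ kk θ := by
  have : ∫ u, (1 - θ * u ^ 2) ∂lam ≤ kk θ := by
    apply integral_mono (lam_cont (by fun_prop)) (lam_cont (by fun_prop))
    intro u
    have := Real.add_one_le_exp (-(θ * u ^ 2))
    simp only
    linarith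
  rw [integral_sub (integrable_const _) (lam_cont (by fun_prop)), integral_const_mul, lam_sq] at this
  simp at this
  linarith

noncomputable def qq (θ : ℝ) : ℝ := ∫ u, u ^ 2 * Real.exp (-(θ * u ^ 2)) ∂lam

lemma qq_le {θ : ℝ} (hθ : 0 ≤ θ) : qq θ ≤ 1 / 3 := by
  rw [← lam_sq]
  apply integral_mono (lam_cont (by fun_prop)) (lam_cont (by fun_prop))
  intro u
  have : Real.exp (-(θ * u ^ 2)) ≤ 1 :=
    Real.exp_le_one_iff.2 (by have := sq_nonneg u; nlinarith)
  simp only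
  nlinarith [sq_nonneg u]

lemma qq_ge {θ : ℝ} : 1 / 3 - θ / 5 ≤ qq θ := by
  have : ∫ u, (u ^ 2 - θ * u ^ 4) ∂lam ≤ qq θ := by
    apply integral_mono (lam_cont (by fun_prop)) (lam_cont (by fun_prop))
    intro u
    have := Real.add_one_le_exp (-(θ * u ^ 2))
    simp only
    nlinarith [sq_nonneg u]
  rw [integral_sub (lam_cont (by fun_prop)) (lam_cont (by fun_prop)), integral_const_mul, lam_sq,
    lam_four] at this
  linarith

lemma kk_low {θ δ : ℝ} : kk θ + δ * qq θ ≤ kk (θ - δ) := by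
  have : kk θ + δ * qq θ = ∫ u, (Real.exp (-(θ * u ^ 2)) +
      δ * (u ^ 2 * Real.exp (-(θ * u ^ 2)))) ∂lam := by
    rw [integral_add (lam_cont (by fun_prop)) (lam_cont (by fun_prop)), integral_const_mul]
    rfl
  rw [this]
  apply integral_mono (lam_cont (by fun_prop)) (lam_cont (by fun_prop))
  intro u
  simp only
  have e : Real.exp (-((θ - δ) * u ^ 2)) = Real.exp (-(θ * u ^ 2)) * Real.exp (δ * u ^ 2) := by
    rw [← Real.exp_add]; congr 1; ring
  rw [e]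
  have := Real.add_one_le_exp (δ * u ^ 2)
  nlinarith [Real.exp_pos (-(θ * u ^ 2))]

lemma kk_up {θ δ : ℝ} (h0 : 0 ≤ δ) (h1 : δ ≤ 1) :
    kk (θ - δ) ≤ (1 + δ ^ 2) * kk θ + δ * qq θ := by
  have : (1 + δ ^ 2) * kk θ + δ * qq θ = ∫ u, ((1 + δ ^ 2) * Real.exp (-(θ * u ^ 2)) +
      δ * (u ^ 2 * Real.exp (-(θ * u ^ 2)))) ∂lam := by
    rw [integral_add (lam_cont (by fun_prop)) (lam_cont (by fun_prop)), integral_const_mul,
      integral_const_mul]
    rfl
  rw [this]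
  apply integral_mono_ae (lam_cont (by fun_prop)) (lam_cont (by fun_prop))
  filter_upwards [lam_ae] with u hu
  have e : Real.exp (-((θ - δ) * u ^ 2)) = Real.exp (-(θ * u ^ 2)) * Real.exp (δ * u ^ 2) := by
    rw [← Real.exp_add]; congr 1; ring
  rw [e]
  have hu1 : u ^ 2 ≤ 1 := by have := hu.1; have := hu.2; nlinarith
  have hx0 : 0 ≤ δ * u ^ 2 := by positivity
  have hx1 : δ * u ^ 2 ≤ 1 := by nlinarith [sq_nonneg u]
  have h3 := exp_le_quad hx0 hx1
  have h4 : (δ * u ^ 2) ^ 2 ≤ δ ^ 2 := by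
    have : δ * u ^ 2 ≤ δ := by nlinarith
    nlinarith
  nlinarith [Real.exp_pos (-(θ * u ^ 2))]

section Par

variable {l z : ℝ} {N : ℕ}

lemma one_sub_ge {x : ℝ} (h0 : 0 ≤ x) (h1 : x ≤ 1 / 2) : Real.exp (-x - 2 * x ^ 2) ≤ 1 - x := by
  have hx : 0 < 1 - x := by linarith
  rw [← Real.le_log_iff_exp_le hx]
  have h2 := Real.one_sub_inv_le_log_of_pos hx
  refine le_trans ?_ h2
  have h3 : 1 - (1 - x)⁻¹ = -(x / (1 - x)) := by field_simp; ring
  rw [h3]
  have h4 : x / (1 - x) ≤ x + 2 * x ^ 2 := by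
    rw [div_le_iff₀ hx]
    nlinarith [sq_nonneg x, mul_nonneg (sq_nonneg x) (by linarith : 0 ≤ 1 - 2 * x)]
  linarith

lemma az_le (hl : 1 ≤ l) (h0 : 0 ≤ z) (h1 : z ≤ l) :
    1 / (3 * l ^ 4) * z ≤ 1 / 3 ∧ 0 ≤ 1 / (3 * l ^ 4) * z := by
  have hl0 : 0 < l := by linarith
  refine ⟨?_, by positivity⟩
  rw [div_mul_eq_mul_div, one_mul, div_le_div_iff₀ (by positivity) (by norm_num)]
  have : l ≤ l ^ 4 := by
    calc l = l ^ 1 := (pow_one l).symm
      _ ≤ l ^ 4 := pow_le_pow_right₀ hl (by norm_num)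
  linarith

lemma m_up (hl : 1 ≤ l) (hN : (N : ℝ) = 9 * l ^ 6) (h0 : 0 ≤ z) (h1 : z ≤ l) :
    Real.exp ((3 * l ^ 2 - 1) * z) * (1 - 1 / (3 * l ^ 4) * z) ^ N ≤ Real.exp (-z) := by
  obtain ⟨ha, ha0⟩ := az_le hl h0 h1
  have hl0 : 0 < l := by linarith
  have h2 : 1 - 1 / (3 * l ^ 4) * z ≤ Real.exp (-(1 / (3 * l ^ 4) * z)) := by
    have := Real.add_one_le_exp (-(1 / (3 * l ^ 4) * z))
    linarith
  have h3 : (1 - 1 / (3 * l ^ 4) * z) ^ N ≤ Real.exp (-(1 / (3 * l ^ 4) * z)) ^ N :=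
    pow_le_pow_left₀ (by linarith) h2 N
  rw [← Real.exp_nat_mul, hN] at h3
  calc Real.exp ((3 * l ^ 2 - 1) * z) * (1 - 1 / (3 * l ^ 4) * z) ^ N
      ≤ Real.exp ((3 * l ^ 2 - 1) * z) * Real.exp (9 * l ^ 6 * -(1 / (3 * l ^ 4) * z)) :=
        mul_le_mul_of_nonneg_left h3 (Real.exp_pos _).le
    _ = Real.exp (-z) := by
        rw [← Real.exp_add]
        congr 1
        field_simp
        ring

lemma m_low (hl : 1 ≤ l) (hN : (N : ℝ) = 9 * l ^ 6) (h0 : 0 ≤ z) (h1 : z ≤ l) :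
    Real.exp (-2) * Real.exp (-z) ≤
      Real.exp ((3 * l ^ 2 - 1) * z) * (1 - 1 / (3 * l ^ 4) * z) ^ N := by
  obtain ⟨ha, ha0⟩ := az_le hl h0 h1
  have hl0 : 0 < l := by linarith
  set x := 1 / (3 * l ^ 4) * z with hx
  have h2 := one_sub_ge ha0 (by linarith : x ≤ 1 / 2)
  have h3 : Real.exp (-x - 2 * x ^ 2) ^ N ≤ (1 - x) ^ N :=
    pow_le_pow_left₀ (Real.exp_pos _).le h2 N
  rw [← Real.exp_nat_mul, hN] at h3
  refine le_trans ?_ (mul_le_mul_of_nonneg_left h3 (Real.exp_pos _).le)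
  rw [← Real.exp_add, ← Real.exp_add]
  apply Real.exp_le_exp.2
  have e1 : 9 * l ^ 6 * (-x - 2 * x ^ 2) = -(3 * l ^ 2 * z) - 2 * (z / l) ^ 2 := by
    rw [hx]; field_simp; ring
  rw [e1]
  have h4 : (z / l) ^ 2 ≤ 1 := by
    have : z / l ≤ 1 := (div_le_one hl0).2 h1
    have : 0 ≤ z / l := by positivity
    nlinarith
  nlinarith

lemma theta_eq (hl : 1 ≤ l) :
    (1 - 1 / (3 * l ^ 4) * z) ^ 2 / (2 * l ^ 2) = 1 / (2 * l ^ 2) -
      (2 * (1 / (3 * l ^ 4) * z) - (1 / (3 * l ^ 4) * z) ^ 2) / (2 * l ^ 2) := by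
  have hl0 : 0 < l := by linarith
  field_simp
  ring

lemma kN (hl : 1 ≤ l) (hN : (N : ℝ) = 9 * l ^ 6) (h0 : 0 ≤ z) (h1 : z ≤ l) :
    Real.exp (z - 1) * kk (1 / (2 * l ^ 2)) ^ N ≤
        kk ((1 - 1 / (3 * l ^ 4) * z) ^ 2 / (2 * l ^ 2)) ^ N ∧
      kk ((1 - 1 / (3 * l ^ 4) * z) ^ 2 / (2 * l ^ 2)) ^ N ≤
        Real.exp (z + 2) * kk (1 / (2 * l ^ 2)) ^ N := by
  obtain ⟨ha, ha0⟩ := az_le hl h0 h1
  have hl0 : 0 < l := by linarith
  rw [theta_eq hl]
  set x := 1 / (3 * l ^ 4) * z with hx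
  set θ := 1 / (2 * l ^ 2) with hθ
  set δ := (2 * x - x ^ 2) / (2 * l ^ 2) with hδ
  have hl2 : 1 ≤ l ^ 2 := one_le_pow₀ hl
  have hθ0 : 0 < θ := by positivity
  have hθ1 : θ ≤ 1 / 2 := by
    rw [hθ, div_le_div_iff₀ (by positivity) (by norm_num)]
    linarith
  have hδ0 : 0 ≤ δ := by
    rw [hδ]
    apply div_nonneg _ (by positivity)
    nlinarith
  have hNδ : (N : ℝ) * δ = 3 * z - (z / l ^ 2) ^ 2 / 2 := by
    rw [hN, hδ, hx]; field_simp; ring
  have hz2 : (z / l ^ 2) ≤ 1 := by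
    rw [div_le_one (by positivity)]
    nlinarith
  have hz20 : 0 ≤ z / l ^ 2 := by positivity
  have hz2s : (z / l ^ 2) ^ 2 ≤ 1 := by nlinarith
  have hNpos : (0 : ℝ) < N := by rw [hN]; positivity
  have hNδ3 : (N : ℝ) * δ ≤ 3 * z := by rw [hNδ]; nlinarith [sq_nonneg (z / l ^ 2)]
  have hδN0 : 0 ≤ (N : ℝ) * δ := by positivity
  have hNδ2 : (N : ℝ) * δ ^ 2 ≤ 1 := by
    have e : (N : ℝ) * δ ^ 2 = ((N : ℝ) * δ) ^ 2 / N := by field_simp
    rw [e, div_le_one hNpos, hN]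
    have h2 : ((N : ℝ) * δ) ^ 2 ≤ (3 * z) ^ 2 := pow_le_pow_left₀ hδN0 hNδ3 2
    rw [hN] at h2
    refine h2.trans ?_
    have h3 : z ^ 2 ≤ l ^ 2 := pow_le_pow_left₀ h0 h1 2
    have h4 : l ^ 2 ≤ l ^ 6 := pow_le_pow_right₀ hl (by norm_num)
    nlinarith
  have hδ1 : δ ≤ 1 := by
    rw [hδ, div_le_one (by positivity)]
    nlinarith [sq_nonneg x]
  have hk0 : 0 < kk θ := lt_of_lt_of_le (by linarith) kk_ge
  have hk1 := kk_le_one hθ0.le
  have hkg : 1 - θ / 3 ≤ kk θ := kk_ge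
  have hq := qq_le hθ0.le
  have hqg : 1 / 3 - θ / 5 ≤ qq θ := qq_ge
  constructor
  · -- lower bound
    have h2 : (1 + δ * (1 / 3 - θ / 5)) * kk θ ≤ kk (θ - δ) := by
      refine le_trans ?_ kk_low
      have h3 : 0 ≤ 1 / 3 - θ / 5 := by linarith
      have h4 : δ * (1 / 3 - θ / 5) * kk θ ≤ δ * (1 / 3 - θ / 5) * 1 :=
        mul_le_mul_of_nonneg_left hk1 (by positivity)
      have h5 : δ * (1 / 3 - θ / 5) ≤ δ * qq θ := mul_le_mul_of_nonneg_left hqg hδ0
      linarith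
    set y := δ * (1 / 3 - θ / 5) with hy
    have hy0 : 0 ≤ y := mul_nonneg hδ0 (by linarith)
    have h3 : Real.exp (y - y ^ 2) ≤ 1 + y := by
      rw [← Real.le_log_iff_exp_le (by linarith)]
      have h4 := Real.one_sub_inv_le_log_of_pos (by linarith : 0 < 1 + y)
      refine le_trans ?_ h4
      have h5 : 1 - (1 + y)⁻¹ = y / (1 + y) := by field_simp; ring
      rw [h5, le_div_iff₀ (by linarith)]
      nlinarith [pow_nonneg hy0 3]
    have h4 : Real.exp (z - 1) ≤ (1 + y) ^ N := by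
      calc Real.exp (z - 1) ≤ Real.exp (y - y ^ 2) ^ N := by
            rw [← Real.exp_nat_mul]
            apply Real.exp_le_exp.2
            have e1 : (N : ℝ) * y = ((N : ℝ) * δ) * (1 / 3 - θ / 5) := by rw [hy]; ring
            have e2 : (N : ℝ) * (y - y ^ 2) = (N : ℝ) * y - (N : ℝ) * y ^ 2 := by ring
            have h5 : (N : ℝ) * y ^ 2 ≤ 1 / 9 := by
              have h6 : y ≤ δ * (1 / 3) := mul_le_mul_of_nonneg_left (by linarith) hδ0
              have h7 : y ^ 2 ≤ (δ * (1 / 3)) ^ 2 := pow_le_pow_left₀ hy0 h6 2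
              nlinarith
            have h8 : z - 1 / 2 ≤ (N : ℝ) * y := by
              rw [e1, hNδ]
              have h9 : θ * z ≤ 1 / 2 * 1 := by
                have : θ * z = 1 / 2 * (z / l ^ 2) := by rw [hθ]; field_simp
                rw [this]
                linarith
              have h10 : 0 ≤ (z / l ^ 2) ^ 2 * θ := by positivity
              nlinarith
            rw [e2]
            linarith
        _ ≤ (1 + y) ^ N := pow_le_pow_left₀ (Real.exp_pos _).le h3 N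
    calc Real.exp (z - 1) * kk θ ^ N ≤ (1 + y) ^ N * kk θ ^ N :=
          mul_le_mul_of_nonneg_right h4 (by positivity)
      _ = ((1 + y) * kk θ) ^ N := (mul_pow _ _ _).symm
      _ ≤ kk (θ - δ) ^ N := pow_le_pow_left₀ (by positivity) h2 N
  · have h2 : kk (θ - δ) ≤ (1 + (δ ^ 2 + δ * (1 / 3 * (1 + θ)))) * kk θ := by
      refine (kk_up hδ0 hδ1).trans ?_
      have h3 : qq θ ≤ 1 / 3 * (1 + θ) * kk θ := by
        have h4 : (1 : ℝ) ≤ (1 + θ) * (1 - θ / 3) := by nlinarith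
        have h5 : (1 + θ) * (1 - θ / 3) ≤ (1 + θ) * kk θ :=
          mul_le_mul_of_nonneg_left hkg (by linarith)
        nlinarith
      have h4 : δ * qq θ ≤ δ * (1 / 3 * (1 + θ) * kk θ) := mul_le_mul_of_nonneg_left h3 hδ0
      nlinarith
    set y := δ ^ 2 + δ * (1 / 3 * (1 + θ)) with hy
    have hy0 : 0 ≤ y := by positivity
    have h3 : 1 + y ≤ Real.exp y := by
      have := Real.add_one_le_exp y; linarith
    have h4 : (1 + y) ^ N ≤ Real.exp (z + 2) := by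
      calc (1 + y) ^ N ≤ Real.exp y ^ N := pow_le_pow_left₀ (by linarith) h3 N
        _ ≤ Real.exp (z + 2) := by
            rw [← Real.exp_nat_mul]
            apply Real.exp_le_exp.2
            have e1 : (N : ℝ) * y = (N : ℝ) * δ ^ 2 + ((N : ℝ) * δ) * (1 / 3 * (1 + θ)) := by
              rw [hy]; ring
            rw [e1]
            have h5 : ((N : ℝ) * δ) * (1 / 3 * (1 + θ)) ≤ (3 * z) * (1 / 3 * (1 + θ)) :=
              mul_le_mul_of_nonneg_right hNδ3 (by positivity)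
            have h9 : θ * z ≤ 1 / 2 * 1 := by
              have : θ * z = 1 / 2 * (z / l ^ 2) := by rw [hθ]; field_simp
              rw [this]
              linarith
            nlinarith
    have hknn : 0 ≤ kk (θ - δ) := integral_nonneg fun u => (Real.exp_pos _).le
    calc kk (θ - δ) ^ N ≤ ((1 + y) * kk θ) ^ N := pow_le_pow_left₀ hknn h2 N
      _ = (1 + y) ^ N * kk θ ^ N := mul_pow _ _ _
      _ ≤ Real.exp (z + 2) * kk θ ^ N := mul_le_mul_of_nonneg_right h4 (by positivity)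

end Par

end Pool.Agent.V11332.LS
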