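import Pool.Agent.V11332.LS3
import Pool.Agent.V11332.LS4

set_option autoImplicit false
set_option linter.unusedSectionVars false

/-!
# The measure, its logarithmic Sobolev constant, and the Gaussian tilt
-/

open MeasureTheory Set
open scoped ENNReal

namespace Pool.Agent.V11332.LS

noncomputable def aa (l : ℝ) : ℝ := 1 / (3 * l ^ 4)

noncomputable def mm (l : ℝ) (N : ℕ) (z : ℝ) : ℝ :=
  Real.exp ((3 * l ^ 2 - 1) * z) * (1 - aa l * z) ^ N

noncomputable def ZZ (l : ℝ) (N : ℕ) : ℝ := ∫ z in (0 : ℝ)..l, mm l N z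

noncomputable def mu (l : ℝ) (N : ℕ) : Measure ℝ := dens 0 l fun z => mm l N z / ZZ l N

lemma mm_cont (l : ℝ) (N : ℕ) : Continuous (mm l N) := by unfold mm; fun_prop

variable {l : ℝ} {N : ℕ}

lemma mm_up (hl : 1 ≤ l) (hN : (N : ℝ) = 9 * l ^ 6) {z : ℝ} (hz : z ∈ Icc 0 l) :
    mm l N z ≤ Real.exp (-z) := m_up hl hN hz.1 hz.2

lemma mm_low (hl : 1 ≤ l) (hN : (N : ℝ) = 9 * l ^ 6) {z : ℝ} (hz : z ∈ Icc 0 l) :
    Real.exp (-2) * Real.exp (-z) ≤ mm l N z := m_low hl hN hz.1 hz.2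

lemma ZZ_le (hl : 1 ≤ l) (hN : (N : ℝ) = 9 * l ^ 6) : ZZ l N ≤ 1 := by
  have h1 : ZZ l N ≤ ∫ z in (0 : ℝ)..l, Real.exp (-z) := by
    apply intervalIntegral.integral_mono_on (by linarith)
      ((mm_cont l N).intervalIntegrable _ _)
      (Continuous.intervalIntegrable (by fun_prop) _ _)
    intro z hz
    exact mm_up hl hN hz
  have h2 : ∫ z in (0 : ℝ)..l, Real.exp (-z) = 1 - Real.exp (-l) := by
    rw [intervalIntegral.integral_comp_neg (fun x => Real.exp x), integral_exp]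
    simp
  have := Real.exp_pos (-l)
  linarith

lemma ZZ_pos (hl : 1 ≤ l) (hN : (N : ℝ) = 9 * l ^ 6) : 0 < ZZ l N := by
  apply intervalIntegral.intervalIntegral_pos_of_pos_on ((mm_cont l N).intervalIntegrable _ _)
  · intro z hz
    refine lt_of_lt_of_le ?_ (mm_low hl hN ⟨hz.1.le, hz.2.le⟩)
    positivity
  · linarith

lemma rho_nonneg (hl : 1 ≤ l) (hN : (N : ℝ) = 9 * l ^ 6) {z : ℝ} (hz : z ∈ Icc 0 l) :
    0 ≤ mm l N z / ZZ l N := by
  have h1 := mm_low hl hN hz
  have h2 := ZZ_pos hl hN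
  have : 0 ≤ mm l N z := le_trans (by positivity) h1
  positivity

lemma mu_int (hl : 1 ≤ l) (hN : (N : ℝ) = 9 * l ^ 6) (g : ℝ → ℝ) :
    ∫ z, g z ∂(mu l N) = ∫ z in (0 : ℝ)..l, mm l N z / ZZ l N * g z := by
  rw [mu, dens_int (by linarith) ((mm_cont l N).measurable.div_const _) (fun z hz =>
    rho_nonneg hl hN (by simpa using hz))]
  simp

lemma mu_prob (hl : 1 ≤ l) (hN : (N : ℝ) = 9 * l ^ 6) : IsProbabilityMeasure (mu l N) := by
  refine ⟨?_⟩
  have h2 := ZZ_pos hl hN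
  rw [mu, dens, withDensity_apply _ MeasurableSet.univ, Measure.restrict_univ, zero_add,
    ← ofReal_integral_eq_lintegral_ofReal]
  · rw [integral_Icc_eq_integral_Ioc, ← intervalIntegral.integral_of_le (by linarith),
      intervalIntegral.integral_div]
    change ENNReal.ofReal (ZZ l N / ZZ l N) = 1
    rw [div_self h2.ne', ENNReal.ofReal_one]
  · exact (Continuous.integrableOn_Icc ((mm_cont l N).div_const _))
  · exact (ae_restrict_iff' measurableSet_Icc).2 (Filter.Eventually.of_forall fun z hz =>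
      rho_nonneg hl hN hz)

lemma mu_compl : mu l N (Icc 0 l)ᶜ = 0 := by
  have := dens_compl 0 l fun z => mm l N z / ZZ l N
  rw [zero_add] at this
  exact this

lemma mu_ae : ∀ᵐ z ∂(mu l N), z ∈ Icc 0 l := by
  rw [ae_iff]; exact mu_compl

lemma mu_lsi (hl : 1 ≤ l) (hN : (N : ℝ) = 9 * l ^ 6) :
    LSIF (mu l N) (((72 + 16 * l) * (1 / ZZ l N) + 2) / (Real.exp (-2) / ZZ l N)) := by
  have h2 := ZZ_pos hl hN
  have : IsProbabilityMeasure (dens 0 l fun z => mm l N z / ZZ l N) := mu_prob hl hN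
  apply lsi1F (by linarith) (by positivity) ((mm_cont l N).measurable.div_const _)
  · intro z hz
    rw [zero_add] at hz
    have := mm_low hl hN hz
    rw [sub_zero, div_mul_eq_mul_div]
    exact div_le_div_of_nonneg_right this h2.le
  · intro z hz
    rw [zero_add] at hz
    have := mm_up hl hN hz
    rw [sub_zero, div_mul_eq_mul_div, one_mul]
    exact div_le_div_of_nonneg_right this h2.le

lemma mu_const (hl : 1 ≤ l) (hN : (N : ℝ) = 9 * l ^ 6) :
    ((72 + 16 * l) * (1 / ZZ l N) + 2) / (Real.exp (-2) / ZZ l N) ≤ 90 * Real.exp 2 * l := by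
  have h2 := ZZ_pos hl hN
  have h3 := ZZ_le hl hN
  have e : ((72 + 16 * l) * (1 / ZZ l N) + 2) / (Real.exp (-2) / ZZ l N) =
      (72 + 16 * l + 2 * ZZ l N) * Real.exp 2 := by
    rw [Real.exp_neg]
    field_simp
  rw [e]
  have := Real.exp_pos 2
  have h4 : 72 + 16 * l + 2 * ZZ l N ≤ 90 * l := by linarith
  calc (72 + 16 * l + 2 * ZZ l N) * Real.exp 2 ≤ 90 * l * Real.exp 2 :=
        mul_le_mul_of_nonneg_right h4 this.le
    _ = 90 * Real.exp 2 * l := by ring

/-- mean of `mu` -/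
noncomputable def zb (l : ℝ) (N : ℕ) : ℝ := ∫ z, z ∂(mu l N)

lemma zb_mem (hl : 1 ≤ l) (hN : (N : ℝ) = 9 * l ^ 6) : zb l N ∈ Icc 0 l := by
  have := mu_prob hl hN
  have hi : Integrable (fun z : ℝ => z) (mu l N) := int_cont isCompact_Icc mu_compl continuous_id
  constructor
  · exact integral_nonneg_of_ae (mu_ae.mono fun z hz => hz.1)
  · calc zb l N ≤ ∫ _z, l ∂(mu l N) :=
        integral_mono_ae hi (integrable_const _) (mu_ae.mono fun z hz => hz.2)
      _ = l := by simp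

/-- the base product measure -/
noncomputable def PP (l : ℝ) (N : ℕ) : Measure (Fin (N + 1) → ℝ) :=
  Measure.pi (Fin.cons (mu l N) fun _ => lam : Fin (N + 1) → Measure ℝ)

/-- the measure -/
noncomputable def pp (l : ℝ) (N : ℕ) : Measure (EuclideanSpace ℝ (Fin (N + 1))) :=
  (PP l N).map (TT N (aa l) (zb l N))

lemma cons_prob (hl : 1 ≤ l) (hN : (N : ℝ) = 9 * l ^ 6) (i : Fin (N + 1)) :
    IsProbabilityMeasure ((Fin.cons (mu l N) fun _ => lam : Fin (N + 1) → Measure ℝ) i) := by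
  have := mu_prob hl hN
  refine Fin.cases ?_ (fun j => ?_) i
  · simpa
  · simpa using lam_prob

lemma PP_prob (hl : 1 ≤ l) (hN : (N : ℝ) = 9 * l ^ 6) : IsProbabilityMeasure (PP l N) := by
  have := cons_prob hl hN
  unfold PP
  infer_instance

lemma pp_prob (hl : 1 ≤ l) (hN : (N : ℝ) = 9 * l ^ 6) : IsProbabilityMeasure (pp l N) := by
  have := PP_prob hl hN
  exact Measure.isProbabilityMeasure_map TT_cont.aemeasurable

lemma cons_cont : Continuous fun p : ℝ × (Fin N → ℝ) => (Fin.cons p.1 p.2 : Fin (N + 1) → ℝ) := by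
  refine continuous_pi fun i => ?_
  refine Fin.cases ?_ (fun j => ?_) i
  · simpa using continuous_fst
  · simp only [Fin.cons_succ]; fun_prop

lemma PP_int (hl : 1 ≤ l) (hN : (N : ℝ) = 9 * l ^ 6) {g : (Fin (N + 1) → ℝ) → ℝ}
    (hg : Continuous g) :
    ∫ x, g x ∂(PP l N) = ∫ z, ∫ u, g (Fin.cons z u) ∂(Measure.pi fun _ : Fin N => lam)
      ∂(mu l N) := by
  have hp := cons_prob hl hN
  have hp0 := mu_prob hl hN
  have hmp := (measurePreserving_piFinSuccAbove
    (Fin.cons (mu l N) fun _ => lam : Fin (N + 1) → Measure ℝ) 0).symm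
  have hcons : ∀ p : ℝ × (Fin N → ℝ),
      (MeasurableEquiv.piFinSuccAbove (fun _ : Fin (N + 1) => ℝ) 0).symm p =
        (Fin.cons p.1 p.2 : Fin (N + 1) → ℝ) := by
    intro p
    simp [MeasurableEquiv.piFinSuccAbove_symm_apply, Fin.insertNthEquiv]
  unfold PP
  rw [← hmp.integral_comp (MeasurableEquiv.measurableEmbedding _)]
  simp_rw [hcons]
  simp only [Fin.cons_zero, Fin.succAbove_zero, Fin.cons_succ]
  rw [integral_prod]
  have hL : IsCompact (Set.univ.pi fun _ : Fin N => Icc (-1 : ℝ) 1) :=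
    isCompact_univ_pi fun _ => isCompact_Icc
  have hL0 : (Measure.pi fun _ : Fin N => lam) (Set.univ.pi fun _ : Fin N => Icc (-1 : ℝ) 1)ᶜ
      = 0 := by
    have : ∀ᵐ y ∂(Measure.pi fun _ : Fin N => lam), ∀ j, y j ∈ Icc (-1 : ℝ) 1 := by
      rw [ae_all_iff]
      intro j
      exact (Measure.quasiMeasurePreserving_eval (μ := fun _ : Fin N => lam) j).ae lam_ae
    rw [ae_iff] at this
    convert this using 2
    ext y
    simp only [mem_compl_iff, mem_univ_pi, mem_ofPred_eq]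
  exact int_cont (isCompact_Icc.prod hL) (prod_compl mu_compl hL0) (hg.comp cons_cont)

lemma PP_ae (hl : 1 ≤ l) (hN : (N : ℝ) = 9 * l ^ 6) :
    ∀ᵐ x ∂(PP l N), x 0 ∈ Icc 0 l ∧ ∀ i : Fin N, x i.succ ∈ Icc (-1 : ℝ) 1 := by
  have := cons_prob hl hN
  have h0 : ∀ᵐ x ∂(PP l N), x 0 ∈ Icc 0 l :=
    (Measure.quasiMeasurePreserving_eval (μ := (Fin.cons (mu l N) fun _ => lam :
      Fin (N + 1) → Measure ℝ)) 0).ae (by simpa using mu_ae)
  have h1 : ∀ᵐ x ∂(PP l N), ∀ i : Fin N, x i.succ ∈ Icc (-1 : ℝ) 1 := by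
    rw [ae_all_iff]
    intro i
    exact (Measure.quasiMeasurePreserving_eval (μ := (Fin.cons (mu l N) fun _ => lam :
      Fin (N + 1) → Measure ℝ)) i.succ).ae (by simpa using lam_ae)
  filter_upwards [h0, h1] with x hx0 hx1
  exact ⟨hx0, hx1⟩

/-- the compact box carrying `PP` -/
def box (l : ℝ) (N : ℕ) : Set (Fin (N + 1) → ℝ) :=
  Set.univ.pi (Fin.cons (Icc 0 l) fun _ => Icc (-1) 1 : Fin (N + 1) → Set ℝ)

lemma mem_box {x : Fin (N + 1) → ℝ} :
    x ∈ box l N ↔ x 0 ∈ Icc 0 l ∧ ∀ i : Fin N, x i.succ ∈ Icc (-1 : ℝ) 1 := by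
  simp only [box, mem_univ_pi]
  rw [Fin.forall_fin_succ]
  simp

lemma box_comp : IsCompact (box l N) := by
  refine isCompact_univ_pi fun i => ?_
  refine Fin.cases ?_ (fun j => ?_) i
  · simpa using isCompact_Icc
  · simpa using isCompact_Icc

/-- the compact set carrying `pp` -/
def KK (l : ℝ) (N : ℕ) : Set (EuclideanSpace ℝ (Fin (N + 1))) :=
  TT N (aa l) (zb l N) '' box l N

lemma KK_comp : IsCompact (KK l N) := box_comp.image TT_cont

lemma pp_compl (hl : 1 ≤ l) (hN : (N : ℝ) = 9 * l ^ 6) : pp l N (KK l N)ᶜ = 0 := by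
  rw [pp, Measure.map_apply TT_cont.measurable KK_comp.isClosed.measurableSet.compl]
  have h := PP_ae hl hN
  rw [ae_iff] at h
  refine measure_mono_null ?_ h
  intro x hx hx2
  exact hx ⟨x, mem_box.2 hx2, rfl⟩

theorem pp_lsi (hl : 1 ≤ l) (hN : (N : ℝ) = 9 * l ^ 6)
    {f : EuclideanSpace ℝ (Fin (N + 1)) → ℝ} (hf : ContDiff ℝ 1 f) :
    Ent (pp l N) (fun x => f x ^ 2) ≤
      2000 * Real.exp 2 * l * ∫ x, ‖gradient f x‖ ^ 2 ∂(pp l N) := by
  have hl0 : 0 < l := by linarith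
  have := mu_prob hl hN
  have h2 := ZZ_pos hl hN
  have hK0 : 0 ≤ ((72 + 16 * l) * (1 / ZZ l N) + 2) / (Real.exp (-2) / ZZ l N) := by positivity
  have hK1 : 0 ≤ ((72 + 16 * 2) * (Real.exp 2 / 2) + 2) / (1 / 2 : ℝ) := by positivity
  have h := lsi_push N (a := aa l) (c := zb l N) (L := l) (by unfold aa; positivity)
    (by
      have := (az_le (z := l) hl (by linarith) le_rfl).1
      unfold aa; linarith)
    (by
      rw [hN]
      have : aa l ^ 2 * (9 * l ^ 6) = 1 / l ^ 2 := by unfold aa; field_simp; ring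
      rw [this, div_le_one (by positivity)]
      exact one_le_pow₀ hl)
    mu_compl lam_compl hK0 hK1 (mu_lsi hl hN) lam_lsi hf
  refine h.trans ?_
  apply mul_le_mul_of_nonneg_right _ (integral_nonneg fun x => by positivity)
  have h3 := mu_const hl hN
  have h4 : ((72 + 16 * 2) * (Real.exp 2 / 2) + 2) / (1 / 2 : ℝ) = 104 * Real.exp 2 + 4 := by ring
  rw [h4]
  have h5 : 1 ≤ Real.exp 2 := Real.one_le_exp (by norm_num)
  nlinarith [Real.exp_pos 2]

/-! ### barycentre -/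

lemma pp_int (hl : 1 ≤ l) (hN : (N : ℝ) = 9 * l ^ 6) {g : EuclideanSpace ℝ (Fin (N + 1)) → ℝ}
    (hg : Continuous g) :
    ∫ y, g y ∂(pp l N) = ∫ z, ∫ u, g (TT N (aa l) (zb l N) (Fin.cons z u))
      ∂(Measure.pi fun _ : Fin N => lam) ∂(mu l N) := by
  rw [pp, integral_map TT_cont.aemeasurable hg.aestronglyMeasurable]
  exact PP_int hl hN (hg.comp TT_cont)

lemma pi_lam_coord (i : Fin N) : ∫ u, u i ∂(Measure.pi fun _ : Fin N => lam) = 0 := by
  have := integral_comp_eval (μ := fun _ : Fin N => lam) (i := i) (f := fun x : ℝ => x)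
    continuous_id.aestronglyMeasurable
  rw [this, lam_id]

theorem pp_mean (hl : 1 ≤ l) (hN : (N : ℝ) = 9 * l ^ 6) (i : Fin (N + 1)) :
    ∫ y, y i ∂(pp l N) = 0 := by
  have := mu_prob hl hN
  rw [pp_int hl hN (by fun_prop)]
  refine Fin.cases ?_ (fun j => ?_) i
  · simp only [TT_zero, Fin.cons_zero, integral_const]
    have hi : Integrable (fun z : ℝ => z) (mu l N) :=
      int_cont isCompact_Icc mu_compl continuous_id
    simp only [probReal_univ, one_smul]
    rw [integral_sub hi (integrable_const _)]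
    simp [zb]
  · simp only [TT_succ, Fin.cons_zero, Fin.cons_succ]
    simp_rw [integral_const_mul, pi_lam_coord]
    simp

end Pool.Agent.V11332.LS
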