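import Pool.Agent.V11332.LS5

set_option autoImplicit false
set_option linter.unusedSectionVars false

/-!
# The Gaussian tilt has a large variance, hence a large logarithmic Sobolev constant
-/

open MeasureTheory Set
open scoped ENNReal

namespace Pool.Agent.V11332.LS

variable {l : ℝ} {N : ℕ}

/-- weight of the tilt in the `z` variable -/
noncomputable def WW (l : ℝ) (N : ℕ) (z : ℝ) : ℝ :=
  Real.exp (-((z - zb l N) ^ 2 / (2 * l ^ 2))) * kk ((1 - aa l * z) ^ 2 / (2 * l ^ 2)) ^ N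

lemma norm_TT (x : Fin (N + 1) → ℝ) {a c : ℝ} : ‖TT N a c x‖ ^ 2 =
    (x 0 - c) ^ 2 + ∑ i : Fin N, ((1 - a * x 0) * x i.succ) ^ 2 := by
  rw [EuclideanSpace.real_norm_sq_eq, Fin.sum_univ_succ]
  simp only [TT_zero, TT_succ]

lemma tilt_int (hl : 1 ≤ l) (hN : (N : ℝ) = 9 * l ^ 6) {φ : ℝ → ℝ} (hφ : Continuous φ) :
    ∫ y, φ (y 0) * Real.exp (-‖y‖ ^ 2 / (2 * l ^ 2)) ∂(pp l N) =
      ∫ z, φ (z - zb l N) * WW l N z ∂(mu l N) := by
  rw [pp_int hl hN (by fun_prop)]
  refine integral_congr_ae (Filter.Eventually.of_forall fun z => ?_)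
  simp only
  have e1 : ∀ u : Fin N → ℝ,
      φ ((TT N (aa l) (zb l N) (Fin.cons z u)) 0) *
        Real.exp (-‖TT N (aa l) (zb l N) (Fin.cons z u)‖ ^ 2 / (2 * l ^ 2)) =
      φ (z - zb l N) * Real.exp (-((z - zb l N) ^ 2 / (2 * l ^ 2))) *
        ∏ i : Fin N, Real.exp (-((1 - aa l * z) ^ 2 / (2 * l ^ 2) * u i ^ 2)) := by
    intro u
    rw [norm_TT, TT_zero, ← Real.exp_sum, mul_assoc, ← Real.exp_add]
    simp only [Fin.cons_zero, Fin.cons_succ]
    congr 2
    rw [Finset.sum_neg_distrib, ← Finset.mul_sum]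
    have : ∑ i : Fin N, ((1 - aa l * z) * u i) ^ 2 = (1 - aa l * z) ^ 2 * ∑ i, u i ^ 2 := by
      rw [Finset.mul_sum]
      exact Finset.sum_congr rfl fun i _ => by ring
    rw [this]
    ring
  simp_rw [e1]
  rw [integral_const_mul, integral_fintype_prod_eq_prod (𝕜 := ℝ) (fun (_ : Fin N) (t : ℝ) =>
    Real.exp (-((1 - aa l * z) ^ 2 / (2 * l ^ 2) * t ^ 2)))]
  simp only [Finset.prod_const, Finset.card_univ, Fintype.card_fin]
  rw [mul_assoc]
  rfl

lemma kk_cont : Continuous kk := by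
  unfold kk
  exact cont_param (f := fun (θ u : ℝ) => Real.exp (-(θ * u ^ 2))) isCompact_Icc lam_compl
    (by fun_prop : Continuous fun p : ℝ × ℝ => Real.exp (-(p.1 * p.2 ^ 2)))

lemma WW_cont : Continuous (WW l N) := by
  unfold WW
  have := kk_cont
  fun_prop

lemma kk0_pos (hl : 1 ≤ l) : 0 < kk (1 / (2 * l ^ 2)) ^ N := by
  apply pow_pos
  have h : 1 - 1 / (2 * l ^ 2) / 3 ≤ kk (1 / (2 * l ^ 2)) := kk_ge
  have hl2 : 1 ≤ l ^ 2 := one_le_pow₀ hl
  have : 1 / (2 * l ^ 2) ≤ 1 / 2 := by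
    rw [div_le_div_iff₀ (by positivity) (by norm_num)]
    linarith
  linarith

lemma mW_low (hl : 1 ≤ l) (hN : (N : ℝ) = 9 * l ^ 6) {z : ℝ} (hz : z ∈ Icc 0 l) :
    Real.exp (-4) * kk (1 / (2 * l ^ 2)) ^ N ≤ mm l N z * WW l N z := by
  have h1 := mm_low hl hN hz
  have h2 := (kN hl hN hz.1 hz.2).1
  have hk := kk0_pos (N := N) hl
  have hzb := zb_mem hl hN
  have hl0 : 0 < l := by linarith
  have h3 : Real.exp (-(1 / 2)) ≤ Real.exp (-((z - zb l N) ^ 2 / (2 * l ^ 2))) := by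
    apply Real.exp_le_exp.2
    have : (z - zb l N) ^ 2 / (2 * l ^ 2) ≤ 1 / 2 := by
      rw [div_le_div_iff₀ (by positivity) (by norm_num)]
      have h4 : (z - zb l N) ^ 2 ≤ l ^ 2 := by
        apply sq_le_sq'
        · linarith [hz.1, hzb.2]
        · linarith [hz.2, hzb.1]
      linarith
    linarith
  calc Real.exp (-4) * kk (1 / (2 * l ^ 2)) ^ N
      ≤ (Real.exp (-2) * Real.exp (-z)) * (Real.exp (-(1 / 2)) *
          (Real.exp (z - 1) * kk (1 / (2 * l ^ 2)) ^ N)) := by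
        have e : (Real.exp (-2) * Real.exp (-z)) * (Real.exp (-(1 / 2)) *
          (Real.exp (z - 1) * kk (1 / (2 * l ^ 2)) ^ N)) =
          Real.exp (-2 + -z + -(1 / 2) + (z - 1)) * kk (1 / (2 * l ^ 2)) ^ N := by
          rw [Real.exp_add, Real.exp_add, Real.exp_add]; ring
        rw [e]
        apply mul_le_mul_of_nonneg_right _ hk.le
        apply Real.exp_le_exp.2
        linarith
    _ ≤ mm l N z * WW l N z := by
        apply mul_le_mul h1 _ (by positivity) (le_trans (by positivity) h1)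
        unfold WW
        exact mul_le_mul h3 h2 (by positivity) (Real.exp_pos _).le

lemma WW_nonneg (z : ℝ) : 0 ≤ WW l N z := by
  unfold WW
  have : 0 ≤ kk ((1 - aa l * z) ^ 2 / (2 * l ^ 2)) := integral_nonneg fun u => (Real.exp_pos _).le
  positivity

lemma mW_up (hl : 1 ≤ l) (hN : (N : ℝ) = 9 * l ^ 6) {z : ℝ} (hz : z ∈ Icc 0 l) :
    mm l N z * WW l N z ≤ Real.exp 2 * kk (1 / (2 * l ^ 2)) ^ N := by
  have h1 := mm_up hl hN hz
  have h2 := (kN hl hN hz.1 hz.2).2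
  have hk := kk0_pos (N := N) hl
  have h3 : Real.exp (-((z - zb l N) ^ 2 / (2 * l ^ 2))) ≤ 1 :=
    Real.exp_le_one_iff.2 (by
      have : 0 ≤ (z - zb l N) ^ 2 / (2 * l ^ 2) := by positivity
      linarith)
  have hkn : 0 ≤ kk ((1 - aa l * z) ^ 2 / (2 * l ^ 2)) ^ N := by
    have : 0 ≤ kk ((1 - aa l * z) ^ 2 / (2 * l ^ 2)) := integral_nonneg fun u => (Real.exp_pos _).le
    positivity
  calc mm l N z * WW l N z ≤ Real.exp (-z) * (1 * (Real.exp (z + 2) *
        kk (1 / (2 * l ^ 2)) ^ N)) := by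
        apply mul_le_mul h1 _ (WW_nonneg z) (Real.exp_pos _).le
        unfold WW
        exact mul_le_mul h3 h2 hkn (by norm_num)
    _ = Real.exp 2 * kk (1 / (2 * l ^ 2)) ^ N := by
        rw [one_mul, ← mul_assoc, ← Real.exp_add]
        congr 2; ring

/-- the tilted measure -/
noncomputable def qq' (l : ℝ) (N : ℕ) : Measure (EuclideanSpace ℝ (Fin (N + 1))) :=
  (pp l N).tilted fun y => -‖y‖ ^ 2 / (2 * l ^ 2)

lemma pp_cont_int (hl : 1 ≤ l) (hN : (N : ℝ) = 9 * l ^ 6)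
    {f : EuclideanSpace ℝ (Fin (N + 1)) → ℝ} (hf : Continuous f) : Integrable f (pp l N) := by
  have := pp_prob hl hN
  exact int_cont KK_comp (pp_compl hl hN) hf

lemma qq'_prob (hl : 1 ≤ l) (hN : (N : ℝ) = 9 * l ^ 6) : IsProbabilityMeasure (qq' l N) := by
  have := pp_prob hl hN
  unfold qq'
  exact isProbabilityMeasure_tilted (pp_cont_int hl hN (by fun_prop))

lemma qq'_compl (hl : 1 ≤ l) (hN : (N : ℝ) = 9 * l ^ 6) : qq' l N (KK l N)ᶜ = 0 :=
  tilted_absolutelyContinuous _ _ (pp_compl hl hN)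

lemma qq'_cont_int (hl : 1 ≤ l) (hN : (N : ℝ) = 9 * l ^ 6)
    {f : EuclideanSpace ℝ (Fin (N + 1)) → ℝ} (hf : Continuous f) : Integrable f (qq' l N) := by
  have := qq'_prob hl hN
  exact int_cont KK_comp (qq'_compl hl hN) hf

lemma qq'_ae (hl : 1 ≤ l) (hN : (N : ℝ) = 9 * l ^ 6) :
    ∀ᵐ y ∂(qq' l N), y 0 ∈ Icc (-zb l N) (l - zb l N) := by
  have h : ∀ᵐ y ∂(qq' l N), y ∈ KK l N := by
    rw [ae_iff]; exact qq'_compl hl hN
  filter_upwards [h] with y hy
  obtain ⟨x, hx, rfl⟩ := hy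
  rw [TT_zero]
  have := (mem_box.1 hx).1
  exact ⟨by linarith [this.1], by linarith [this.2]⟩

/-- the normalisation of the tilt -/
noncomputable def BB (l : ℝ) (N : ℕ) : ℝ := ∫ z, WW l N z ∂(mu l N)

lemma qq'_int (hl : 1 ≤ l) (hN : (N : ℝ) = 9 * l ^ 6) {φ : ℝ → ℝ} (hφ : Continuous φ) :
    ∫ y, φ (y 0) ∂(qq' l N) = (∫ z, φ (z - zb l N) * WW l N z ∂(mu l N)) / BB l N := by
  unfold qq'
  rw [integral_tilted]
  have hB : ∫ y, Real.exp (-‖y‖ ^ 2 / (2 * l ^ 2)) ∂(pp l N) = BB l N := by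
    have := tilt_int hl hN (φ := fun _ => 1) continuous_const
    simpa [BB] using this
  rw [hB, ← tilt_int hl hN hφ, ← integral_div]
  refine integral_congr_ae (Filter.Eventually.of_forall fun y => ?_)
  simp only [smul_eq_mul]
  ring

lemma BB_up (hl : 1 ≤ l) (hN : (N : ℝ) = 9 * l ^ 6) :
    BB l N ≤ Real.exp 2 * kk (1 / (2 * l ^ 2)) ^ N * l / ZZ l N := by
  have hZ := ZZ_pos hl hN
  unfold BB
  rw [mu_int hl hN]
  have : ∫ z in (0 : ℝ)..l, mm l N z / ZZ l N * WW l N z ≤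
      ∫ _z in (0 : ℝ)..l, Real.exp 2 * kk (1 / (2 * l ^ 2)) ^ N / ZZ l N := by
    apply intervalIntegral.integral_mono_on (by linarith)
    · exact ((((mm_cont l N).div_const _)).mul WW_cont).intervalIntegrable _ _
    · exact continuous_const.intervalIntegrable _ _
    · intro z hz
      rw [div_mul_eq_mul_div]
      exact div_le_div_of_nonneg_right (mW_up hl hN hz) hZ.le
  refine this.trans (le_of_eq ?_)
  rw [intervalIntegral.integral_const, sub_zero, smul_eq_mul]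
  ring

lemma BB_pos (hl : 1 ≤ l) (hN : (N : ℝ) = 9 * l ^ 6) : 0 < BB l N := by
  have hZ := ZZ_pos hl hN
  have hk := kk0_pos (N := N) hl
  unfold BB
  rw [mu_int hl hN]
  have : ∫ _z in (0 : ℝ)..l, Real.exp (-4) * kk (1 / (2 * l ^ 2)) ^ N / ZZ l N ≤
      ∫ z in (0 : ℝ)..l, mm l N z / ZZ l N * WW l N z := by
    apply intervalIntegral.integral_mono_on (by linarith)
    · exact continuous_const.intervalIntegrable _ _
    · exact ((((mm_cont l N).div_const _)).mul WW_cont).intervalIntegrable _ _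
    · intro z hz
      rw [div_mul_eq_mul_div (mm l N z)]
      exact div_le_div_of_nonneg_right (mW_low hl hN hz) hZ.le
  refine lt_of_lt_of_le ?_ this
  rw [intervalIntegral.integral_const, sub_zero, smul_eq_mul]
  have hl0 : 0 < l := by linarith
  positivity

lemma int_sq (c : ℝ) (hl : 0 ≤ l) : l ^ 3 / 12 ≤ ∫ z in (0 : ℝ)..l, (z - c) ^ 2 := by
  have : ∫ z in (0 : ℝ)..l, (z - c) ^ 2 = ((l - c) ^ 3 + c ^ 3) / 3 := by
    rw [intervalIntegral.integral_comp_sub_right (fun x => x ^ 2), integral_pow]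
    norm_num
    ring
  rw [this]
  have : ((l - c) ^ 3 + c ^ 3) / 3 - l ^ 3 / 12 = l * (c - l / 2) ^ 2 := by ring
  nlinarith [mul_nonneg hl (sq_nonneg (c - l / 2))]

theorem var_low (hl : 1 ≤ l) (hN : (N : ℝ) = 9 * l ^ 6) (m : ℝ) :
    Real.exp (-6) * l ^ 2 / 12 ≤ ∫ y, (y 0 - m) ^ 2 ∂(qq' l N) := by
  have hl0 : 0 < l := by linarith
  have hZ := ZZ_pos hl hN
  have hB := BB_pos hl hN
  have hBu := BB_up hl hN
  have hk := kk0_pos (N := N) hl
  rw [qq'_int hl hN (φ := fun t => (t - m) ^ 2) (by fun_prop), le_div_iff₀ hB]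
  have h1 : Real.exp (-4) * kk (1 / (2 * l ^ 2)) ^ N / ZZ l N * (l ^ 3 / 12) ≤
      ∫ z, (z - zb l N - m) ^ 2 * WW l N z ∂(mu l N) := by
    rw [mu_int hl hN]
    calc Real.exp (-4) * kk (1 / (2 * l ^ 2)) ^ N / ZZ l N * (l ^ 3 / 12)
        ≤ Real.exp (-4) * kk (1 / (2 * l ^ 2)) ^ N / ZZ l N *
            ∫ z in (0 : ℝ)..l, (z - (zb l N + m)) ^ 2 :=
          mul_le_mul_of_nonneg_left (int_sq _ hl0.le) (by positivity)
      _ = ∫ z in (0 : ℝ)..l, Real.exp (-4) * kk (1 / (2 * l ^ 2)) ^ N / ZZ l N *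
            (z - (zb l N + m)) ^ 2 := by rw [intervalIntegral.integral_const_mul]
      _ ≤ _ := by
          apply intervalIntegral.integral_mono_on hl0.le
          · exact Continuous.intervalIntegrable (by fun_prop) _ _
          · refine Continuous.intervalIntegrable ?_ _ _
            exact ((mm_cont l N).div_const _).mul ((by fun_prop :
              Continuous fun z : ℝ => (z - zb l N - m) ^ 2).mul WW_cont)
          · intro z hz
            have h2 := mW_low hl hN hz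
            have e : mm l N z / ZZ l N * ((z - zb l N - m) ^ 2 * WW l N z) =
                (mm l N z * WW l N z) / ZZ l N * (z - (zb l N + m)) ^ 2 := by ring
            rw [e]
            exact mul_le_mul_of_nonneg_right (div_le_div_of_nonneg_right h2 hZ.le) (sq_nonneg _)
  refine le_trans ?_ h1
  calc Real.exp (-6) * l ^ 2 / 12 * BB l N
      ≤ Real.exp (-6) * l ^ 2 / 12 * (Real.exp 2 * kk (1 / (2 * l ^ 2)) ^ N * l / ZZ l N) :=
        mul_le_mul_of_nonneg_left hBu (by positivity)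
    _ = Real.exp (-4) * kk (1 / (2 * l ^ 2)) ^ N / ZZ l N * (l ^ 3 / 12) := by
        have : Real.exp (-4) = Real.exp (-6) * Real.exp 2 := by
          rw [← Real.exp_add]; norm_num
        rw [this]; ring

/-- lower bound for the entropy of the square of `1 + X` -/
lemma Ent_low {Ω : Type*} [MeasurableSpace Ω] {μ : Measure Ω} [IsProbabilityMeasure μ]
    {X : Ω → ℝ} (hX : ∀ᵐ x ∂μ, |X x| ≤ 1 / 2) (hi : Integrable X μ)
    (hi2 : Integrable (fun x => X x ^ 2) μ)
    (hl : Integrable (fun x => (1 + X x) ^ 2 * Real.log ((1 + X x) ^ 2)) μ)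
    (h0 : ∫ x, X x ∂μ = 0) :
    (∫ x, X x ^ 2 ∂μ) - (∫ x, X x ^ 2 ∂μ) ^ 2 ≤ Ent μ (fun x => (1 + X x) ^ 2) := by
  set s := ∫ x, X x ^ 2 ∂μ with hs
  have hs0 : 0 ≤ s := integral_nonneg fun x => sq_nonneg _
  have e1 : ∫ x, (1 + X x) ^ 2 ∂μ = 1 + s := by
    have : ∀ x, (1 + X x) ^ 2 = 1 + (2 * X x + X x ^ 2) := fun x => by ring
    simp_rw [this]
    have i1 : Integrable (fun x => 2 * X x) μ := hi.const_mul 2
    have i2 : Integrable (fun x => 2 * X x + X x ^ 2) μ := i1.add hi2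
    rw [integral_add (integrable_const _) i2,
      integral_add i1 hi2, integral_const_mul, h0]
    simp [hs]
  have e2 : 2 * s ≤ ∫ x, (1 + X x) ^ 2 * Real.log ((1 + X x) ^ 2) ∂μ := by
    have h1 : ∫ x, (2 * X x + 2 * X x ^ 2) ∂μ = 2 * s := by
      rw [integral_add (hi.const_mul 2) (hi2.const_mul 2), integral_const_mul, h0,
        integral_const_mul]
      simp [hs]
    rw [← h1]
    have i3 : Integrable (fun x => 2 * X x + 2 * X x ^ 2) μ :=
      (hi.const_mul 2).add (hi2.const_mul 2)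
    apply integral_mono_ae i3 hl
    filter_upwards [hX] with x hx
    have hx2 := abs_le.1 hx
    have hpos : 0 < 1 + X x := by linarith [hx2.1]
    have h3 := Real.one_sub_inv_le_log_of_pos hpos
    rw [Real.log_pow]
    push_cast
    have h4 : (1 + X x) ^ 2 * (1 - (1 + X x)⁻¹) ≤ (1 + X x) ^ 2 * Real.log (1 + X x) :=
      mul_le_mul_of_nonneg_left h3 (sq_nonneg _)
    have h5 : (1 + X x) ^ 2 * (1 - (1 + X x)⁻¹) = X x + X x ^ 2 := by field_simp; ring
    linarith
  have e3 : Real.log (1 + s) ≤ s := by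
    have := Real.log_le_sub_one_of_pos (by linarith : 0 < 1 + s)
    linarith
  rw [Ent, e1]
  have : (1 + s) * Real.log (1 + s) ≤ (1 + s) * s := mul_le_mul_of_nonneg_left e3 (by linarith)
  nlinarith

theorem tilt_lsi_low (hl : 1 ≤ l) (hN : (N : ℝ) = 9 * l ^ 6) {C : ℝ≥0∞}
    (hC : ∀ f : EuclideanSpace ℝ (Fin (N + 1)) → ℝ, ContDiff ℝ (⊤ : ℕ∞) f →
      ENNReal.ofReal (Ent (qq' l N) (fun x => f x ^ 2)) ≤
        C * ∫⁻ x, ‖gradient f x‖ₑ ^ 2 ∂(qq' l N)) :
    ENNReal.ofReal (Real.exp (-6) * l ^ 2 / 16) ≤ C := by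
  have hl0 : 0 < l := by linarith
  have := qq'_prob hl hN
  set m := ∫ y, y 0 ∂(qq' l N) with hm
  have hae := qq'_ae hl hN
  have hmem : m ∈ Icc (-zb l N) (l - zb l N) := by
    have hi : Integrable (fun y : EuclideanSpace ℝ (Fin (N + 1)) => y 0) (qq' l N) :=
      qq'_cont_int hl hN (by fun_prop)
    constructor
    · have := integral_mono_ae (integrable_const (-zb l N)) hi (hae.mono fun y hy => hy.1)
      simpa using this
    · have := integral_mono_ae hi (integrable_const (l - zb l N)) (hae.mono fun y hy => hy.2)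
      simpa using this
  set ε : ℝ := 1 / (2 * l) with hε
  have hε0 : 0 < ε := by positivity
  set X : EuclideanSpace ℝ (Fin (N + 1)) → ℝ := fun y => ε * (y 0 - m) with hX
  have hXc : Continuous X := by rw [hX]; fun_prop
  have hXb : ∀ᵐ y ∂(qq' l N), |X y| ≤ 1 / 2 := by
    filter_upwards [hae] with y hy
    rw [hX]
    simp only
    rw [abs_mul, abs_of_pos hε0]
    have h1 : |y 0 - m| ≤ l := by
      rw [abs_le]
      exact ⟨by linarith [hy.1, hmem.2], by linarith [hy.2, hmem.1]⟩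
    calc ε * |y 0 - m| ≤ ε * l := mul_le_mul_of_nonneg_left h1 hε0.le
      _ = 1 / 2 := by rw [hε]; field_simp
  have hmean : ∫ y, X y ∂(qq' l N) = 0 := by
    rw [hX]
    rw [integral_const_mul, integral_sub (qq'_cont_int hl hN (by fun_prop))
      (integrable_const _)]
    simp [hm]
  set V := ∫ y, (y 0 - m) ^ 2 ∂(qq' l N) with hV
  have hVlow : Real.exp (-6) * l ^ 2 / 12 ≤ V := var_low hl hN m
  have hXX : ∫ y, X y ^ 2 ∂(qq' l N) = ε ^ 2 * V := by
    rw [hX]
    simp_rw [mul_pow]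
    rw [integral_const_mul]
  have hs1 : ∫ y, X y ^ 2 ∂(qq' l N) ≤ 1 / 4 := by
    have hX2c : Continuous fun y => X y ^ 2 := hXc.pow 2
    calc ∫ y, X y ^ 2 ∂(qq' l N) ≤ ∫ _y, (1 / 4 : ℝ) ∂(qq' l N) := by
          apply integral_mono_ae (qq'_cont_int hl hN hX2c) (integrable_const _)
          filter_upwards [hXb] with y hy
          have h5 := abs_le.1 hy
          nlinarith [h5.1, h5.2]
      _ = 1 / 4 := by simp
  have hent := Ent_low hXb (qq'_cont_int hl hN hXc) (qq'_cont_int hl hN (hXc.pow 2))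
    (qq'_cont_int hl hN (Real.continuous_mul_log.comp ((continuous_const.add hXc).pow 2))) hmean
  have hcd : ContDiff ℝ (⊤ : ℕ∞) fun y => 1 + X y := by
    rw [hX]
    fun_prop
  have h1 := hC _ hcd
  have hgrad : ∀ y, ‖gradient (fun y => 1 + X y) y‖ ≤ ε := by
    intro y
    rw [norm_grad]
    have hd : HasFDerivAt (fun y => 1 + X y)
        (ε • (EuclideanSpace.proj (0 : Fin (N + 1)) : EuclideanSpace ℝ (Fin (N + 1)) →L[ℝ] ℝ))
        y := by
      have h2 : HasFDerivAt (fun y : EuclideanSpace ℝ (Fin (N + 1)) => y 0)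
        (EuclideanSpace.proj (0 : Fin (N + 1)) : EuclideanSpace ℝ (Fin (N + 1)) →L[ℝ] ℝ) y :=
        (EuclideanSpace.proj (0 : Fin (N + 1)) :
          EuclideanSpace ℝ (Fin (N + 1)) →L[ℝ] ℝ).hasFDerivAt
      exact ((h2.sub_const m).const_mul ε).const_add 1
    rw [hd.fderiv, norm_smul, Real.norm_of_nonneg hε0.le]
    have h3 : ‖(EuclideanSpace.proj (0 : Fin (N + 1)) :
        EuclideanSpace ℝ (Fin (N + 1)) →L[ℝ] ℝ)‖ ≤ 1 := by
      apply ContinuousLinearMap.opNorm_le_bound _ (by norm_num)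
      intro x
      rw [one_mul]
      exact PiLp.norm_apply_le x 0
    nlinarith
  have h2 : ∫⁻ x, ‖gradient (fun y => 1 + X y) x‖ₑ ^ 2 ∂(qq' l N) ≤ ENNReal.ofReal (ε ^ 2) := by
    calc ∫⁻ x, ‖gradient (fun y => 1 + X y) x‖ₑ ^ 2 ∂(qq' l N)
        ≤ ∫⁻ _x, ENNReal.ofReal (ε ^ 2) ∂(qq' l N) := by
          apply lintegral_mono
          intro x
          simp only
          rw [ENNReal.ofReal_pow hε0.le]
          gcongr
          rw [← ofReal_norm]
          exact ENNReal.ofReal_le_ofReal (hgrad x)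
      _ = ENNReal.ofReal (ε ^ 2) := by simp
  have h3 : ENNReal.ofReal (ε ^ 2 * (3 / 4 * V)) ≤ C * ENNReal.ofReal (ε ^ 2) := by
    refine le_trans (ENNReal.ofReal_le_ofReal ?_) (h1.trans (mul_le_mul_right h2 _))
    refine le_trans ?_ hent
    rw [hXX] at hs1 ⊢
    have : 0 ≤ ε ^ 2 * V := by
      have : 0 ≤ V := le_trans (by positivity) hVlow
      positivity
    nlinarith
  rw [ENNReal.ofReal_mul (by positivity), mul_comm C] at h3
  have h4 : ENNReal.ofReal (3 / 4 * V) ≤ C := by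
    have hne : ENNReal.ofReal (ε ^ 2) ≠ 0 := by
      rw [Ne, ENNReal.ofReal_eq_zero, not_le]; positivity
    exact (ENNReal.mul_le_mul_iff_right hne ENNReal.ofReal_ne_top).1 h3
  refine le_trans (ENNReal.ofReal_le_ofReal ?_) h4
  linarith

end Pool.Agent.V11332.LS
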