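import Mathlib

set_option autoImplicit false

namespace Pool.Agent.V11332.PA1

open Finset

/-- The weights `√(k+1) - √k`. -/
noncomputable def w (k : ℕ) : ℝ := Real.sqrt ((k : ℝ) + 1) - Real.sqrt k

lemma w_nonneg (k : ℕ) : 0 ≤ w k := by
  unfold w
  have := Real.sqrt_le_sqrt (show (k : ℝ) ≤ (k : ℝ) + 1 by linarith)
  linarith

lemma w_eq (k : ℕ) : w k = 1 / (Real.sqrt ((k : ℝ) + 1) + Real.sqrt k) := by
  unfold w
  have h1 : 0 < Real.sqrt ((k : ℝ) + 1) := Real.sqrt_pos.2 (by positivity)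
  have h2 : 0 ≤ Real.sqrt (k : ℝ) := Real.sqrt_nonneg _
  have h3 : Real.sqrt ((k : ℝ) + 1) ^ 2 = k + 1 := Real.sq_sqrt (by positivity)
  have h4 : Real.sqrt (k : ℝ) ^ 2 = k := Real.sq_sqrt (by positivity)
  rw [eq_div_iff (by positivity)]
  nlinarith

lemma w_anti : Antitone w := by
  intro a b hab
  rw [w_eq, w_eq]
  have h : (a : ℝ) ≤ b := by exact_mod_cast hab
  have h1 : 0 < Real.sqrt ((a : ℝ) + 1) := Real.sqrt_pos.2 (by positivity)
  apply one_div_le_one_div_of_le (by positivity)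
  exact add_le_add (Real.sqrt_le_sqrt (by linarith)) (Real.sqrt_le_sqrt h)

lemma w_zero : w 0 = 1 := by simp [w]

lemma w_le_one (k : ℕ) : w k ≤ 1 := by
  rw [← w_zero]; exact w_anti (Nat.zero_le k)

lemma w_ge (k : ℕ) : 1 / (2 * Real.sqrt ((k : ℝ) + 1)) ≤ w k := by
  rw [w_eq]
  have h1 : 0 < Real.sqrt ((k : ℝ) + 1) := Real.sqrt_pos.2 (by positivity)
  have h2 : Real.sqrt (k : ℝ) ≤ Real.sqrt ((k : ℝ) + 1) := Real.sqrt_le_sqrt (by linarith)
  apply one_div_le_one_div_of_le (by positivity)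
  linarith

/-- `w k ≤ 1 / (2 √m)` for `1 ≤ m ≤ k`. -/
lemma w_le (m k : ℕ) (hm : 1 ≤ m) (hk : m ≤ k) : w k ≤ 1 / (2 * Real.sqrt m) := by
  rw [w_eq]
  have h0 : (0 : ℝ) < m := by exact_mod_cast hm
  have h1 : 0 < Real.sqrt (m : ℝ) := Real.sqrt_pos.2 h0
  have h : (m : ℝ) ≤ k := by exact_mod_cast hk
  have h2 : Real.sqrt (m : ℝ) ≤ Real.sqrt (k : ℝ) := Real.sqrt_le_sqrt h
  have h3 : Real.sqrt (m : ℝ) ≤ Real.sqrt ((k : ℝ) + 1) := Real.sqrt_le_sqrt (by linarith)
  apply one_div_le_one_div_of_le (by positivity)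
  linarith

lemma sum_w (m r : ℕ) :
    ∑ j ∈ range r, w (m + j) = Real.sqrt ((m : ℝ) + r) - Real.sqrt m := by
  induction r with
  | zero => simp
  | succ r ih =>
    rw [sum_range_succ, ih, w]
    push_cast
    rw [← add_assoc]
    ring

/-- Sums of an antitone function over a finite set. -/
lemma sum_le_range (g : ℕ → ℝ) (hg : Antitone g) (R : Finset ℕ) :
    ∑ n ∈ R, g n ≤ ∑ j ∈ range R.card, g j := by
  induction R using Finset.induction_on_max with
  | empty => simp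
  | insert a s hs ih =>
    have ha : a ∉ s := fun h => lt_irrefl a (hs a h)
    rw [sum_insert ha, card_insert_of_notMem ha, sum_range_succ, add_comm]
    have hcard : s.card ≤ a := by
      have : s ⊆ range a := fun x hx => mem_range.2 (hs x hx)
      simpa using card_le_card this
    exact add_le_add ih (hg hcard)

/-- The gain of the Euclidean part. -/
lemma gain (S s : ℝ) (p r m : ℕ) (hs : 0 ≤ s) (hS0 : 0 ≤ S) (hS : S ≤ p * s ^ 2) (hm : p ≤ m) :
    Real.sqrt S + s * (Real.sqrt ((m : ℝ) + r) - Real.sqrt m) ≤ Real.sqrt (S + r * s ^ 2) := by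
  -- concavity: √(m+r) - √m ≤ √(p+r) - √p, and the function √(S + r s²) - √S is decreasing in S
  have key : ∀ x y t : ℝ, 0 ≤ x → x ≤ y → 0 ≤ t →
      Real.sqrt (y + t) - Real.sqrt y ≤ Real.sqrt (x + t) - Real.sqrt x := by
    intro x y t hx hxy ht
    by_cases ht0 : t = 0
    · subst ht0; simp
    have htp : 0 < t := lt_of_le_of_ne ht (Ne.symm ht0)
    have e1 : Real.sqrt (y + t) - Real.sqrt y = t / (Real.sqrt (y + t) + Real.sqrt y) := by
      have h1 : 0 < Real.sqrt (y + t) := Real.sqrt_pos.2 (by linarith)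
      have h2 : 0 ≤ Real.sqrt y := Real.sqrt_nonneg _
      rw [eq_div_iff (by positivity)]
      have h3 : Real.sqrt (y + t) ^ 2 = y + t := Real.sq_sqrt (by linarith)
      have h4 : Real.sqrt y ^ 2 = y := Real.sq_sqrt (by linarith)
      nlinarith
    have e2 : Real.sqrt (x + t) - Real.sqrt x = t / (Real.sqrt (x + t) + Real.sqrt x) := by
      have h1 : 0 < Real.sqrt (x + t) := Real.sqrt_pos.2 (by linarith)
      have h2 : 0 ≤ Real.sqrt x := Real.sqrt_nonneg _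
      rw [eq_div_iff (by positivity)]
      have h3 : Real.sqrt (x + t) ^ 2 = x + t := Real.sq_sqrt (by linarith)
      have h4 : Real.sqrt x ^ 2 = x := Real.sq_sqrt (by linarith)
      nlinarith
    rw [e1, e2]
    have h1 : 0 < Real.sqrt (x + t) := Real.sqrt_pos.2 (by linarith)
    have h2 : 0 ≤ Real.sqrt x := Real.sqrt_nonneg _
    apply div_le_div_of_nonneg_left ht (by positivity)
    exact add_le_add (Real.sqrt_le_sqrt (by linarith)) (Real.sqrt_le_sqrt hxy)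
  have hsS : s * Real.sqrt m = Real.sqrt (m * s ^ 2) := by
    rw [Real.sqrt_mul (by positivity), Real.sqrt_sq hs, mul_comm]
  have hsS' : s * Real.sqrt ((m : ℝ) + r) = Real.sqrt (m * s ^ 2 + r * s ^ 2) := by
    rw [← add_mul, Real.sqrt_mul (by positivity), Real.sqrt_sq hs, mul_comm]
  have hle : S ≤ m * s ^ 2 := hS.trans (by
    have : (p : ℝ) ≤ m := by exact_mod_cast hm
    exact mul_le_mul_of_nonneg_right this (by positivity))
  have := key S (m * s ^ 2) (r * s ^ 2) hS0 hle (by positivity)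
  rw [mul_sub, hsS, hsS']
  linarith

variable {𝕜 : Type*} [RCLike 𝕜]

/-- The seminorm with index `(A, k, M)`. -/
noncomputable def V (A : Finset ℕ) (k M : ℕ) (a : ℕ → 𝕜) : ℝ :=
  2 * Real.sqrt (∑ n ∈ A, ‖a n‖ ^ 2)
    + ‖∑ n ∈ range M \ A, ((w (A.card + k + n) : ℝ) : 𝕜) * a n‖

lemma norm_w (j : ℕ) : ‖((w j : ℝ) : 𝕜)‖ = w j := by
  rw [RCLike.norm_ofReal, abs_of_nonneg (w_nonneg j)]

/-- Enlarging `A` by coordinates of maximal modulus does not decrease `V`. -/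
lemma V_dom (A T : Finset ℕ) (k M : ℕ) (a : ℕ → 𝕜) (s : ℝ) (hs : 0 ≤ s)
    (ha : ∀ n, ‖a n‖ ≤ s) (hT : ∀ n ∈ T, ‖a n‖ = s) : V A k M a ≤ V (A ∪ T) k M a := by
  classical
  set R := T \ A with hR
  have hAT : A ∪ T = A ∪ R := by rw [hR]; simp
  have hd : Disjoint A R := by rw [hR]; exact disjoint_sdiff
  have hRT : ∀ n ∈ R, ‖a n‖ = s := fun n hn => hT n (mem_sdiff.1 hn).1
  rw [hAT]
  set p := A.card with hp
  set r := R.card with hr
  have hcard : (A ∪ R).card = p + r := card_union_of_disjoint hd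
  set m := p + k with hm
  unfold V
  rw [hcard, ← hp]
  -- the Euclidean part
  have e1 : ∑ n ∈ A ∪ R, ‖a n‖ ^ 2 = ∑ n ∈ A, ‖a n‖ ^ 2 + r * s ^ 2 := by
    rw [sum_union hd]
    congr 1
    rw [sum_congr rfl (fun n hn => by rw [hRT n hn])]
    simp [hr]
  have hSle : ∑ n ∈ A, ‖a n‖ ^ 2 ≤ p * s ^ 2 := by
    calc ∑ n ∈ A, ‖a n‖ ^ 2 ≤ ∑ n ∈ A, s ^ 2 :=
          sum_le_sum fun n _ => pow_le_pow_left₀ (norm_nonneg _) (ha n) 2
      _ = p * s ^ 2 := by simp [hp]
  have hg := gain (∑ n ∈ A, ‖a n‖ ^ 2) s p r m hs (sum_nonneg fun n _ => by positivity) hSle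
    (by omega)
  rw [e1]
  -- the linear part
  set Z := range M \ (A ∪ R) with hZ
  have hsplit : range M \ A = Z ∪ (R ∩ range M) := by
    ext n
    simp only [hZ, mem_union, mem_sdiff, mem_inter]
    constructor
    · rintro ⟨h1, h2⟩
      by_cases h3 : n ∈ R
      · exact Or.inr ⟨h3, h1⟩
      · exact Or.inl ⟨h1, fun h => h.elim h2 h3⟩
    · rintro (⟨h1, h2⟩ | ⟨h1, h2⟩)
      · exact ⟨h1, fun h => h2 (Or.inl h)⟩
      · exact ⟨h2, (mem_sdiff.1 h1).2⟩
  have hdisj : Disjoint Z (R ∩ range M) := by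
    rw [disjoint_left]
    intro n h1 h2
    rw [hZ, mem_sdiff] at h1
    exact h1.2 (mem_union_right _ (mem_inter.1 h2).1)
  have h1 : ‖∑ n ∈ range M \ A, ((w (m + n) : ℝ) : 𝕜) * a n‖
      ≤ ‖∑ n ∈ Z, ((w (m + n) : ℝ) : 𝕜) * a n‖ + s * ∑ n ∈ R, w (m + n) := by
    rw [hsplit, sum_union hdisj]
    refine (norm_add_le _ _).trans (add_le_add le_rfl ?_)
    refine (norm_sum_le _ _).trans ?_
    calc ∑ n ∈ R ∩ range M, ‖((w (m + n) : ℝ) : 𝕜) * a n‖
        ≤ ∑ n ∈ R, ‖((w (m + n) : ℝ) : 𝕜) * a n‖ :=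
          sum_le_sum_of_subset_of_nonneg inter_subset_left fun n _ _ => norm_nonneg _
      _ = ∑ n ∈ R, s * w (m + n) := by
          refine sum_congr rfl fun n hn => ?_
          rw [norm_mul, norm_w, hRT n hn, mul_comm]
      _ = s * ∑ n ∈ R, w (m + n) := by rw [mul_sum]
  have h2 : ∑ n ∈ R, w (m + n) ≤ Real.sqrt ((m : ℝ) + r) - Real.sqrt m := by
    rw [← sum_w]
    exact sum_le_range (fun n => w (m + n)) (fun x y hxy => w_anti (by omega)) R
  have h3 : ‖∑ n ∈ Z, ((w (m + n) : ℝ) : 𝕜) * a n‖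
      ≤ ‖∑ n ∈ Z, ((w (m + r + n) : ℝ) : 𝕜) * a n‖
        + s * ∑ n ∈ Z, (w (m + n) - w (m + r + n)) := by
    have e : ∑ n ∈ Z, ((w (m + n) : ℝ) : 𝕜) * a n
        = ∑ n ∈ Z, ((w (m + r + n) : ℝ) : 𝕜) * a n
          + ∑ n ∈ Z, (((w (m + n) - w (m + r + n) : ℝ)) : 𝕜) * a n := by
      rw [← sum_add_distrib]
      refine sum_congr rfl fun n _ => ?_
      rw [RCLike.ofReal_sub]; ring
    rw [e]
    refine (norm_add_le _ _).trans (add_le_add le_rfl ?_)
    refine (norm_sum_le _ _).trans ?_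
    rw [mul_sum]
    refine sum_le_sum fun n _ => ?_
    have hw : 0 ≤ w (m + n) - w (m + r + n) := sub_nonneg.2 (w_anti (by omega))
    rw [norm_mul, RCLike.norm_ofReal, abs_of_nonneg hw, mul_comm]
    exact mul_le_mul_of_nonneg_right (ha n) hw
  have h4 : ∑ n ∈ Z, (w (m + n) - w (m + r + n)) ≤ Real.sqrt ((m : ℝ) + r) - Real.sqrt m := by
    have h5 : ∑ n ∈ Z, (w (m + n) - w (m + r + n))
        ≤ ∑ n ∈ range M, (w (m + n) - w (m + r + n)) := by
      refine sum_le_sum_of_subset_of_nonneg sdiff_subset fun n _ _ => ?_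
      exact sub_nonneg.2 (w_anti (by omega))
    have h55 : ∑ n ∈ range M, (w (m + n) - w (m + r + n))
        = (Real.sqrt ((m : ℝ) + M) - Real.sqrt m)
          - (Real.sqrt (((m + r : ℕ) : ℝ) + M) - Real.sqrt ((m + r : ℕ) : ℝ)) := by
      rw [sum_sub_distrib, sum_w, sum_w]
    rw [h55] at h5
    have h6 : Real.sqrt ((m : ℝ) + M) ≤ Real.sqrt (((m + r : ℕ) : ℝ) + M) := by
      apply Real.sqrt_le_sqrt
      push_cast
      have : (0 : ℝ) ≤ r := by positivity
      linarith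
    have h7 : ((m + r : ℕ) : ℝ) = (m : ℝ) + r := by push_cast; ring
    rw [h7] at h5 h6
    linarith
  have e3 : ∀ n, p + r + k + n = m + r + n := fun n => by omega
  simp only [e3]
  have h8 := mul_le_mul_of_nonneg_left h2 hs
  have h9 := mul_le_mul_of_nonneg_left h4 hs
  linarith

end Pool.Agent.V11332.PA1
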