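import Pool.Agent.V11332.PA1

set_option autoImplicit false

namespace Pool.Agent.V11332.PA1

open Finset

variable {𝕜 : Type*} [RCLike 𝕜]

/-- Moving the block of largest coefficients. -/
lemma V_move (y : ℕ → 𝕜) (T T' : Finset ℕ) (ε η : ℕ → 𝕜) (hy : ∀ n, ‖y n‖ ≤ 1)
    (hT0 : ∀ n ∈ T, y n = 0) (hT'0 : ∀ n ∈ T', y n = 0) (hcard : T.card = T'.card)
    (hε : ∀ n ∈ T, ‖ε n‖ = 1) (hη : ∀ n ∈ T', ‖η n‖ = 1)
    (A : Finset ℕ) (k M : ℕ) :
    ∃ (A' : Finset ℕ) (k' : ℕ), V A k M (fun n => y n + if n ∈ T then ε n else 0)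
      ≤ V A' k' M (fun n => y n + if n ∈ T' then η n else 0) := by
  classical
  set a : ℕ → 𝕜 := fun n => y n + if n ∈ T then ε n else 0 with ha
  set a' : ℕ → 𝕜 := fun n => y n + if n ∈ T' then η n else 0 with ha'
  have haT : ∀ n ∈ T, ‖a n‖ = 1 := by
    intro n hn; simp only [ha, hT0 n hn, if_pos hn, zero_add]; exact hε n hn
  have haT' : ∀ n ∈ T', ‖a' n‖ = 1 := by
    intro n hn; simp only [ha', hT'0 n hn, if_pos hn, zero_add]; exact hη n hn
  have haoff : ∀ n, n ∉ T → a n = y n := by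
    intro n hn; simp only [ha, if_neg hn, add_zero]
  have haoff' : ∀ n, n ∉ T' → a' n = y n := by
    intro n hn; simp only [ha', if_neg hn, add_zero]
  have hale : ∀ n, ‖a n‖ ≤ 1 := by
    intro n
    by_cases hn : n ∈ T
    · exact (haT n hn).le
    · rw [haoff n hn]; exact hy n
  set A1 := A ∪ T with hA1
  have hdom := V_dom A T k M a 1 zero_le_one hale haT
  set B := A1 \ T with hB
  have hTA1 : T ⊆ A1 := subset_union_right
  set A' := T' ∪ (B \ T') with hA'
  have hc1 : A1.card = T.card + B.card := by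
    rw [hB, card_sdiff_of_subset hTA1]
    have := card_le_card hTA1
    omega
  have hc2 : A'.card = T'.card + (B \ T').card := card_union_of_disjoint disjoint_sdiff
  have hc3 : (B \ T').card ≤ B.card := card_le_card sdiff_subset
  refine ⟨A', A1.card + k - A'.card, hdom.trans (le_of_eq ?_)⟩
  have hk : A'.card + (A1.card + k - A'.card) = A1.card + k := by omega
  unfold V
  rw [hk]
  congr 1
  · -- squares
    congr 2
    have e1 : ∑ n ∈ A1, ‖a n‖ ^ 2 = T.card + ∑ n ∈ B, ‖y n‖ ^ 2 := by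
      rw [← sum_sdiff hTA1, ← hB, add_comm]
      congr 1
      · rw [sum_congr rfl (fun n hn => by rw [haT n hn])]; simp
      · refine sum_congr rfl fun n hn => ?_
        rw [haoff n (mem_sdiff.1 hn).2]
    have e2 : ∑ n ∈ A', ‖a' n‖ ^ 2 = T'.card + ∑ n ∈ B \ T', ‖y n‖ ^ 2 := by
      rw [hA', sum_union disjoint_sdiff]
      congr 1
      · rw [sum_congr rfl (fun n hn => by rw [haT' n hn])]; simp
      · refine sum_congr rfl fun n hn => ?_
        rw [haoff' n (mem_sdiff.1 hn).2]
    have e3 : ∑ n ∈ B \ T', ‖y n‖ ^ 2 = ∑ n ∈ B, ‖y n‖ ^ 2 := by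
      refine sum_subset sdiff_subset fun n hn hn' => ?_
      have : n ∈ T' := by
        by_contra h
        exact hn' (mem_sdiff.2 ⟨hn, h⟩)
      rw [hT'0 n this]; simp
    rw [e1, e2, e3, hcard]
  · -- linear parts
    congr 1
    set c : ℕ → 𝕜 := fun n => ((w (A1.card + k + n) : ℝ) : 𝕜) with hc
    have f1 : ∑ n ∈ range M \ A1, c n * a n = ∑ n ∈ range M \ (A1 ∪ T'), c n * y n := by
      have : ∑ n ∈ range M \ A1, c n * a n = ∑ n ∈ range M \ A1, c n * y n := by
        refine sum_congr rfl fun n hn => ?_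
        rw [haoff n (fun h => (mem_sdiff.1 hn).2 (hTA1 h))]
      rw [this]
      symm
      refine sum_subset (sdiff_subset_sdiff le_rfl subset_union_left) fun n hn hn' => ?_
      have : n ∈ T' := by
        by_contra h
        apply hn'
        rw [mem_sdiff] at hn ⊢
        refine ⟨hn.1, fun h' => ?_⟩
        rcases mem_union.1 h' with h' | h'
        · exact hn.2 h'
        · exact h h'
      rw [hT'0 n this, mul_zero]
    have f2 : ∑ n ∈ range M \ A', c n * a' n = ∑ n ∈ range M \ (A1 ∪ T'), c n * y n := by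
      have : ∑ n ∈ range M \ A', c n * a' n = ∑ n ∈ range M \ A', c n * y n := by
        refine sum_congr rfl fun n hn => ?_
        rw [haoff' n (fun h => (mem_sdiff.1 hn).2 (mem_union_left _ h))]
      rw [this]
      symm
      refine sum_subset ?_ fun n hn hn' => ?_
      · intro n hn
        rw [mem_sdiff] at hn ⊢
        refine ⟨hn.1, fun h => hn.2 ?_⟩
        rcases mem_union.1 h with h | h
        · exact mem_union_right _ h
        · exact mem_union_left _ (mem_sdiff.1 (mem_sdiff.1 h).1).1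
      · have : n ∈ T := by
          by_contra h
          apply hn'
          rw [mem_sdiff] at hn ⊢
          refine ⟨hn.1, fun h' => ?_⟩
          apply hn.2
          rcases mem_union.1 h' with h' | h'
          · by_cases hT' : n ∈ T'
            · exact mem_union_left _ hT'
            · exact mem_union_right _ (mem_sdiff.2 ⟨mem_sdiff.2 ⟨h', h⟩, hT'⟩)
          · exact mem_union_left _ h'
        rw [hT0 n this, mul_zero]
    rw [f1, f2]

/-- Alternating sums of an antitone nonnegative sequence. -/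
lemma alt_sum (M : ℕ) : ∀ (b : ℕ → ℝ), Antitone b → (∀ n, 0 ≤ b n) →
    0 ≤ ∑ n ∈ range M, (-1 : ℝ) ^ n * b n ∧ ∑ n ∈ range M, (-1 : ℝ) ^ n * b n ≤ b 0 := by
  induction M with
  | zero => intro b _ h0; simp [h0 0]
  | succ M ih =>
    intro b hb h0
    have e : ∑ n ∈ range (M + 1), (-1 : ℝ) ^ n * b n
        = b 0 - ∑ n ∈ range M, (-1 : ℝ) ^ n * b (n + 1) := by
      rw [sum_range_succ']
      simp only [pow_succ, pow_zero, one_mul, mul_neg, mul_one, neg_mul, sum_neg_distrib]
      ring
    obtain ⟨h1, h2⟩ := ih (fun n => b (n + 1)) (fun x y hxy => hb (by omega)) (fun n => h0 _)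
    have h3 : b (0 + 1) ≤ b 0 := hb (by omega)
    rw [e]
    constructor
    · linarith
    · linarith

/-- Harmonic sums. -/
noncomputable def hs (K : ℕ) : ℝ := ∑ n ∈ range K, 1 / ((n : ℝ) + 1)

/-- The test vector. -/
noncomputable def xv (K : ℕ) (n : ℕ) : ℝ :=
  if n < K then (-1 : ℝ) ^ n / Real.sqrt ((n : ℝ) + 1) else 0

lemma sum_inv_sqrt (p : ℕ) : ∑ j ∈ range p, 1 / Real.sqrt ((j : ℝ) + 1) ≤ 2 * Real.sqrt p := by
  have h : ∀ j ∈ range p, 1 / Real.sqrt ((j : ℝ) + 1) ≤ 2 * w j := by
    intro j _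
    have := w_ge j
    have h1 : 0 < Real.sqrt ((j : ℝ) + 1) := Real.sqrt_pos.2 (by positivity)
    have e : 1 / Real.sqrt ((j : ℝ) + 1) = 2 * (1 / (2 * Real.sqrt ((j : ℝ) + 1))) := by
      field_simp
    rw [e]; linarith
  refine (sum_le_sum h).trans ?_
  rw [← mul_sum]
  have := sum_w 0 p
  simp only [Nat.zero_add, Nat.cast_zero, zero_add, Real.sqrt_zero, sub_zero] at this
  rw [this]

/-- The norm of the test vector. -/
lemma V_test (K : ℕ) (A : Finset ℕ) (k M : ℕ) :
    V A k M (fun n => ((xv K n : ℝ) : 𝕜)) ≤ 2 * Real.sqrt (hs K) + 2 := by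
  classical
  unfold V
  have hsq : ∑ n ∈ A, ‖((xv K n : ℝ) : 𝕜)‖ ^ 2 ≤ hs K := by
    have e : ∀ n, ‖((xv K n : ℝ) : 𝕜)‖ ^ 2 = if n < K then 1 / ((n : ℝ) + 1) else 0 := by
      intro n
      rw [RCLike.norm_ofReal, sq_abs, xv]
      split_ifs with h
      · rw [div_pow, ← pow_mul, mul_comm n 2, pow_mul, Real.sq_sqrt (by positivity)]; simp
      · simp
    simp_rw [e]
    rw [← sum_filter, hs]
    refine sum_le_sum_of_subset_of_nonneg ?_ fun n _ _ => by positivity
    intro n hn
    exact mem_range.2 (mem_filter.1 hn).2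
  have hlin : ‖∑ n ∈ range M \ A, ((w (A.card + k + n) : ℝ) : 𝕜) * ((xv K n : ℝ) : 𝕜)‖ ≤ 2 := by
    set m := A.card + k with hm
    have e0 : ∑ n ∈ range M \ A, ((w (m + n) : ℝ) : 𝕜) * ((xv K n : ℝ) : 𝕜)
        = ((∑ n ∈ range M \ A, w (m + n) * xv K n : ℝ) : 𝕜) := by
      push_cast; rfl
    rw [e0, RCLike.norm_ofReal]
    set b : ℕ → ℝ := fun n => if n < K then w (m + n) / Real.sqrt ((n : ℝ) + 1) else 0 with hb
    have hb0 : ∀ n, 0 ≤ b n := by
      intro n
      simp only [hb]
      split_ifs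
      · exact div_nonneg (w_nonneg _) (Real.sqrt_nonneg _)
      · exact le_rfl
    have hbanti : Antitone b := by
      intro x y hxy
      simp only [hb]
      split_ifs with h1 h2 h2
      · have hx : 0 < Real.sqrt ((x : ℝ) + 1) := Real.sqrt_pos.2 (by positivity)
        have hxy' : (x : ℝ) ≤ y := by exact_mod_cast hxy
        exact div_le_div₀ (w_nonneg _) (w_anti (by omega)) hx
          (Real.sqrt_le_sqrt (by linarith))
      · omega
      · exact div_nonneg (w_nonneg _) (Real.sqrt_nonneg _)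
      · exact le_rfl
    have hterm : ∀ n, w (m + n) * xv K n = (-1 : ℝ) ^ n * b n := by
      intro n
      simp only [hb, xv]
      split_ifs
      · ring
      · ring
    have hsplit : ∑ n ∈ range M \ A, w (m + n) * xv K n
        = ∑ n ∈ range M, (-1 : ℝ) ^ n * b n - ∑ n ∈ range M ∩ A, (-1 : ℝ) ^ n * b n := by
      simp_rw [hterm]
      rw [← sum_sdiff (show range M ∩ A ⊆ range M from inter_subset_left), sdiff_inter_self_left]
      ring
    obtain ⟨h1, h2⟩ := alt_sum M b hbanti hb0
    have hb1 : b 0 ≤ 1 := by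
      simp only [hb]
      split_ifs
      · simp only [Nat.cast_zero, zero_add, Real.sqrt_one, div_one]; exact w_le_one _
      · exact zero_le_one
    have h3 : |∑ n ∈ range M ∩ A, (-1 : ℝ) ^ n * b n| ≤ 1 := by
      refine (abs_sum_le_sum_abs _ _).trans ?_
      have e1 : ∀ n, |(-1 : ℝ) ^ n * b n| = b n := by
        intro n
        rw [abs_mul, abs_pow, abs_neg, abs_one, one_pow, one_mul, abs_of_nonneg (hb0 n)]
      simp_rw [e1]
      calc ∑ n ∈ range M ∩ A, b n ≤ ∑ n ∈ A, b n :=
            sum_le_sum_of_subset_of_nonneg inter_subset_right fun n _ _ => hb0 n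
        _ ≤ ∑ j ∈ range A.card, b j := sum_le_range b hbanti A
        _ ≤ ∑ j ∈ range A.card, 1 / (2 * Real.sqrt A.card) * (1 / Real.sqrt ((j : ℝ) + 1)) := by
            refine sum_le_sum fun j hj => ?_
            have hA1 : 1 ≤ A.card := by
              have := mem_range.1 hj
              omega
            simp only [hb]
            split_ifs
            · rw [div_eq_mul_one_div]
              exact mul_le_mul_of_nonneg_right (w_le A.card (m + j) hA1 (by omega)) (by positivity)
            · positivity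
        _ = 1 / (2 * Real.sqrt A.card) * ∑ j ∈ range A.card, (1 / Real.sqrt ((j : ℝ) + 1)) := by
            rw [mul_sum]
        _ ≤ 1 := by
            by_cases hA0 : A.card = 0
            · rw [hA0]; simp
            have hpos : 0 < Real.sqrt (A.card : ℝ) :=
              Real.sqrt_pos.2 (by exact_mod_cast Nat.pos_of_ne_zero hA0)
            calc 1 / (2 * Real.sqrt A.card) * ∑ j ∈ range A.card, (1 / Real.sqrt ((j : ℝ) + 1))
                ≤ 1 / (2 * Real.sqrt A.card) * (2 * Real.sqrt A.card) :=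
                  mul_le_mul_of_nonneg_left (sum_inv_sqrt _) (by positivity)
              _ = 1 := by field_simp
    rw [hsplit]
    rw [abs_le] at h3 ⊢
    constructor
    · linarith [h3.2]
    · linarith [h3.1]
  have := Real.sqrt_le_sqrt hsq
  linarith

/-- The even part of the test vector is large. -/
lemma even_part (J : ℕ) :
    hs (2 * J) / 4 ≤ ∑ n ∈ range (2 * J), w n * (if Even n then 1 / Real.sqrt ((n : ℝ) + 1) else 0) := by
  induction J with
  | zero => simp [hs]
  | succ J ih =>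
    have e : 2 * (J + 1) = 2 * J + 1 + 1 := by ring
    unfold hs at ih ⊢
    rw [e, sum_range_succ, sum_range_succ, sum_range_succ, sum_range_succ]
    have h1 : Even (2 * J) := even_two_mul J
    have h2 : ¬ Even (2 * J + 1) := by
      rw [Nat.even_add_one]; simp
    rw [if_pos h1, if_neg h2]
    have h3 := w_ge (2 * J)
    have hpos : 0 < Real.sqrt (((2 * J : ℕ) : ℝ) + 1) := Real.sqrt_pos.2 (by positivity)
    have h4 : 1 / (2 * (((2 * J : ℕ) : ℝ) + 1)) ≤ w (2 * J) * (1 / Real.sqrt (((2 * J : ℕ) : ℝ) + 1)) := by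
      calc 1 / (2 * (((2 * J : ℕ) : ℝ) + 1))
          = 1 / (2 * Real.sqrt (((2 * J : ℕ) : ℝ) + 1)) * (1 / Real.sqrt (((2 * J : ℕ) : ℝ) + 1)) := by
            have hsq : Real.sqrt (((2 * J : ℕ) : ℝ) + 1) * Real.sqrt (((2 * J : ℕ) : ℝ) + 1)
                = ((2 * J : ℕ) : ℝ) + 1 := Real.mul_self_sqrt (by positivity)
            rw [one_div_mul_one_div, mul_assoc, hsq]
        _ ≤ _ := mul_le_mul_of_nonneg_right h3 (by positivity)
    have h5 : 1 / (((2 * J + 1 : ℕ) : ℝ) + 1) ≤ 1 / (((2 * J : ℕ) : ℝ) + 1) := by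
      apply one_div_le_one_div_of_le (by positivity)
      push_cast; linarith
    have h6 : 1 / (2 * (((2 * J : ℕ) : ℝ) + 1)) = (1 / (((2 * J : ℕ) : ℝ) + 1)) / 2 := by
      field_simp
    rw [mul_zero, add_zero]
    rw [h6] at h4
    linarith

lemma V_even (J : ℕ) :
    hs (2 * J) / 4 ≤ V (𝕜 := 𝕜) ∅ 0 (2 * J)
      (fun n => if Even n then ((xv (2 * J) n : ℝ) : 𝕜) else 0) := by
  unfold V
  simp only [sum_empty, Real.sqrt_zero, mul_zero, zero_add, sdiff_empty, card_empty]
  have e : ∑ n ∈ range (2 * J), ((w n : ℝ) : 𝕜) * (if Even n then ((xv (2 * J) n : ℝ) : 𝕜) else 0)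
      = ((∑ n ∈ range (2 * J), w n * (if Even n then 1 / Real.sqrt ((n : ℝ) + 1) else 0) : ℝ) : 𝕜) := by
    push_cast
    refine sum_congr rfl fun n hn => ?_
    congr 1
    have hn' := mem_range.1 hn
    split_ifs with h
    · simp only [xv, if_pos hn', h.neg_one_pow]
    · simp
  rw [e, RCLike.norm_ofReal]
  exact (even_part J).trans (le_abs_self _)

/-- No constant `C` controls the even part. -/
lemma no_const (C : ℝ) (h : ∀ J : ℕ, hs (2 * J) / 4 ≤ C * (2 * Real.sqrt (hs (2 * J)) + 2)) :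
    False := by
  have htend : Filter.Tendsto (fun J : ℕ => hs (2 * J)) Filter.atTop Filter.atTop := by
    have h1 : Filter.Tendsto (fun K : ℕ => hs K) Filter.atTop Filter.atTop := by
      have := Real.tendsto_sum_range_one_div_nat_succ_atTop
      exact this
    have h2 : Filter.Tendsto (fun J : ℕ => 2 * J) Filter.atTop Filter.atTop :=
      Filter.tendsto_atTop_mono (fun n => by show n ≤ 2 * n; omega) Filter.tendsto_id
    exact h1.comp h2
  obtain ⟨J, hJ⟩ := (htend.eventually_ge_atTop ((8 * |C| + 2) ^ 2)).exists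
  have h0 : 0 ≤ hs (2 * J) := le_trans (by positivity) hJ
  set t := Real.sqrt (hs (2 * J)) with ht
  have ht2 : t ^ 2 = hs (2 * J) := Real.sq_sqrt h0
  have ht0 : 8 * |C| + 2 ≤ t := by
    rw [ht]; exact Real.le_sqrt_of_sq_le hJ
  have hC := le_abs_self C
  have h1 := h J
  rw [← ht, ← ht2] at h1
  have h2 : C * (2 * t + 2) ≤ |C| * (2 * t + 2) :=
    mul_le_mul_of_nonneg_right hC (by linarith [abs_nonneg C])
  have h3 := abs_nonneg C
  nlinarith

end Pool.Agent.V11332.PA1
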