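import Pool.Agent.V11332.PA2

set_option autoImplicit false

namespace Pool.Agent.V11332.PA1

open Finset
open scoped ENNReal

variable (𝕜 : Type) [RCLike 𝕜]

/-- Index set. -/
abbrev Ix := Finset ℕ × ℕ × ℕ

/-- Target spaces. -/
abbrev G (i : Ix) : Type := WithLp 1 (EuclideanSpace 𝕜 (i.1 : Finset ℕ) × 𝕜)

/-- The linear map with index `i = (A, k, M)`. -/
noncomputable def L (i : Ix) : (ℕ → 𝕜) →ₗ[𝕜] G 𝕜 i where
  toFun a := WithLp.toLp 1 (WithLp.toLp 2 (fun n : (i.1 : Finset ℕ) => (2 : 𝕜) * a n),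
    ∑ n ∈ range i.2.2 \ i.1, ((w (i.1.card + i.2.1 + n) : ℝ) : 𝕜) * a n)
  map_add' a b := by
    rw [← WithLp.toLp_add, Prod.mk_add_mk, ← WithLp.toLp_add]
    congr 2
    · congr 1
      ext n
      simp [mul_add]
    · rw [← sum_add_distrib]
      exact sum_congr rfl fun n _ => by simp [mul_add]
  map_smul' c a := by
    rw [RingHom.id_apply, ← WithLp.toLp_smul, Prod.smul_mk, ← WithLp.toLp_smul]
    congr 2
    · congr 1
      ext n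
      simp only [Pi.smul_apply, smul_eq_mul]
      ring
    · rw [smul_sum]
      refine sum_congr rfl fun n _ => ?_
      simp only [Pi.smul_apply, smul_eq_mul]
      ring

lemma norm_L (i : Ix) (a : ℕ → 𝕜) : ‖L 𝕜 i a‖ = V i.1 i.2.1 i.2.2 a := by
  rw [WithLp.prod_norm_eq_of_L1]
  unfold V
  congr 1
  change ‖WithLp.toLp 2 (fun n : (i.1 : Finset ℕ) => (2 : 𝕜) * a n)‖ = _
  rw [EuclideanSpace.norm_eq]
  have e : ∑ x : (i.1 : Finset ℕ), ‖(WithLp.toLp 2 (fun n : (i.1 : Finset ℕ) => (2 : 𝕜) * a n)) x‖ ^ 2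
      = 2 ^ 2 * ∑ n ∈ i.1, ‖a n‖ ^ 2 := by
    rw [← Finset.sum_coe_sort i.1 (fun n => ‖a n‖ ^ 2), mul_sum]
    refine sum_congr rfl fun x _ => ?_
    change ‖(2 : 𝕜) * a x‖ ^ 2 = _
    rw [norm_mul, mul_pow]
    congr 1
    rw [RCLike.norm_ofNat]
  rw [e, Real.sqrt_mul (by norm_num), Real.sqrt_sq (by norm_num)]

lemma V_single (n : ℕ) (A : Finset ℕ) (k M : ℕ) :
    V A k M (Pi.single n (1 : 𝕜)) ≤ 3 := by
  unfold V
  have h1 : ∑ j ∈ A, ‖(Pi.single n (1 : 𝕜) : ℕ → 𝕜) j‖ ^ 2 ≤ 1 := by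
    have e : ∀ j, ‖(Pi.single n (1 : 𝕜) : ℕ → 𝕜) j‖ ^ 2 = if j = n then (1 : ℝ) else 0 := by
      intro j
      by_cases h : j = n
      · subst h; simp
      · simp [Pi.single_eq_of_ne h, h]
    simp_rw [e]
    rw [Finset.sum_ite_eq' A n (fun _ => (1 : ℝ))]
    split_ifs <;> norm_num
  have h2 : ‖∑ j ∈ range M \ A, ((w (A.card + k + j) : ℝ) : 𝕜) * (Pi.single n (1 : 𝕜) : ℕ → 𝕜) j‖ ≤ 1 := by
    have e : ∀ j, ((w (A.card + k + j) : ℝ) : 𝕜) * (Pi.single n (1 : 𝕜) : ℕ → 𝕜) j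
        = if j = n then ((w (A.card + k + n) : ℝ) : 𝕜) else 0 := by
      intro j
      by_cases h : j = n
      · subst h; simp
      · simp [Pi.single_eq_of_ne h, h]
    simp_rw [e]
    rw [Finset.sum_ite_eq' (range M \ A) n (fun _ => ((w (A.card + k + n) : ℝ) : 𝕜))]
    split_ifs
    · rw [norm_w]; exact w_le_one _
    · simp
  have h3 : Real.sqrt (∑ j ∈ A, ‖(Pi.single n (1 : 𝕜) : ℕ → 𝕜) j‖ ^ 2) ≤ 1 := by
    rw [← Real.sqrt_one]; exact Real.sqrt_le_sqrt h1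
  linarith

/-- The ambient space. -/
abbrev Y : Type := lp (fun i : Ix => G 𝕜 i) ∞

/-- The images of the unit vectors. -/
noncomputable def E (n : ℕ) : Y 𝕜 :=
  ⟨fun i => L 𝕜 i (Pi.single n (1 : 𝕜)), memℓp_infty ⟨3, by
    rintro _ ⟨i, rfl⟩
    simp only
    rw [norm_L]
    exact V_single 𝕜 n _ _ _⟩⟩

lemma E_apply (n : ℕ) (i : Ix) : (E 𝕜 n : Y 𝕜) i = L 𝕜 i (Pi.single n (1 : 𝕜)) := rfl

/-- The coordinate functionals. -/
noncomputable def c (n : ℕ) : Y 𝕜 →L[𝕜] 𝕜 :=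
  (2 : 𝕜)⁻¹ • ((EuclideanSpace.proj (𝕜 := 𝕜) (⟨n, mem_singleton_self n⟩ : ({n} : Finset ℕ))).comp
    ((WithLp.fstL 1 𝕜 (EuclideanSpace 𝕜 ({n} : Finset ℕ)) 𝕜).comp
      (lp.evalCLM 𝕜 (fun i : Ix => G 𝕜 i) ∞ (({n} : Finset ℕ), 0, 0))))

lemma c_apply (n : ℕ) (y : Y 𝕜) :
    c 𝕜 n y = (2 : 𝕜)⁻¹ * ((y (({n} : Finset ℕ), 0, 0)).fst) ⟨n, mem_singleton_self n⟩ := rfl

lemma c_E (k n : ℕ) : c 𝕜 k (E 𝕜 n) = (Pi.single n (1 : 𝕜) : ℕ → 𝕜) k := by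
  rw [c_apply, E_apply]
  change (2 : 𝕜)⁻¹ * ((2 : 𝕜) * (Pi.single n (1 : 𝕜) : ℕ → 𝕜) k) = _
  rw [← mul_assoc, inv_mul_cancel₀ two_ne_zero, one_mul]

/-- The space. -/
noncomputable def X : Submodule 𝕜 (Y 𝕜) :=
  (Submodule.span 𝕜 (Set.range (E 𝕜))).topologicalClosure

lemma L_eq_sum (i : Ix) (a : ℕ → 𝕜) :
    L 𝕜 i a = ∑ n ∈ i.1 ∪ range i.2.2, a n • L 𝕜 i (Pi.single n (1 : 𝕜)) := by
  classical
  have hval : ∀ a b : ℕ → 𝕜, (∀ n ∈ i.1 ∪ range i.2.2, a n = b n) → L 𝕜 i a = L 𝕜 i b := by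
    intro a b hab
    change WithLp.toLp 1 _ = WithLp.toLp 1 _
    congr 2
    · congr 1
      ext n
      rw [hab n (mem_union_left _ n.2)]
    · refine sum_congr rfl fun n hn => ?_
      rw [hab n (mem_union_right _ (mem_sdiff.1 hn).1)]
  have h : L 𝕜 i a = L 𝕜 i (∑ n ∈ i.1 ∪ range i.2.2, a n • Pi.single n (1 : 𝕜)) := by
    apply hval
    intro n hn
    rw [Finset.sum_apply]
    have : ∀ j, (a j • (Pi.single j (1 : 𝕜) : ℕ → 𝕜)) n = if n = j then a j else 0 := by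
      intro j
      by_cases h : n = j
      · subst h; simp
      · simp [Pi.single_eq_of_ne h, h]
    simp_rw [this]
    rw [Finset.sum_ite_eq, if_pos hn]
  rw [h, map_sum]
  simp_rw [map_smul]

lemma gen {Y' F : Type} [NormedAddCommGroup Y'] [NormedSpace 𝕜 Y'] [NormedAddCommGroup F]
    [NormedSpace 𝕜 F] (ev : Y' →L[𝕜] F) (c' : ℕ → Y' →L[𝕜] 𝕜) (v : ℕ → F) (S : Finset ℕ)
    (E' : ℕ → Y') (h : ∀ n, ev (E' n) = ∑ k ∈ S, c' k (E' n) • v k) (y : Y')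
    (hy : y ∈ (Submodule.span 𝕜 (Set.range E')).topologicalClosure) :
    ev y = ∑ k ∈ S, c' k y • v k := by
  set T : Y' →L[𝕜] F := ∑ k ∈ S, (c' k).smulRight (v k) with hT
  have hTy : ∀ y, T y = ∑ k ∈ S, c' k y • v k := by
    intro y
    rw [hT]
    simp
  set U : Y' →L[𝕜] F := ev - T with hU
  have hle : (Submodule.span 𝕜 (Set.range E')).topologicalClosure
      ≤ LinearMap.ker (U : Y' →ₗ[𝕜] F) := by
    apply Submodule.topologicalClosure_minimal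
    · rw [Submodule.span_le]
      rintro _ ⟨n, rfl⟩
      show U (E' n) = 0
      rw [hU, ContinuousLinearMap.sub_apply, hTy, h, sub_self]
    · exact ContinuousLinearMap.isClosed_ker U
  have h3 : U y = 0 := hle hy
  rw [hU, ContinuousLinearMap.sub_apply, hTy, sub_eq_zero] at h3
  exact h3

lemma mem_X_iff_formula {y : Y 𝕜} (hy : y ∈ X 𝕜) (i : Ix) :
    y i = L 𝕜 i (fun n => c 𝕜 n y) := by
  have h := gen 𝕜 (lp.evalCLM 𝕜 (fun i : Ix => G 𝕜 i) ∞ i) (c 𝕜)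
    (fun n => L 𝕜 i (Pi.single n (1 : 𝕜))) (i.1 ∪ range i.2.2) (E 𝕜) (fun n => by
      have h1 := L_eq_sum 𝕜 i (Pi.single n (1 : 𝕜))
      have h2 : (lp.evalCLM 𝕜 (fun i : Ix => G 𝕜 i) ∞ i) (E 𝕜 n)
        = L 𝕜 i (Pi.single n (1 : 𝕜)) := rfl
      rw [h2, h1]
      refine sum_congr rfl fun k _ => ?_
      rw [c_E]) y hy
  have h1 := L_eq_sum 𝕜 i (fun n => c 𝕜 n y)
  rw [h1]
  exact h

lemma norm_apply {y : Y 𝕜} (hy : y ∈ X 𝕜) (i : Ix) :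
    ‖y i‖ = V i.1 i.2.1 i.2.2 (fun n => c 𝕜 n y) := by
  rw [mem_X_iff_formula 𝕜 hy i, norm_L]

lemma V_le_norm {y : Y 𝕜} (hy : y ∈ X 𝕜) (A : Finset ℕ) (k M : ℕ) :
    V A k M (fun n => c 𝕜 n y) ≤ ‖y‖ := by
  have := lp.norm_apply_le_norm (by simp) y (A, k, M)
  rwa [norm_apply 𝕜 hy] at this

lemma norm_le_of_V {y : Y 𝕜} (hy : y ∈ X 𝕜) (C : ℝ)
    (h : ∀ A k M, V A k M (fun n => c 𝕜 n y) ≤ C) : ‖y‖ ≤ C := by
  apply lp.norm_le_of_forall_le'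
  intro i
  rw [norm_apply 𝕜 hy]
  exact h _ _ _

lemma E_mem (n : ℕ) : E 𝕜 n ∈ X 𝕜 :=
  Submodule.le_topologicalClosure _ (Submodule.subset_span ⟨n, rfl⟩)

end Pool.Agent.V11332.PA1
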