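import Mathlib

/-!
Abstract core of the parity argument for the generalised Payne inequality in the plane.
-/

namespace V11332.PY

open Finset

/-- Two commuting derivations which are antisymmetric for a nonnegative symmetric form. -/
structure Data (X : Type*) [AddCommGroup X] [Module ℝ X] where
  P : Fin 2 → Module.End ℝ X
  Q : X →ₗ[ℝ] X →ₗ[ℝ] ℝ
  comm : ∀ u, P 0 (P 1 u) = P 1 (P 0 u)
  symm : ∀ u v, Q u v = Q v u
  nonneg : ∀ u, 0 ≤ Q u u
  ibp : ∀ j u v, Q (P j u) v = - Q u (P j v)

namespace Data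

variable {X : Type*} [AddCommGroup X] [Module ℝ X] (D : Data X)

/-- minus the Laplacian -/
def L : Module.End ℝ X := -(D.P 0 * D.P 0 + D.P 1 * D.P 1)

lemma L_apply (u : X) : D.L u = -(D.P 0 (D.P 0 u) + D.P 1 (D.P 1 u)) := rfl

lemma commute01 : Commute (D.P 0) (D.P 1) := by
  apply LinearMap.ext
  intro u
  exact D.comm u

lemma commute_L (j : Fin 2) : Commute (D.P j) D.L := by
  have h01 := D.commute01
  unfold L
  fin_cases j
  · show Commute (D.P 0) _
    apply Commute.neg_right
    apply Commute.add_right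
    · exact (Commute.refl _).mul_right (Commute.refl _)
    · exact h01.mul_right h01
  · show Commute (D.P 1) _
    apply Commute.neg_right
    apply Commute.add_right
    · exact h01.symm.mul_right h01.symm
    · exact (Commute.refl _).mul_right (Commute.refl _)

lemma P_L_pow (j : Fin 2) (n : ℕ) (u : X) : D.P j ((D.L ^ n) u) = (D.L ^ n) (D.P j u) := by
  have h : Commute (D.P j) (D.L ^ n) := (D.commute_L j).pow_right n
  have := congrArg (fun f : Module.End ℝ X => f u) h.eq
  simpa using this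

/-- the form `q_n(u,v) = Q(L^n u, v)` -/
def q (n : ℕ) : X →ₗ[ℝ] X →ₗ[ℝ] ℝ := D.Q.comp (D.L ^ n)

lemma q_apply (n : ℕ) (u v : X) : D.q n u v = D.Q ((D.L ^ n) u) v := rfl

lemma q_ibp (n : ℕ) (j : Fin 2) (u v : X) : D.q n (D.P j u) v = - D.q n u (D.P j v) := by
  rw [q_apply, q_apply, ← P_L_pow, D.ibp]

lemma q_succ (n : ℕ) (u v : X) :
    D.q (n + 1) u v = D.q n (D.P 0 u) (D.P 0 v) + D.q n (D.P 1 u) (D.P 1 v) := by
  have h0 := D.q_ibp n 0 (D.P 0 u) v
  have h1 := D.q_ibp n 1 (D.P 1 u) v
  have h : D.q (n + 1) u v = D.q n (D.L u) v := by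
    rw [q_apply, q_apply, pow_succ]; rfl
  rw [h, L_apply]
  simp only [map_neg, map_add, LinearMap.neg_apply, LinearMap.add_apply]
  linarith

lemma q_symm (n : ℕ) (u v : X) : D.q n u v = D.q n v u := by
  induction n generalizing u v with
  | zero => simpa [q_apply] using D.symm u v
  | succ n ih => rw [q_succ, q_succ, ih (D.P 0 u), ih (D.P 1 u)]

lemma q_nonneg (n : ℕ) (u : X) : 0 ≤ D.q n u u := by
  induction n generalizing u with
  | zero => simpa [q_apply] using D.nonneg u
  | succ n ih => rw [q_succ]; exact add_nonneg (ih _) (ih _)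

lemma q_L_left (n : ℕ) (u v : X) : D.q n (D.L u) v = D.q (n + 1) u v := by
  rw [q_apply, q_apply, pow_succ]; rfl

lemma q_sq (n : ℕ) (u : X) : (D.q (n + 1) u u) ^ 2 ≤ D.q n u u * D.q (n + 2) u u := by
  have h := LinearMap.BilinForm.apply_sq_le_of_symm (D.q n) (fun x => D.q_nonneg n x)
    ⟨fun x y => by simpa using D.q_symm n x y⟩ (D.L u) u
  rw [D.q_L_left n u u, D.q_L_left n u (D.L u), D.q_symm (n + 1) u (D.L u),
    D.q_L_left (n + 1) u u] at h
  linarith

lemma q_pos_up (n : ℕ) (u : X) (h : 0 < D.q (n + 1) u u) : 0 < D.q n u u ∧ 0 < D.q (n + 2) u u := by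
  have h1 := D.q_sq n u
  have h2 := D.q_nonneg n u
  have h3 := D.q_nonneg (n + 2) u
  have h4 : 0 < D.q n u u * D.q (n + 2) u u := lt_of_lt_of_le (by positivity) h1
  constructor
  · rcases h2.lt_or_eq with h | h
    · exact h
    · rw [← h] at h4; simp at h4
  · rcases h3.lt_or_eq with h | h
    · exact h
    · rw [← h] at h4; simp at h4

lemma q_pos_down (n : ℕ) (u : X) (h : 0 < D.q n u u) : ∀ j ≤ n, 0 < D.q j u u := by
  intro j hj
  obtain ⟨i, rfl⟩ := Nat.exists_eq_add_of_le hj
  clear hj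
  induction i with
  | zero => simpa using h
  | succ i ih =>
    apply ih
    have := (D.q_pos_up (j + i) u (by simpa [Nat.add_assoc] using h)).1
    exact this

lemma q_pos_above (n : ℕ) (u : X) (h : 0 < D.q (n + 1) u u) : ∀ i, 0 < D.q (n + 1 + i) u u := by
  intro i
  induction i with
  | zero => simpa using h
  | succ i ih =>
    have e1 : n + i + 1 = n + 1 + i := by ring
    have e2 : n + i + 2 = n + 1 + (i + 1) := by ring
    have := (D.q_pos_up (n + i) u (by rw [e1]; exact ih)).2
    rw [e2] at this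
    exact this

lemma q_pos_all (n : ℕ) (u : X) (h : 0 < D.q (n + 1) u u) (j : ℕ) : 0 < D.q j u u := by
  rcases le_total j (n + 1) with hj | hj
  · exact D.q_pos_down _ u h j hj
  · obtain ⟨i, rfl⟩ := Nat.exists_eq_add_of_le hj
    exact D.q_pos_above n u h i

lemma q_ratio (a : ℕ) (u : X) (h : ∀ j, 0 < D.q j u u) (b : ℕ) :
    D.q (a + b) u u * D.q (a + 1) u u ≤ D.q (a + b + 1) u u * D.q a u u := by
  induction b with
  | zero => simp only [Nat.add_zero]; rw [mul_comm]
  | succ b ih =>
    have h1 := D.q_sq (a + b) u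
    have e1 : a + b + 2 = a + (b + 1) + 1 := by ring
    have e2 : a + b + 1 = a + (b + 1) := by ring
    rw [e1, e2] at h1
    rw [e2] at ih
    have p0 := h (a + b)
    have p1 := h (a + (b + 1))
    have p2 := h (a + (b + 1) + 1)
    have pa := h a
    have pa1 := h (a + 1)
    -- q_{n+1} * q_{a+1} <= q_{n+2} q_a, from q_n q_{a+1} <= q_{n+1} q_a and q_{n+1}^2 <= q_n q_{n+2}
    have : D.q (a + b) u u * (D.q (a + (b + 1)) u u * D.q (a + 1) u u)
        ≤ D.q (a + b) u u * (D.q (a + (b + 1) + 1) u u * D.q a u u) := by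
      calc D.q (a + b) u u * (D.q (a + (b + 1)) u u * D.q (a + 1) u u)
          = D.q (a + (b + 1)) u u * (D.q (a + b) u u * D.q (a + 1) u u) := by ring
        _ ≤ D.q (a + (b + 1)) u u * (D.q (a + (b + 1)) u u * D.q a u u) :=
            mul_le_mul_of_nonneg_left ih p1.le
        _ = (D.q (a + (b + 1)) u u) ^ 2 * D.q a u u := by ring
        _ ≤ (D.q (a + b) u u * D.q (a + (b + 1) + 1) u u) * D.q a u u :=
            mul_le_mul_of_nonneg_right h1 pa.le
        _ = _ := by ring
    exact le_of_mul_le_mul_left this p0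

lemma q_binom (n : ℕ) (u v : X) :
    D.q n u v = ∑ p ∈ antidiagonal n, (n.choose p.1 : ℝ) *
      D.Q ((D.P 0 ^ p.1) ((D.P 1 ^ p.2) u)) ((D.P 0 ^ p.1) ((D.P 1 ^ p.2) v)) := by
  induction n generalizing u v with
  | zero => simp [q_apply]
  | succ n ih =>
    rw [Finset.sum_antidiagonal_choose_succ_mul
      (fun a b => D.Q ((D.P 0 ^ a) ((D.P 1 ^ b) u)) ((D.P 0 ^ a) ((D.P 1 ^ b) v))) n]
    rw [q_succ, ih, ih, add_comm]
    have c01 : ∀ (b : ℕ) (z : X), (D.P 1 ^ b) (D.P 0 z) = D.P 0 ((D.P 1 ^ b) z) := by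
      intro b z
      have h : Commute (D.P 0) (D.P 1 ^ b) := D.commute01.pow_right b
      have := congrArg (fun f : Module.End ℝ X => f z) h.eq
      simpa using this.symm
    congr 1
    apply Finset.sum_congr rfl
    intro p hp
    have hp := Finset.HasAntidiagonal.mem_antidiagonal.mp hp
    have hch : n.choose p.2 = n.choose p.1 := (Nat.choose_symm_of_eq_add hp.symm).symm
    rw [hch, c01, c01, pow_succ]
    rfl

/-- the form `A = q_m - lam q_{m-t}` -/
def form (m t : ℕ) (lam : ℝ) : X →ₗ[ℝ] X →ₗ[ℝ] ℝ := D.q m - lam • D.q (m - t)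

lemma form_apply (m t : ℕ) (lam : ℝ) (u v : X) :
    D.form m t lam u v = D.q m u v - lam * D.q (m - t) u v := rfl

lemma form_symm (m t : ℕ) (lam : ℝ) (u v : X) : D.form m t lam u v = D.form m t lam v u := by
  rw [form_apply, form_apply, D.q_symm m, D.q_symm (m - t)]

lemma form_ibp (m t : ℕ) (lam : ℝ) (j : Fin 2) (u v : X) :
    D.form m t lam (D.P j u) v = - D.form m t lam u (D.P j v) := by
  rw [form_apply, form_apply, D.q_ibp m, D.q_ibp (m - t)]; ring

lemma form_succ (m t : ℕ) (htm : t ≤ m) (lam : ℝ) (u v : X) :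
    D.form (m + 1) t lam u v
      = D.form m t lam (D.P 0 u) (D.P 0 v) + D.form m t lam (D.P 1 u) (D.P 1 v) := by
  have e : m + 1 - t = m - t + 1 := by omega
  rw [form_apply, form_apply, form_apply, e, D.q_succ m, D.q_succ (m - t)]; ring

lemma form_neg (m t : ℕ) (htm : t ≤ m) (lam : ℝ) (u : X)
    (h : D.form (m + 1) t lam u u < 0) : D.form m t lam u u < 0 := by
  rw [form_apply] at h ⊢
  have e : m + 1 - t = m - t + 1 := by omega
  rw [e] at h
  have h1 := D.q_nonneg (m + 1) u
  have h2 := D.q_nonneg (m - t + 1) u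
  have hpos : 0 < D.q (m - t + 1) u u := by
    rcases h2.lt_or_eq with h' | h'
    · exact h'
    · rw [← h'] at h; simp at h; linarith
  have hall := D.q_pos_all _ u hpos
  have hr := D.q_ratio (m - t) u hall t
  have e2 : m - t + t = m := by omega
  rw [e2] at hr
  have hpa := hall (m - t)
  have h3 : D.q (m + 1) u u * D.q (m - t) u u < lam * D.q (m - t + 1) u u * D.q (m - t) u u :=
    mul_lt_mul_of_pos_right (by linarith) hpa
  have h4 : D.q (m - t + 1) u u * D.q m u u < D.q (m - t + 1) u u * (lam * D.q (m - t) u u) := by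
    calc D.q (m - t + 1) u u * D.q m u u = D.q m u u * D.q (m - t + 1) u u := by ring
      _ ≤ _ := hr
      _ < _ := h3
      _ = _ := by ring
  have h5 := lt_of_mul_lt_mul_left h4 hpos.le
  linarith

/-- The parity argument. -/
theorem core (m t : ℕ) (htm : t ≤ m) (lam : ℝ) (k : ℕ) (hk : Odd k) (φ : Fin k → X)
    (hB : ∀ c : Fin k → ℝ, c ≠ 0 →
      D.form (m + 1) t lam (∑ i, c i • φ i) (∑ i, c i • φ i) < 0) :
    ∃ ψ : Fin (k + 1) → X, ∀ c : Fin (k + 1) → ℝ, c ≠ 0 →
      D.form m t lam (∑ i, c i • ψ i) (∑ i, c i • ψ i) < 0 := by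
  set a := D.form m t lam with ha
  have hA : ∀ c : Fin k → ℝ, c ≠ 0 → a (∑ i, c i • φ i) (∑ i, c i • φ i) < 0 :=
    fun c hc => D.form_neg m t htm lam _ (hB c hc)
  let Θ : Matrix (Fin k) (Fin k) ℂ := Matrix.of fun r s =>
    ((a (D.P 0 (φ r)) (φ s) : ℝ) : ℂ) + Complex.I * ((a (D.P 1 (φ r)) (φ s) : ℝ) : ℂ)
  have hanti : Θ.transpose = -Θ := by
    ext r s
    simp only [Matrix.transpose_apply, Matrix.neg_apply, Θ, Matrix.of_apply]
    have h0 : a (D.P 0 (φ s)) (φ r) = - a (D.P 0 (φ r)) (φ s) := by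
      rw [ha, D.form_ibp, D.form_symm]
    have h1 : a (D.P 1 (φ s)) (φ r) = - a (D.P 1 (φ r)) (φ s) := by
      rw [ha, D.form_ibp, D.form_symm]
    rw [h0, h1]
    push_cast
    ring
  have hdet : Θ.det = 0 := by
    have h1 : Θ.det = - Θ.det := by
      calc Θ.det = Θ.transpose.det := (Matrix.det_transpose Θ).symm
        _ = (-Θ).det := by rw [hanti]
        _ = (-1) ^ k * Θ.det := by rw [Matrix.det_neg, Fintype.card_fin]
        _ = - Θ.det := by rw [hk.neg_one_pow]; ring
    have h2 : (2 : ℂ) * Θ.det = 0 := by linear_combination h1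
    simpa using h2
  obtain ⟨v, hv0, hv⟩ := Matrix.exists_vecMul_eq_zero_iff.mpr hdet
  set x : Fin k → ℝ := fun r => (v r).re with hx
  set y : Fin k → ℝ := fun r => (v r).im with hy
  set u := ∑ i, x i • φ i with hu
  set w := ∑ i, y i • φ i with hw
  have hre : ∀ s, a (D.P 0 u - D.P 1 w) (φ s) = 0 := by
    intro s
    have h := congrArg Complex.re (congrFun hv s)
    simp only [Matrix.vecMul, dotProduct, Θ, Matrix.of_apply, Pi.zero_apply, Complex.zero_re,
      Complex.re_sum, Complex.mul_re, Complex.add_re, Complex.add_im, Complex.ofReal_re,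
      Complex.ofReal_im, Complex.I_re, Complex.I_im, Complex.mul_im] at h
    rw [hu, hw]
    simp only [map_sub, map_sum, map_smul, LinearMap.sub_apply, LinearMap.sum_apply,
      LinearMap.smul_apply, smul_eq_mul]
    rw [← Finset.sum_sub_distrib, ← h]
    apply Finset.sum_congr rfl
    intro i _
    simp only [hx, hy]
    ring
  have him : ∀ s, a (D.P 1 u + D.P 0 w) (φ s) = 0 := by
    intro s
    have h := congrArg Complex.im (congrFun hv s)
    simp only [Matrix.vecMul, dotProduct, Θ, Matrix.of_apply, Pi.zero_apply, Complex.zero_im,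
      Complex.im_sum, Complex.mul_re, Complex.add_re, Complex.add_im, Complex.ofReal_re,
      Complex.ofReal_im, Complex.I_re, Complex.I_im, Complex.mul_im] at h
    rw [hu, hw]
    simp only [map_add, map_sum, map_smul, LinearMap.add_apply, LinearMap.sum_apply,
      LinearMap.smul_apply, smul_eq_mul]
    rw [← Finset.sum_add_distrib, ← h]
    apply Finset.sum_congr rfl
    intro i _
    simp only [hx, hy]
    ring
  -- the sum of the two values
  have hsum : a (D.P 0 u - D.P 1 w) (D.P 0 u - D.P 1 w)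
      + a (D.P 1 u + D.P 0 w) (D.P 1 u + D.P 0 w)
      = D.form (m + 1) t lam u u + D.form (m + 1) t lam w w := by
    have hc : a (D.P 1 u) (D.P 0 w) = a (D.P 0 u) (D.P 1 w) := by
      have e1 : a (D.P 1 u) (D.P 0 w) = - a u (D.P 1 (D.P 0 w)) := D.form_ibp m t lam 1 u _
      have e2 : a (D.P 0 u) (D.P 1 w) = - a u (D.P 0 (D.P 1 w)) := D.form_ibp m t lam 0 u _
      rw [e1, e2, D.comm w]
    have hs1 : a (D.P 1 w) (D.P 0 u) = a (D.P 0 u) (D.P 1 w) := D.form_symm m t lam _ _
    have hs2 : a (D.P 0 w) (D.P 1 u) = a (D.P 1 u) (D.P 0 w) := D.form_symm m t lam _ _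
    rw [D.form_succ m t htm, D.form_succ m t htm]
    simp only [map_add, map_sub, LinearMap.add_apply, LinearMap.sub_apply]
    rw [← ha]
    linarith
  have hneg : D.form (m + 1) t lam u u + D.form (m + 1) t lam w w < 0 := by
    by_cases hx0 : x = 0
    · have hy0 : y ≠ 0 := by
        intro hy0
        apply hv0
        funext i
        apply Complex.ext
        · exact congrFun hx0 i
        · exact congrFun hy0 i
      have h1 := hB y hy0
      have h2 : u = 0 := by rw [hu, hx0]; simp
      rw [h2, map_zero, zero_add]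
      exact h1
    · have h1 := hB x hx0
      by_cases hy0 : y = 0
      · have h2 : w = 0 := by rw [hw, hy0]; simp
        rw [h2, map_zero, add_zero]
        exact h1
      · have h2 := hB y hy0
        linarith
  -- choose the negative direction
  have hex : ∃ h : X, a h h < 0 ∧ ∀ s, a h (φ s) = 0 := by
    by_contra hcon
    push Not at hcon
    have h1 : 0 ≤ a (D.P 0 u - D.P 1 w) (D.P 0 u - D.P 1 w) := by
      by_contra h
      push Not at h
      obtain ⟨s, hs⟩ := hcon _ h
      exact hs (hre s)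
    have h2 : 0 ≤ a (D.P 1 u + D.P 0 w) (D.P 1 u + D.P 0 w) := by
      by_contra h
      push Not at h
      obtain ⟨s, hs⟩ := hcon _ h
      exact hs (him s)
    linarith
  obtain ⟨h, hh, horth⟩ := hex
  refine ⟨Fin.cons h φ, fun c hc => ?_⟩
  rw [Fin.sum_univ_succ]
  simp only [Fin.cons_zero, Fin.cons_succ]
  set e := ∑ i : Fin k, c i.succ • φ i with he
  have hhe : a h e = 0 := by
    rw [he]
    simp [horth]
  have heh : a e h = 0 := by rw [← hhe]; exact D.form_symm m t lam _ _
  have hexp : a (c 0 • h + e) (c 0 • h + e) = (c 0) ^ 2 * a h h + a e e := by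
    simp only [map_add, map_smul, LinearMap.add_apply, LinearMap.smul_apply, smul_eq_mul, hhe, heh]
    ring
  rw [hexp]
  by_cases hc' : (fun i : Fin k => c i.succ) = 0
  · have he0 : e = 0 := by
      rw [he]
      apply Finset.sum_eq_zero
      intro i _
      have := congrFun hc' i
      simp only [Pi.zero_apply] at this
      rw [this, zero_smul]
    have hc0 : c 0 ≠ 0 := by
      intro h0
      apply hc
      funext i
      refine Fin.cases h0 (fun j => ?_) i
      exact congrFun hc' j
    rw [he0]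
    simp only [map_zero, add_zero]
    have : 0 < (c 0) ^ 2 := by positivity
    nlinarith
  · have := hA _ hc'
    have h2 : 0 ≤ (c 0) ^ 2 := by positivity
    nlinarith

end Data

end V11332.PY
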