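import Mathlib

/-!
Definitions for the polyharmonic min-max values on subsets of the plane.
-/

open MeasureTheory
open scoped ContDiff ENNReal NNReal

namespace V11332.PY

/-- The Euclidean plane. -/
abbrev Plane := EuclideanSpace ℝ (Fin 2)

/-- Lebesgue measure on the plane. -/
noncomputable def lebesgue : Measure Plane := volume

/-- The space of real square-integrable functions on the plane modulo null sets. -/
def L2 : Type := Lp ℝ 2 lebesgue

noncomputable instance instNormedAddCommGroupL2 : NormedAddCommGroup L2 :=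
  Lp.instNormedAddCommGroup (E := ℝ) (p := 2) (μ := lebesgue)

noncomputable instance instNormedSpaceL2 : NormedSpace ℝ L2 :=
  Lp.instNormedSpace (E := ℝ) (p := 2) (μ := lebesgue) (𝕜 := ℝ)

/-- The class of functions up to null sets given by an element of `L2`. -/
noncomputable def L2.toClass (w : L2) : Plane →ₘ[lebesgue] ℝ := w.1

/-- A representative of an element of `L2`. -/
noncomputable def L2.rep (w : L2) : Plane → ℝ := w.toClass

/-- The derivative in the direction of the `j`-th coordinate. -/
noncomputable def partialDeriv (j : Fin 2) (u : Plane → ℝ) : Plane → ℝ :=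
  fun x => fderiv ℝ u x (EuclideanSpace.single j 1)

/-- The mixed derivative: `b` derivatives in direction `1`, then `a` derivatives in
direction `0`. -/
noncomputable def mixedDeriv (a b : ℕ) (u : Plane → ℝ) : Plane → ℝ :=
  (partialDeriv 0)^[a] ((partialDeriv 1)^[b] u)

/-- Smooth real functions whose support is compact and contained in `Ω`. -/
def IsTest (Ω : Set Plane) (u : Plane → ℝ) : Prop :=
  ContDiff ℝ ∞ u ∧ HasCompactSupport u ∧ tsupport u ⊆ Ω

/-- `w` is the jet of order `m` of `u`: for `a + b ≤ m` the entry of `w` at (a, b) is the class of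
the mixed derivative of type (a, b) of `u`, and all other entries vanish. -/
def IsJet (m : ℕ) (u : Plane → ℝ) (w : ℕ × ℕ → L2) : Prop :=
  ∀ a b : ℕ, (a + b ≤ m → (w (a, b)).rep =ᵐ[lebesgue] mixedDeriv a b u) ∧
    (m < a + b → w (a, b) = 0)

/-- The space `H_0^m(Ω)`, each element being recorded together with its weak derivatives up to
order `m`: the closure of the jets of test functions for convergence in `L2` of every entry. -/
def H0 (Ω : Set Plane) (m : ℕ) : Set (ℕ × ℕ → L2) :=
  closure {w | ∃ u, IsTest Ω u ∧ IsJet m u w}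

/-- The form `q_j(w)`, the sum over multi-indices `α` of length `j` of `j!/α!` times the squared
`L2` norm of the derivative of type `α`. -/
noncomputable def q (j : ℕ) (w : ℕ × ℕ → L2) : ℝ :=
  ∑ p ∈ Finset.HasAntidiagonal.antidiagonal j, (j.choose p.1 : ℝ) * ‖w p‖ ^ 2

/-- There is a `k`-dimensional subspace of `H_0^m(Ω)` on which the quotient of `q_m` by `q_{m-t}`
is well defined away from zero and is at most `Λ`. -/
def Admissible (Ω : Set Plane) (m t k : ℕ) (Λ : ℝ≥0) : Prop :=
  ∃ V : Submodule ℝ (ℕ × ℕ → L2), (V : Set (ℕ × ℕ → L2)) ⊆ H0 Ω m ∧ Module.finrank ℝ V = k ∧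
    ∀ w ∈ V, w ≠ 0 → 0 < q (m - t) w ∧ q m w / q (m - t) w ≤ Λ

/-- The `k`-th min-max value of the quotient of `q_m` by `q_{m-t}` on `H_0^m(Ω)`. -/
noncomputable def eig (Ω : Set Plane) (m t k : ℕ) : ℝ≥0∞ :=
  sInf {x | ∃ Λ : ℝ≥0, Admissible Ω m t k Λ ∧ x = Λ}

end V11332.PY
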