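import Mathlib
import Pool.Agent.V11332.PY1
import Pool.Agent.V11332.PYDef

open MeasureTheory
open scoped ContDiff ENNReal NNReal

namespace V11332.PY

/-- test functions as a submodule -/
def Test (Ω : Set Plane) : Submodule ℝ (Plane → ℝ) where
  carrier := {u | IsTest Ω u}
  add_mem' := by
    rintro u v ⟨hu1, hu2, hu3⟩ ⟨hv1, hv2, hv3⟩
    refine ⟨hu1.add hv1, hu2.add hv2, ?_⟩
    exact (tsupport_add u v).trans (Set.union_subset hu3 hv3)
  zero_mem' := by
    refine ⟨contDiff_const, HasCompactSupport.zero, ?_⟩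
    intro x hx
    simp [tsupport] at hx
  smul_mem' := by
    rintro c u ⟨hu1, hu2, hu3⟩
    refine ⟨contDiff_const.smul hu1, hu2.smul_left (f := fun _ => c), ?_⟩
    refine (closure_mono ?_).trans hu3
    intro x hx
    simp only [Function.mem_support, Pi.smul_apply, smul_eq_mul, ne_eq, mul_eq_zero, not_or] at hx
    exact hx.2

lemma isTest_partialDeriv {Ω : Set Plane} {u : Plane → ℝ} (hu : IsTest Ω u) (j : Fin 2) :
    IsTest Ω (partialDeriv j u) := by
  obtain ⟨h1, h2, h3⟩ := hu
  refine ⟨?_, ?_, ?_⟩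
  · exact (h1.fderiv_right (m := ∞) (by simp)).clm_apply contDiff_const
  · exact h2.fderiv_apply ℝ _
  · exact (tsupport_fderiv_apply_subset ℝ _).trans h3

lemma IsTest.diff {Ω : Set Plane} {u : Plane → ℝ} (hu : IsTest Ω u) : Differentiable ℝ u :=
  hu.1.differentiable (by simp)

/-- coordinate derivative on test functions -/
noncomputable def pd (Ω : Set Plane) (j : Fin 2) : Module.End ℝ (Test Ω) where
  toFun u := ⟨partialDeriv j u.1, isTest_partialDeriv u.2 j⟩
  map_add' u v := by
    apply Subtype.ext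
    funext x
    show fderiv ℝ (u.1 + v.1) x _ = fderiv ℝ u.1 x _ + fderiv ℝ v.1 x _
    rw [fderiv_add (IsTest.diff u.2 x) (IsTest.diff v.2 x)]
    rfl
  map_smul' c u := by
    apply Subtype.ext
    funext x
    show fderiv ℝ (c • u.1) x _ = c • fderiv ℝ u.1 x _
    rw [fderiv_const_smul (IsTest.diff u.2 x)]
    rfl

lemma pd_coe (Ω : Set Plane) (j : Fin 2) (u : Test Ω) : (pd Ω j u).1 = partialDeriv j u.1 := rfl

lemma pd_pow_coe (Ω : Set Plane) (j : Fin 2) (n : ℕ) (u : Test Ω) :
    ((pd Ω j ^ n) u).1 = (partialDeriv j)^[n] u.1 := by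
  induction n with
  | zero => rfl
  | succ n ih =>
    rw [pow_succ', Function.iterate_succ_apply', ← ih]
    rfl

lemma IsTest.cont {Ω : Set Plane} {u : Plane → ℝ} (hu : IsTest Ω u) : Continuous u :=
  hu.1.continuous

lemma integrable_mul {Ω : Set Plane} {u v : Plane → ℝ} (hu : IsTest Ω u) (hv : IsTest Ω v) :
    Integrable (fun x => u x * v x) := by
  apply Continuous.integrable_of_hasCompactSupport (hu.cont.mul hv.cont)
  exact hu.2.1.mul_right

/-- L² pairing on test functions -/
noncomputable def Q0 (Ω : Set Plane) : Test Ω →ₗ[ℝ] Test Ω →ₗ[ℝ] ℝ :=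
  LinearMap.mk₂ ℝ (fun u v => ∫ x, u.1 x * v.1 x)
    (by
      intro u u' v
      show ∫ x, (u.1 x + u'.1 x) * v.1 x = _
      rw [← integral_add (integrable_mul u.2 v.2) (integrable_mul u'.2 v.2)]
      congr 1; funext x; ring)
    (by
      intro c u v
      show ∫ x, (c * u.1 x) * v.1 x = c * _
      rw [← integral_const_mul]
      congr 1; funext x; ring)
    (by
      intro u v v'
      show ∫ x, u.1 x * (v.1 x + v'.1 x) = _
      rw [← integral_add (integrable_mul u.2 v.2) (integrable_mul u.2 v'.2)]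
      congr 1; funext x; ring)
    (by
      intro c u v
      show ∫ x, u.1 x * (c * v.1 x) = c * _
      rw [← integral_const_mul]
      congr 1; funext x; ring)

lemma Q0_apply (Ω : Set Plane) (u v : Test Ω) : Q0 Ω u v = ∫ x, u.1 x * v.1 x := rfl

lemma pd_comm {u : Plane → ℝ} (hu : ContDiff ℝ ∞ u) :
    partialDeriv 0 (partialDeriv 1 u) = partialDeriv 1 (partialDeriv 0 u) := by
  funext x
  have hd : Differentiable ℝ (fderiv ℝ u) := (hu.fderiv_right (m := ∞) (by simp)).differentiable (by simp)
  have key : ∀ i j : Fin 2, partialDeriv i (partialDeriv j u) x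
      = fderiv ℝ (fderiv ℝ u) x (EuclideanSpace.single i 1) (EuclideanSpace.single j 1) := by
    intro i j
    unfold partialDeriv
    rw [fderiv_clm_apply (hd x) (differentiableAt_const _)]
    simp
  rw [key, key]
  have hs : IsSymmSndFDerivAt ℝ u x := by
    apply ContDiffAt.isSymmSndFDerivAt (n := ∞) hu.contDiffAt
    rw [minSmoothness_of_isRCLikeNormedField]
    exact WithTop.coe_le_coe.2 le_top
  exact hs _ _

/-- the data for the abstract core -/
noncomputable def data (Ω : Set Plane) : Data (Test Ω) where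
  P := pd Ω
  Q := Q0 Ω
  comm u := Subtype.ext (pd_comm u.2.1)
  symm u v := by
    rw [Q0_apply, Q0_apply]
    congr 1; funext x; ring
  nonneg u := by
    rw [Q0_apply]
    exact integral_nonneg (fun x => mul_self_nonneg _)
  ibp j u v := by
    rw [Q0_apply, Q0_apply]
    have hju := isTest_partialDeriv u.2 j
    have hjv := isTest_partialDeriv v.2 j
    have h := integral_mul_fderiv_eq_neg_fderiv_mul_of_integrable
      (μ := (volume : Measure Plane)) (f := u.1) (g := v.1)
      (v := (EuclideanSpace.single j 1 : Plane))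
      (integrable_mul hju v.2) (integrable_mul u.2 hjv) (integrable_mul u.2 v.2)
      (fun x _ => IsTest.diff u.2 x) (fun x _ => IsTest.diff v.2 x)
    show ∫ x, fderiv ℝ u.1 x _ * v.1 x = - ∫ x, u.1 x * fderiv ℝ v.1 x _
    rw [h, neg_neg]

end V11332.PY
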