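import Mathlib
import Pool.Agent.V11332.PY2

open MeasureTheory Topology
open scoped ContDiff ENNReal NNReal

namespace V11332.PY

variable {Ω : Set Plane}

lemma test_memLp {u : Plane → ℝ} (hu : IsTest Ω u) : MemLp u 2 lebesgue := by
  show MemLp u 2 (volume : Measure Plane)
  exact hu.cont.memLp_of_hasCompactSupport hu.2.1

/-- the class of a test function -/
noncomputable def toLpTest (Ω : Set Plane) : Test Ω →ₗ[ℝ] Lp ℝ 2 lebesgue where
  toFun u := (test_memLp u.2).toLp u.1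
  map_add' u v := (test_memLp u.2).toLp_add (test_memLp v.2)
  map_smul' c u := (test_memLp u.2).toLp_const_smul c

lemma toLpTest_coe (u : Test Ω) : (toLpTest Ω u : Plane → ℝ) =ᵐ[lebesgue] u.1 :=
  (test_memLp u.2).coeFn_toLp

lemma norm_toLpTest_sq (u : Test Ω) : ‖toLpTest Ω u‖ ^ 2 = Q0 Ω u u := by
  rw [← real_inner_self_eq_norm_sq, MeasureTheory.L2.inner_def, Q0_apply]
  apply integral_congr_ae
  filter_upwards [toLpTest_coe u] with x hx
  rw [hx]
  simp [sq]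

/-- the class of a test function -/
noncomputable def toL2 (Ω : Set Plane) : Test Ω →ₗ[ℝ] L2 := toLpTest Ω

lemma toL2_coe (u : Test Ω) : (toL2 Ω u).rep =ᵐ[lebesgue] u.1 := toLpTest_coe u

lemma norm_toL2_sq (u : Test Ω) : ‖toL2 Ω u‖ ^ 2 = Q0 Ω u u := norm_toLpTest_sq u

lemma L2_ext {v w : L2} (h : v.rep =ᵐ[lebesgue] w.rep) : v = w := Lp.ext h

/-- jets of test functions -/
noncomputable def jetMap (Ω : Set Plane) (m : ℕ) : Test Ω →ₗ[ℝ] (ℕ × ℕ → L2) where
  toFun u := fun p => if p.1 + p.2 ≤ m then toL2 Ω ((pd Ω 0 ^ p.1) ((pd Ω 1 ^ p.2) u)) else 0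
  map_add' u v := by
    funext p
    by_cases hp : p.1 + p.2 ≤ m <;> simp [hp]
  map_smul' c u := by
    funext p
    by_cases hp : p.1 + p.2 ≤ m <;> simp [hp]

lemma jetMap_apply (m : ℕ) (u : Test Ω) (p : ℕ × ℕ) : jetMap Ω m u p =
    if p.1 + p.2 ≤ m then toL2 Ω ((pd Ω 0 ^ p.1) ((pd Ω 1 ^ p.2) u)) else 0 := rfl

lemma mixed_coe (a b : ℕ) (u : Test Ω) :
    ((pd Ω 0 ^ a) ((pd Ω 1 ^ b) u)).1 = mixedDeriv a b u.1 := by
  rw [pd_pow_coe, pd_pow_coe]; rfl

lemma jetMap_isJet (m : ℕ) (u : Test Ω) : IsJet m u.1 (jetMap Ω m u) := by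
  intro a b
  constructor
  · intro h
    rw [jetMap_apply, if_pos h, ← mixed_coe]
    exact toL2_coe _
  · intro h
    rw [jetMap_apply, if_neg (by simpa using h)]

lemma eq_jetMap (m : ℕ) (u : Test Ω) (w : ℕ × ℕ → L2) (hw : IsJet m u.1 w) :
    w = jetMap Ω m u := by
  funext p
  obtain ⟨a, b⟩ := p
  rcases le_or_gt (a + b) m with h | h
  · apply L2_ext
    have h1 := (hw a b).1 h
    have h2 := (jetMap_isJet m u a b).1 h
    exact h1.trans h2.symm
  · rw [(hw a b).2 h, (jetMap_isJet m u a b).2 h]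

lemma q_jetMap (m j : ℕ) (hj : j ≤ m) (u : Test Ω) : q j (jetMap Ω m u) = (data Ω).q j u u := by
  rw [Data.q_binom]
  unfold q
  apply Finset.sum_congr rfl
  intro p hp
  have hp' := Finset.HasAntidiagonal.mem_antidiagonal.mp hp
  rw [jetMap_apply, if_pos (by omega), norm_toL2_sq]
  rfl

lemma q_nonneg (j : ℕ) (w : ℕ × ℕ → L2) : 0 ≤ q j w := by
  unfold q
  positivity

lemma q_smul (j : ℕ) (c : ℝ) (w : ℕ × ℕ → L2) : q j (c • w) = c ^ 2 * q j w := by
  unfold q
  rw [Finset.mul_sum]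
  apply Finset.sum_congr rfl
  intro p _
  rw [Pi.smul_apply, norm_smul, mul_pow, Real.norm_eq_abs, sq_abs]
  ring

lemma q_continuous (j : ℕ) : Continuous (q j) := by
  unfold q
  fun_prop

/-- Approximation of tuples. -/
lemma approx (m t : ℕ) (lam : ℝ) (k : ℕ) (v : Fin k → (ℕ × ℕ → L2))
    (hv : ∀ i, v i ∈ H0 Ω m)
    (hneg : ∀ c : Fin k → ℝ, c ≠ 0 →
      q m (∑ i, c i • v i) - lam * q (m - t) (∑ i, c i • v i) < 0) :
    ∃ φ : Fin k → Test Ω, ∀ c : Fin k → ℝ, c ≠ 0 →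
      (data Ω).form m t lam (∑ i, c i • φ i) (∑ i, c i • φ i) < 0 := by
  classical
  obtain ⟨F, hFdef⟩ : ∃ F : (Fin k → (ℕ × ℕ → L2)) × (Fin k → ℝ) → ℝ, ∀ z, F z =
      q m (∑ i, z.2 i • z.1 i) - lam * q (m - t) (∑ i, z.2 i • z.1 i) := ⟨_, fun _ => rfl⟩
  have hF : Continuous F := by
    have h1 : Continuous (fun z : (Fin k → (ℕ × ℕ → L2)) × (Fin k → ℝ) =>
        ∑ i, z.2 i • z.1 i) := by fun_prop
    have h2 := ((q_continuous m).comp h1).sub
      (((q_continuous (m - t)).comp h1).const_mul lam)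
    exact h2.congr (fun z => (hFdef z).symm)
  have hK : IsCompact (Metric.sphere (0 : Fin k → ℝ) 1) := isCompact_sphere _ _
  have hopen : IsOpen {z | F z < 0} := isOpen_lt hF continuous_const
  have hev : ∀ᶠ w in 𝓝 v, ∀ c ∈ Metric.sphere (0 : Fin k → ℝ) 1, F (w, c) < 0 := by
    apply hK.eventually_forall_of_forall_eventually (P := fun w c => F (w, c) < 0)
    intro c hc
    have hc0 : c ≠ 0 := by
      intro h
      rw [h] at hc
      simp at hc
    have hm : (v, c) ∈ {z | F z < 0} := by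
      show F (v, c) < 0
      rw [hFdef]
      exact hneg c hc0
    exact hopen.mem_nhds hm
  have hcl : v ∈ closure (Set.univ.pi fun _ : Fin k => {w | ∃ u, IsTest Ω u ∧ IsJet m u w}) := by
    rw [closure_pi_set]
    intro i _
    exact hv i
  obtain ⟨w, hw1, hw2⟩ := ((mem_closure_iff_frequently.mp hcl).and_eventually hev).exists
  have hw3 : ∀ i, ∃ φ : Test Ω, w i = jetMap Ω m φ := by
    intro i
    obtain ⟨u, hu1, hu2⟩ := hw1 i (Set.mem_univ i)
    exact ⟨⟨u, hu1⟩, eq_jetMap m ⟨u, hu1⟩ _ hu2⟩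
  choose φ hφ using hw3
  refine ⟨φ, fun c hc => ?_⟩
  have hnorm : 0 < ‖c‖ := norm_pos_iff.mpr hc
  have h1 := hw2 (‖c‖⁻¹ • c) (by
    rw [mem_sphere_zero_iff_norm, norm_smul, norm_inv, norm_norm]
    exact inv_mul_cancel₀ hnorm.ne')
  rw [hFdef] at h1
  simp only at h1
  have e1 : ∑ i, (‖c‖⁻¹ • c) i • w i = ‖c‖⁻¹ • jetMap Ω m (∑ i, c i • φ i) := by
    rw [map_sum, Finset.smul_sum]
    apply Finset.sum_congr rfl
    intro i _
    rw [hφ i, map_smul, Pi.smul_apply, smul_eq_mul, mul_smul]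
  rw [e1, q_smul, q_smul, q_jetMap m m le_rfl, q_jetMap m (m - t) (Nat.sub_le m t)] at h1
  rw [Data.form_apply]
  have h2 : (‖c‖⁻¹) ^ 2 * ((data Ω).q m (∑ i, c i • φ i) (∑ i, c i • φ i)
      - lam * (data Ω).q (m - t) (∑ i, c i • φ i) (∑ i, c i • φ i)) < 0 := by
    linarith
  have h3 : 0 < (‖c‖⁻¹) ^ 2 := by positivity
  by_contra hcon
  push Not at hcon
  have := mul_nonneg h3.le hcon
  linarith

/-- From negative tuples of test functions to admissible values. -/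
lemma admissible_of (m t : ℕ) (Λ : ℝ≥0) (k : ℕ) (ψ : Fin k → Test Ω)
    (hneg : ∀ c : Fin k → ℝ, c ≠ 0 →
      (data Ω).form m t Λ (∑ i, c i • ψ i) (∑ i, c i • ψ i) < 0) :
    Admissible Ω m t k Λ := by
  classical
  have hform : ∀ c : Fin k → ℝ, c ≠ 0 →
      q m (∑ i, c i • jetMap Ω m (ψ i)) - Λ * q (m - t) (∑ i, c i • jetMap Ω m (ψ i)) < 0 := by
    intro c hc
    have e : ∑ i, c i • jetMap Ω m (ψ i) = jetMap Ω m (∑ i, c i • ψ i) := by
      rw [map_sum]
      apply Finset.sum_congr rfl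
      intro i _
      rw [map_smul]
    rw [e, q_jetMap m m le_rfl, q_jetMap m (m - t) (Nat.sub_le m t)]
    exact hneg c hc
  have hli : LinearIndependent ℝ (fun i => jetMap Ω m (ψ i)) := by
    rw [Fintype.linearIndependent_iff]
    intro c hc i
    by_contra hci
    have hc0 : c ≠ 0 := fun h => hci (by rw [h]; rfl)
    have := hform c hc0
    rw [hc] at this
    have e0 : ∀ j, q j (0 : ℕ × ℕ → L2) = 0 := by
      intro j
      simp [q]
    rw [e0, e0] at this
    simp at this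
  refine ⟨Submodule.span ℝ (Set.range fun i => jetMap Ω m (ψ i)), ?_, ?_, ?_⟩
  · intro w hw
    have hle : Submodule.span ℝ (Set.range fun i => jetMap Ω m (ψ i)) ≤
        LinearMap.range (jetMap Ω m) := by
      rw [Submodule.span_le]
      rintro _ ⟨i, rfl⟩
      exact ⟨ψ i, rfl⟩
    obtain ⟨u, rfl⟩ := hle hw
    exact subset_closure ⟨u.1, u.2, jetMap_isJet m u⟩
  · rw [finrank_span_eq_card hli, Fintype.card_fin]
  · intro w hw hw0
    obtain ⟨c, rfl⟩ := (Submodule.mem_span_range_iff_exists_fun ℝ).mp hw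
    have hc0 : c ≠ 0 := by
      rintro rfl
      apply hw0
      simp
    have h1 := hform c hc0
    have h2 := q_nonneg m (∑ i, c i • jetMap Ω m (ψ i))
    have h3 := q_nonneg (m - t) (∑ i, c i • jetMap Ω m (ψ i))
    have h4 : 0 < q (m - t) (∑ i, c i • jetMap Ω m (ψ i)) := by
      rcases h3.lt_or_eq with h | h
      · exact h
      · rw [← h] at h1; linarith
    refine ⟨h4, ?_⟩
    rw [div_le_iff₀ h4]
    linarith

/-- The inequality. -/
theorem main (Ω : Set Plane) (m t k : ℕ) (htm : t ≤ m) (hk : Odd k) :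
    eig Ω m t (k + 1) ≤ eig Ω (m + 1) t k := by
  apply le_sInf
  rintro x ⟨Λ, ⟨V, hV1, hV2, hV3⟩, rfl⟩
  apply ENNReal.le_of_forall_pos_le_add
  intro ε hε _
  have hkpos : 0 < k := hk.pos
  have hfin : Module.Finite ℝ V := Module.finite_of_finrank_pos (by rw [hV2]; exact hkpos)
  let b : Module.Basis (Fin k) ℝ V := Module.finBasisOfFinrankEq ℝ V hV2
  have hneg : ∀ c : Fin k → ℝ, c ≠ 0 →
      q (m + 1) (∑ i, c i • (b i : ℕ × ℕ → L2))
        - ((Λ + ε : ℝ≥0) : ℝ) * q (m + 1 - t) (∑ i, c i • (b i : ℕ × ℕ → L2)) < 0 := by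
    intro c hc
    have e : ∑ i, c i • (b i : ℕ × ℕ → L2) = ((∑ i, c i • b i : V) : ℕ × ℕ → L2) := by
      push_cast
      rfl
    have hne : (∑ i, c i • (b i : ℕ × ℕ → L2)) ≠ 0 := by
      rw [e]
      intro h
      have h' : (∑ i, c i • b i : V) = 0 := Subtype.ext h
      apply hc
      funext i
      exact (Fintype.linearIndependent_iff.mp b.linearIndependent) c h' i
    have hmem : (∑ i, c i • (b i : ℕ × ℕ → L2)) ∈ V := by
      rw [e]
      exact (∑ i, c i • b i : V).2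
    obtain ⟨h1, h2⟩ := hV3 _ hmem hne
    rw [div_le_iff₀ h1] at h2
    have hε' : 0 < (ε : ℝ) := hε
    have h3 := mul_pos hε' h1
    push_cast
    linarith
  obtain ⟨φ, hφ⟩ := approx (Ω := Ω) (m + 1) t _ k (fun i => (b i : ℕ × ℕ → L2))
    (fun i => hV1 (b i).2) hneg
  obtain ⟨ψ, hψ⟩ := (data Ω).core m t htm _ k hk φ hφ
  have hadm := admissible_of m t (Λ + ε) (k + 1) ψ hψ
  apply sInf_le
  exact ⟨Λ + ε, hadm, by push_cast; rfl⟩

end V11332.PY
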