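import Mathlib
import Pool.Agent.V11332.PY1

/-!
Version of the core argument for forms invariant under a rotation of finite order.
-/

namespace V11332.PY

open Finset

namespace Data

variable {X : Type*} [AddCommGroup X] [Module ℝ X] (D : Data X)

/-- The complex matrix of the form `a((P 0 + i P 1) u, v)`. -/
noncomputable def theta (m t : ℕ) (lam : ℝ) (k : ℕ) (φ : Fin k → X) :
    Matrix (Fin k) (Fin k) ℂ := Matrix.of fun r s =>
    ((D.form m t lam (D.P 0 (φ r)) (φ s) : ℝ) : ℂ)
      + Complex.I * ((D.form m t lam (D.P 1 (φ r)) (φ s) : ℝ) : ℂ)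

/-- The argument from a singular matrix. -/
theorem core_of_det (m t : ℕ) (htm : t ≤ m) (lam : ℝ) (k : ℕ) (φ : Fin k → X)
    (hdet : (D.theta m t lam k φ).det = 0)
    (hB : ∀ c : Fin k → ℝ, c ≠ 0 →
      D.form (m + 1) t lam (∑ i, c i • φ i) (∑ i, c i • φ i) < 0) :
    ∃ ψ : Fin (k + 1) → X, ∀ c : Fin (k + 1) → ℝ, c ≠ 0 →
      D.form m t lam (∑ i, c i • ψ i) (∑ i, c i • ψ i) < 0 := by
  set a := D.form m t lam with ha
  have hA : ∀ c : Fin k → ℝ, c ≠ 0 → a (∑ i, c i • φ i) (∑ i, c i • φ i) < 0 :=
    fun c hc => D.form_neg m t htm lam _ (hB c hc)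
  obtain ⟨v, hv0, hv⟩ := Matrix.exists_vecMul_eq_zero_iff.mpr hdet
  set x : Fin k → ℝ := fun r => (v r).re with hx
  set y : Fin k → ℝ := fun r => (v r).im with hy
  set u := ∑ i, x i • φ i with hu
  set w := ∑ i, y i • φ i with hw
  have hre : ∀ s, a (D.P 0 u - D.P 1 w) (φ s) = 0 := by
    intro s
    have h := congrArg Complex.re (congrFun hv s)
    simp only [Matrix.vecMul, dotProduct, theta, ← ha, Matrix.of_apply, Pi.zero_apply, Complex.zero_re,
      Complex.re_sum, Complex.mul_re, Complex.add_re, Complex.add_im, Complex.ofReal_re,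
      Complex.ofReal_im, Complex.I_re, Complex.I_im, Complex.mul_im] at h
    rw [hu, hw]
    simp only [map_sub, map_sum, map_smul, LinearMap.sub_apply, LinearMap.sum_apply,
      LinearMap.smul_apply, smul_eq_mul]
    rw [← Finset.sum_sub_distrib, ← h]
    apply Finset.sum_congr rfl
    intro i _
    simp only [hx, hy]
    ring
  have him : ∀ s, a (D.P 1 u + D.P 0 w) (φ s) = 0 := by
    intro s
    have h := congrArg Complex.im (congrFun hv s)
    simp only [Matrix.vecMul, dotProduct, theta, ← ha, Matrix.of_apply, Pi.zero_apply, Complex.zero_im,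
      Complex.im_sum, Complex.mul_re, Complex.add_re, Complex.add_im, Complex.ofReal_re,
      Complex.ofReal_im, Complex.I_re, Complex.I_im, Complex.mul_im] at h
    rw [hu, hw]
    simp only [map_add, map_sum, map_smul, LinearMap.add_apply, LinearMap.sum_apply,
      LinearMap.smul_apply, smul_eq_mul]
    rw [← Finset.sum_add_distrib, ← h]
    apply Finset.sum_congr rfl
    intro i _
    simp only [hx, hy]
    ring
  -- the sum of the two values
  have hsum : a (D.P 0 u - D.P 1 w) (D.P 0 u - D.P 1 w)
      + a (D.P 1 u + D.P 0 w) (D.P 1 u + D.P 0 w)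
      = D.form (m + 1) t lam u u + D.form (m + 1) t lam w w := by
    have hc : a (D.P 1 u) (D.P 0 w) = a (D.P 0 u) (D.P 1 w) := by
      have e1 : a (D.P 1 u) (D.P 0 w) = - a u (D.P 1 (D.P 0 w)) := D.form_ibp m t lam 1 u _
      have e2 : a (D.P 0 u) (D.P 1 w) = - a u (D.P 0 (D.P 1 w)) := D.form_ibp m t lam 0 u _
      rw [e1, e2, D.comm w]
    have hs1 : a (D.P 1 w) (D.P 0 u) = a (D.P 0 u) (D.P 1 w) := D.form_symm m t lam _ _
    have hs2 : a (D.P 0 w) (D.P 1 u) = a (D.P 1 u) (D.P 0 w) := D.form_symm m t lam _ _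
    rw [D.form_succ m t htm, D.form_succ m t htm]
    simp only [map_add, map_sub, LinearMap.add_apply, LinearMap.sub_apply]
    rw [← ha]
    linarith
  have hneg : D.form (m + 1) t lam u u + D.form (m + 1) t lam w w < 0 := by
    by_cases hx0 : x = 0
    · have hy0 : y ≠ 0 := by
        intro hy0
        apply hv0
        funext i
        apply Complex.ext
        · exact congrFun hx0 i
        · exact congrFun hy0 i
      have h1 := hB y hy0
      have h2 : u = 0 := by rw [hu, hx0]; simp
      rw [h2, map_zero, zero_add]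
      exact h1
    · have h1 := hB x hx0
      by_cases hy0 : y = 0
      · have h2 : w = 0 := by rw [hw, hy0]; simp
        rw [h2, map_zero, add_zero]
        exact h1
      · have h2 := hB y hy0
        linarith
  -- choose the negative direction
  have hex : ∃ h : X, a h h < 0 ∧ ∀ s, a h (φ s) = 0 := by
    by_contra hcon
    push Not at hcon
    have h1 : 0 ≤ a (D.P 0 u - D.P 1 w) (D.P 0 u - D.P 1 w) := by
      by_contra h
      push Not at h
      obtain ⟨s, hs⟩ := hcon _ h
      exact hs (hre s)
    have h2 : 0 ≤ a (D.P 1 u + D.P 0 w) (D.P 1 u + D.P 0 w) := by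
      by_contra h
      push Not at h
      obtain ⟨s, hs⟩ := hcon _ h
      exact hs (him s)
    linarith
  obtain ⟨h, hh, horth⟩ := hex
  refine ⟨Fin.cons h φ, fun c hc => ?_⟩
  rw [Fin.sum_univ_succ]
  simp only [Fin.cons_zero, Fin.cons_succ]
  set e := ∑ i : Fin k, c i.succ • φ i with he
  have hhe : a h e = 0 := by
    rw [he]
    simp [horth]
  have heh : a e h = 0 := by rw [← hhe]; exact D.form_symm m t lam _ _
  have hexp : a (c 0 • h + e) (c 0 • h + e) = (c 0) ^ 2 * a h h + a e e := by
    simp only [map_add, map_smul, LinearMap.add_apply, LinearMap.smul_apply, smul_eq_mul, hhe, heh]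
    ring
  rw [hexp]
  by_cases hc' : (fun i : Fin k => c i.succ) = 0
  · have he0 : e = 0 := by
      rw [he]
      apply Finset.sum_eq_zero
      intro i _
      have := congrFun hc' i
      simp only [Pi.zero_apply] at this
      rw [this, zero_smul]
    have hc0 : c 0 ≠ 0 := by
      intro h0
      apply hc
      funext i
      refine Fin.cases h0 (fun j => ?_) i
      exact congrFun hc' j
    rw [he0]
    simp only [map_zero, add_zero]
    have : 0 < (c 0) ^ 2 := by positivity
    nlinarith
  · have := hA _ hc'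
    have h2 : 0 ≤ (c 0) ^ 2 := by positivity
    nlinarith

end Data

end V11332.PY
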