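import Mathlib
import Pool.Agent.V11332.PY4
import Pool.Agent.V11332.PY5

/-!
The core argument for data with a rotation symmetry of finite order.
-/

namespace V11332.PY

open Module

namespace Data

variable {X : Type*} [AddCommGroup X] [Module ℝ X] {D : Data X}

/-- A symmetry of order `n` rotating the two derivations. -/
structure Rotation (D : Data X) (n : ℕ) (c s : ℝ) where
  R : Module.End ℝ X
  pow_eq : R ^ n = 1
  inv : ∀ u v, D.Q (R u) (R v) = D.Q u v
  rel0 : ∀ u, D.P 0 (R u) = R (c • D.P 0 u + s • D.P 1 u)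
  rel1 : ∀ u, D.P 1 (R u) = R (-s • D.P 0 u + c • D.P 1 u)
  cs : c ^ 2 + s ^ 2 = 1
  definite : ∀ u, D.Q u u = 0 → u = 0

variable {n : ℕ} {c s : ℝ}

namespace Rotation

lemma L_R (ρ : Rotation D n c s) (u : X) : D.L (ρ.R u) = ρ.R (D.L u) := by
  rw [L_apply, L_apply, ρ.rel0, ρ.rel0, ρ.rel1, ρ.rel1]
  simp only [map_add, map_smul, map_neg, smul_add, smul_smul, neg_smul, smul_neg]
  have h := ρ.cs
  have e1 : c * c = 1 - s * s := by nlinarith
  simp only [e1]
  simp only [sub_smul, one_smul]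
  module

lemma Lpow_R (ρ : Rotation D n c s) (j : ℕ) (u : X) :
    (D.L ^ j) (ρ.R u) = ρ.R ((D.L ^ j) u) := by
  induction j generalizing u with
  | zero => simp
  | succ j ih =>
    rw [pow_succ]
    show (D.L ^ j) (D.L (ρ.R u)) = ρ.R ((D.L ^ j) (D.L u))
    rw [ρ.L_R, ih]

lemma q_R (ρ : Rotation D n c s) (j : ℕ) (u v : X) : D.q j (ρ.R u) (ρ.R v) = D.q j u v := by
  rw [q_apply, q_apply, ρ.Lpow_R, ρ.inv]

lemma form_R (ρ : Rotation D n c s) (m t : ℕ) (lam : ℝ) (u v : X) :
    D.form m t lam (ρ.R u) (ρ.R v) = D.form m t lam u v := by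
  rw [form_apply, form_apply, ρ.q_R, ρ.q_R]

lemma form0_R (ρ : Rotation D n c s) (m t : ℕ) (lam : ℝ) (u v : X) :
    D.form m t lam (D.P 0 (ρ.R u)) (ρ.R v)
      = c * D.form m t lam (D.P 0 u) v + s * D.form m t lam (D.P 1 u) v := by
  rw [ρ.rel0, ρ.form_R]
  simp

lemma form1_R (ρ : Rotation D n c s) (m t : ℕ) (lam : ℝ) (u v : X) :
    D.form m t lam (D.P 1 (ρ.R u)) (ρ.R v)
      = -s * D.form m t lam (D.P 0 u) v + c * D.form m t lam (D.P 1 u) v := by
  rw [ρ.rel1, ρ.form_R]
  simp

/-- The matrix of a rotation invariant space is singular. -/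
lemma theta_det (ρ : Rotation D n c s) (m t : ℕ) (lam : ℝ) (k : ℕ)
    (hω : ((c : ℂ) - (s : ℂ) * Complex.I) ^ k ≠ 1) (φ : Fin k → X)
    (U : Matrix (Fin k) (Fin k) ℝ) (hU : U.det ^ 2 = 1)
    (hR : ∀ i, ρ.R (φ i) = ∑ r, U r i • φ r) :
    (D.theta m t lam k φ).det = 0 := by
  set a := D.form m t lam with ha
  set Z := D.theta m t lam k φ with hZ
  set V : Matrix (Fin k) (Fin k) ℂ := U.map (fun x : ℝ => (x : ℂ)) with hV
  have hZe : ∀ r i, Z r i = ((a (D.P 0 (φ r)) (φ i) : ℝ) : ℂ)
      + Complex.I * ((a (D.P 1 (φ r)) (φ i) : ℝ) : ℂ) := fun r i => rfl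
  have hexp : ∀ (j : Fin 2) (r i : Fin k), a (D.P j (ρ.R (φ r))) (ρ.R (φ i))
      = ∑ y, (∑ x, U x r * a (D.P j (φ x)) (φ y)) * U y i := by
    intro j r i
    rw [hR r, hR i]
    simp only [map_sum, map_smul, LinearMap.sum_apply, LinearMap.smul_apply, smul_eq_mul,
      Finset.mul_sum, Finset.sum_mul]
    apply Finset.sum_congr rfl
    intro y _
    apply Finset.sum_congr rfl
    intro x _
    ring
  have hmul : V.transpose * Z * V = ((c : ℂ) - (s : ℂ) * Complex.I) • Z := by
    ext r i
    have e1 : (V.transpose * Z * V) r i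
        = ((a (D.P 0 (ρ.R (φ r))) (ρ.R (φ i)) : ℝ) : ℂ)
          + Complex.I * ((a (D.P 1 (ρ.R (φ r))) (ρ.R (φ i)) : ℝ) : ℂ) := by
      rw [hexp, hexp, Matrix.mul_apply]
      push_cast
      rw [Finset.mul_sum, ← Finset.sum_add_distrib]
      apply Finset.sum_congr rfl
      intro y _
      rw [Matrix.mul_apply, Finset.sum_mul, Finset.sum_mul, Finset.sum_mul, Finset.mul_sum,
        ← Finset.sum_add_distrib]
      apply Finset.sum_congr rfl
      intro x _
      rw [hZe]
      simp only [hV, Matrix.transpose_apply, Matrix.map_apply]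
      ring
    rw [e1, ha, ρ.form0_R, ρ.form1_R, Matrix.smul_apply, hZe, smul_eq_mul]
    push_cast
    rw [← ha]
    linear_combination ((s : ℂ) * ((a (D.P 1 (φ r)) (φ i) : ℝ) : ℂ)) * Complex.I_sq
  have hdetV : V.det ^ 2 = 1 := by
    have h1 : V.det = ((U.det : ℝ) : ℂ) := by
      have := (RingHom.map_det Complex.ofRealHom U).symm
      exact this
    rw [h1, ← Complex.ofReal_pow, hU, Complex.ofReal_one]
  have hdet := congrArg Matrix.det hmul
  rw [Matrix.det_mul, Matrix.det_mul, Matrix.det_transpose, Matrix.det_smul,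
    Fintype.card_fin] at hdet
  have h2 : (1 - ((c : ℂ) - (s : ℂ) * Complex.I) ^ k) * Z.det = 0 := by
    linear_combination hdet - Z.det * hdetV
  rcases mul_eq_zero.mp h2 with h | h
  · exact absurd (sub_eq_zero.mp h).symm hω
  · exact h

/-- The symmetric version of the parity argument. -/
theorem core_sym (ρ : Rotation D n c s) (hn : 0 < n) (m t : ℕ) (htm : t ≤ m) (lam : ℝ) (k : ℕ)
    (hω : ((c : ℂ) - (s : ℂ) * Complex.I) ^ k ≠ 1) (φ : Fin k → X)
    (hB : ∀ x : Fin k → ℝ, x ≠ 0 →
      D.form (m + 1) t lam (∑ i, x i • φ i) (∑ i, x i • φ i) < 0) :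
    ∃ ψ : Fin (k + 1) → X, ∀ x : Fin (k + 1) → ℝ, x ≠ 0 →
      D.form m t lam (∑ i, x i • ψ i) (∑ i, x i • ψ i) < 0 := by
  classical
  have hli : LinearIndependent ℝ φ := by
    rw [Fintype.linearIndependent_iff]
    intro x hx i
    by_contra hxi
    have hx0 : x ≠ 0 := fun h => hxi (by rw [h]; rfl)
    have := hB x hx0
    rw [hx] at this
    simp at this
  have hfr : finrank ℝ (Submodule.span ℝ (Set.range φ)) = k := by
    rw [finrank_span_eq_card hli, Fintype.card_fin]
  have hfin : FiniteDimensional ℝ (Submodule.span ℝ (Set.range φ)) :=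
    FiniteDimensional.span_of_finite ℝ (Set.finite_range φ)
  obtain ⟨N, hNfin, hN1, hN2, hN3⟩ := exists_invariant D.Q (D.form (m + 1) t lam) D.symm
    D.nonneg ρ.definite (D.form_symm (m + 1) t lam) ρ.R n hn ρ.pow_eq ρ.inv
    (ρ.form_R (m + 1) t lam) (Submodule.span ℝ (Set.range φ)) (by
      intro u hu hne
      obtain ⟨x, rfl⟩ := (Submodule.mem_span_range_iff_exists_fun ℝ).mp hu
      apply hB
      rintro rfl
      apply hne
      simp)
  rw [hfr] at hN1
  by_cases hk1 : k + 1 ≤ finrank ℝ N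
  · let b : Basis (Fin (finrank ℝ N)) ℝ N := Module.finBasis ℝ N
    refine ⟨fun i => (b (Fin.castLE hk1 i) : X), fun x hx => ?_⟩
    apply D.form_neg m t htm lam
    have e : ∑ i, x i • (b (Fin.castLE hk1 i) : X)
        = ((∑ i, x i • b (Fin.castLE hk1 i) : N) : X) := by
      push_cast
      rfl
    rw [e]
    apply hN2 _ (Subtype.mem _)
    intro h
    apply hx
    have h' : (∑ i, x i • b (Fin.castLE hk1 i) : N) = 0 := Subtype.ext h
    have hli2 : LinearIndependent ℝ (fun i => b (Fin.castLE hk1 i)) :=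
      b.linearIndependent.comp _ (Fin.castLE_injective hk1)
    funext i
    exact (Fintype.linearIndependent_iff.mp hli2) x h' i
  · have hNk : finrank ℝ N = k := by omega
    let b : Basis (Fin k) ℝ N := Module.finBasisOfFinrankEq ℝ N hNk
    let RN : N →ₗ[ℝ] N := ρ.R.restrict hN3
    let U : Matrix (Fin k) (Fin k) ℝ := LinearMap.toMatrix b b RN
    have hRb : ∀ i, ρ.R (b i : X) = ∑ r, U r i • (b r : X) := by
      intro i
      have h1 : RN (b i) = ∑ r, U r i • b r := by
        conv_lhs => rw [← b.sum_repr (RN (b i))]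
        apply Finset.sum_congr rfl
        intro r _
        have h0 : U r i = b.repr (RN (b i)) r := LinearMap.toMatrix_apply b b RN r i
        rw [h0]
      have h2 := congrArg (Subtype.val) h1
      push_cast at h2
      exact h2
    have hRNpow : RN ^ n = 1 := by
      apply LinearMap.ext
      intro u
      apply Subtype.ext
      have h1 : ((RN ^ n) u : X) = (ρ.R ^ n) (u : X) := by
        have : ∀ j : ℕ, ((RN ^ j) u : X) = (ρ.R ^ j) (u : X) := by
          intro j
          induction j with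
          | zero => rfl
          | succ j ih =>
            rw [pow_succ', pow_succ']
            show ρ.R ((RN ^ j) u : X) = ρ.R ((ρ.R ^ j) (u : X))
            rw [ih]
        exact this n
      rw [h1, ρ.pow_eq]
      rfl
    have hdet : U.det ^ 2 = 1 := by
      have h1 : U.det = LinearMap.det RN := LinearMap.det_toMatrix b RN
      have h2 : (LinearMap.det RN) ^ n = 1 := by
        rw [← map_pow, hRNpow, map_one]
      rw [h1]
      have h3 : |LinearMap.det RN| ^ n = 1 := by rw [← abs_pow, h2, abs_one]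
      have h4 : |LinearMap.det RN| = 1 :=
        (pow_eq_one_iff_of_nonneg (abs_nonneg _) hn.ne').mp h3
      rw [← sq_abs, h4, one_pow]
    have hz := ρ.theta_det m t lam k hω (fun i => (b i : X)) U hdet hRb
    refine D.core_of_det m t htm lam k (fun i => (b i : X)) hz (fun x hx => ?_)
    have e : ∑ i, x i • (b i : X) = ((∑ i, x i • b i : N) : X) := by
      push_cast
      rfl
    rw [e]
    apply hN2 _ (Subtype.mem _)
    intro h
    apply hx
    have h' : (∑ i, x i • b i : N) = 0 := Subtype.ext h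
    funext i
    exact (Fintype.linearIndependent_iff.mp b.linearIndependent) x h' i

end Rotation

end Data

end V11332.PY
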