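import Mathlib
import Pool.Agent.V11332.PY3
import Pool.Agent.V11332.PY6

/-!
The action of a rotation of finite order on test functions.
-/

open MeasureTheory Topology
open scoped ContDiff ENNReal NNReal

namespace V11332.PY

/-- The rotation of the plane by the angle `θ` about the point `c`. -/
noncomputable def rot (θ : ℝ) (c x : Plane) : Plane :=
  !₂[c 0 + Real.cos θ * (x 0 - c 0) - Real.sin θ * (x 1 - c 1),
    c 1 + Real.sin θ * (x 0 - c 0) + Real.cos θ * (x 1 - c 1)]

/-- the linear rotation -/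
noncomputable def linRotAux (θ : ℝ) : Plane →ₗᵢ[ℝ] Plane where
  toFun x := !₂[Real.cos θ * x 0 - Real.sin θ * x 1, Real.sin θ * x 0 + Real.cos θ * x 1]
  map_add' x y := by
    ext i
    fin_cases i <;> simp <;> ring
  map_smul' r x := by
    ext i
    fin_cases i <;> simp <;> ring
  norm_map' x := by
    rw [EuclideanSpace.norm_eq, EuclideanSpace.norm_eq]
    congr 1
    simp only [Fin.sum_univ_two, Real.norm_eq_abs, sq_abs]
    simp
    have h := Real.sin_sq_add_cos_sq θ
    linear_combination (x 0 ^ 2 + x 1 ^ 2) * h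

/-- the linear rotation as an equivalence -/
noncomputable def linRot (θ : ℝ) : Plane ≃ₗᵢ[ℝ] Plane :=
  (linRotAux θ).toLinearIsometryEquiv rfl

lemma linRot_apply (θ : ℝ) (x : Plane) :
    linRot θ x = !₂[Real.cos θ * x 0 - Real.sin θ * x 1, Real.sin θ * x 0 + Real.cos θ * x 1] :=
  rfl

lemma rot_eq (θ : ℝ) (c x : Plane) : rot θ c x = linRot θ (x - c) + c := by
  rw [linRot_apply]
  unfold rot
  ext i
  fin_cases i <;> simp <;> ring

/-- the rotation as a homeomorphism -/
noncomputable def rotHomeo (θ : ℝ) (c : Plane) : Plane ≃ₜ Plane :=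
  (Homeomorph.subRight c).trans ((linRot θ).toHomeomorph.trans (Homeomorph.addRight c))

lemma rotHomeo_apply (θ : ℝ) (c x : Plane) : rotHomeo θ c x = rot θ c x := by
  rw [rot_eq]; rfl

lemma rot_measurePreserving (θ : ℝ) (c : Plane) :
    MeasurePreserving (rotHomeo θ c) (volume : Measure Plane) volume := by
  have h1 : MeasurePreserving (fun x : Plane => x - c) volume volume :=
    measurePreserving_sub_right volume c
  have h2 : MeasurePreserving (linRot θ) (volume : Measure Plane) volume :=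
    (linRot θ).measurePreserving
  have h3 : MeasurePreserving (fun x : Plane => x + c) volume volume :=
    measurePreserving_add_right volume c
  exact h3.comp (h2.comp h1)

lemma rot_hasFDerivAt (θ : ℝ) (c x : Plane) :
    HasFDerivAt (rot θ c) ((linRot θ).toContinuousLinearEquiv : Plane →L[ℝ] Plane) x := by
  have h1 : HasFDerivAt (fun x : Plane => linRot θ (x - c) + c)
      ((linRot θ).toContinuousLinearEquiv : Plane →L[ℝ] Plane) x := by
    have h2 : HasFDerivAt (fun x : Plane => x - c) (ContinuousLinearMap.id ℝ Plane) x :=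
      (hasFDerivAt_id x).sub_const c
    have h3 := ((linRot θ).toContinuousLinearEquiv : Plane →L[ℝ] Plane).hasFDerivAt.comp x h2
    exact h3.add_const c
  have e : rot θ c = fun x : Plane => linRot θ (x - c) + c := funext (rot_eq θ c)
  rw [e]
  exact h1

lemma rot_contDiff (θ : ℝ) (c : Plane) : ContDiff ℝ ∞ (rot θ c) := by
  have e : rot θ c = fun x : Plane => linRot θ (x - c) + c := funext (rot_eq θ c)
  rw [e]
  have h1 : ContDiff ℝ ∞ (fun x : Plane => linRot θ x) :=
    ((linRot θ).toContinuousLinearEquiv : Plane →L[ℝ] Plane).contDiff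
  exact (h1.comp (contDiff_id.sub contDiff_const)).add contDiff_const

lemma rot_iterate (θ : ℝ) (c : Plane) (j : ℕ) (x : Plane) :
    (rot θ c)^[j] x = rot (j * θ) c x := by
  induction j with
  | zero =>
    unfold rot
    ext i
    fin_cases i <;> simp
  | succ j ih =>
    rw [Function.iterate_succ_apply', ih]
    have e : ((j + 1 : ℕ) : ℝ) * θ = θ + j * θ := by push_cast; ring
    rw [e]
    unfold rot
    ext i
    fin_cases i <;> simp [Real.cos_add, Real.sin_add] <;> ring

lemma rot_isTest {Ω : Set Plane} {θ : ℝ} {c : Plane} (hΩ : ∀ x, rot θ c x ∈ Ω → x ∈ Ω)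
    {u : Plane → ℝ} (hu : IsTest Ω u) : IsTest Ω (fun x => u (rot θ c x)) := by
  obtain ⟨h1, h2, h3⟩ := hu
  refine ⟨h1.comp (rot_contDiff θ c), ?_, ?_⟩
  · have h := h2.comp_homeomorph (rotHomeo θ c)
    have e : u ∘ (rotHomeo θ c) = fun x => u (rot θ c x) := by
      funext x
      rw [Function.comp_apply, rotHomeo_apply]
    rwa [e] at h
  · intro x hx
    apply hΩ
    apply h3
    have hc : Continuous (rot θ c) := (rot_contDiff θ c).continuous
    have h4 : closure (rot θ c ⁻¹' Function.support u) ⊆ rot θ c ⁻¹' closure (Function.support u) :=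
      hc.closure_preimage_subset _
    exact h4 hx

/-- the action on test functions -/
noncomputable def rotEnd {Ω : Set Plane} {θ : ℝ} {c : Plane} (hΩ : ∀ x, rot θ c x ∈ Ω → x ∈ Ω) :
    Module.End ℝ (Test Ω) where
  toFun u := ⟨fun x => u.1 (rot θ c x), rot_isTest hΩ u.2⟩
  map_add' u v := rfl
  map_smul' r u := rfl

lemma rotEnd_coe {Ω : Set Plane} {θ : ℝ} {c : Plane} (hΩ : ∀ x, rot θ c x ∈ Ω → x ∈ Ω)
    (u : Test Ω) (x : Plane) : (rotEnd hΩ u).1 x = u.1 (rot θ c x) := rfl

lemma rotEnd_pow_coe {Ω : Set Plane} {θ : ℝ} {c : Plane} (hΩ : ∀ x, rot θ c x ∈ Ω → x ∈ Ω)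
    (j : ℕ) (u : Test Ω) (x : Plane) : ((rotEnd hΩ ^ j) u).1 x = u.1 ((rot θ c)^[j] x) := by
  induction j generalizing x with
  | zero => rfl
  | succ j ih =>
    rw [pow_succ', Function.iterate_succ_apply]
    show ((rotEnd hΩ) ((rotEnd hΩ ^ j) u)).1 x = _
    rw [rotEnd_coe, ih]

lemma partial_rot {Ω : Set Plane} {u : Plane → ℝ} (hu : IsTest Ω u) (θ : ℝ) (c : Plane)
    (v x : Plane) : fderiv ℝ (fun y => u (rot θ c y)) x v = fderiv ℝ u (rot θ c x) (linRot θ v) := by
  have h := (hu.diff (rot θ c x)).hasFDerivAt.comp x (rot_hasFDerivAt θ c x)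
  have e : fderiv ℝ (fun y => u (rot θ c y)) x
      = (fderiv ℝ u (rot θ c x)).comp ((linRot θ).toContinuousLinearEquiv : Plane →L[ℝ] Plane) :=
    h.fderiv
  rw [e]
  rfl

lemma linRot_e0 (θ : ℝ) : linRot θ (EuclideanSpace.single 0 1)
    = Real.cos θ • EuclideanSpace.single 0 (1 : ℝ) + Real.sin θ • EuclideanSpace.single 1 (1 : ℝ) := by
  rw [linRot_apply]
  ext i
  fin_cases i <;> simp

lemma linRot_e1 (θ : ℝ) : linRot θ (EuclideanSpace.single 1 1)
    = -Real.sin θ • EuclideanSpace.single 0 (1 : ℝ) + Real.cos θ • EuclideanSpace.single 1 (1 : ℝ) := by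
  rw [linRot_apply]
  ext i
  fin_cases i <;> simp

/-- the symmetry of the data given by a rotation of finite order -/
noncomputable def rotation {Ω : Set Plane} {n : ℕ} (hn : 0 < n) {c : Plane}
    (hΩ : ∀ x, rot (2 * Real.pi / n) c x ∈ Ω → x ∈ Ω) :
    Data.Rotation (data Ω) n (Real.cos (2 * Real.pi / n)) (Real.sin (2 * Real.pi / n)) where
  R := rotEnd hΩ
  pow_eq := by
    apply LinearMap.ext
    intro u
    apply Subtype.ext
    funext x
    rw [rotEnd_pow_coe, rot_iterate]
    have hn' : (n : ℝ) ≠ 0 := by exact_mod_cast hn.ne'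
    have e : (n : ℝ) * (2 * Real.pi / n) = 2 * Real.pi := by field_simp
    rw [e]
    have e2 : rot (2 * Real.pi) c x = x := by
      unfold rot
      ext i
      fin_cases i <;> simp
    rw [e2]
    rfl
  inv u v := by
    show Q0 Ω _ _ = Q0 Ω _ _
    rw [Q0_apply, Q0_apply]
    have h := (rot_measurePreserving (2 * Real.pi / n) c).integral_comp
      (rotHomeo (2 * Real.pi / n) c).measurableEmbedding (fun x => u.1 x * v.1 x)
    rw [← h]
    congr 1
    funext x
    rw [rotEnd_coe, rotEnd_coe, rotHomeo_apply]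
  rel0 u := by
    apply Subtype.ext
    funext x
    show fderiv ℝ (fun y => u.1 (rot (2 * Real.pi / n) c y)) x (EuclideanSpace.single 0 1)
      = Real.cos (2 * Real.pi / n) * fderiv ℝ u.1 (rot (2 * Real.pi / n) c x)
          (EuclideanSpace.single 0 1)
        + Real.sin (2 * Real.pi / n) * fderiv ℝ u.1 (rot (2 * Real.pi / n) c x)
          (EuclideanSpace.single 1 1)
    rw [partial_rot u.2, linRot_e0, map_add, map_smul, map_smul, smul_eq_mul, smul_eq_mul]
  rel1 u := by
    apply Subtype.ext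
    funext x
    show fderiv ℝ (fun y => u.1 (rot (2 * Real.pi / n) c y)) x (EuclideanSpace.single 1 1)
      = -Real.sin (2 * Real.pi / n) * fderiv ℝ u.1 (rot (2 * Real.pi / n) c x)
          (EuclideanSpace.single 0 1)
        + Real.cos (2 * Real.pi / n) * fderiv ℝ u.1 (rot (2 * Real.pi / n) c x)
          (EuclideanSpace.single 1 1)
    rw [partial_rot u.2, linRot_e1, map_add, map_smul, map_smul, smul_eq_mul, smul_eq_mul]
  cs := by
    have := Real.sin_sq_add_cos_sq (2 * Real.pi / n)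
    linarith
  definite u hu := by
    have h1 : ∫ x, u.1 x * u.1 x = 0 := hu
    have h2 : Continuous (fun x => u.1 x * u.1 x) := u.2.cont.mul u.2.cont
    have h3 := (integral_eq_zero_iff_of_nonneg (fun x => mul_self_nonneg (u.1 x))
      (integrable_mul u.2 u.2)).mp h1
    have h4 : (fun x => u.1 x * u.1 x) = 0 :=
      (Continuous.ae_eq_iff_eq volume h2 continuous_zero).mp h3
    apply Subtype.ext
    funext x
    have := congrFun h4 x
    simpa using this

lemma omega_pow {n k : ℕ} (hn : 0 < n) (hk : ¬ n ∣ k) :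
    ((Real.cos (2 * Real.pi / n) : ℂ) - (Real.sin (2 * Real.pi / n) : ℂ) * Complex.I) ^ k ≠ 1 := by
  intro h
  apply hk
  have hprim := Complex.isPrimitiveRoot_exp n hn.ne'
  rw [← hprim.pow_eq_one_iff_dvd]
  have e1 : Complex.exp (2 * Real.pi * Complex.I / n)
      = (Real.cos (2 * Real.pi / n) : ℂ) + (Real.sin (2 * Real.pi / n) : ℂ) * Complex.I := by
    rw [Complex.ofReal_cos, Complex.ofReal_sin, ← Complex.exp_mul_I]
    congr 1
    push_cast
    ring
  rw [e1]
  have h2 := congrArg (starRingEnd ℂ) h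
  rw [map_pow, map_one, map_sub, map_mul, Complex.conj_ofReal, Complex.conj_ofReal,
    Complex.conj_I] at h2
  rw [← h2]
  congr 1
  ring

/-- The symmetric inequality. -/
theorem main_sym (Ω : Set Plane) (c : Plane) (n m t k : ℕ) (hn : 0 < n) (htm : t ≤ m)
    (hk : ¬ (2 ∣ k ∧ n ∣ k)) (hΩ : ∀ x, rot (2 * Real.pi / n) c x ∈ Ω → x ∈ Ω) :
    eig Ω m t (k + 1) ≤ eig Ω (m + 1) t k := by
  by_cases hodd : Odd k
  · exact main Ω m t k htm hodd
  have hnk : ¬ n ∣ k := by
    intro h
    exact hk ⟨(Nat.not_odd_iff_even.mp hodd).two_dvd, h⟩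
  have hkpos : 0 < k := by
    rcases Nat.eq_zero_or_pos k with h | h
    · exact absurd (by rw [h]; exact dvd_zero n) hnk
    · exact h
  apply le_sInf
  rintro x ⟨Λ, ⟨V, hV1, hV2, hV3⟩, rfl⟩
  apply ENNReal.le_of_forall_pos_le_add
  intro ε hε _
  have hfin : Module.Finite ℝ V := Module.finite_of_finrank_pos (by rw [hV2]; exact hkpos)
  let b : Module.Basis (Fin k) ℝ V := Module.finBasisOfFinrankEq ℝ V hV2
  have hneg : ∀ c : Fin k → ℝ, c ≠ 0 →
      q (m + 1) (∑ i, c i • (b i : ℕ × ℕ → L2))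
        - ((Λ + ε : ℝ≥0) : ℝ) * q (m + 1 - t) (∑ i, c i • (b i : ℕ × ℕ → L2)) < 0 := by
    intro c hc
    have e : ∑ i, c i • (b i : ℕ × ℕ → L2) = ((∑ i, c i • b i : V) : ℕ × ℕ → L2) := by
      push_cast
      rfl
    have hne : (∑ i, c i • (b i : ℕ × ℕ → L2)) ≠ 0 := by
      rw [e]
      intro h
      have h' : (∑ i, c i • b i : V) = 0 := Subtype.ext h
      apply hc
      funext i
      exact (Fintype.linearIndependent_iff.mp b.linearIndependent) c h' i
    have hmem : (∑ i, c i • (b i : ℕ × ℕ → L2)) ∈ V := by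
      rw [e]
      exact (∑ i, c i • b i : V).2
    obtain ⟨h1, h2⟩ := hV3 _ hmem hne
    rw [div_le_iff₀ h1] at h2
    have hε' : 0 < (ε : ℝ) := hε
    have h3 := mul_pos hε' h1
    push_cast
    linarith
  obtain ⟨φ, hφ⟩ := approx (Ω := Ω) (m + 1) t _ k (fun i => (b i : ℕ × ℕ → L2))
    (fun i => hV1 (b i).2) hneg
  obtain ⟨ψ, hψ⟩ := (rotation hn hΩ).core_sym hn m t htm _ k (omega_pow hn hnk) φ hφ
  have hadm := admissible_of m t (Λ + ε) (k + 1) ψ hψ
  apply sInf_le
  exact ⟨Λ + ε, hadm, by push_cast; rfl⟩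

end V11332.PY
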