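import Mathlib

/-!
Quantile functions of probability measures on the real line.
-/

namespace Pool.Agent.V11332.Quantile

open MeasureTheory ProbabilityTheory Set Filter Topology

/-- The quantile function `F⁻¹(p) = inf {x : F(x) ≥ p}`. -/
noncomputable def Q (μ : Measure ℝ) (p : ℝ) : ℝ := sInf {x : ℝ | p ≤ μ.real (Iic x)}

/-- Lebesgue measure on `(0,1)`. -/
noncomputable def lam : Measure ℝ := volume.restrict (Ioo 0 1)

instance : IsProbabilityMeasure lam := ⟨by simp [lam]⟩

section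
variable (μ : Measure ℝ) [IsProbabilityMeasure μ]

lemma F_mono : Monotone fun x => μ.real (Iic x) := fun _ _ h =>
  measureReal_mono (Iic_subset_Iic.2 h)

lemma set_nonempty {p : ℝ} (hp : p < 1) : {x : ℝ | p ≤ μ.real (Iic x)}.Nonempty := by
  have h := tendsto_cdf_atTop μ
  obtain ⟨x, hx⟩ := (h.eventually (lt_mem_nhds hp)).exists
  exact ⟨x, by rw [cdf_eq_real] at hx; exact hx.le⟩

lemma set_bddBelow {p : ℝ} (hp : 0 < p) : BddBelow {x : ℝ | p ≤ μ.real (Iic x)} := by
  have h := tendsto_cdf_atBot μ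
  obtain ⟨x, hx⟩ := (h.eventually (gt_mem_nhds hp)).exists
  rw [cdf_eq_real] at hx
  refine ⟨x, fun y hy => ?_⟩
  by_contra hcon
  push Not at hcon
  have := F_mono μ hcon.le
  simp only [Set.mem_ofPred_eq] at hy this
  linarith

/-- Galois connection. -/
lemma Q_le_iff {p : ℝ} (hp : p ∈ Ioo (0 : ℝ) 1) (x : ℝ) : Q μ p ≤ x ↔ p ≤ μ.real (Iic x) := by
  constructor
  · intro h
    -- right continuity
    have h1 : ∀ y, x < y → p ≤ μ.real (Iic y) := by
      intro y hy
      have h2 : sInf {x : ℝ | p ≤ μ.real (Iic x)} < y := lt_of_le_of_lt h hy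
      obtain ⟨z, hz, hzy⟩ := exists_lt_of_csInf_lt (set_nonempty μ hp.2) h2
      exact le_trans hz (F_mono μ hzy.le)
    have h3 : Tendsto (fun y => cdf μ y) (𝓝[>] x) (𝓝 (cdf μ x)) :=
      ((cdf μ).right_continuous x).tendsto.mono_left (nhdsWithin_mono _ Ioi_subset_Ici_self)
    rw [← cdf_eq_real]
    refine ge_of_tendsto h3 ?_
    filter_upwards [self_mem_nhdsWithin] with y hy
    rw [cdf_eq_real]
    exact h1 y hy
  · intro h
    exact csInf_le (set_bddBelow μ hp.1) h

lemma Q_mono : MonotoneOn (Q μ) (Ioo 0 1) := by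
  intro p hp q hq hpq
  rw [Q_le_iff μ hp]
  exact hpq.trans ((Q_le_iff μ hq _).1 le_rfl)

lemma Q_aemeas : AEMeasurable (Q μ) lam :=
  aemeasurable_restrict_of_monotoneOn measurableSet_Ioo (Q_mono μ)

lemma map_Q : lam.map (Q μ) = μ := by
  have : IsProbabilityMeasure (lam.map (Q μ)) := Measure.isProbabilityMeasure_map (Q_aemeas μ)
  refine Measure.ext_of_Iic _ _ fun x => ?_
  rw [Measure.map_apply_of_aemeasurable (Q_aemeas μ) measurableSet_Iic]
  have h1 : lam (Q μ ⁻¹' Iic x) = volume (Ioo (0 : ℝ) 1 ∩ Iic (μ.real (Iic x))) := by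
    unfold lam
    have h2 : (Q μ ⁻¹' Iic x : Set ℝ) =ᵐ[volume.restrict (Ioo (0 : ℝ) 1)]
        (Iic (μ.real (Iic x)) : Set ℝ) := by
      filter_upwards [ae_restrict_mem measurableSet_Ioo] with u hu
      simp only [eq_iff_iff]
      exact Q_le_iff μ hu x
    rw [measure_congr h2, Measure.restrict_apply measurableSet_Iic, inter_comm]
  rw [h1]
  have h0 : 0 ≤ μ.real (Iic x) := measureReal_nonneg
  have h3 : μ.real (Iic x) ≤ 1 := measureReal_le_one
  have h4 : volume (Ioo (0 : ℝ) 1 ∩ Iic (μ.real (Iic x))) = ENNReal.ofReal (μ.real (Iic x)) := by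
    refine le_antisymm ?_ ?_
    · refine (measure_mono (t := Ioc 0 (μ.real (Iic x))) ?_).trans ?_
      · rintro u ⟨hu, hu'⟩; exact ⟨hu.1, hu'⟩
      · rw [Real.volume_Ioc, sub_zero]
    · refine le_trans ?_ (measure_mono (s := Ioo 0 (μ.real (Iic x))) ?_)
      · rw [Real.volume_Ioo, sub_zero]
      · rintro u hu; exact ⟨⟨hu.1, hu.2.trans_le h3⟩, hu.2.le⟩
  rw [h4, ofReal_measureReal]

lemma Q_integrable (hint : Integrable (fun x : ℝ => x) μ) : Integrable (Q μ) lam := by
  have h1 : Integrable (fun x : ℝ => x) (lam.map (Q μ)) := by rwa [map_Q]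
  exact (integrable_map_measure aestronglyMeasurable_id (Q_aemeas μ)).1 h1

end

/-- The quantile function of the image of Lebesgue measure under a left-continuous monotone
function. -/
lemma Q_map {q : ℝ → ℝ} (hq : Measurable q) (hmono : MonotoneOn q (Ioo 0 1))
    (hleft : ∀ p ∈ Ioo (0 : ℝ) 1, ContinuousWithinAt q (Iio p) p) {p : ℝ} (hp : p ∈ Ioo (0 : ℝ) 1) :
    Q (lam.map q) p = q p := by
  have hprob : IsProbabilityMeasure (lam.map q) :=
    Measure.isProbabilityMeasure_map hq.aemeasurable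
  have key : ∀ x, p ≤ (lam.map q).real (Iic x) ↔ q p ≤ x := by
    intro x
    rw [map_measureReal_apply hq measurableSet_Iic]
    have hms : MeasurableSet (q ⁻¹' Iic x) := hq measurableSet_Iic
    constructor
    · intro h
      by_contra hcon
      push Not at hcon
      have h1 : ∀ᶠ u in 𝓝[<] p, x < q u := (hleft p hp).eventually (lt_mem_nhds hcon)
      have h2 : ∀ᶠ u in 𝓝[<] p, u ∈ Ioo 0 p := Ioo_mem_nhdsLT hp.1
      obtain ⟨u, hu1, hu2⟩ := (h1.and h2).exists
      have h3 : lam.real (q ⁻¹' Iic x) ≤ u := by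
        rw [measureReal_def, lam, Measure.restrict_apply hms]
        have h4 : q ⁻¹' Iic x ∩ Ioo 0 1 ⊆ Ioo 0 u := by
          rintro v ⟨hv1, hv2⟩
          refine ⟨hv2.1, ?_⟩
          by_contra hcon2
          push Not at hcon2
          have := hmono ⟨hu2.1, hu2.2.trans hp.2⟩ hv2 hcon2
          have hv1' : q v ≤ x := hv1
          linarith
        have h5 := measure_mono (μ := volume) h4
        rw [Real.volume_Ioo, sub_zero] at h5
        exact ENNReal.toReal_le_of_le_ofReal hu2.1.le h5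
      linarith [hu2.2]
    · intro h
      rw [measureReal_def, lam, Measure.restrict_apply hms]
      have h4 : Ioo 0 p ⊆ q ⁻¹' Iic x ∩ Ioo 0 1 := by
        intro v hv
        exact ⟨(hmono ⟨hv.1, hv.2.trans hp.2⟩ hp hv.2.le).trans h, hv.1, hv.2.trans hp.2⟩
      have h5 := measure_mono (μ := volume) h4
      rw [Real.volume_Ioo, sub_zero] at h5
      have h6 : volume (q ⁻¹' Iic x ∩ Ioo 0 1) ≠ ⊤ := by
        refine ne_top_of_le_ne_top ?_ (measure_mono inter_subset_right)
        rw [Real.volume_Ioo]; exact ENNReal.ofReal_ne_top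
      exact (ENNReal.ofReal_le_iff_le_toReal h6).1 h5
  unfold Q
  have : {x : ℝ | p ≤ (lam.map q).real (Iic x)} = Ici (q p) := by
    ext x; exact key x
  rw [this, csInf_Ici]

end Pool.Agent.V11332.Quantile
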