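import Mathlib

/-!
Tail ratio `R(z)` for sums of two i.i.d. nonnegative random variables.
-/

namespace Pool.Agent.V11332.TailRatio

open MeasureTheory ProbabilityTheory Set Filter Topology
open scoped ENNReal

/-- `R(z) = P(X+Y ≥ 2z, min(X,Y) ≤ z) / P(X+Y ≥ 2z, min(X,Y) ≥ z)` for `X, Y` independent with
law `μ`. -/
noncomputable def R (μ : Measure ℝ) (z : ℝ) : ℝ :=
  (μ.prod μ).real {p : ℝ × ℝ | 2 * z ≤ p.1 + p.2 ∧ min p.1 p.2 ≤ z} /
    (μ.prod μ).real {p : ℝ × ℝ | 2 * z ≤ p.1 + p.2 ∧ z ≤ min p.1 p.2}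

/-- The admissible laws: probability measures on `[0,∞)`, absolutely continuous, not compactly
supported. -/
structure Adm (μ : Measure ℝ) : Prop where
  prob : IsProbabilityMeasure μ
  nonneg : μ (Iio 0) = 0
  ac : μ ≪ volume
  unbdd : ∀ t : ℝ, 0 < μ (Ioi t)

/-- The smallest median. -/
noncomputable def med (μ : Measure ℝ) : ℝ := sInf {m : ℝ | 0 ≤ m ∧ μ.real (Iic m) = 1 / 2}

/-- denominators -/
lemma den_eq (μ : Measure ℝ) [IsProbabilityMeasure μ] (z : ℝ) :
    (μ.prod μ).real {p : ℝ × ℝ | 2 * z ≤ p.1 + p.2 ∧ z ≤ min p.1 p.2} = μ.real (Ici z) ^ 2 := by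
  have : {p : ℝ × ℝ | 2 * z ≤ p.1 + p.2 ∧ z ≤ min p.1 p.2} = Ici z ×ˢ Ici z := by
    ext p
    simp only [Set.mem_ofPred_eq, mem_prod, mem_Ici, le_min_iff]
    constructor
    · exact fun h => h.2
    · exact fun h => ⟨by linarith [h.1, h.2], h⟩
  rw [this, measureReal_def, Measure.prod_prod, ENNReal.toReal_mul, sq]
  rfl

lemma G_pos {μ : Measure ℝ} (h : Adm μ) (t : ℝ) : 0 < μ.real (Ici t) := by
  have := h.prob
  rw [measureReal_def]
  refine ENNReal.toReal_pos ?_ (measure_ne_top _ _)
  exact ((h.unbdd t).trans_le (measure_mono Ioi_subset_Ici_self)).ne'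

lemma G_anti (μ : Measure ℝ) [IsProbabilityMeasure μ] {s t : ℝ} (h : s ≤ t) :
    μ.real (Ici t) ≤ μ.real (Ici s) := measureReal_mono (Ici_subset_Ici.2 h)

/-- the basic inequality -/
lemma basic {μ : Measure ℝ} (h : Adm μ) (z a : ℝ) (ha : 0 < a) :
    2 * ((μ.real (Ici (z - a)) - μ.real (Ici z)) * μ.real (Ici (z + a)))
      ≤ R μ z * μ.real (Ici z) ^ 2 := by
  have := h.prob
  have hG := G_pos h z
  unfold R
  rw [den_eq, div_mul_cancel₀ _ (by positivity)]
  set A : Set (ℝ × ℝ) := Ico (z - a) z ×ˢ Ici (z + a) with hA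
  set B : Set (ℝ × ℝ) := Ici (z + a) ×ˢ Ico (z - a) z with hB
  have hdisj : Disjoint A B := by
    rw [disjoint_left]
    intro p hp hq
    have h1 : p.1 < z := hp.1.2
    have h2 : z + a ≤ p.1 := hq.1
    linarith
  have hsub : A ∪ B ⊆ {p : ℝ × ℝ | 2 * z ≤ p.1 + p.2 ∧ min p.1 p.2 ≤ z} := by
    rintro p (hp | hp)
    · have h1 : z - a ≤ p.1 := hp.1.1
      have h1' : p.1 < z := hp.1.2
      have h2 : z + a ≤ p.2 := hp.2
      exact ⟨by linarith, min_le_iff.2 (Or.inl h1'.le)⟩
    · have h1 : z - a ≤ p.2 := hp.2.1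
      have h1' : p.2 < z := hp.2.2
      have h2 : z + a ≤ p.1 := hp.1
      exact ⟨by linarith, min_le_iff.2 (Or.inr h1'.le)⟩
  have hIco : μ.real (Ico (z - a) z) = μ.real (Ici (z - a)) - μ.real (Ici z) := by
    have e : Ici (z - a) = Ico (z - a) z ∪ Ici z := (Ico_union_Ici_eq_Ici (by linarith)).symm
    have hd : Disjoint (Ico (z - a) z) (Ici z) := by
      rw [disjoint_left]; intro x hx hx2
      have : z ≤ x := hx2
      linarith [hx.2]
    rw [e, measureReal_union hd measurableSet_Ici]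
    ring
  have hAm : (μ.prod μ).real A = (μ.real (Ici (z - a)) - μ.real (Ici z)) * μ.real (Ici (z + a)) := by
    rw [hA, measureReal_def, Measure.prod_prod, ENNReal.toReal_mul, ← hIco]; rfl
  have hBm : (μ.prod μ).real B = (μ.real (Ici (z - a)) - μ.real (Ici z)) * μ.real (Ici (z + a)) := by
    rw [hB, measureReal_def, Measure.prod_prod, ENNReal.toReal_mul, ← hIco, mul_comm]; rfl
  calc 2 * ((μ.real (Ici (z - a)) - μ.real (Ici z)) * μ.real (Ici (z + a)))
      = (μ.prod μ).real (A ∪ B) := by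
        rw [measureReal_union hdisj (measurableSet_Ici.prod measurableSet_Ico), hAm, hBm]; ring
    _ ≤ _ := measureReal_mono hsub

/-- uniform smallness of short intervals. -/
lemma ac_small {μ : Measure ℝ} (h : Adm μ) {ε : ℝ} (hε : 0 < ε) :
    ∃ δ > 0, ∀ s t : ℝ, s ≤ t → t - s < δ → μ.real (Icc s t) < ε := by
  have := h.prob
  have h1 : μ = volume.withDensity (μ.rnDeriv volume) := (Measure.withDensity_rnDeriv_eq _ _ h.ac).symm
  have h2 : ∫⁻ x, μ.rnDeriv volume x ∂volume ≠ ∞ := by
    rw [← setLIntegral_univ, Measure.setLIntegral_rnDeriv h.ac]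
    exact measure_ne_top _ _
  obtain ⟨δ, hδ, hδ'⟩ := exists_pos_setLIntegral_lt_of_measure_lt h2
    (ε := ENNReal.ofReal ε) (by simpa using hε)
  by_cases hδt : δ = ∞
  · refine ⟨1, one_pos, fun s t _ _ => ?_⟩
    have := hδ' (Icc s t) (by rw [hδt]; rw [Real.volume_Icc]; exact ENNReal.ofReal_lt_top)
    rw [Measure.setLIntegral_rnDeriv h.ac] at this
    rw [measureReal_def]
    exact (ENNReal.lt_ofReal_iff_toReal_lt (measure_ne_top _ _)).1 this
  · refine ⟨δ.toReal, ENNReal.toReal_pos hδ.ne' hδt, fun s t hst hts => ?_⟩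
    have := hδ' (Icc s t) (by
      rw [Real.volume_Icc]
      exact (ENNReal.ofReal_lt_iff_lt_toReal (by linarith) hδt).2 hts)
    rw [Measure.setLIntegral_rnDeriv h.ac] at this
    rw [measureReal_def]
    exact (ENNReal.lt_ofReal_iff_toReal_lt (measure_ne_top _ _)).1 this

/-- the constant -/
lemma const_bound {μ : Measure ℝ} (h : Adm μ) {m : ℝ} (hm : 0 < m) (hG : μ.real (Ici m) ≤ 1 / 2) :
    ∃ z : ℝ, 0 < z ∧ z ≤ 3 * m ∧ 1 / 6 * z / m ≤ R μ z := by
  have := h.prob
  by_contra hcon
  push Not at hcon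
  -- smallness of the ratio
  have H : ∀ z a : ℝ, 0 < z → z ≤ 3 * m → 0 < a →
      (μ.real (Ici (z - a)) - μ.real (Ici z)) * μ.real (Ici (z + a)) ≤ 1 / 4 * μ.real (Ici z) ^ 2 := by
    intro z a hz hz3 ha
    have h1 := hcon z hz hz3
    have h2 := basic h z a ha
    have h3 : 1 / 6 * z / m ≤ 1 / 2 := by
      rw [div_le_iff₀ hm]; linarith
    have h4 : 0 < μ.real (Ici z) ^ 2 := by have := G_pos h z; positivity
    nlinarith
  have hG0 : μ.real (Ici 0) = 1 := by
    have : μ (Ici 0) = 1 := by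
      rw [(prob_compl_eq_zero_iff measurableSet_Ici).symm, compl_Ici]; exact h.nonneg
    rw [measureReal_def, this]; simp
  -- the doubling sequence
  have step : ∀ j : ℕ, ∃ z : ℝ, 2 * m ≤ z ∧ z ≤ 3 * m - m / 2 ^ j ∧
      μ.real (Ici z) ≤ 1 / 4 * μ.real (Ici (z - m / 2 ^ j)) := by
    intro j
    induction j with
    | zero =>
      refine ⟨2 * m, le_rfl, by simp; linarith, ?_⟩
      have h1 := H m m hm (by linarith) hm
      rw [sub_self, hG0] at h1
      have h2 : m + m = 2 * m := by ring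
      have h3 : 2 * m - m / 2 ^ 0 = m := by simp; ring
      rw [h2] at h1
      rw [h3]
      have h4 := G_pos h m
      have h5 := G_pos h (2 * m)
      nlinarith
    | succ j ih =>
      obtain ⟨z, hz1, hz2, hz3⟩ := ih
      have hpow : (0 : ℝ) < 2 ^ j := by positivity
      have hpow1 : (1 : ℝ) ≤ 2 ^ j := one_le_pow₀ (by norm_num)
      set a := m / 2 ^ j with ha
      have ha0 : 0 < a := by positivity
      have ham : a ≤ m := div_le_self hm.le hpow1
      have ha2 : m / 2 ^ (j + 1) = a / 2 := by rw [ha, pow_succ]; field_simp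
      rw [ha2]
      by_cases hcase : μ.real (Ici (z - a / 2)) ≤ 1 / 2 * μ.real (Ici (z - a))
      · refine ⟨z, hz1, by linarith, ?_⟩
        have h1 := H (z - a / 2) (a / 2) (by linarith) (by linarith) (by linarith)
        have e1 : z - a / 2 - a / 2 = z - a := by ring
        have e2 : z - a / 2 + a / 2 = z := by ring
        rw [e1, e2] at h1
        have g1 := G_pos h (z - a / 2)
        have g2 := G_pos h z
        have h2 : μ.real (Ici (z - a / 2)) * μ.real (Ici z) ≤ 1 / 4 * μ.real (Ici (z - a / 2)) ^ 2 := by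
          refine le_trans ?_ h1
          apply mul_le_mul_of_nonneg_right _ g2.le
          linarith
        have h3 : μ.real (Ici (z - a / 2)) * μ.real (Ici z)
            ≤ μ.real (Ici (z - a / 2)) * (1 / 4 * μ.real (Ici (z - a / 2))) := by
          linarith [h2]
        exact le_of_mul_le_mul_left h3 g1
      · push Not at hcase
        refine ⟨z + a / 2, by linarith, by linarith, ?_⟩
        have e1 : z + a / 2 - a / 2 = z := by ring
        rw [e1]
        have h1 := H z (a / 2) (by linarith) (by linarith) (by linarith)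
        have g2 := G_pos h z
        have g3 := G_pos h (z + a / 2)
        have h2 : μ.real (Ici z) * μ.real (Ici (z + a / 2)) ≤ 1 / 4 * μ.real (Ici z) ^ 2 := by
          refine le_trans ?_ h1
          apply mul_le_mul_of_nonneg_right _ g3.le
          linarith
        have h3 : μ.real (Ici z) * μ.real (Ici (z + a / 2))
            ≤ μ.real (Ici z) * (1 / 4 * μ.real (Ici z)) := by
          linarith [h2]
        exact le_of_mul_le_mul_left h3 g2
  -- contradiction with absolute continuity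
  have hG3 := G_pos h (3 * m)
  obtain ⟨δ, hδ, hδ'⟩ := ac_small h (ε := 1 / 2 * μ.real (Ici (3 * m))) (by linarith)
  obtain ⟨j, hj⟩ : ∃ j : ℕ, m / 2 ^ j < δ := by
    have h1 : Tendsto (fun j : ℕ => m * (1 / 2 : ℝ) ^ j) atTop (𝓝 (m * 0)) :=
      (tendsto_pow_atTop_nhds_zero_of_lt_one (by norm_num) (by norm_num)).const_mul m
    rw [mul_zero] at h1
    obtain ⟨j, hj⟩ := (h1.eventually (gt_mem_nhds hδ)).exists
    refine ⟨j, ?_⟩
    rwa [one_div, inv_pow, ← div_eq_mul_inv] at hj
  obtain ⟨z, hz1, hz2, hz3⟩ := step j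
  have hpow : (0 : ℝ) < 2 ^ j := by positivity
  set a := m / 2 ^ j with ha
  have ha0 : 0 < a := by positivity
  have h1 := hδ' (z - a) z (by linarith) (by linarith)
  have hIco : μ.real (Ici (z - a)) - μ.real (Ici z) ≤ μ.real (Icc (z - a) z) := by
    have e : Ici (z - a) ⊆ Icc (z - a) z ∪ Ici z := by
      intro x hx
      rcases le_total x z with h | h
      · exact Or.inl ⟨hx, h⟩
      · exact Or.inr h
    have := measureReal_mono (μ := μ) e
    have h2 := measureReal_union_le (μ := μ) (Icc (z - a) z) (Ici z)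
    linarith
  have h2 : μ.real (Ici (3 * m)) ≤ μ.real (Ici (z - a)) := G_anti μ (by linarith)
  linarith

/-- the median is a median -/
lemma med_spec {μ : Measure ℝ} (h : Adm μ) : 0 < med μ ∧ μ.real (Iic (med μ)) = 1 / 2 := by
  have := h.prob
  have hcont : Continuous fun x => μ.real (Iic x) := by
    have key : ∀ s t : ℝ, s ≤ t → μ.real (Iic t) - μ.real (Iic s) ≤ μ.real (Icc s t) := by
      intro s t hst
      have e : Iic t ⊆ Icc s t ∪ Iic s := by
        intro x hx
        rcases le_total s x with h | h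
        · exact Or.inl ⟨h, hx⟩
        · exact Or.inr h
      have := measureReal_mono (μ := μ) e
      have h2 := measureReal_union_le (μ := μ) (Icc s t) (Iic s)
      linarith
    rw [Metric.continuous_iff]
    intro b ε hε
    obtain ⟨δ, hδ, hδ'⟩ := ac_small h hε
    refine ⟨δ, hδ, fun a hab => ?_⟩
    rw [Real.dist_eq] at hab ⊢
    rcases le_total a b with hle | hle
    · have h1 : μ.real (Iic a) ≤ μ.real (Iic b) := measureReal_mono (Iic_subset_Iic.2 hle)
      rw [abs_of_nonpos (by linarith)] at hab ⊢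
      have := hδ' a b hle (by linarith)
      linarith [key a b hle]
    · have h1 : μ.real (Iic b) ≤ μ.real (Iic a) := measureReal_mono (Iic_subset_Iic.2 hle)
      rw [abs_of_nonneg (by linarith)] at hab ⊢
      have := hδ' b a hle (by linarith)
      linarith [key b a hle]
  have h0 : μ.real (Iic 0) = 0 := by
    rw [measureReal_def]
    have : μ (Iic 0) = 0 := by
      refine measure_mono_null (t := Iio 0 ∪ {0}) ?_ ?_
      · intro x hx
        rcases lt_or_eq_of_le (show x ≤ 0 from hx) with h | h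
        · exact Or.inl h
        · exact Or.inr h
      · exact measure_union_null h.nonneg (h.ac (by simp))
    rw [this]; simp
  set S : Set ℝ := {m : ℝ | 0 ≤ m ∧ μ.real (Iic m) = 1 / 2} with hS
  have hne : S.Nonempty := by
    have h1 := tendsto_cdf_atTop μ
    obtain ⟨x, hx⟩ := ((h1.eventually (lt_mem_nhds (show (1 / 2 : ℝ) < 1 by norm_num))).and
      (eventually_ge_atTop 0)).exists
    rw [cdf_eq_real] at hx
    have h2 := intermediate_value_Icc hx.2 hcont.continuousOn (f := fun x => μ.real (Iic x))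
    obtain ⟨y, hy, hy2⟩ := h2 (show (1 / 2 : ℝ) ∈ Icc (μ.real (Iic 0)) (μ.real (Iic x)) by
      rw [h0]; exact ⟨by norm_num, hx.1.le⟩)
    exact ⟨y, hy.1, hy2⟩
  have hcl : IsClosed S := by
    have : S = Ici 0 ∩ (fun x => μ.real (Iic x)) ⁻¹' {1 / 2} := by
      ext x; simp [hS]
    rw [this]
    exact isClosed_Ici.inter (isClosed_singleton.preimage hcont)
  have hbdd : BddBelow S := ⟨0, fun x hx => hx.1⟩
  have hmem : sInf S ∈ S := hcl.csInf_mem hne hbdd
  have hmed : med μ = sInf S := rfl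
  rw [hmed]
  refine ⟨lt_of_le_of_ne hmem.1 ?_, hmem.2⟩
  intro h3
  have := hmem.2
  rw [← h3, h0] at this
  norm_num at this

lemma G_med {μ : Measure ℝ} (h : Adm μ) : μ.real (Ici (med μ)) ≤ 1 / 2 := by
  have := h.prob
  have h1 := (med_spec h).2
  have h2 : μ (Ici (med μ)) = μ (Ioi (med μ)) := by
    refine le_antisymm ?_ (measure_mono Ioi_subset_Ici_self)
    have : Ici (med μ) ⊆ Ioi (med μ) ∪ {med μ} := by
      intro x hx
      rcases lt_or_eq_of_le (show med μ ≤ x from hx) with h | h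
      · exact Or.inl h
      · exact Or.inr h.symm
    calc μ (Ici (med μ)) ≤ μ (Ioi (med μ) ∪ {med μ}) := measure_mono this
      _ ≤ μ (Ioi (med μ)) + μ {med μ} := measure_union_le _ _
      _ = _ := by rw [h.ac (show volume {med μ} = 0 by simp), add_zero]
  have h3 : μ.real (Ioi (med μ)) = 1 - μ.real (Iic (med μ)) := by
    rw [← compl_Iic, measureReal_compl measurableSet_Iic]; simp
  rw [measureReal_def, h2, ← measureReal_def, h3, h1]
  norm_num

end Pool.Agent.V11332.TailRatio
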